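import Pool.Agent.Lib.EB.Blue

/-!
Extension of the ground field.
-/

namespace Pool.Agent.Lib.EB

open TensorProduct

universe u

lemma ev_dep_ALL {X : Type*} (m : X → X → X) {u u' : ℕ → X} (b : Tr)
    (h : ∀ s ∈ b.lv, u s = u' s) : b.ev m u = b.ev m u' := by
  induction b with
  | lf i => exact h i (by simp [Tr.lv])
  | nd a c iha ihc =>
    simp only [Tr.ev]
    rw [iha fun s hs => h s (by simp [Tr.lv, hs]), ihc fun s hs => h s (by simp [Tr.lv, hs])]

lemma ev_lin_ALL (k : Type u) [Field k] {L : Type u} [LieRing L] [LieAlgebra k L] (u : ℕ → L)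
    (s : ℕ) (b : Tr) (hb : b.lv.Nodup) (hs : s ∈ b.lv) :
    ∃ ℓ : L →ₗ[k] L, ∀ x, b.ev br (Function.update u s x) = ℓ x := by
  induction b with
  | lf i =>
    obtain rfl : s = i := by simpa [Tr.lv] using hs
    exact ⟨LinearMap.id, fun x => by simp [Tr.ev]⟩
  | nd a c iha ihc =>
    obtain ⟨h1, h2, h3⟩ := List.nodup_append.1 hb
    have key : ∀ d : Tr, s ∉ d.lv → ∀ x, d.ev br (Function.update u s x) = d.ev br u :=
      fun d hd x => ev_dep_ALL _ d fun t ht => Function.update_of_ne (by rintro rfl; exact hd ht) _ _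
    rcases List.mem_append.1 hs with h | h
    · obtain ⟨ℓ, hl⟩ := iha h1 h
      refine ⟨(brL k L).flip (c.ev br u) ∘ₗ ℓ, fun x => ?_⟩
      simp only [Tr.ev]
      rw [hl, key c fun h' => h3 s h s h' rfl]; rfl
    · obtain ⟨ℓ, hl⟩ := ihc h2 h
      refine ⟨brL k L (a.ev br u) ∘ₗ ℓ, fun x => ?_⟩
      simp only [Tr.ev]
      rw [hl, key a fun h' => h3 s h' s h rfl]; rfl

lemma idt_span_ALL (k : Type u) [Field k] {L : Type u} [LieRing L] [LieAlgebra k L]
    {l : List ℕ} (hl : l.Nodup) {f : Tr →₀ k} (hf : f ∈ PL k l) (G : Set L) (h0 : (0 : L) ∈ G)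
    (hG : Submodule.span k G = ⊤) (h : ∀ u : ℕ → L, (∀ s, u s ∈ G) → pev k br u f = 0) :
    Idt k L f := by
  have hp : ∀ b ∈ f.support, b.lv.Perm l := fun b hb => hf hb
  have key : ∀ T : Finset ℕ, (∀ s ∈ T, s ∈ l) → ∀ u : ℕ → L, (∀ s, s ∉ T → u s ∈ G) →
      pev k br u f = 0 := by
    intro T
    induction T using Finset.induction_on with
    | empty => exact fun _ u hu => h u fun s => hu s (by simp)
    | insert s T hs ih =>
      intro hT u hu
      have h1 : ∀ b : f.support, _ := fun b => ev_lin_ALL k u s b.1 ((hp b.1 b.2).nodup_iff.2 hl)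
        ((hp b.1 b.2).mem_iff.2 (hT s (Finset.mem_insert_self _ _)))
      choose ℓ hℓ using h1
      have h2 : ∀ x, pev k br (Function.update u s x) f = (∑ b : f.support, f b.1 • ℓ b) x := by
        intro x
        rw [pev, Finsupp.linearCombination_apply, Finsupp.sum, LinearMap.sum_apply,
          ← Finset.sum_coe_sort]
        exact Finset.sum_congr rfl fun b _ => by rw [hℓ]; rfl
      have h3 : (∑ b : f.support, f b.1 • ℓ b) = 0 := LinearMap.ext_on hG fun x hx => by
        rw [← h2]
        refine ih (fun t ht => hT t (Finset.mem_insert_of_mem ht)) _ fun t ht => ?_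
        by_cases e : t = s
        · rw [e, Function.update_self]; exact hx
        · rw [Function.update_of_ne e]; exact hu t (by simp [e, ht])
      have := h2 (u s)
      rwa [Function.update_eq_self, h3] at this
  intro u
  rw [← key l.toFinset (by simp) (fun s => if s ∈ l then u s else 0) fun s hs => by
    rw [if_neg (by simpa using hs)]; exact h0]
  simp only [pev, Finsupp.linearCombination_apply, Finsupp.sum]
  exact Finset.sum_congr rfl fun b hb => by
    rw [ev_dep_ALL br b fun s hs => (if_pos ((hp b hb).mem_iff.1 hs)).symm]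

lemma ev_map_ALL {L L' : Type*} [LieRing L] [LieRing L'] (φ : L → L')
    (h : ∀ a b, φ ⁅a, b⁆ = ⁅φ a, φ b⁆) (u : ℕ → L) (b : Tr) :
    b.ev br (fun i => φ (u i)) = φ (b.ev br u) := by
  induction b with
  | lf i => rfl
  | nd a c iha ihc => simp only [Tr.ev, iha, ihc, br, h]

lemma pev_map_ALL {k k' : Type u} [Field k] [Field k'] [Algebra k k'] {L L' : Type*} [LieRing L]
    [LieRing L'] [LieAlgebra k L] [LieAlgebra k' L'] (φ : L →+ L')
    (h : ∀ a b, φ ⁅a, b⁆ = ⁅φ a, φ b⁆) (hs : ∀ (c : k) a, φ (c • a) = algebraMap k k' c • φ a)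
    (u : ℕ → L) (f : Tr →₀ k) :
    pev k' br (fun i => φ (u i)) (f.mapRange (algebraMap k k') (map_zero _)) =
      φ (pev k br u f) := by
  simp only [pev, Finsupp.linearCombination_apply]
  rw [Finsupp.sum_mapRange_index (by simp), Finsupp.sum, Finsupp.sum, map_sum]
  exact Finset.sum_congr rfl fun b _ => by rw [ev_map_ALL φ h, hs]

attribute [local instance 100] LieRing.ofAssociativeRing in
theorem stALL : St_BIG.{u} → St_ALL.{u} := by
  intro hB k _ _ f0 ⟨l0, hl0, hf0, hn⟩
  let K := FractionRing (MvPolynomial ℝ k)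
  let k' := AlgebraicClosure K
  have : CharZero k' := algebraRat.charZero k'
  have : Uncountable k' := Function.Injective.uncountable
    (f := fun r : ℝ => algebraMap K k' (algebraMap (MvPolynomial ℝ k) K (MvPolynomial.X r)))
    fun a b h => MvPolynomial.X_injective
      (IsFractionRing.injective (MvPolynomial ℝ k) K ((algebraMap K k').injective h))
  have hP : f0.mapRange (algebraMap k k') (map_zero _) ∈ PL k' l0 := fun b hb =>
    hf0 (Finsupp.support_mapRange hb)
  let ψ : LieAlgebra.SpecialLinear.sl (Fin 2) k →+ LieAlgebra.SpecialLinear.sl (Fin 2) k' :=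
    { toFun := fun a => ⟨a.1.map (algebraMap k k'), by
        have : Matrix.trace a.1 = 0 := a.2
        change Matrix.trace (a.1.map (algebraMap k k')) = 0
        rw [← AddMonoidHom.map_trace, this, map_zero]⟩
      map_zero' := Subtype.ext (by simp)
      map_add' := fun a b => Subtype.ext (Matrix.map_add _ (map_add _) _ _) }
  obtain ⟨n, h⟩ := hB k' _ ⟨l0, hl0, hP, fun hi => hn fun u => by
    have := hi fun i => ψ (u i)
    rw [pev_map_ALL ψ (fun a b => Subtype.ext (by
      change (a.1 * b.1 - b.1 * a.1).map _ = a.1.map _ * b.1.map _ - b.1.map _ * a.1.map _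
      rw [Matrix.map_sub _ (map_sub _), Matrix.map_mul, Matrix.map_mul]))
      (fun c a => Subtype.ext (by
        ext i j
        change algebraMap k k' (c * a.1 i j) = algebraMap k k' c * algebraMap k k' (a.1 i j)
        rw [map_mul]))] at this
    refine Subtype.ext (Matrix.map_injective (algebraMap k k').injective ?_)
    exact (congrArg Subtype.val this).trans (by simp)⟩
  refine ⟨n, fun L _ _ hL u => ?_⟩
  let φ : L →+ k' ⊗[k] L := (TensorProduct.mk k k' L 1).toAddMonoidHom
  have hφ : ∀ a b, φ ⁅a, b⁆ = ⁅φ a, φ b⁆ := fun a b => by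
    change (1 : k') ⊗ₜ[k] ⁅a, b⁆ = ⁅(1 : k') ⊗ₜ[k] a, (1 : k') ⊗ₜ[k] b⁆
    rw [LieAlgebra.ExtendScalars.bracket_tmul, one_mul]
  have hI : Idt k' (k' ⊗[k] L) (f0.mapRange (algebraMap k k') (map_zero _)) :=
    idt_span_ALL k' hl0 hP (Set.range φ) ⟨0, map_zero _⟩ (by
      rw [eq_top_iff]
      rintro x -
      induction x using TensorProduct.induction_on with
      | zero => exact zero_mem _
      | tmul c a =>
        rw [show c ⊗ₜ[k] a = c • φ a by
          change _ = c • ((1 : k') ⊗ₜ[k] a); rw [smul_tmul', smul_eq_mul, mul_one]]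
        exact Submodule.smul_mem _ _ (Submodule.subset_span ⟨a, rfl⟩)
      | add a b ha hb => exact add_mem ha hb) fun v hv => by
      choose w hw using hv
      rw [← funext hw, pev_map_ALL φ hφ (fun c a => by
        change (1 : k') ⊗ₜ[k] (c • a) = algebraMap k k' c • ((1 : k') ⊗ₜ[k] a)
        rw [tmul_smul, algebraMap_smul]), hL, map_zero]
  have := h _ hI fun i => φ (u i)
  rw [ev_map_ALL φ hφ] at this
  exact Module.FaithfullyFlat.tensorProduct_mk_injective (A := k) (B := k') L
    (this.trans (map_zero _).symm)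

end Pool.Agent.Lib.EB
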