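import Pool.Agent.Lib.EB.Blue

/-!
The signed identities give the axioms of a superalgebra.
-/

namespace Pool.Agent.Lib.EB

universe u

namespace AX

variable {k : Type u} [Field k]

theorem sg_false (l : List ℕ) : sg k (fun _ => false) l = 1 := by
  induction l with
  | nil => rfl
  | cons a l ih => simp [sg, ih]

theorem split [CharZero k] {L : Type u} [AddCommGroup L] [Module k L] {ω : L →ₗ[k] L}
    (h : ∀ a, ω (ω a) = a) (P : L → Prop) (hadd : ∀ x y, P x → P y → P (x + y))
    (hh : ∀ (e : Bool) x, ω x = (if e = true then - x else x) → P x) (x : L) : P x := by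
  have e : x = (2⁻¹ : k) • (x + ω x) + (2⁻¹ : k) • (x - ω x) := by
    rw [← smul_add, add_add_sub_cancel, ← two_smul k x, smul_smul, inv_mul_cancel₀ two_ne_zero,
      one_smul]
  rw [e]
  refine hadd _ _ (hh false _ ?_) (hh true _ ?_)
  · simp only [map_smul, map_add, h, Bool.false_eq_true, if_false, add_comm]
  · simp only [map_smul, map_sub, h, if_true, ← smul_neg, neg_sub]

theorem single_mem (l : List ℕ) (b : Tr) (h : b.lv.Perm l) :
    Finsupp.single b (1 : k) ∈ PL k l :=
  Finsupp.single_mem_supported k 1 h

variable {F : Type u} [LieRing F] [LieAlgebra k F] {L : Type u} [AddCommGroup L] [Module k L]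
  {m : L →ₗ[k] L →ₗ[k] L} {ω : L →ₗ[k] L}

theorem hom3 {a b c : L} {x y z : Bool} (ha : ω a = if x = true then - a else a)
    (hb : ω b = if y = true then - b else b) (hc : ω c = if z = true then - c else c) :
    Hom ω (fun i => if i = 0 then x else if i = 1 then y else z)
      (fun i => if i = 0 then a else if i = 1 then b else c) := by
  intro i
  by_cases h0 : i = 0
  · simpa only [h0, if_true] using ha
  by_cases h1 : i = 1
  · simpa only [h1, if_true, one_ne_zero, if_false] using hb
  · simpa only [h0, h1, if_false] using hc

theorem skew2 (h : TP1 F m ω) {a b : L} {x y : Bool} (ha : ω a = if x = true then - a else a)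
    (hb : ω b = if y = true then - b else b) :
    m a b + (if y = true ∧ x = true then (-1 : k) else 1) • m b a = 0 := by
  have := h.tp [0, 1] (Finsupp.single (.nd (.lf 0) (.lf 1)) 1 +
    Finsupp.single (.nd (.lf 1) (.lf 0)) 1) (by decide)
    (add_mem (single_mem _ _ (by decide)) (single_mem _ _ (by decide)))
    (fun u => by simpa [pev, Tr.ev, br] using eq_neg_iff_add_eq_zero.1 (lie_skew (u 0) (u 1)).symm)
    _ _ (hom3 ha hb hb)
  simpa [spev, Tr.ev, Tr.lv, sg] using this

theorem jac3 (h : TP1 F m ω) {a b c : L} {x y z : Bool}
    (ha : ω a = if x = true then - a else a) (hb : ω b = if y = true then - b else b)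
    (hc : ω c = if z = true then - c else c) :
    m a (m b c) = m (m a b) c + (if y = true ∧ x = true then (-1 : k) else 1) • m b (m a c) := by
  have := h.tp [0, 1, 2] (Finsupp.single (.nd (.lf 0) (.nd (.lf 1) (.lf 2))) 1 -
    (Finsupp.single (.nd (.nd (.lf 0) (.lf 1)) (.lf 2)) 1 +
      Finsupp.single (.nd (.lf 1) (.nd (.lf 0) (.lf 2))) 1)) (by decide)
    (sub_mem (single_mem _ _ (by decide))
      (add_mem (single_mem _ _ (by decide)) (single_mem _ _ (by decide))))
    (fun u => by simp [pev, Tr.ev, br]) _ _ (hom3 ha hb hc)
  rw [← sub_eq_zero]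
  simpa [spev, Tr.ev, Tr.lv, sg] using this

end AX

open AX

theorem stAX : St_AX.{u} := by
  intro k _ _ F _ _ L _ _ m ω h
  refine ⟨⟨h.inv, h.mul, fun a b ha => ?_, fun a b ha hb => ?_, fun a b c ha => ?_,
    fun a b c ha hb => ?_⟩, fun l f hl hf hF u hu => ?_⟩
  · refine split h.inv (fun b => m a b = - m b a) (fun x y hx hy => ?_) (fun e x hx => ?_) b
    · simp only [map_add, LinearMap.add_apply, hx, hy, neg_add]
    · have := skew2 h (x := false) (by simpa using ha) hx
      simpa [add_eq_zero_iff_eq_neg] using this
  · have := skew2 h (x := true) (y := true) (by simpa using ha) (by simpa using hb)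
    simpa [add_neg_eq_zero] using this
  · refine split h.inv (fun b => m a (m b c) = m (m a b) c + m b (m a c))
      (fun x y hx hy => ?_) (fun e x hx => ?_) b
    · simp only [map_add, LinearMap.add_apply, hx, hy]
      abel
    · refine split h.inv (fun c => m a (m x c) = m (m a x) c + m x (m a c))
        (fun x y hx hy => ?_) (fun e' y hy => ?_) c
      · simp only [map_add, hx, hy]
        abel
      · simpa using jac3 h (x := false) (by simpa using ha) hx hy
  · refine split h.inv (fun c => m a (m b c) = m (m a b) c - m b (m a c))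
      (fun x y hx hy => ?_) (fun e' y hy => ?_) c
    · simp only [map_add, hx, hy]
      abel
    · simpa [sub_eq_add_neg] using
        jac3 h (x := true) (y := true) (by simpa using ha) (by simpa using hb) hy
  · have := h.tp l f hl hf hF (fun _ => false) u (fun i => by simpa using hu i)
    simpa only [spev, pev, sg_false, one_smul] using this

end Pool.Agent.Lib.EB
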