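import Pool.Agent.Lib.EB.Blue

/-!
Bounded length of products of deep multiplications.
-/

namespace Pool.Agent.Lib.EB

open Pool.Agent.Lib.MP_eb02d8_al LieAlgebra

universe u

namespace BL

variable (k : Type u) [Field k] {F : Type u} [LieRing F] [LieAlgebra k F]

/-- the product of right multiplications, last entry first -/
def lp (l : List F) : Module.End k F := (l.map (brL k F).flip).prod

/-- the span of the products of less than `M` multiplications by elements of `X` -/
def sp (X : LieIdeal k F) (M : ℕ) : Submodule k (Module.End k F) :=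
  Submodule.span k {a | ∃ l : List F, l.length < M ∧ (∀ y ∈ l, y ∈ X) ∧ a = lp k l}

variable {k}

theorem lp_cons (a : F) (l : List F) : lp k (a :: l) = (brL k F).flip a * lp k l := by
  simp [lp]

theorem lp_append (l l' : List F) : lp k (l ++ l') = lp k l * lp k l' := by simp [lp]

theorem rop_eq (l : List F) : rop k l = lp k l.reverse := by
  induction l with
  | nil => rfl
  | cons a l ih =>
    rw [rop, ih, List.reverse_cons, lp_append, lp_cons]
    exact congrArg _ (mul_one _).symm

theorem perm_sub (X : LieIdeal k F) {l l' : List F} (h : l.Perm l') (hl : ∀ y ∈ l, y ∈ X) :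
    lp k l - lp k l' ∈ sp k X l.length := by
  induction h with
  | nil => simp
  | @cons a l l' _ ih =>
    rw [lp_cons, lp_cons, ← mul_sub]
    refine Submodule.span_induction (p := fun z _ => (brL k F).flip a * z ∈ sp k X (l.length + 1))
      ?_ (by simp) (fun _ _ _ _ h1 h2 => by rw [mul_add]; exact add_mem h1 h2)
      (fun c _ _ h1 => by rw [mul_smul_comm]; exact Submodule.smul_mem _ c h1)
      (ih fun y hy => hl y (List.mem_cons_of_mem _ hy))
    rintro _ ⟨m, h1, h2, rfl⟩
    exact Submodule.subset_span ⟨a :: m, by simpa using h1,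
      List.forall_mem_cons.2 ⟨hl a List.mem_cons_self, h2⟩, (lp_cons _ _).symm⟩
  | swap a b l =>
    refine Submodule.subset_span ⟨⁅a, b⁆ :: l, by simp, List.forall_mem_cons.2
      ⟨lie_mem_right k F X _ _ (hl b (by simp)), fun y hy => hl y (by simp [hy])⟩, ?_⟩
    rw [lp_cons, lp_cons, lp_cons, lp_cons, lp_cons, ← mul_assoc, ← mul_assoc, ← sub_mul]
    congr 1
    ext y
    change ⁅⁅y, a⁆, b⁆ - ⁅⁅y, b⁆, a⁆ = ⁅y, ⁅a, b⁆⁆
    rw [leibniz_lie y a b, ← lie_skew a ⁅y, b⁆, sub_eq_add_neg]
  | trans h1 _ ih1 ih2 =>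
    have := add_mem (ih1 hl) (h1.length_eq ▸ ih2 fun y hy => hl y (h1.mem_iff.2 hy))
    rwa [sub_add_sub_cancel] at this

theorem hom_ev (χ : F →ₗ⁅k⁆ F) (u : ℕ → F) (e : Tr) :
    χ (e.ev br u) = e.ev br fun i => χ (u i) := by
  induction e with
  | lf i => rfl
  | nd a b ha hb => simp only [Tr.ev, br, LieHom.map_lie, ← ha, ← hb]

/-- the class of a product modulo shorter products -/
noncomputable def th (X : LieIdeal k F) (M : ℕ) {V : Type u} [AddCommGroup V] [Module k V]
    (χ : V →ₗ[k] F) : MultilinearMap k (fun _ : Fin M => V) (Module.End k F ⧸ sp k X M) :=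
  (sp k X M).mkQ.compMultilinearMap ((MultilinearMap.mkPiAlgebraFin k M
    (Module.End k F)).compLinearMap fun _ => (brL k F).flip ∘ₗ χ)

theorem th_apply (X : LieIdeal k F) (M : ℕ) {V : Type u} [AddCommGroup V] [Module k V]
    (χ : V →ₗ[k] F) (c : Fin M → V) :
    th X M χ c = (sp k X M).mkQ (lp k (List.ofFn fun i => χ (c i))) := by
  rw [lp, List.map_ofFn]
  rfl

theorem step [CharZero k] [IsAlgClosed k] [Uncountable k] (hR : St_REL.{u}) (hU : St_F3U.{u})
    {f0 : Tr →₀ k} (hB : Base k F f0) : ∃ n N : ℕ, ∀ (X : LieIdeal k F) (l : List F),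
      l.length = N + 2 → (∀ y ∈ l, y ∈ derivedSeriesOfIdeal k F n X) →
      lp k l ∈ sp k X (N + 2) := by
  obtain ⟨r, hr, h⟩ := hR k F f0 hB [.nd (.nd (.lf 2) (.lf 1)) (.lf 0)] (by simp [Tr.lv])
  obtain ⟨n, N, hN⟩ := hU k F f0 hB r hr
  obtain ⟨x, hx, hχ⟩ := hB.lift
  refine ⟨n, N, fun X l hl hy => ?_⟩
  have key : ∀ a : Fin (N + 2) → ℕ → X,
      th X (N + 2) X.incl.toLinearMap (fun i => dw n (a i)) = 0 := by
    intro a
    obtain ⟨χ, hχ⟩ := hχ fun m =>
      if h : m.unpair.1 < N + 2 then a ⟨_, h⟩ m.unpair.2 else 0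
    have hX : ∀ y, χ y ∈ X := fun y => by
      have : LieSubalgebra.lieSpan k F (Set.range x) ≤ (X : LieSubalgebra k F).comap χ := by
        rw [LieSubalgebra.lieSpan_le]
        rintro _ ⟨m, rfl⟩
        change χ (x m) ∈ X
        rw [hχ]
        split_ifs
        exacts [Subtype.prop _, zero_mem _]
      exact this (hx ▸ trivial)
    have := hN _ (th X (N + 2) χ.toLinearMap) (fun σ c => ?_) (fun u d => ?_)
      (fun i => dw n fun j => x (Nat.pair i j)) fun i => dw_mem n _
    · rw [th_apply] at this ⊢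
      rw [← this]
      congr 3
      funext i
      refine (hom_dw X.incl n _).trans (Eq.trans ?_ (hom_dw χ n _).symm)
      congr 1
      funext j
      rw [hχ]
      simp
    · rw [th_apply, th_apply, ← sub_eq_zero, ← map_sub, Submodule.mkQ_apply,
        Submodule.Quotient.mk_eq_zero]
      have := perm_sub X (σ.ofFn_comp_perm fun i => χ (c i))
        (List.forall_mem_ofFn_iff.2 fun i => hX _)
      rwa [List.length_ofFn] at this
    · have e : (r.sum fun e e' => (brL k F).flip (χ (e.ev br u)) *
          (brL k F).flip (χ (e'.ev br u)) : Module.End k F) = 0 := by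
        ext y
        have := h _ List.mem_cons_self (fun i => χ (u i)) fun _ => y
        simp only [Rel.sum, LinearMap.sum_apply, LinearMap.smul_apply, hom_ev] at this ⊢
        exact this
      have e2 := congrArg (fun z => (sp k X (N + 2)).mkQ
        (z * lp k (List.ofFn fun i => χ (d i)))) e
      simp only [Rel.sum, Finset.sum_mul, smul_mul_assoc, map_sum, map_smul, zero_mul,
        map_zero] at e2 ⊢
      rw [← e2]
      simp only [th_apply, List.ofFn_succ, Fin.cons_zero, Fin.cons_succ, lp_cons, mul_assoc]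
      rfl
  obtain ⟨c, rfl⟩ : ∃ c : Fin (N + 2) → F, l = List.ofFn c :=
    hl ▸ ⟨l.get, (List.ofFn_get l).symm⟩
  have hc := List.forall_mem_ofFn_iff.1 hy
  have hs : ∀ i, (⟨c i, derivedSeriesOfIdeal_le_self X n (hc i)⟩ : X) ∈
      Submodule.span k (Set.range (dw n)) := fun i => derived_le_span n (by
    rw [LieIdeal.derivedSeries_eq_derivedSeriesOfIdeal_comap]
    exact hc i)
  choose m f g hg using fun i => Submodule.mem_span_set'.1 (hs i)
  choose a ha using fun i j => (g i j).2
  have : th X (N + 2) X.incl.toLinearMap (fun i => ∑ j, f i j • (g i j : X)) = 0 := by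
    rw [MultilinearMap.map_sum]
    refine Finset.sum_eq_zero fun ρ _ => ?_
    rw [MultilinearMap.map_smul_univ]
    simp only [← ha]
    rw [key, smul_zero]
  simp only [hg] at this
  rw [th_apply] at this
  exact (Submodule.Quotient.mk_eq_zero _).1 this

end BL

open BL in
theorem stBL (hR : St_REL.{u}) (hU : St_F3U.{u}) : St_BL.{u} := by
  intro k _ _ _ _ F _ _ f0 hB
  obtain ⟨n, N, h⟩ := step hR hU hB
  have key : ∀ (r : ℕ) (l : List F), l.length ≤ r → (∀ y ∈ l, y ∈ derivedSeries k F (r * n)) →
      lp k l ∈ sp k (⊤ : LieIdeal k F) (N + 2) := by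
    intro r
    induction r with
    | zero => exact fun l hl _ => Submodule.subset_span ⟨l, by omega, fun _ _ => trivial, rfl⟩
    | succ r ih =>
      intro l hl hy
      by_cases hN : l.length < N + 2
      · exact Submodule.subset_span ⟨l, hN, fun _ _ => trivial, rfl⟩
      have e : derivedSeries k F ((r + 1) * n) =
          derivedSeriesOfIdeal k F n (derivedSeries k F (r * n)) := by
        rw [derivedSeries_def, derivedSeries_def, ← derivedSeriesOfIdeal_add, add_mul, one_mul,
          add_comm]
      rw [e] at hy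
      rw [← List.take_append_drop (N + 2) l, lp_append]
      refine Submodule.span_induction
        (p := fun z _ => z * lp k (l.drop (N + 2)) ∈ sp k (⊤ : LieIdeal k F) (N + 2))
        ?_ (by simp) (fun _ _ _ _ h1 h2 => by rw [add_mul]; exact add_mem h1 h2)
        (fun c _ _ h1 => by rw [smul_mul_assoc]; exact Submodule.smul_mem _ c h1)
        (h _ (l.take (N + 2)) (by simp; omega) fun y k => hy y (List.mem_of_mem_take k))
      rintro _ ⟨m, h1, h2, rfl⟩
      rw [← lp_append]
      refine ih _ (by simp; omega) fun y k => (List.mem_append.1 k).elim (h2 y) fun k => ?_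
      exact derivedSeriesOfIdeal_le_self _ n (hy y (List.mem_of_mem_drop k))
  refine ⟨N + 2, n, fun ys hy => ?_⟩
  rw [rop_eq]
  refine Submodule.span_mono ?_ (key ys.length ys.reverse (by simp) fun y k =>
    hy y (List.mem_reverse.1 k))
  rintro _ ⟨l, h1, -, rfl⟩
  exact ⟨l.reverse, by simpa using h1, by rw [rop_eq, List.reverse_reverse]⟩

end Pool.Agent.Lib.EB
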