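import Pool.Agent.Lib.EB.Blue

/-!
Subalgebras of codimension one contain the second derived term.
-/

namespace Pool.Agent.Lib.EB

universe u

namespace C1

variable {k : Type u} [Field k]

theorem ev_out {X : Type*} (m : X → X → X) (u : ℕ → X) (s : ℕ) (x : X) (b : Tr)
    (h : s ∉ b.lv) : b.ev m (Function.update u s x) = b.ev m u := by
  induction b with
  | lf i => exact Function.update_of_ne (fun e => h (by simp [Tr.lv, e])) _ _
  | nd a b ha hb =>
    simp only [Tr.lv, List.mem_append, not_or] at h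
    simp only [Tr.ev, ha h.1, hb h.2]

section

variable {L : Type*} [LieRing L] [LieAlgebra k L]

theorem ev_lin (u : ℕ → L) (s : ℕ) (c : k) (x y : L) (b : Tr) (hn : b.lv.Nodup) (h : s ∈ b.lv) :
    b.ev br (Function.update u s (c • x + y)) =
      c • b.ev br (Function.update u s x) + b.ev br (Function.update u s y) := by
  induction b with
  | lf i =>
    obtain rfl : s = i := by simpa [Tr.lv] using h
    simp [Tr.ev]
  | nd a b ha hb =>
    simp only [Tr.lv, List.mem_append, List.nodup_append] at h hn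
    rcases h with h | h
    · have h' : s ∉ b.lv := fun e => hn.2.2 s h s e rfl
      simp only [Tr.ev, ha hn.1 h, ev_out br u s _ b h', br, add_lie, smul_lie]
    · have h' : s ∉ a.lv := fun e => hn.2.2 s e s h rfl
      simp only [Tr.ev, hb hn.2.1 h, ev_out br u s _ a h', br, lie_add, lie_smul]

theorem pl_ind {l : List ℕ} {P : (Tr →₀ k) → Prop} (h0 : P 0)
    (h1 : ∀ b : Tr, b.lv.Perm l → P (Finsupp.single b 1)) (h2 : ∀ f g, P f → P g → P (f + g))
    (h3 : ∀ (c : k) f, P f → P (c • f)) {f : Tr →₀ k} (hf : f ∈ PL k l) : P f := by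
  rw [PL, Finsupp.supported_eq_span_single] at hf
  induction hf using Submodule.span_induction with
  | mem x hx =>
    obtain ⟨b, hb, rfl⟩ := hx
    exact h1 b hb
  | zero => exact h0
  | add f g _ _ hf hg => exact h2 f g hf hg
  | smul c f _ hf => exact h3 c f hf

theorem pev_one (u : ℕ → L) (b : Tr) : pev k br u (Finsupp.single b 1) = b.ev br u := by
  simp [pev]

theorem pev_lin {l : List ℕ} (hl : l.Nodup) {f : Tr →₀ k} (hf : f ∈ PL k l) (u : ℕ → L) {s : ℕ}
    (hs : s ∈ l) (c : k) (x y : L) : pev k br (Function.update u s (c • x + y)) f =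
      c • pev k br (Function.update u s x) f + pev k br (Function.update u s y) f := by
  refine pl_ind (P := fun f => pev k br (Function.update u s (c • x + y)) f =
      c • pev k br (Function.update u s x) f + pev k br (Function.update u s y) f)
    (by simp) (fun b hb => ?_) (fun f g h1 h2 => ?_) (fun a f h => ?_) hf
  · simp only [pev_one]
    exact ev_lin u s c x y b (hb.nodup_iff.2 hl) (hb.mem_iff.2 hs)
  · simp only [map_add, h1, h2]
    module
  · simp only [map_smul, h]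
    module

theorem idt_of_gen {l : List ℕ} (hl : l.Nodup) {f : Tr →₀ k} (hf : f ∈ PL k l) (g : ℤ → L)
    (hg : ∀ s, ∃ a b c d : k, s = a • g (-1) + (b • g 0 + (c • g 1 + (d • g 1 + g 1))))
    (h : ∀ (u : ℕ → L) (d : ℕ → ℤ), (∀ i ∈ l, u i = g (d i)) → pev k br u f = 0) : Idt k L f := by
  have key : ∀ T : List ℕ, (∀ i ∈ T, i ∈ l) → ∀ u : ℕ → L,
      (∀ i ∈ l, i ∉ T → ∃ j, u i = g j) → pev k br u f = 0 := by
    intro T
    induction T with
    | nil =>
      intro _ u hu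
      have : ∀ i, ∃ j, i ∈ l → u i = g j := fun i => by
        by_cases e : i ∈ l
        · exact (hu i e (by simp)).imp fun j hj _ => hj
        · exact ⟨0, fun e' => absurd e' e⟩
      choose d hd using this
      exact h u d hd
    | cons s T ih =>
      intro hT u hu
      have z : ∀ j, pev k br (Function.update u s (g j)) f = 0 := fun j =>
        ih (fun i hi => hT i (List.mem_cons_of_mem _ hi)) _ fun i hi hi' => by
          by_cases e : i = s
          · exact ⟨j, by rw [e, Function.update_self]⟩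
          · rw [Function.update_of_ne e]
            exact hu i hi (by simp [e, hi'])
      obtain ⟨a, b, c, d, e⟩ := hg (u s)
      rw [← Function.update_eq_self s u, e]
      simp only [pev_lin hl hf u (hT s List.mem_cons_self), z, smul_zero, add_zero]
  exact fun u => key l (fun _ h => h) u fun i h h' => absurd h h'

/-- the standard filtration -/
def fil (M : LieSubalgebra k L) (e : L) (i : ℤ) : Submodule k L :=
  ⨅ n : ℕ, ⨅ _ : (n : ℤ) ≤ i, M.toSubmodule.comap (LieAlgebra.ad k L e ^ n)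

variable {M : LieSubalgebra k L} {e : L}

theorem mem_fil {i : ℤ} {a : L} :
    a ∈ fil M e i ↔ ∀ n : ℕ, (n : ℤ) ≤ i → (LieAlgebra.ad k L e ^ n) a ∈ M := by
  simp [fil]

theorem fil_neg {i : ℤ} (h : i < 0) (a : L) : a ∈ fil M e i :=
  mem_fil.2 fun n hn => by omega

theorem fil_zero {a : L} : a ∈ fil M e 0 ↔ a ∈ M :=
  mem_fil.trans ⟨fun h => by simpa using h 0 le_rfl, fun h n hn => by
    obtain rfl : n = 0 := by omega
    simpa using h⟩

theorem fil_mono {i j : ℤ} (h : i ≤ j) {a : L} (ha : a ∈ fil M e j) : a ∈ fil M e i :=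
  mem_fil.2 fun n hn => mem_fil.1 ha n (hn.trans h)

theorem fil_succ (i j : ℤ) (hi : 0 ≤ i) (hj : j = i + 1) {a : L} :
    a ∈ fil M e j ↔ a ∈ M ∧ ⁅e, a⁆ ∈ fil M e i := by
  simp only [mem_fil]
  refine ⟨fun h => ⟨by simpa using h 0 (by omega), fun n hn => by
    simpa [pow_succ] using h (n + 1) (by omega)⟩, fun h n hn => ?_⟩
  rcases n with _ | n
  · simpa using h.1
  · simpa [pow_succ] using h.2 n (by omega)

theorem fil_ad {i : ℤ} {a : L} (ha : a ∈ fil M e i) : ⁅e, a⁆ ∈ fil M e (i - 1) :=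
  mem_fil.2 fun n hn => by simpa [pow_succ] using mem_fil.1 ha (n + 1) (by omega)

theorem fil_lie (he : ∀ a : L, ∃ c : k, a - c • e ∈ M) {i j : ℤ} {a b : L} (ha : a ∈ fil M e i)
    (hb : b ∈ fil M e j) : ⁅a, b⁆ ∈ fil M e (i + j) := by
  have one : ∀ a b : L, b ∈ fil M e 1 → ⁅a, b⁆ ∈ M := fun a b hb => by
    obtain ⟨c, hc⟩ := he a
    obtain ⟨h1, h2⟩ := (fil_succ 0 1 le_rfl rfl).1 hb
    have : ⁅a, b⁆ = ⁅a - c • e, b⁆ + c • ⁅e, b⁆ := by simp
    rw [this]
    exact M.add_mem (M.lie_mem hc h1) (M.smul_mem c (fil_zero.1 h2))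
  refine mem_fil.2 fun n => ?_
  induction n generalizing i j a b with
  | zero =>
    intro hn
    rw [pow_zero, Module.End.one_apply]
    by_cases h1 : i < 0
    · exact one a b (fil_mono (by omega) hb)
    by_cases h2 : j < 0
    · rw [← lie_skew]
      exact neg_mem (one b a (fil_mono (by omega) ha))
    exact M.lie_mem (fil_zero.1 (fil_mono (by omega) ha)) (fil_zero.1 (fil_mono (by omega) hb))
  | succ n ih =>
    intro hn
    rw [pow_succ, Module.End.mul_apply, LieAlgebra.ad_apply, leibniz_lie, map_add]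
    exact M.add_mem (ih (fil_ad ha) hb (by omega)) (ih ha (fil_ad hb) (by omega))

theorem fil_step (he : ∀ a : L, ∃ c : k, a - c • e ∈ M) (n : ℕ) {i j : ℤ} {f a : L}
    (hf : f ∈ fil M e i) (hf' : f ∉ fil M e j) (ha : a ∈ fil M e i) (hi : i + 1 = n)
    (hj : j = n) : ∃ c : k, a - c • f ∈ fil M e j := by
  have top : ∀ x ∈ fil M e i, (LieAlgebra.ad k L e ^ n) x ∈ M → x ∈ fil M e j :=
    fun x hx h => mem_fil.2 fun m hm => by
      by_cases e1 : m = n
      · rwa [e1]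
      · exact mem_fil.1 hx m (by omega)
  obtain ⟨s, hs⟩ := he ((LieAlgebra.ad k L e ^ n) a)
  obtain ⟨t, ht⟩ := he ((LieAlgebra.ad k L e ^ n) f)
  have t0 : t ≠ 0 := by
    rintro rfl
    exact hf' (top f hf (by simpa using ht))
  refine ⟨s / t, top _ (sub_mem ha (Submodule.smul_mem _ _ hf)) ?_⟩
  have := M.sub_mem hs (M.smul_mem (s / t) ht)
  rwa [smul_sub, smul_smul, div_mul_cancel₀ _ t0, sub_sub_sub_cancel_right, ← map_smul,
    ← map_sub] at this

theorem graded {S : Type*} [LieRing S] [LieAlgebra k S] (he : ∀ a : L, ∃ c : k, a - c • e ∈ M)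
    (ρ : ℤ → L) (g : ℤ → S) (h1 : ∀ i, ρ i ∈ fil M e i) (h2 : ∀ i, ρ i ∈ fil M e (i + 1) → g i = 0)
    (h3 : ∀ i j, ∃ κ : k, ⁅ρ i, ρ j⁆ - κ • ρ (i + j) ∈ fil M e (i + j + 1) ∧
      ⁅g i, g j⁆ = κ • g (i + j)) {l : List ℕ} {f : Tr →₀ k} (hf : f ∈ PL k l) (hL : Idt k L f)
    (u : ℕ → S) (d : ℕ → ℤ) (hu : ∀ i ∈ l, u i = g (d i)) : pev k br u f = 0 := by
  have tree : ∀ b : Tr, (∀ i ∈ b.lv, u i = g (d i)) → ∃ c : k,
      b.ev br (fun i => ρ (d i)) - c • ρ (b.lv.map d).sum ∈ fil M e ((b.lv.map d).sum + 1) ∧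
      b.ev br u = c • g (b.lv.map d).sum := by
    intro b
    induction b with
    | lf i => exact fun h => ⟨1, by simp [Tr.ev, Tr.lv], by simpa [Tr.ev, Tr.lv] using h⟩
    | nd a b ha hb =>
      intro h
      simp only [Tr.lv, List.mem_append] at h
      obtain ⟨c, c1, c2⟩ := ha fun i hi => h i (.inl hi)
      obtain ⟨c', c3, c4⟩ := hb fun i hi => h i (.inr hi)
      simp only [Tr.lv, List.map_append, List.sum_append, Tr.ev, c2, c4]
      generalize (a.lv.map d).sum = i at *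
      generalize (b.lv.map d).sum = j at *
      generalize a.ev br (fun i => ρ (d i)) = x at *
      generalize b.ev br (fun i => ρ (d i)) = y at *
      obtain ⟨κ, k1, k2⟩ := h3 i j
      refine ⟨c * c' * κ, ?_, by simp only [br, smul_lie, lie_smul, k2, smul_smul]; congr 1; ring⟩
      have e1 : br x y - (c * c' * κ) • ρ (i + j) = ⁅x - c • ρ i, y - c' • ρ j⁆ +
          c' • ⁅x - c • ρ i, ρ j⁆ + c • ⁅ρ i, y - c' • ρ j⁆ +
          (c * c') • (⁅ρ i, ρ j⁆ - κ • ρ (i + j)) := by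
        simp only [br, sub_lie, lie_sub, smul_lie, lie_smul]
        module
      rw [e1]
      refine add_mem (add_mem (add_mem (fil_mono (by omega) (fil_lie he c1 c3))
        (Submodule.smul_mem _ _ (fil_mono (by omega) (fil_lie he c1 (h1 j)))))
        (Submodule.smul_mem _ _ (fil_mono (by omega) (fil_lie he (h1 i) c3))))
        (Submodule.smul_mem _ _ k1)
  obtain ⟨c, c1, c2⟩ : ∃ c : k, pev k br (fun i => ρ (d i)) f - c • ρ (l.map d).sum ∈
      fil M e ((l.map d).sum + 1) ∧ pev k br u f = c • g (l.map d).sum := by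
    refine pl_ind (P := fun f => ∃ c : k, pev k br (fun i => ρ (d i)) f - c • ρ (l.map d).sum ∈
      fil M e ((l.map d).sum + 1) ∧ pev k br u f = c • g (l.map d).sum) ⟨0, by simp, by simp⟩
      (fun b hb => ?_) ?_ ?_ hf
    · simp only [pev_one, ← (hb.map d).sum_eq]
      exact tree b fun i hi => hu i (hb.mem_iff.1 hi)
    · rintro f g ⟨c, c1, c2⟩ ⟨c', c3, c4⟩
      refine ⟨c + c', ?_, by rw [map_add, c2, c4, add_smul]⟩
      rw [map_add, add_smul, ← sub_add_sub_comm]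
      exact add_mem c1 c3
    · rintro a f ⟨c, c1, c2⟩
      refine ⟨a * c, ?_, by rw [map_smul, c2, mul_smul]⟩
      rw [map_smul, mul_smul, ← smul_sub]
      exact Submodule.smul_mem _ _ c1
  rw [hL, zero_sub, neg_mem_iff] at c1
  by_cases c0 : c = 0
  · rw [c2, c0, zero_smul]
  · rw [c2, h2 _ ((Submodule.smul_mem_iff _ c0).1 c1), smul_zero]

end

attribute [local instance 100] LieRing.ofAssociativeRing in
theorem sl_gen [CharZero k] {t : k} (ht : t ≠ 0) :
    ∃ x y z : LieAlgebra.SpecialLinear.sl (Fin 2) k, ⁅x, z⁆ = y ∧ ⁅x, y⁆ = t • x ∧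
      ⁅y, z⁆ = t • z ∧ ∀ s, ∃ a b c d : k, s = a • x + (b • y + (c • z + (d • z + z))) := by
  have m : ∀ a b c : k, !![a, b; c, -a] ∈ LieAlgebra.SpecialLinear.sl (Fin 2) k := fun a b c => by
    change Matrix.trace !![a, b; c, -a] = 0
    simp
  refine ⟨⟨_, m 0 1 0⟩, ⟨_, m (-t / 2) 0 0⟩, ⟨_, m 0 0 (-t / 2)⟩, ?_, ?_, ?_, fun s => ?_⟩
  · ext i j
    rw [LieAlgebra.SpecialLinear.sl_bracket]
    fin_cases i <;> fin_cases j <;> simp
  · ext i j
    rw [LieAlgebra.SpecialLinear.sl_bracket]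
    fin_cases i <;> fin_cases j <;> simp
    ring
  · ext i j
    rw [LieAlgebra.SpecialLinear.sl_bracket]
    fin_cases i <;> fin_cases j <;> simp
    ring
  · have h : s.1 1 1 = - s.1 0 0 := by
      have : Matrix.trace s.1 = 0 := s.2
      rw [Matrix.trace_fin_two] at this
      linear_combination this
    refine ⟨s.1 0 1, -2 * s.1 0 0 / t, -2 * s.1 1 0 / t, -1, ?_⟩
    ext i j
    fin_cases i <;> fin_cases j <;> simp [h] <;> field_simp

end C1

open C1 in
theorem stC1 : St_C1.{u} := by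
  intro k _ _ f0 ⟨l, hl, hf, hn⟩ L _ _ hL M e he
  by_cases hA : ∀ f ∈ fil M e 1, f ∈ fil M e 2
  · have idl : ∀ a, ∀ f ∈ fil M e 1, ⁅a, f⁆ ∈ fil M e 1 := fun a f h =>
      fil_mono (by omega) (fil_lie (i := -1) he (fil_neg (by omega) a) (hA f h))
    have idr : ∀ a, ∀ f ∈ fil M e 1, ⁅f, a⁆ ∈ fil M e 1 := fun a f h => by
      rw [← lie_skew]
      exact neg_mem (idl a f h)
    obtain ⟨h, hh⟩ : ∃ h : L, ∀ m ∈ M, ∃ c : k, m - c • h ∈ fil M e 1 := by
      by_cases h0 : ∀ m ∈ M, m ∈ fil M e 1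
      · exact ⟨0, fun m hm => ⟨0, by simpa using h0 m hm⟩⟩
      · push Not at h0
        obtain ⟨h, h1, h2⟩ := h0
        exact ⟨h, fun m hm => fil_step he 1 (fil_zero.2 h1) h2 (fil_zero.2 hm) rfl rfl⟩
    have two : ∀ a b : L, ∃ c : k, ⁅a, b⁆ - c • ⁅e, h⁆ ∈ fil M e 1 := fun a b => by
      obtain ⟨s, hs⟩ := he a
      obtain ⟨t, ht⟩ := hh _ hs
      obtain ⟨s', hs'⟩ := he b
      obtain ⟨t', ht'⟩ := hh _ hs'
      refine ⟨s * t' - t * s', ?_⟩
      have : ⁅a, b⁆ - (s * t' - t * s') • ⁅e, h⁆ = ⁅a - s • e - t • h, b⁆ +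
          ⁅s • e + t • h, b - s' • e - t' • h⁆ := by
        simp only [sub_lie, lie_sub, add_lie, smul_lie, lie_smul, lie_self, ← lie_skew e h]
        module
      rw [this]
      exact add_mem (idr _ _ ht) (idl _ _ ht')
    intro a b c d
    obtain ⟨x, hx⟩ := two a b
    obtain ⟨y, hy⟩ := two c d
    have : ⁅⁅a, b⁆, ⁅c, d⁆⁆ = ⁅⁅a, b⁆ - x • ⁅e, h⁆, ⁅c, d⁆⁆ +
        x • ⁅⁅e, h⁆, ⁅c, d⁆ - y • ⁅e, h⁆⁆ := by
      simp only [sub_lie, lie_sub, smul_lie, lie_smul, lie_self]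
      module
    rw [this]
    exact fil_zero.1 (fil_mono (by omega)
      (add_mem (idr _ _ hx) (Submodule.smul_mem _ _ (idl _ _ hy))))
  exfalso
  push Not at hA
  obtain ⟨f, f1, f2⟩ := hA
  obtain ⟨fM, h0⟩ := (fil_succ 0 1 le_rfl rfl).1 f1
  have h1 : ⁅e, f⁆ ∉ fil M e 1 := fun h => f2 ((fil_succ 1 2 (by omega) rfl).2 ⟨fM, h⟩)
  obtain ⟨t, ht⟩ := he ⁅e, ⁅e, f⁆⁆
  have h2 : ⁅e, ⁅e, f⁆⁆ ∉ M := fun h =>
    h1 ((fil_succ 0 1 le_rfl rfl).2 ⟨fil_zero.1 h0, fil_zero.2 h⟩)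
  have t0 : t ≠ 0 := by
    rintro rfl
    exact h2 (by simpa using ht)
  have e0 : e ∉ M := fun h => h2 (by simpa using M.add_mem ht (M.smul_mem t h))
  obtain ⟨c, hc⟩ := fil_step he 2 f1 f2 (fil_mono (by omega) (fil_lie he h0 f1)) rfl rfl
  obtain rfl : t = c := by
    by_contra hne
    refine h1 ((Submodule.smul_mem_iff _ (sub_ne_zero.2 hne)).1 ?_)
    have : (t - c) • ⁅e, f⁆ = ⁅e, ⁅⁅e, f⁆, f⁆ - c • f⁆ - ⁅⁅e, ⁅e, f⁆⁆ - t • e, f⁆ := by
      rw [lie_sub, leibniz_lie e ⁅e, f⁆ f]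
      simp only [sub_lie, smul_lie, lie_smul, lie_self]
      module
    rw [this]
    exact sub_mem (fil_mono (by omega) (fil_ad hc))
      (fil_mono (by omega) (fil_lie he (fil_zero.2 ht) f1))
  obtain ⟨x, y, z, s1, s2, s3, s4⟩ := sl_gen t0
  let ρ : ℤ → L := fun i => if i = -1 then e else if i = 0 then ⁅e, f⁆ else if i = 1 then f else 0
  let g : ℤ → _ := fun i => if i = -1 then x else if i = 0 then y else if i = 1 then z else 0
  have cs : ∀ i : ℤ, i = -1 ∨ i = 0 ∨ i = 1 ∨ ρ i = 0 ∧ g i = 0 := fun i => by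
    by_contra h
    simp only [not_or] at h
    exact h.2.2.2 (by simp [ρ, g, h.1, h.2.1, h.2.2.1])
  refine hn (idt_of_gen hl hf g s4 (graded he ρ g (fun i => ?_) (fun i h => ?_) (fun i j => ?_)
    hf hL))
  · rcases cs i with rfl | rfl | rfl | h
    · exact fil_neg (by omega) _
    · exact h0
    · exact f1
    · rw [h.1]
      exact zero_mem _
  · rcases cs i with rfl | rfl | rfl | h'
    · exact absurd (fil_zero.1 (fil_mono (by omega) h)) e0
    · exact absurd (fil_mono (by omega) h) h1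
    · exact absurd (fil_mono (by omega) h) f2
    · exact h'.2
  · have sym : ∀ i j, (∃ κ : k, ⁅ρ i, ρ j⁆ - κ • ρ (i + j) ∈ fil M e (i + j + 1) ∧
        ⁅g i, g j⁆ = κ • g (i + j)) → ∃ κ : k, ⁅ρ j, ρ i⁆ - κ • ρ (j + i) ∈ fil M e (j + i + 1) ∧
        ⁅g j, g i⁆ = κ • g (j + i) := fun i j ⟨κ, k1, k2⟩ => ⟨-κ, by
          rw [add_comm j, ← lie_skew, neg_smul, neg_sub_neg, ← neg_sub]
          exact neg_mem k1, by rw [add_comm j, ← lie_skew, k2, neg_smul]⟩
    have dg : ∀ i, ∃ κ : k, ⁅ρ i, ρ i⁆ - κ • ρ (i + i) ∈ fil M e (i + i + 1) ∧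
        ⁅g i, g i⁆ = κ • g (i + i) := fun i => ⟨0, by simp, by simp⟩
    have a1 : ∃ κ : k, ⁅ρ (-1), ρ 0⁆ - κ • ρ (-1 + 0) ∈ fil M e (-1 + 0 + 1) ∧
        ⁅g (-1), g 0⁆ = κ • g (-1 + 0) := ⟨t, fil_mono (by omega) (fil_zero.2 ht), s2⟩
    have a2 : ∃ κ : k, ⁅ρ (-1), ρ 1⁆ - κ • ρ (-1 + 1) ∈ fil M e (-1 + 1 + 1) ∧
        ⁅g (-1), g 1⁆ = κ • g (-1 + 1) := ⟨1, by simp [ρ], by simpa [g] using s1⟩
    have a3 : ∃ κ : k, ⁅ρ 0, ρ 1⁆ - κ • ρ (0 + 1) ∈ fil M e (0 + 1 + 1) ∧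
        ⁅g 0, g 1⁆ = κ • g (0 + 1) := ⟨t, fil_mono (by omega) hc, s3⟩
    rcases cs i with rfl | rfl | rfl | h
    rotate_right
    · exact ⟨0, by simp [h.1], by simp [h.2]⟩
    all_goals rcases cs j with rfl | rfl | rfl | h'
    exacts [dg _, a1, a2, ⟨0, by simp [h'.1], by simp [h'.2]⟩, sym _ _ a1, dg _, a3,
      ⟨0, by simp [h'.1], by simp [h'.2]⟩, sym _ _ a2, sym _ _ a3, dg _,
      ⟨0, by simp [h'.1], by simp [h'.2]⟩]

end Pool.Agent.Lib.EB
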