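import Pool.Agent.Lib.EB.Blue

/-!
The final contradiction in a super model.
-/

namespace Pool.Agent.Lib.EB

universe u

namespace CORE

section sign
variable (k : Type u) [Field k]

/-- The sign of a pair of variables. -/
def pr (ε : ℕ → Bool) (a b : ℕ) : k := if b < a ∧ ε a = true ∧ ε b = true then -1 else 1

/-- The cross sign of two lists. -/
def cr (ε : ℕ → Bool) (l l' : List ℕ) : k := (l.map fun a => (l'.map (pr k ε a)).prod).prod

theorem sg_cons (ε : ℕ → Bool) (a : ℕ) (l : List ℕ) :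
    sg k ε (a :: l) = (l.map (pr k ε a)).prod * sg k ε l := rfl

theorem sg_app (ε : ℕ → Bool) (l l' : List ℕ) :
    sg k ε (l ++ l') = cr k ε l l' * (sg k ε l * sg k ε l') := by
  induction l with
  | nil => simp [cr, sg]
  | cons a l ih =>
    rw [List.cons_append, sg_cons, sg_cons, ih, List.map_append, List.prod_append]
    simp only [cr, List.map_cons, List.prod_cons]
    ring

theorem cr_perm (ε : ℕ → Bool) {l l' n n' : List ℕ} (h : l.Perm n) (h' : l'.Perm n') :
    cr k ε l l' = cr k ε n n' := by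
  have : (fun a => (l'.map (pr k ε a)).prod) = fun a => (n'.map (pr k ε a)).prod :=
    funext fun a => (h'.map _).prod_eq
  rw [cr, cr, this, (h.map _).prod_eq]

theorem cr_ne (ε : ℕ → Bool) (l l' : List ℕ) : cr k ε l l' ≠ 0 := by
  refine List.prod_ne_zero fun h => ?_
  obtain ⟨a, -, ha⟩ := List.mem_map.1 h
  refine List.prod_ne_zero (fun h' => ?_) ha
  obtain ⟨b, -, hb⟩ := List.mem_map.1 h'
  unfold pr at hb
  split_ifs at hb <;> simp at hb

theorem sg_cg {ε ε' : ℕ → Bool} {l : List ℕ} (h : ∀ i ∈ l, ε i = ε' i) :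
    sg k ε l = sg k ε' l := by
  induction l with
  | nil => rfl
  | cons a l ih =>
    rw [sg_cons, sg_cons, ih fun i hi => h i (List.mem_cons_of_mem _ hi)]
    congr 2
    refine List.map_congr_left fun b hb => ?_
    simp only [pr, h a List.mem_cons_self, h b (List.mem_cons_of_mem _ hb)]

end sign

variable {k : Type u} [Field k]

theorem ev_cg {X : Type*} (m : X → X → X) (b : Tr) {u u' : ℕ → X} (h : ∀ i ∈ b.lv, u i = u' i) :
    b.ev m u = b.ev m u' := by
  induction b with
  | lf i => exact h i (by simp [Tr.lv])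
  | nd a b iha ihb =>
    simp only [Tr.ev]
    rw [iha fun i hi => h i (by simp [Tr.lv, hi]), ihb fun i hi => h i (by simp [Tr.lv, hi])]

theorem ev_up {X : Type*} (m : X → X → X) (b : Tr) (u : ℕ → X) {s : ℕ} (hs : s ∉ b.lv) (x : X) :
    b.ev m (Function.update u s x) = b.ev m u :=
  ev_cg m b fun i hi => Function.update_of_ne (fun e : i = s => hs (e ▸ hi)) _ _

variable {L : Type u} [AddCommGroup L] [Module k L]

theorem ev_lin (m : L →ₗ[k] L →ₗ[k] L) (b : Tr) (hb : b.lv.Nodup) (u : ℕ → L) {s : ℕ}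
    (hs : s ∈ b.lv) : ∃ φ : L →ₗ[k] L,
      ∀ x, b.ev (fun a b => m a b) (Function.update u s x) = φ x := by
  induction b with
  | lf i =>
    obtain rfl : s = i := by simpa [Tr.lv] using hs
    exact ⟨LinearMap.id, fun x => Function.update_self ..⟩
  | nd a b iha ihb =>
    rw [Tr.lv, List.nodup_append] at hb
    rcases List.mem_append.1 hs with h | h
    · obtain ⟨φ, hφ⟩ := iha hb.1 h
      refine ⟨m.flip (b.ev (fun a b => m a b) u) ∘ₗ φ, fun x => ?_⟩
      rw [Tr.ev, hφ, ev_up _ b u fun h' => hb.2.2 s h s h' rfl]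
      rfl
    · obtain ⟨φ, hφ⟩ := ihb hb.2.1 h
      refine ⟨m (a.ev (fun a b => m a b) u) ∘ₗ φ, fun x => ?_⟩
      rw [Tr.ev, hφ, ev_up _ a u fun h' => hb.2.2 s h' s h rfl]
      rfl

/-- Linear maps on the variables of `B`, fixed values elsewhere. -/
def mix (B : Finset ℕ) (π : ℕ → L →ₗ[k] L) (w u : ℕ → L) : ℕ → L :=
  fun i => if i ∈ B then π i (u i) else w i

theorem mix_up (B : Finset ℕ) (π : ℕ → L →ₗ[k] L) (w u : ℕ → L) {s : ℕ} (hs : s ∈ B) (x : L) :
    mix B π w (Function.update u s x) = Function.update (mix B π w u) s (π s x) := by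
  funext i
  by_cases h : i = s
  · subst h
    simp [mix, hs]
  · simp [mix, Function.update_of_ne h]

theorem ml_mix (m : L →ₗ[k] L →ₗ[k] L) (ξ : L →ₗ[k] k) (B : Finset ℕ) (π : ℕ → L →ₗ[k] L)
    (w : ℕ → L) (b : Tr) (hb : b.lv.Nodup) (P : Finset ℕ) (hP : ∀ s, s ∈ P ↔ s ∈ B ∧ s ∈ b.lv) :
    ML k P fun u => ξ (b.ev (fun a b => m a b) (mix B π w u)) := by
  refine ⟨fun s hs u x y => ?_, fun s hs u c x => ?_, fun u u' h => ?_⟩
  · obtain ⟨h1, h2⟩ := (hP s).1 hs
    obtain ⟨φ, hφ⟩ := ev_lin m b hb (mix B π w u) h2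
    simp only [mix_up B π w u h1, hφ, map_add]
  · obtain ⟨h1, h2⟩ := (hP s).1 hs
    obtain ⟨φ, hφ⟩ := ev_lin m b hb (mix B π w u) h2
    simp only [mix_up B π w u h1, hφ, map_smul]
  · refine congrArg ξ (ev_cg _ b fun i hi => ?_)
    by_cases h1 : i ∈ B
    · simp only [mix, if_pos h1, h i ((hP i).2 ⟨h1, hi⟩)]
    · simp only [mix, if_neg h1]

/-- The projection to the homogeneous component. -/
noncomputable def prj (ω : L →ₗ[k] L) (ε : ℕ → Bool) (i : ℕ) : L →ₗ[k] L :=
  (2⁻¹ : k) • (if ε i = true then LinearMap.id - ω else LinearMap.id + ω)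

theorem prj_apply (ω : L →ₗ[k] L) (ε : ℕ → Bool) (i : ℕ) (x : L) :
    prj ω ε i x = (2⁻¹ : k) • (if ε i = true then x - ω x else x + ω x) := by
  unfold prj
  split_ifs <;> rfl

theorem prj_hom {ω : L →ₗ[k] L} (h : ∀ a, ω (ω a) = a) (ε : ℕ → Bool) (i : ℕ) (x : L) :
    ω (prj ω ε i x) = if ε i = true then - prj ω ε i x else prj ω ε i x := by
  rw [prj_apply]
  split_ifs
  · rw [map_smul, map_sub, h, ← smul_neg, neg_sub]
  · rw [map_smul, map_add, h, add_comm]

/-- The polynomial with given coefficients. -/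
noncomputable def pol (B : Finset Tr) (c : Tr → k) : Tr →₀ k := ∑ e ∈ B, Finsupp.single e (c e)

theorem pol_mem {B : Finset Tr} {l : List ℕ} (h : ∀ e ∈ B, e.lv.Perm l) (c : Tr → k) :
    pol B c ∈ PL k l :=
  Submodule.sum_mem _ fun e he => Finsupp.single_mem_supported k _ (h e he)

theorem lc_pol {X : Type*} [AddCommGroup X] [Module k X] (v : Tr → X) (B : Finset Tr)
    (c : Tr → k) : Finsupp.linearCombination k v (pol B c) = ∑ e ∈ B, c e • v e := by
  simp only [pol, map_sum, Finsupp.linearCombination_single]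

theorem zero_of_dec (hP : St_PRIME.{u}) [CharZero k] {F : Type u} [LieRing F] [LieAlgebra k F]
    {f0 : Tr →₀ k} (hB : Base k F f0) {m : L →ₗ[k] L →ₗ[k] L} {ω : L →ₗ[k] L} (ht : TP1 F m ω)
    (hD : Dag k m) {ξ : L →ₗ[k] k} (hξ : ξ ≠ 0) {l : List ℕ} (hl : l.Nodup) {B : Finset Tr}
    (h : ∀ e ∈ B, e.lv.Perm l) (hI : Indep k F B) (c : Tr → k)
    (hd : ∀ ε : ℕ → Bool, (fun u : ℕ → L => ∑ e ∈ B, c e * (sg k ε e.lv *
      ξ (e.ev (fun a b => m a b) fun i => prj ω ε i (u i)))) ∈ Dec k L l.toFinset) :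
    ∀ e ∈ B, c e = 0 := by
  refine hI c fun u => ?_
  have := hP k F f0 hB L m ω ht hD ξ hξ l (pol B c) hl (pol_mem h c) (fun ε => by
    simp only [spev, lc_pol, map_sum, map_smul, smul_eq_mul, ← prj_apply]
    exact hd ε) u
  rwa [pev, lc_pol] at this

end CORE

open CORE in
theorem stCORE (hP : St_PRIME.{u}) : St_CORE.{u} := by
  intro k _ _ F _ _ f0 hB r hr L _ _ m ω ht hD ξ hξ hs
  obtain ⟨T, hT, e1, he1, e2, he2, hκ⟩ := hr.ne
  have hTS : T ⊆ r.S := (Finset.mem_powersetCard.1 hT).1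
  have n1 : ∀ U ⊆ r.S, (r.p :: U.toList).Nodup := fun U hU =>
    List.nodup_cons.2 ⟨fun h => hr.hp (hU (Finset.mem_toList.1 h)), U.nodup_toList⟩
  have n2 : ∀ U : Finset ℕ, (r.q :: (r.S \ U).toList).Nodup := fun U =>
    List.nodup_cons.2 ⟨fun h => hr.hq (Finset.mem_sdiff.1 (Finset.mem_toList.1 h)).1,
      Finset.nodup_toList _⟩
  have hp := hr.hp
  have hq := hr.hq
  have hpq := hr.hpq
  have key : ∀ (ε' : ℕ → Bool) (w : ℕ → L), Hom ω ε' w → ∀ e ∈ r.B T,
      ∑ e' ∈ r.B' T, r.κ T e e' * (sg k ε' e'.lv * ξ (e'.ev (fun a b => m a b) w)) = 0 := by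
    intro ε' w hw
    refine zero_of_dec hP hB ht hD hξ (n1 T hTS) (hr.lvB T hT) (hr.ind T hT) _ fun ε => ?_
    set B := (r.p :: T.toList).toFinset with hBd
    have mB : ∀ s, s ∈ B ↔ s = r.p ∨ s ∈ T := fun s => by simp [hBd]
    set η : ℕ → Bool := fun i => if i ∈ B then ε i else ε' i with hη
    have hom : ∀ u, Hom ω η (mix B (prj ω ε) w u) := fun u i => by
      by_cases h : i ∈ B
      · simp only [mix, hη, if_pos h, prj_hom ht.inv]
      · simp only [mix, hη, if_neg h, hw i]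
    let G : Finset ℕ → (ℕ → L) → k := fun U u => ∑ e ∈ r.B U, ∑ e' ∈ r.B' U, r.κ U e e' •
      (sg k η (e.lv ++ e'.lv) • (ξ (e.ev (fun a b => m a b) (mix B (prj ω ε) w u)) *
        ξ (e'.ev (fun a b => m a b) (mix B (prj ω ε) w u))))
    have hG : ∀ U ∈ (r.S.powersetCard r.i).erase T, G U ∈ Dec k L B := by
      intro U hU
      obtain ⟨hne, hU⟩ := Finset.mem_erase.1 hU
      have hUS : U ⊆ r.S := (Finset.mem_powersetCard.1 hU).1
      have e0 : G U = ∑ e ∈ r.B U, ∑ e' ∈ r.B' U, r.κ U e e' • (sg k η (e.lv ++ e'.lv) •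
          fun u => ξ (e.ev (fun a b => m a b) (mix B (prj ω ε) w u)) *
            ξ (e'.ev (fun a b => m a b) (mix B (prj ω ε) w u))) := by
        funext u
        simp only [G, Finset.sum_apply, Pi.smul_apply]
      rw [e0]
      refine Submodule.sum_mem _ fun e he => Submodule.sum_mem _ fun e' he' =>
        Submodule.smul_mem _ _ (Submodule.smul_mem _ _ (Submodule.subset_span ?_))
      have p1 := hr.lvB U hU e he
      have p2 := hr.lvB' U hU e' he'
      refine ⟨insert r.p (T ∩ U), fun s hs => ?_, Finset.insert_nonempty _ _, fun h => ?_, _, _,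
        ml_mix m ξ B _ w e (p1.nodup_iff.2 (n1 U hUS)) _ fun s => ?_,
        ml_mix m ξ B _ w e' (p2.nodup_iff.2 (n2 U)) _ fun s => ?_, rfl⟩
      · rw [mB]
        exact (Finset.mem_insert.1 hs).imp id fun h => (Finset.mem_inter.1 h).1
      · refine hne (Finset.eq_of_subset_of_card_le (fun s hs => ?_) ?_).symm
        · have : s ∈ insert r.p (T ∩ U) := h ▸ (mB s).2 (.inr hs)
          rcases Finset.mem_insert.1 this with rfl | h'
          · exact absurd (hTS hs) hp
          · exact (Finset.mem_inter.1 h').2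
        · rw [(Finset.mem_powersetCard.1 hU).2, (Finset.mem_powersetCard.1 hT).2]
      · rw [p1.mem_iff, mB]
        simp only [Finset.mem_insert, Finset.mem_inter, List.mem_cons, Finset.mem_toList]
        tauto
      · rw [p2.mem_iff, Finset.mem_sdiff, mB]
        simp only [Finset.mem_insert, Finset.mem_inter, List.mem_cons, Finset.mem_toList,
          Finset.mem_sdiff]
        have a1 : s ∈ T → s ∈ r.S := fun h => hTS h
        have a2 : s = r.p → s ∉ r.S := fun h => h ▸ hp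
        have a3 : s = r.q → s ∉ r.S := fun h => h ▸ hq
        have a4 : s = r.p → s ≠ r.q := fun h => h ▸ hpq
        tauto
    have hGT : G T = -∑ U ∈ (r.S.powersetCard r.i).erase T, G U := by
      funext u
      have := hs η _ (hom u)
      rw [Rel.sval, Rel.sum, ← Finset.add_sum_erase _ _ hT] at this
      rw [Pi.neg_apply, Finset.sum_apply]
      exact eq_neg_of_add_eq_zero_left this
    have hmem : G T ∈ Dec k L B := hGT ▸ neg_mem (Submodule.sum_mem _ hG)
    set c := cr k η (r.p :: T.toList) (r.q :: (r.S \ T).toList) with hc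
    have hc0 : c ≠ 0 := cr_ne k _ _ _
    have := Submodule.smul_mem _ c⁻¹ hmem
    refine (congrArg (· ∈ Dec k L B) (funext fun u => ?_)).mp this
    rw [Pi.smul_apply, smul_eq_mul, inv_mul_eq_iff_eq_mul₀ hc0, Finset.mul_sum]
    refine Finset.sum_congr rfl fun e he => ?_
    rw [Finset.sum_mul, Finset.mul_sum]
    refine Finset.sum_congr rfl fun e' he' => ?_
    have p1 := hr.lvB T hT e he
    have p2 := hr.lvB' T hT e' he'
    have i1 : ∀ i ∈ e.lv, i ∈ B := fun i hi => List.mem_toFinset.2 (p1.mem_iff.1 hi)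
    have i2 : ∀ i ∈ e'.lv, i ∉ B := fun i hi h => by
      rw [p2.mem_iff, List.mem_cons, Finset.mem_toList, Finset.mem_sdiff] at hi
      rw [mB] at h
      rcases hi with rfl | hi <;> rcases h with h | h
      · exact hpq h.symm
      · exact hq (hTS h)
      · exact hp (h ▸ hi.1)
      · exact hi.2 h
    rw [sg_app, cr_perm k η p1 p2, ← hc,
      sg_cg k (ε := η) (ε' := ε) fun i hi => if_pos (i1 i hi),
      sg_cg k (ε := η) (ε' := ε') fun i hi => if_neg (i2 i hi),
      ev_cg _ e (u := mix B (prj ω ε) w u) (u' := fun i => prj ω ε i (u i))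
        fun i hi => if_pos (i1 i hi),
      ev_cg _ e' (u := mix B (prj ω ε) w u) (u' := w) fun i hi => if_neg (i2 i hi)]
    simp only [smul_eq_mul]
    ring
  refine hκ (zero_of_dec hP hB ht hD hξ (n2 T) (hr.lvB' T hT) (hr.ind' T hT) (r.κ T e1)
    (fun ε => ?_) e2 he2)
  have : (fun u : ℕ → L => ∑ e ∈ r.B' T, r.κ T e1 e * (sg k ε e.lv *
      ξ (e.ev (fun a b => m a b) fun i => prj ω ε i (u i)))) = 0 :=
    funext fun u => key ε _ (fun i => prj_hom ht.inv ε i (u i)) e1 he1
  rw [this]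
  exact zero_mem _

end Pool.Agent.Lib.EB
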