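import Pool.Agent.Lib.EB.Blue

namespace Pool.Agent.Lib.EB

open Pool.Agent.Lib.MP_eb02d8_al

universe u

theorem dn_split {k : Type u} [Field k] {L : Type u} [LieRing L] [LieAlgebra k L] (M n : ℕ)
    (a : ℕ → L) : ∃ b : ℕ → L, (∀ i, b i ∈ LieAlgebra.derivedSeries k L M) ∧
      dw (M + n) a = dw n b := by
  induction n generalizing a with
  | zero => exact ⟨fun _ => dw M a, fun _ => dw_mem M a, rfl⟩
  | succ n ih =>
    obtain ⟨b0, h0, e0⟩ := ih (fun i => a (2 * i))
    obtain ⟨b1, h1, e1⟩ := ih (fun i => a (2 * i + 1))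
    refine ⟨fun i => if i % 2 = 0 then b0 (i / 2) else b1 (i / 2), fun i => ?_, ?_⟩
    · by_cases h : i % 2 = 0
      · simp only [h, if_true]; exact h0 _
      · simp only [h, if_false]; exact h1 _
    · have q0 : (fun i => (fun i => if i % 2 = 0 then b0 (i / 2) else b1 (i / 2)) (2 * i)) = b0 := by
        funext i
        have : 2 * i % 2 = 0 := by omega
        have h2 : 2 * i / 2 = i := by omega
        simp only [this, if_true, h2]
      have q1 : (fun i => (fun i => if i % 2 = 0 then b0 (i / 2) else b1 (i / 2)) (2 * i + 1))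
          = b1 := by
        funext i
        have : ¬ (2 * i + 1) % 2 = 0 := by omega
        have h2 : (2 * i + 1) / 2 = i := by omega
        simp only [this, if_false, h2]
      show ⁅dw (M + n) (fun i => a (2 * i)), dw (M + n) (fun i => a (2 * i + 1))⁆ = ⁅dw n _, dw n _⁆
      rw [q0, q1, e0, e1]

theorem dn_ev_sub {X : Type*} (m : X → X → X) (u : ℕ → X) (g : ℕ → Tr) (b : Tr) :
    (b.sub g).ev m u = b.ev m (fun j => (g j).ev m u) := by
  induction b with
  | lf i => rfl
  | nd a b iha ihb => simp only [Tr.sub, Tr.ev, iha, ihb]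

theorem dn_ev_mem {k : Type u} [Field k] {L : Type u} [LieRing L] [LieAlgebra k L]
    (I : LieIdeal k L) (u : ℕ → L) (hu : ∀ i, u i ∈ I) (b : Tr) : b.ev br u ∈ I := by
  induction b with
  | lf i => exact hu i
  | nd a b _ ihb => exact I.lie_mem ihb

theorem dn_pev_map {k : Type u} [Field k] {L : Type u} [LieRing L] [LieAlgebra k L]
    (u : ℕ → L) (g : ℕ → Tr) (f : Tr →₀ k) :
    pev k br u (Finsupp.mapDomain (Tr.sub g) f) = pev k br (fun j => (g j).ev br u) f := by
  unfold pev
  rw [Finsupp.linearCombination_mapDomain]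
  congr 2
  funext b
  exact dn_ev_sub br u g b

theorem stDN : St_DN.{u} := by
  intro k _ F _ _ f0 hB l f M hl hf hz
  by_contra hne
  obtain ⟨n, h, hh, hid⟩ := hB.min l f hl hf hne
  have key : ∀ u : ℕ → F, (∀ i, u i ∈ LieAlgebra.derivedSeries k F M) → dw n u = 0 := by
    intro u hu
    have h1 : pev k br u h = 0 := by
      refine Submodule.span_induction (p := fun x _ => pev k br u x = 0) ?_ (map_zero _) ?_ ?_ hh
      · rintro x ⟨g, -, rfl⟩
        rw [dn_pev_map]
        exact hz _ fun i => dn_ev_mem _ u hu _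
      · intro x y _ _ hx hy
        rw [map_add, hx, hy, add_zero]
      · intro c x _ hx
        rw [map_smul, hx, smul_zero]
    have h2 := hid u
    rw [map_sub, h1, sub_zero] at h2
    have h3 : (dt n id).ev br u = 0 := by
      simpa [pev, Finsupp.linearCombination_single] using h2
    rwa [ev_dt] at h3
  refine hB.nsol (M + n) fun u => ?_
  rw [ev_dt]
  obtain ⟨b, hb, e⟩ := dn_split (k := k) M n (fun i => u (id i))
  rw [e]
  exact key b hb

end Pool.Agent.Lib.EB
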