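import Pool.Agent.Lib.EB.Blue

/-!
Substitution into decomposable forms.
-/

namespace Pool.Agent.Lib.EB

universe u

namespace DS

variable {k : Type u} [Field k] {X : Type u} [AddCommGroup X] [Module k X]

theorem upd_eq (P : Finset ℕ) (S : ℕ → Finset ℕ) (g : ℕ → (ℕ → X) → X)
    (hg : ∀ t ∈ P, ML k (S t) (g t))
    (hd : ∀ t ∈ P, ∀ t' ∈ P, t ≠ t' → Disjoint (S t) (S t'))
    (α : (ℕ → X) → k) (hα : ML k P α) (t0 : ℕ) (ht0 : t0 ∈ P) (s : ℕ) (hs : s ∈ S t0)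
    (u : ℕ → X) (x : X) :
    α (fun t => g t (Function.update u s x)) =
      α (Function.update (fun t => g t u) t0 (g t0 (Function.update u s x))) := by
  refine hα.dep _ _ fun t ht => ?_
  by_cases h : t = t0
  · subst h
    simp
  · rw [Function.update_of_ne h]
    refine (hg t ht).dep _ _ fun s' hs' => ?_
    have hne : s' ≠ s := by
      rintro rfl
      exact Finset.disjoint_left.1 (hd t ht t0 ht0 h) hs' hs
    rw [Function.update_of_ne hne]

theorem ml_comp (P : Finset ℕ) (S : ℕ → Finset ℕ) (g : ℕ → (ℕ → X) → X)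
    (hg : ∀ t ∈ P, ML k (S t) (g t))
    (hd : ∀ t ∈ P, ∀ t' ∈ P, t ≠ t' → Disjoint (S t) (S t'))
    (α : (ℕ → X) → k) (hα : ML k P α) :
    ML k (P.biUnion S) (fun u => α (fun t => g t u)) := by
  refine ⟨fun s hs u x y => ?_, fun s hs u c x => ?_, fun u u' h => ?_⟩
  · obtain ⟨t0, ht0, hs0⟩ := Finset.mem_biUnion.1 hs
    rw [upd_eq P S g hg hd α hα t0 ht0 s hs0 u (x + y), upd_eq P S g hg hd α hα t0 ht0 s hs0 u x,
      upd_eq P S g hg hd α hα t0 ht0 s hs0 u y, (hg t0 ht0).add s hs0, hα.add t0 ht0]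
  · obtain ⟨t0, ht0, hs0⟩ := Finset.mem_biUnion.1 hs
    rw [upd_eq P S g hg hd α hα t0 ht0 s hs0 u (c • x), upd_eq P S g hg hd α hα t0 ht0 s hs0 u x,
      (hg t0 ht0).smul s hs0, hα.smul t0 ht0]
  · refine hα.dep _ _ fun t ht => (hg t ht).dep _ _ fun s hs => ?_
    exact h s (Finset.mem_biUnion.2 ⟨t, ht, hs⟩)

theorem sdiff_biUnion (T P : Finset ℕ) (S : ℕ → Finset ℕ) (hP : P ⊆ T)
    (hd : ∀ t ∈ T, ∀ t' ∈ T, t ≠ t' → Disjoint (S t) (S t')) :
    T.biUnion S \ P.biUnion S = (T \ P).biUnion S := by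
  ext s
  simp only [Finset.mem_sdiff, Finset.mem_biUnion, not_exists, not_and]
  constructor
  · rintro ⟨⟨t, ht, hs⟩, h⟩
    exact ⟨t, ⟨ht, fun hp => h t hp hs⟩, hs⟩
  · rintro ⟨t, ⟨ht, hp⟩, hs⟩
    refine ⟨⟨t, ht, hs⟩, fun t' ht' hs' => ?_⟩
    have hne : t ≠ t' := by
      rintro rfl
      exact hp ht'
    exact Finset.disjoint_left.1 (hd t ht t' (hP ht') hne) hs hs'

end DS

theorem stDS : St_DS.{u} := by
  intro k _ X _ _ T S g γ hγ hg hne hd
  refine Submodule.span_induction (p := fun γ _ =>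
    (fun u => γ (fun t => g t u)) ∈ Dec k X (T.biUnion S)) ?_ ?_ ?_ ?_ hγ
  · rintro γ ⟨P, hPT, hPne, hPT', α, β, hα, hβ, rfl⟩
    refine Submodule.subset_span ⟨P.biUnion S, Finset.biUnion_subset_biUnion_of_subset_left S hPT,
      ?_, ?_, fun u => α (fun t => g t u), fun u => β (fun t => g t u), ?_, ?_, rfl⟩
    · obtain ⟨t, ht⟩ := hPne
      obtain ⟨s, hs⟩ := hne t (hPT ht)
      exact ⟨s, Finset.mem_biUnion.2 ⟨t, ht, hs⟩⟩
    · intro h
      obtain ⟨t, ht, htP⟩ : ∃ t ∈ T, t ∉ P := by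
        by_contra hc
        push Not at hc
        exact hPT' (Finset.Subset.antisymm hPT hc)
      obtain ⟨s, hs⟩ := hne t ht
      have h1 : s ∈ T.biUnion S \ P.biUnion S := by
        rw [DS.sdiff_biUnion T P S hPT hd]
        exact Finset.mem_biUnion.2 ⟨t, Finset.mem_sdiff.2 ⟨ht, htP⟩, hs⟩
      rw [h] at h1
      simp at h1
    · exact DS.ml_comp P S g (fun t ht => hg t (hPT ht))
        (fun t ht t' ht' => hd t (hPT ht) t' (hPT ht')) α hα
    · rw [DS.sdiff_biUnion T P S hPT hd]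
      exact DS.ml_comp (T \ P) S g (fun t ht => hg t (Finset.mem_sdiff.1 ht).1)
        (fun t ht t' ht' => hd t (Finset.mem_sdiff.1 ht).1 t' (Finset.mem_sdiff.1 ht').1) β hβ
  · exact (Dec k X (T.biUnion S)).zero_mem
  · intro x y _ _ hx hy
    exact (Dec k X (T.biUnion S)).add_mem hx hy
  · intro c x _ hx
    exact (Dec k X (T.biUnion S)).smul_mem c hx

end Pool.Agent.Lib.EB
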