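import Pool.Agent.Lib.EB.Blue

/-!
The Grassmann algebra is a rich supercommutative algebra.
-/

namespace Pool.Agent.Lib.EB

universe u

section
variable {k : Type u} [Field k] {M : Type u} [AddCommGroup M] [Module k M]

theorem E_iota_mul (v : M) (x : ExteriorAlgebra k M) :
    ExteriorAlgebra.ι k v * x = CliffordAlgebra.involute x * ExteriorAlgebra.ι k v := by
  induction x using CliffordAlgebra.induction with
  | algebraMap r => rw [AlgHom.commutes, Algebra.commutes]
  | ι m =>
    rw [CliffordAlgebra.involute_ι, neg_mul]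
    exact eq_neg_of_add_eq_zero_left (ExteriorAlgebra.ι_add_mul_swap v m)
  | mul a b ha hb => rw [← mul_assoc, ha, mul_assoc, hb, map_mul, mul_assoc]
  | add a b ha hb => rw [mul_add, ha, hb, map_add, add_mul]

theorem E_even (x y : ExteriorAlgebra k M) (hx : CliffordAlgebra.involute x = x) :
    x * y = y * x := by
  induction y using CliffordAlgebra.induction with
  | algebraMap r => rw [Algebra.commutes]
  | ι m =>
    have := E_iota_mul m x
    rw [hx] at this
    exact this.symm
  | mul a b ha hb => rw [← mul_assoc, ha, mul_assoc, hb, mul_assoc]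
  | add a b ha hb => rw [mul_add, ha, hb, add_mul]

theorem E_odd (x y : ExteriorAlgebra k M) (hx : CliffordAlgebra.involute x = - x) :
    y * x = x * CliffordAlgebra.involute y := by
  induction y using CliffordAlgebra.induction with
  | algebraMap r => rw [AlgHom.commutes, Algebra.commutes]
  | ι m =>
    have := E_iota_mul m x
    rw [hx, neg_mul] at this
    rw [CliffordAlgebra.involute_ι, mul_neg]
    exact this
  | mul a b ha hb => rw [mul_assoc, hb, ← mul_assoc, ha, map_mul, mul_assoc]
  | add a b ha hb => rw [add_mul, ha, hb, map_add, mul_add]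

theorem E_sca : SCA (CliffordAlgebra.involute : ExteriorAlgebra k M →ₐ[k] ExteriorAlgebra k M) where
  inv := fun x => CliffordAlgebra.involute_involute x
  even := fun x y hx => E_even x y hx
  odd := fun x y hx hy => by
    have := E_odd x y hx
    rw [hy, mul_neg] at this
    rw [this, neg_neg]

end

section
variable {k : Type u} [Field k] {I : Type}

/-- The generators. -/
noncomputable def E_gen (k : Type u) [Field k] (a : I) : ExteriorAlgebra k (I →₀ k) :=
  ExteriorAlgebra.ι k (Finsupp.single a (1 : k))

theorem E_contract (a : I) (L : List I) (ha : a ∉ L) :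
    CliffordAlgebra.contractLeft (Q := (0 : QuadraticForm k (I →₀ k))) (Finsupp.lapply a)
      (L.map (E_gen k)).prod = 0 := by
  induction L with
  | nil => simp
  | cons b L ih =>
    rw [List.mem_cons, not_or] at ha
    rw [List.map_cons, List.prod_cons]
    have h := CliffordAlgebra.contractLeft_ι_mul (Q := (0 : QuadraticForm k (I →₀ k)))
      (Finsupp.lapply a) (Finsupp.single b (1 : k)) (L.map (E_gen k)).prod
    rw [ih ha.2, mul_zero, sub_zero, Finsupp.lapply_apply,
      Finsupp.single_eq_of_ne ha.1, zero_smul] at h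
    exact h

theorem E_prod_ne (L : List I) (hL : L.Nodup) : (L.map (E_gen k)).prod ≠ 0 := by
  induction L with
  | nil => simp
  | cons b L ih =>
    rw [List.nodup_cons] at hL
    intro h0
    rw [List.map_cons, List.prod_cons] at h0
    have h := CliffordAlgebra.contractLeft_ι_mul (Q := (0 : QuadraticForm k (I →₀ k)))
      (Finsupp.lapply b) (Finsupp.single b (1 : k)) (L.map (E_gen k)).prod
    rw [E_contract b L hL.1, mul_zero, sub_zero, Finsupp.lapply_apply,
      Finsupp.single_eq_same, one_smul] at h
    apply ih hL.2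
    rw [← h]
    have h1 : CliffordAlgebra.ι (0 : QuadraticForm k (I →₀ k)) (Finsupp.single b (1 : k)) *
      (L.map (E_gen k)).prod = 0 := h0
    rw [h1, map_zero]

end

/-- The list of generators attached to a position. -/
def E_lst (ε : ℕ → Bool) (p : ℕ × ℕ) : List (ℕ × ℕ × Bool) :=
  if ε p.1 = true then [(p.1, p.2, false)] else [(p.1, p.2, false), (p.1, p.2, true)]

theorem E_lst_mem (ε : ℕ → Bool) (p : ℕ × ℕ) (a : ℕ × ℕ × Bool) (ha : a ∈ E_lst ε p) :
    (a.1, a.2.1) = p := by
  unfold E_lst at ha
  split_ifs at ha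
  · simp only [List.mem_singleton] at ha
    rw [ha]
  · simp only [List.mem_cons, List.not_mem_nil, or_false] at ha
    rcases ha with ha | ha <;> rw [ha]

theorem E_lst_nodup (ε : ℕ → Bool) (l : List (ℕ × ℕ)) (hl : l.Nodup) :
    (l.flatMap (E_lst ε)).Nodup := by
  rw [List.nodup_flatMap]
  refine ⟨fun p _ => ?_, ?_⟩
  · unfold E_lst
    split_ifs <;> simp
  · refine hl.imp fun {p q} hpq => ?_
    intro a ha hb
    exact hpq ((E_lst_mem ε p a ha).symm.trans (E_lst_mem ε q a hb))

theorem stE : St_E.{u} := by
  intro k _ _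
  refine ⟨ExteriorAlgebra k ((ℕ × ℕ × Bool) →₀ k), inferInstance, inferInstance,
    CliffordAlgebra.involute, E_sca, fun ε => ?_⟩
  refine ⟨fun j i => ((E_lst ε (j, i)).map (E_gen k)).prod, fun j i => ?_, fun j i => ?_,
    fun l hl => ?_⟩
  · have h : ∀ a : ℕ × ℕ × Bool, CliffordAlgebra.involute (E_gen k a) = - E_gen k a :=
      fun a => CliffordAlgebra.involute_ι _
    by_cases hj : ε j = true <;> simp [E_lst, h, hj]
  · have h : ∀ a : ℕ × ℕ × Bool, E_gen k a * E_gen k a = 0 :=
      fun a => ExteriorAlgebra.ι_sq_zero _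
    have h' : ∀ a b : ℕ × ℕ × Bool, E_gen k a * E_gen k b = - (E_gen k b * E_gen k a) :=
      fun a b => eq_neg_of_add_eq_zero_left (ExteriorAlgebra.ι_add_mul_swap _ _)
    by_cases hj : ε j = true
    · simp [E_lst, h, hj]
    · simp only [E_lst, if_neg hj, List.map_cons, List.map_nil, List.prod_cons, List.prod_nil,
        mul_one]
      rw [mul_assoc, ← mul_assoc (E_gen k (j, i, true)), h' (j, i, true), neg_mul, mul_neg,
        mul_assoc, h, mul_zero, mul_zero, neg_zero]
  · have h := E_prod_ne (k := k) _ (E_lst_nodup ε l hl)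
    have h2 : ∀ l : List (ℕ × ℕ), ((l.flatMap (E_lst ε)).map (E_gen k)).prod =
        (l.map fun p => ((E_lst ε (p.1, p.2)).map (E_gen k)).prod).prod := by
      intro l
      induction l with
      | nil => simp
      | cons p l ih => rw [List.flatMap_cons, List.map_append, List.prod_append, ih,
          List.map_cons, List.prod_cons]
    rwa [h2] at h

end Pool.Agent.Lib.EB
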