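import Pool.Agent.Lib.EB.Blue

/-!
From commutative algebras to symmetric multilinear maps.
-/

namespace Pool.Agent.Lib.EB

universe u

/-- The multiset of values of a tuple. -/
def f3uMs {F : Type*} {m : ℕ} (c : Fin m → F) : Multiset F := ∑ i, ({c i} : Multiset F)

theorem f3uMs_cons {F : Type*} {m : ℕ} (a : F) (c : Fin m → F) :
    f3uMs (Fin.cons a c : Fin (m + 1) → F) = {a} + f3uMs c := by
  simp only [f3uMs, Fin.sum_univ_succ, Fin.cons_zero, Fin.cons_succ]

theorem f3uMs_card {F : Type*} {m : ℕ} (c : Fin m → F) : (f3uMs c).card = m := by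
  simp [f3uMs, Multiset.card_sum]

theorem f3uMs_ex {F : Type*} (m : ℕ) (s : Multiset F) (h : s.card = m) :
    ∃ c : Fin m → F, f3uMs c = s := by
  induction m generalizing s with
  | zero => exact ⟨Fin.elim0, by rw [Multiset.card_eq_zero.1 h]; rfl⟩
  | succ m ih =>
    obtain ⟨a, ha⟩ := Multiset.card_pos_iff_exists_mem.1 (show 0 < s.card by omega)
    obtain ⟨t, rfl⟩ := Multiset.exists_cons_of_mem ha
    obtain ⟨c, rfl⟩ := ih t (by simpa using h)
    exact ⟨Fin.cons a c, by rw [f3uMs_cons, Multiset.singleton_add]⟩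

theorem f3uMs_perm {F : Type*} {m : ℕ} {c d : Fin m → F} (h : f3uMs c = f3uMs d) :
    ∃ σ : Equiv.Perm (Fin m), c = fun i => d (σ i) := by
  classical
  have key : ∀ (c : Fin m → F) (a : F),
      Fintype.card {i // c i = a} = (f3uMs c).count a := fun c a => by
    rw [Fintype.card_subtype, Finset.card_filter, f3uMs, Multiset.count_sum']
    exact Finset.sum_congr rfl fun i _ => by simp only [Multiset.count_singleton, eq_comm]
  have e : ∀ a, {i // c i = a} ≃ {i // d i = a} := fun a =>
    Fintype.equivOfCardEq (by rw [key, key, h])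
  exact ⟨Equiv.ofFiberEquiv e, funext fun i => (Equiv.ofFiberEquiv_map e i).symm⟩

theorem f3u_ext {F W : Type*} [Zero W] {m : ℕ} (Θ : (Fin m → F) → W)
    (hs : ∀ (σ : Equiv.Perm (Fin m)) (c : Fin m → F), Θ (fun i => c (σ i)) = Θ c) :
    ∃ T : Multiset F → W, (∀ c, T (f3uMs c) = Θ c) ∧ ∀ s, s.card ≠ m → T s = 0 := by
  classical
  refine ⟨fun s => if h : s.card = m then Θ (f3uMs_ex m s h).choose else 0, fun c => ?_,
    fun s h => dif_neg h⟩
  have h := f3uMs_card c
  obtain ⟨σ, hσ⟩ := f3uMs_perm (f3uMs_ex m _ h).choose_spec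
  simp only [dif_pos h]
  rw [hσ, hs]

theorem stF3U : St_F3.{u} → St_F3U.{u} := by
  intro h3 k _ _ _ _ F _ _ f0 hB r hr
  let X : F → AddMonoidAlgebra k (Multiset F) := fun a => AddMonoidAlgebra.single {a} 1
  let I : Ideal (AddMonoidAlgebra k (Multiset F)) := Ideal.span
    {p | (∃ a b, p = X (a + b) - (X a + X b)) ∨ (∃ (t : k) (a : F), p = X (t • a) - t • X a) ∨
      ∃ u : ℕ → F, p = r.sum fun e e' => X (e.ev br u) * X (e'.ev br u)}
  let π := Ideal.Quotient.mkₐ k I
  let ξ0 : F →ₗ[k] AddMonoidAlgebra k (Multiset F) ⧸ I :=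
    { toFun := fun a => π (X a)
      map_add' := fun a b => by
        rw [← map_add]
        exact Ideal.Quotient.eq.2 (Ideal.subset_span (.inl ⟨a, b, rfl⟩))
      map_smul' := fun t a => by
        rw [RingHom.id_apply, ← map_smul]
        exact Ideal.Quotient.eq.2 (Ideal.subset_span (.inr (.inl ⟨t, a, rfl⟩))) }
  obtain ⟨n, N, hN⟩ := h3 k F f0 hB r hr _ ξ0 fun u => by
    have : π (r.sum fun e e' => X (e.ev br u) * X (e'.ev br u)) = 0 :=
      Ideal.Quotient.eq_zero_iff_mem.2 (Ideal.subset_span (.inr (.inr ⟨u, rfl⟩)))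
    simp only [Rel.sum, map_sum, map_smul, map_mul] at this
    exact this
  refine ⟨n, N, fun W _ _ Θ hs hrel c hc => ?_⟩
  obtain ⟨T, hT, hT0⟩ := f3u_ext Θ hs
  let L : AddMonoidAlgebra k (Multiset F) →ₗ[k] W :=
    (AddMonoidAlgebra.basis (Multiset F) k).constr k T
  have hL : ∀ s, L (AddMonoidAlgebra.single s 1) = T s := fun s =>
    (AddMonoidAlgebra.basis (Multiset F) k).constr_basis k T s
  have hX : ∀ a s, X a * AddMonoidAlgebra.single s 1 = AddMonoidAlgebra.single ({a} + s) 1 :=
    fun a s => by simp only [X, AddMonoidAlgebra.single_mul_single, mul_one]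
  have h1 : ∀ (s : Multiset F) (a : F), s.card ≠ N + 1 → T ({a} + s) = 0 := fun s a h =>
    hT0 _ (by rw [Multiset.card_add, Multiset.card_singleton]; omega)
  have hI : ∀ p ∈ I, ∀ q, L (p * q) = 0 := by
    intro p hp
    induction hp using Submodule.span_induction with
    | zero => intro q; rw [zero_mul, map_zero]
    | add x y _ _ hx hy => intro q; rw [add_mul, map_add, hx, hy, add_zero]
    | smul a x _ hx => intro q; rw [smul_eq_mul, mul_comm a, mul_assoc, hx]
    | mem p hp =>
      have : ∀ s, L (p * AddMonoidAlgebra.single s 1) = 0 := by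
        intro s
        rcases hp with ⟨a, b, rfl⟩ | ⟨t, a, rfl⟩ | ⟨u, rfl⟩
        · simp only [sub_mul, add_mul, map_sub, map_add, hX, hL]
          by_cases h : s.card = N + 1
          · obtain ⟨d, rfl⟩ := f3uMs_ex _ s h
            simp only [← f3uMs_cons, hT]
            rw [Θ.cons_add, sub_self]
          · simp only [h1 s _ h, add_zero, sub_zero]
        · simp only [sub_mul, smul_mul_assoc, map_sub, map_smul, hX, hL]
          by_cases h : s.card = N + 1
          · obtain ⟨d, rfl⟩ := f3uMs_ex _ s h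
            simp only [← f3uMs_cons, hT]
            rw [Θ.cons_smul, sub_self]
          · simp only [h1 s _ h, smul_zero, sub_zero]
        · simp only [Rel.sum, Finset.sum_mul, smul_mul_assoc, mul_assoc, map_sum, map_smul, hX, hL]
          by_cases h : s.card = N
          · obtain ⟨d, rfl⟩ := f3uMs_ex _ s h
            simp only [← f3uMs_cons, hT]
            exact hrel u d
          · have : ∀ a b : F, T ({a} + ({b} + s)) = 0 := fun a b =>
              h1 _ _ (by rw [Multiset.card_add, Multiset.card_singleton]; omega)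
            simp only [this, smul_zero, Finset.sum_const_zero]
      intro q
      induction q using AddMonoidAlgebra.induction_linear with
      | zero => rw [mul_zero, map_zero]
      | add x y hx hy => rw [mul_add, map_add, hx, hy, add_zero]
      | single s t =>
        have e : AddMonoidAlgebra.single s t = t • AddMonoidAlgebra.single s (1 : k) := by simp
        rw [e, mul_smul_comm, map_smul, this, smul_zero]
  have hp : ∀ (m : ℕ) (d : Fin m → F), ∏ i, X (d i) = AddMonoidAlgebra.single (f3uMs d) 1 := by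
    intro m
    induction m with
    | zero => intro d; rfl
    | succ m ih =>
      intro d
      rw [Fin.prod_univ_succ, ih, hX, f3uMs, f3uMs, Fin.sum_univ_succ]
  have h0 : π (∏ i, X (c i)) = 0 := by
    have := hN (fun i => c i.succ.succ) fun i => hc _
    rw [map_prod, Fin.prod_univ_succ, Fin.prod_univ_succ]
    exact (congrArg (fun z => π (X (c 0)) * (π (X (c (Fin.succ 0))) * z)) this).trans (by simp)
  have := hI _ (Ideal.Quotient.eq_zero_iff_mem.1 h0) 1
  rwa [mul_one, hp, hL, hT] at this

end Pool.Agent.Lib.EB
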