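import Pool.Agent.Lib.EB.Blue

/-!
Block FIN: strong Engel algebras are solvable.
-/

namespace Pool.Agent.Lib.EB

open Pool.Agent.Lib.MP_eb02d8_al

universe u

namespace FIN

theorem mem_dt (n : ℕ) (s : ℕ → ℕ) (x : ℕ) : x ∈ (dt n s).lv ↔ ∃ i, i < 2 ^ n ∧ s i = x := by
  induction n generalizing s with
  | zero =>
    simp only [dt, Tr.lv, List.mem_singleton, pow_zero, Nat.lt_one_iff]
    constructor
    · rintro rfl
      exact ⟨0, rfl, rfl⟩
    · rintro ⟨i, rfl, rfl⟩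
      rfl
  | succ n ih =>
    simp only [dt, Tr.lv, List.mem_append, ih, pow_succ]
    constructor
    · rintro (⟨i, hi, rfl⟩ | ⟨i, hi, rfl⟩)
      · exact ⟨2 * i, by omega, rfl⟩
      · exact ⟨2 * i + 1, by omega, rfl⟩
    · rintro ⟨i, hi, rfl⟩
      rcases Nat.even_or_odd' i with ⟨j, rfl | rfl⟩
      · exact Or.inl ⟨j, by omega, rfl⟩
      · exact Or.inr ⟨j, by omega, rfl⟩

theorem nodup_dt (n : ℕ) (s : ℕ → ℕ) (hs : Function.Injective s) : (dt n s).lv.Nodup := by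
  induction n generalizing s with
  | zero => simp [dt, Tr.lv]
  | succ n ih =>
    simp only [dt, Tr.lv]
    refine List.nodup_append.2 ⟨ih _ ?_, ih _ ?_, ?_⟩
    · intro i j h
      have := hs h
      omega
    · intro i j h
      have := hs h
      omega
    · intro a ha b hb hab
      obtain ⟨i, -, rfl⟩ := (mem_dt _ _ _).1 ha
      obtain ⟨j, -, rfl⟩ := (mem_dt _ _ _).1 hb
      have := hs hab
      omega

variable {F : Type u} [LieRing F]

theorem dw_congr (n : ℕ) (a b : ℕ → F) (h : ∀ i, i < 2 ^ n → a i = b i) : dw n a = dw n b := by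
  induction n generalizing a b with
  | zero => exact h 0 (by simp)
  | succ n ih =>
    simp only [dw]
    rw [pow_succ] at h
    rw [ih (fun i => a (2 * i)) (fun i => b (2 * i)) (fun i hi => h _ (by omega)),
      ih (fun i => a (2 * i + 1)) (fun i => b (2 * i + 1)) (fun i hi => h _ (by omega))]

theorem dw_succ (n : ℕ) (a : ℕ → F) :
    dw (n + 1) a = dw n (fun i => ⁅a i, a (i + 2 ^ n)⁆) := by
  induction n generalizing a with
  | zero => rfl
  | succ n ih =>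
    have h1 : ∀ i, 2 * (i + 2 ^ n) = 2 * i + 2 ^ (n + 1) := fun i => by ring
    have h2 : ∀ i, 2 * i + 2 ^ (n + 1) + 1 = 2 * i + 1 + 2 ^ (n + 1) := fun i => by ring
    have h3 : dw (n + 1 + 1) a =
        ⁅dw (n + 1) (fun i => a (2 * i)), dw (n + 1) (fun i => a (2 * i + 1))⁆ := rfl
    rw [h3, ih, ih]
    simp only [h1, h2]
    rfl

theorem dw_neg (n : ℕ) : ∃ e : ℤ, ∀ a : ℕ → F, dw n (fun i => - a i) = e • dw n a := by
  induction n with
  | zero => exact ⟨-1, fun a => by simp [dw]⟩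
  | succ n ih =>
    obtain ⟨e, he⟩ := ih
    refine ⟨e * e, fun a => ?_⟩
    simp only [dw]
    rw [he (fun i => a (2 * i)), he (fun i => a (2 * i + 1)), zsmul_lie, lie_zsmul, mul_smul]

theorem via_lt {t M : ℕ} (w : Fin t ↪ ℕ) (hw : ∀ i, w i < M) (τ : Equiv.Perm (Fin t)) (i : ℕ)
    (hi : i < M) : τ.viaEmbedding w i < M := by
  by_cases h : i ∈ Set.range w
  · obtain ⟨j, rfl⟩ := h
    rw [Equiv.Perm.viaEmbedding_apply]
    exact hw _
  · rw [Equiv.Perm.viaEmbedding_apply_of_notMem _ _ _ h]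
    exact hi

theorem via_ge {t M : ℕ} (w : Fin t ↪ ℕ) (hw : ∀ i, w i < M) (τ : Equiv.Perm (Fin t)) (i : ℕ) :
    τ.viaEmbedding w (i + M) = i + M := by
  refine Equiv.Perm.viaEmbedding_apply_of_notMem _ _ _ ?_
  rintro ⟨j, hj⟩
  have := hw j
  omega

theorem via_mul {α β : Type*} (w : α ↪ β) (σ τ : Equiv.Perm α) (i : β) :
    (σ * τ).viaEmbedding w i = σ.viaEmbedding w (τ.viaEmbedding w i) := by
  by_cases h : i ∈ Set.range w
  · obtain ⟨j, rfl⟩ := h
    simp only [Equiv.Perm.viaEmbedding_apply, Equiv.Perm.mul_apply]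
  · simp only [Equiv.Perm.viaEmbedding_apply_of_notMem _ _ _ h]

theorem via_via {α β γ : Type*} (B : α ↪ β) (w : β ↪ γ) (τ : Equiv.Perm α) (i : γ) :
    (τ.viaEmbedding B).viaEmbedding w i = τ.viaEmbedding (B.trans w) i := by
  by_cases h : i ∈ Set.range (B.trans w)
  · obtain ⟨j, rfl⟩ := h
    rw [Equiv.Perm.viaEmbedding_apply τ (B.trans w)]
    simp only [Function.Embedding.trans_apply, Equiv.Perm.viaEmbedding_apply]
  · rw [Equiv.Perm.viaEmbedding_apply_of_notMem _ _ _ h]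
    by_cases h' : i ∈ Set.range w
    · obtain ⟨j, rfl⟩ := h'
      rw [Equiv.Perm.viaEmbedding_apply, Equiv.Perm.viaEmbedding_apply_of_notMem]
      rintro ⟨l, rfl⟩
      exact h ⟨l, rfl⟩
    · rw [Equiv.Perm.viaEmbedding_apply_of_notMem _ _ _ h']

variable {k : Type u} [Field k] [LieAlgebra k F] {t : ℕ}

theorem s3 (hS : SE k F t) (r : ℕ) (w : Fin t ↪ ℕ) (hw : ∀ i, w i < 2 ^ r) (c : ℕ → F) :
    ∑ τ : Equiv.Perm (Fin t), dw r (fun i => c (τ.viaEmbedding w i)) = 0 := by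
  have h := hS (dt r id) w (nodup_dt r id Function.injective_id)
    (fun i => (mem_dt _ _ _).2 ⟨w i, hw i, rfl⟩) c
  simpa only [ev_dt, id] using h

theorem s1 (hS : SE k F t) (r : ℕ) (w : Fin t ↪ ℕ) (hw : ∀ i, w i < 2 ^ r) (a b : ℕ → F) :
    ∑ τ : Equiv.Perm (Fin t), dw r (fun i => ⁅a (τ.viaEmbedding w i), b i⁆) = 0 := by
  have h := s3 hS (r + 1) w (fun i => by have := hw i; rw [pow_succ]; omega)
    (fun j => if j < 2 ^ r then a j else b (j - 2 ^ r))
  rw [← h]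
  refine Finset.sum_congr rfl fun τ _ => ?_
  rw [dw_succ]
  refine dw_congr _ _ _ fun i hi => ?_
  simp only [via_ge w hw, if_pos (via_lt w hw τ i hi)]
  rw [if_neg (by omega), Nat.add_sub_cancel]

theorem s2 (hS : SE k F t) (r : ℕ) (w : Fin t ↪ ℕ) (hw : ∀ i, w i < 2 ^ r) (a b : ℕ → F) :
    ∑ τ : Equiv.Perm (Fin t), dw r (fun i => ⁅a i, b (τ.viaEmbedding w i)⁆) = 0 := by
  obtain ⟨e, he⟩ := dw_neg (F := F) r
  have h : ∀ τ : Equiv.Perm (Fin t), dw r (fun i => ⁅a i, b (τ.viaEmbedding w i)⁆) =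
      e • dw r (fun i => ⁅b (τ.viaEmbedding w i), a i⁆) := by
    intro τ
    rw [← he]
    simp only [lie_skew]
  simp only [h]
  rw [← Finset.smul_sum, s1 hS r w hw, smul_zero]

theorem s4 (hS : SE k F t) (r : ℕ) (w : Fin t ↪ ℕ) (hw : ∀ i, w i < 2 ^ r) (a b : ℕ → F) :
    ∑ τ : Equiv.Perm (Fin t), ∑ τ' : Equiv.Perm (Fin t),
      (((Equiv.Perm.sign τ : ℤˣ) : ℤ) * ((Equiv.Perm.sign τ' : ℤˣ) : ℤ)) •
        dw r (fun i => ⁅a (τ.viaEmbedding w i), b (τ'.viaEmbedding w i)⁆) = 0 := by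
  have h : ∀ τ : Equiv.Perm (Fin t), ∑ τ' : Equiv.Perm (Fin t),
      (((Equiv.Perm.sign τ : ℤˣ) : ℤ) * ((Equiv.Perm.sign τ' : ℤˣ) : ℤ)) •
        dw r (fun i => ⁅a (τ.viaEmbedding w i), b (τ'.viaEmbedding w i)⁆) =
      ∑ ρ : Equiv.Perm (Fin t), ((Equiv.Perm.sign ρ : ℤˣ) : ℤ) •
        dw r (fun i => ⁅a (τ.viaEmbedding w i), b (ρ.viaEmbedding w (τ.viaEmbedding w i))⁆) := by
    intro τ
    symm
    refine Fintype.sum_equiv (Equiv.mulRight τ) _ _ fun ρ => ?_
    simp only [Equiv.coe_mulRight, via_mul, Equiv.Perm.sign_mul, Units.val_mul]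
    congr 1
    have : ((Equiv.Perm.sign τ : ℤˣ) : ℤ) * ((Equiv.Perm.sign τ : ℤˣ) : ℤ) = 1 := by
      rw [← Units.val_mul, Int.units_mul_self, Units.val_one]
    linear_combination (-((Equiv.Perm.sign ρ : ℤˣ) : ℤ)) * this
  simp only [h]
  rw [Finset.sum_comm]
  refine Finset.sum_eq_zero fun ρ _ => ?_
  rw [← Finset.smul_sum, s3 hS r w hw (fun j => ⁅a j, b (ρ.viaEmbedding w j)⁆), smul_zero]

theorem s5 (hS : SE k F t) (r : ℕ) (w : Fin t ↪ ℕ) (hw : ∀ i, w i < 2 ^ r) (a b : ℕ → F)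
    (ε : Bool → Bool) :
    ∑ τ : Bool → Equiv.Perm (Fin t),
      (∏ j, if ε j = true then ((Equiv.Perm.sign (τ j) : ℤˣ) : ℤ) else 1) •
        dw r (fun i => ⁅a ((τ true).viaEmbedding w i), b ((τ false).viaEmbedding w i)⁆) = 0 := by
  have h : ∑ τ : Bool → Equiv.Perm (Fin t),
      (∏ j, if ε j = true then ((Equiv.Perm.sign (τ j) : ℤˣ) : ℤ) else 1) •
        dw r (fun i => ⁅a ((τ true).viaEmbedding w i), b ((τ false).viaEmbedding w i)⁆) =
      ∑ p : Equiv.Perm (Fin t) × Equiv.Perm (Fin t),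
        ((if ε true = true then ((Equiv.Perm.sign p.2 : ℤˣ) : ℤ) else 1) *
          (if ε false = true then ((Equiv.Perm.sign p.1 : ℤˣ) : ℤ) else 1)) •
        dw r (fun i => ⁅a (p.2.viaEmbedding w i), b (p.1.viaEmbedding w i)⁆) := by
    refine Fintype.sum_equiv (Equiv.boolArrowEquivProd _) _ _ fun τ => ?_
    rw [Fintype.prod_bool]
    rfl
  rw [h, Fintype.sum_prod_type]
  cases h1 : ε true
  · refine Finset.sum_eq_zero fun τ _ => ?_
    simp only [Bool.false_eq_true, if_false, one_mul]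
    rw [← Finset.smul_sum, s1 hS r w hw a (fun i => b (τ.viaEmbedding w i)), smul_zero]
  · rw [Finset.sum_comm]
    cases h2 : ε false
    · refine Finset.sum_eq_zero fun τ _ => ?_
      simp only [Bool.false_eq_true, if_false, mul_one]
      rw [← Finset.smul_sum, s2 hS r w hw (fun i => a (τ.viaEmbedding w i)) b, smul_zero]
    · simpa only [if_true] using s4 hS r w hw a b

end FIN

theorem stFIN (hY : St_SY.{u}) : St_FIN.{u} := by
  intro k _ _ F _ _ t hS
  obtain ⟨N, hN⟩ := hY k Bool t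
  refine ⟨N + 1, fun u => ?_⟩
  rw [ev_dt, FIN.dw_succ]
  have key := hN N le_rfl F
    (fun σ => dw N (fun i => ⁅u ((σ true).viaEmbedding Fin.valEmbedding i),
      u ((σ false).viaEmbedding Fin.valEmbedding i + 2 ^ N)⁆)) (by
      intro σ B ε
      simp only [FIN.via_mul, FIN.via_via]
      exact FIN.s5 hS N (B.trans Fin.valEmbedding)
        (fun i => lt_trans (B i).2 Nat.lt_two_pow_self)
        (fun j => u ((σ true).viaEmbedding Fin.valEmbedding j))
        (fun j => u ((σ false).viaEmbedding Fin.valEmbedding j + 2 ^ N)) ε) 1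
  have h1 : ∀ i : ℕ, (1 : Equiv.Perm (Fin N)).viaEmbedding Fin.valEmbedding i = i := by
    intro i
    by_cases h : i ∈ Set.range (Fin.valEmbedding (n := N))
    · obtain ⟨j, rfl⟩ := h
      rw [Equiv.Perm.viaEmbedding_apply]
      rfl
    · rw [Equiv.Perm.viaEmbedding_apply_of_notMem _ _ _ h]
  simpa only [Pi.one_apply, h1, id] using key

end Pool.Agent.Lib.EB
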