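import Pool.Agent.Lib.EB.Sign

/-!
The ultraproduct construction.
-/

namespace Pool.Agent.Lib.EB

open Function Filter

universe u

namespace GERM

/-- A code for monomials. -/
def enc : Tr → ℕ
  | Tr.lf i => Nat.pair 0 i
  | Tr.nd a b => Nat.pair (enc a + 1) (enc b)

theorem enc_inj : Injective enc := by
  intro a
  induction a with
  | lf i =>
    intro b h
    cases b with
    | lf j => simp only [enc, Nat.pair_eq_pair, true_and] at h; rw [h]
    | nd c d => simp [enc, Nat.pair_eq_pair] at h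
  | nd a b ha hb =>
    intro c h
    cases c with
    | lf j => simp [enc, Nat.pair_eq_pair] at h
    | nd c d =>
      simp only [enc, Nat.pair_eq_pair, add_left_inj] at h
      rw [ha h.1, hb h.2]

theorem countable_tr : Countable Tr := enc_inj.countable

variable {k : Type u} [Field k]

/-- Sequences vanishing along the ultrafilter. -/
def nul (k : Type u) [Field k] (A : Type u) [AddCommGroup A] [Module k A] :
    Submodule k (ℕ → A) where
  carrier := {x | ∀ᶠ n in (hyperfilter ℕ : Filter ℕ), x n = 0}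
  add_mem' := fun {x y} hx hy => by
    filter_upwards [hx, hy] with n h h'
    simp [h, h']
  zero_mem' := Eventually.of_forall fun _ => rfl
  smul_mem' := fun c x hx => by
    filter_upwards [hx] with n h
    simp [h]

/-- The same as an ideal. -/
def nulI (C : Type u) [CommRing C] : Ideal (ℕ → C) where
  carrier := {x | ∀ᶠ n in (hyperfilter ℕ : Filter ℕ), x n = 0}
  add_mem' := fun {x y} hx hy => by
    filter_upwards [hx, hy] with n h h'
    simp [h, h']
  zero_mem' := Eventually.of_forall fun _ => rfl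
  smul_mem' := fun c x hx => by
    filter_upwards [hx] with n h
    simp [h]

variable {A : Type u} [AddCommGroup A] [Module k A]

theorem mk_eq {x y : ℕ → A} :
    (nul k A).mkQ x = (nul k A).mkQ y ↔ ∀ᶠ n in (hyperfilter ℕ : Filter ℕ), x n = y n := by
  rw [Submodule.mkQ_apply, Submodule.mkQ_apply, Submodule.Quotient.eq]
  change (∀ᶠ n in (hyperfilter ℕ : Filter ℕ), (x - y) n = 0) ↔ _
  simp only [Pi.sub_apply, sub_eq_zero]

/-- Pointwise product. -/
def mP (m : A →ₗ[k] A →ₗ[k] A) : (ℕ → A) →ₗ[k] (ℕ → A) →ₗ[k] (ℕ → A) :=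
  LinearMap.mk₂ k (fun x y n => m (x n) (y n))
    (fun _ _ _ => by ext n; simp) (fun _ _ _ => by ext n; simp)
    (fun _ _ _ => by ext n; simp) (fun _ _ _ => by ext n; simp)

theorem mP_apply (m : A →ₗ[k] A →ₗ[k] A) (x y : ℕ → A) (n : ℕ) :
    mP m x y n = m (x n) (y n) := rfl

/-- The product on the ultrapower. -/
noncomputable def mG (m : A →ₗ[k] A →ₗ[k] A) :
    ((ℕ → A) ⧸ nul k A) →ₗ[k] ((ℕ → A) ⧸ nul k A) →ₗ[k] ((ℕ → A) ⧸ nul k A) :=
  LinearMap.liftQ₂ (nul k A) (nul k A) ((mP m).compr₂ (nul k A).mkQ)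
    (fun x hx => by
      ext y
      change (nul k A).mkQ (mP m x _) = 0
      rw [← map_zero (nul k A).mkQ, mk_eq]
      filter_upwards [hx] with n h
      simp [mP_apply, h])
    (fun x hx => by
      ext y
      change (nul k A).mkQ (mP m _ x) = 0
      rw [← map_zero (nul k A).mkQ, mk_eq]
      filter_upwards [hx] with n h
      simp [mP_apply, h])

theorem mG_mk (m : A →ₗ[k] A →ₗ[k] A) (x y : ℕ → A) :
    (nul k A).mkQ (mP m x y) = mG m ((nul k A).mkQ x) ((nul k A).mkQ y) := rfl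

/-- The involution on the ultrapower. -/
noncomputable def wG (ω : A →ₗ[k] A) : ((ℕ → A) ⧸ nul k A) →ₗ[k] ((ℕ → A) ⧸ nul k A) :=
  (nul k A).mapQ (nul k A) (ω.compLeft ℕ) fun x hx => by
    change ∀ᶠ n in (hyperfilter ℕ : Filter ℕ), ω (x n) = 0
    filter_upwards [hx] with n h
    simp [h]

theorem wG_mk (ω : A →ₗ[k] A) (x : ℕ → A) :
    wG ω ((nul k A).mkQ x) = (nul k A).mkQ fun n => ω (x n) := rfl

/-- The linear map on the ultrapower. -/
noncomputable def xG {C : Type u} [CommRing C] [Algebra k C] (Ξ : A →ₗ[k] C) :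
    ((ℕ → A) ⧸ nul k A) →ₗ[k] ((ℕ → C) ⧸ nulI C) :=
  (nul k A).liftQ ((Ideal.Quotient.mkₐ k (nulI C)).toLinearMap ∘ₗ Ξ.compLeft ℕ) fun x hx => by
    change Ideal.Quotient.mk (nulI C) (fun n => Ξ (x n)) = 0
    rw [Ideal.Quotient.eq_zero_iff_mem]
    change ∀ᶠ n in (hyperfilter ℕ : Filter ℕ), Ξ (x n) = 0
    filter_upwards [hx] with n h
    simp [h]

theorem xG_mk {C : Type u} [CommRing C] [Algebra k C] (Ξ : A →ₗ[k] C) (x : ℕ → A) :
    xG Ξ ((nul k A).mkQ x) = Ideal.Quotient.mkₐ k (nulI C) fun n => Ξ (x n) := rfl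

theorem ev_mk (m : A →ₗ[k] A →ₗ[k] A) (v : ℕ → ℕ → A) (b : Tr) :
    b.ev (fun a b => mG m a b) (fun i => (nul k A).mkQ (v i)) =
      (nul k A).mkQ fun n => b.ev (fun a b => m a b) fun i => v i n := by
  induction b with
  | lf i => rfl
  | nd a b ha hb => simp only [Tr.ev, ha, hb]; rfl

/-- Homogeneous assignments have pointwise homogeneous representatives. -/
theorem hom_rep {ω : A →ₗ[k] A} {ε : ℕ → Bool} {u : ℕ → (ℕ → A) ⧸ nul k A}
    (hu : Hom (wG ω) ε u) : ∃ v : ℕ → ℕ → A, u = (fun i => (nul k A).mkQ (v i)) ∧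
      ∀ n, Hom ω ε fun i => v i n := by
  classical
  choose x hx using fun i => (nul k A).mkQ_surjective (u i)
  refine ⟨fun i n => if ω (x i n) = (if ε i = true then - x i n else x i n) then x i n else 0,
    ?_, fun n i => ?_⟩
  · ext i
    have h := hu i
    rw [← hx i, wG_mk] at h
    have h' : (nul k A).mkQ (fun n => ω (x i n)) =
        (nul k A).mkQ fun n => if ε i = true then - x i n else x i n := by
      rw [h]
      split_ifs
      · rw [← map_neg]; rfl
      · rfl
    rw [← hx i, mk_eq]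
    filter_upwards [mk_eq.1 h'] with n hn
    rw [if_pos hn]
  · dsimp only
    by_cases h : ω (x i n) = (if ε i = true then - x i n else x i n)
    · rw [if_pos h]; exact h
    · rw [if_neg h]; simp

theorem tp1G {F : Type u} [LieRing F] [LieAlgebra k F] {m : A →ₗ[k] A →ₗ[k] A}
    {ω : A →ₗ[k] A} (h : TP1 F m ω) : TP1 F (mG m) (wG ω) where
  inv := fun a => by
    obtain ⟨x, rfl⟩ := (nul k A).mkQ_surjective a
    simp only [wG_mk, h.inv]
  mul := fun a b => by
    obtain ⟨x, rfl⟩ := (nul k A).mkQ_surjective a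
    obtain ⟨y, rfl⟩ := (nul k A).mkQ_surjective b
    rw [← mG_mk, wG_mk, wG_mk, wG_mk, ← mG_mk]
    congr 1
    ext n
    simp only [mP_apply, h.mul]
  tp := fun l f hl hf hF ε u hu => by
    obtain ⟨v, rfl, hv⟩ := hom_rep hu
    rw [← map_spev (m := fun a b => mP m a b) (nul k A).mkQ (mG_mk m) ε v f]
    have : spev k ε (fun a b => mP m a b) v f = 0 := by
      ext n
      have := map_spev (m := fun a b => mP m a b) (m' := fun a b => m a b)
        (LinearMap.proj n : (ℕ → A) →ₗ[k] A) (fun _ _ => rfl) ε v f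
      exact this.trans (h.tp l f hl hf hF ε _ (hv n))
    rw [this, map_zero]

theorem svalG (r : Rel k) {m : A →ₗ[k] A →ₗ[k] A} {ω : A →ₗ[k] A} {C : Type u} [CommRing C]
    [Algebra k C] {Ξ : A →ₗ[k] C} {K : ℕ}
    (h : ∀ ε u, Hom ω ε u → (r.sval m Ξ ε u) ^ K = 0) (ε : ℕ → Bool)
    (u : ℕ → (ℕ → A) ⧸ nul k A) (hu : Hom (wG ω) ε u) :
    (r.sval (mG m) (xG Ξ) ε u) ^ K = 0 := by
  obtain ⟨v, rfl, hv⟩ := hom_rep hu
  have e : r.sval (mG m) (xG Ξ) ε (fun i => (nul k A).mkQ (v i)) =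
      Ideal.Quotient.mkₐ k (nulI C) fun n => r.sval m Ξ ε fun i => v i n := by
    simp only [Rel.sval, Rel.sum, ev_mk, xG_mk, ← map_mul, ← map_smul, ← map_sum]
    congr 1
    ext n
    simp only [Finset.sum_apply, Pi.smul_apply, Pi.mul_apply]
  rw [e, ← map_pow]
  have : (fun n => r.sval m Ξ ε fun i => v i n) ^ K = 0 := by
    ext n
    exact h ε _ (hv n)
  rw [this, map_zero]

/-- The substitution attached to a node of the binary tree. -/
def nd : List Bool → ℕ → ℕ
  | [] => id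
  | b :: ν => fun i => nd ν (2 * i + if b = true then 1 else 0)

/-- The restriction step. -/
theorem restrict (hN : St_NUL.{u}) [IsAlgClosed k] [Uncountable k] {F : Type u} [LieRing F]
    [LieAlgebra k F] (r : Rel k) {m : A →ₗ[k] A →ₗ[k] A} {ω : A →ₗ[k] A} (h : TP1 F m ω)
    {C : Type u} [CommRing C] [Algebra k C] (Ξ : A →ₗ[k] C) {K : ℕ}
    (hK : ∀ ε u, Hom ω ε u → (r.sval m Ξ ε u) ^ K = 0) (Z : ℕ → A) (ε : ℕ → Bool)
    (hZ : Hom ω ε Z) (hp : ∀ i, ∃ j j', Z i = m (Z j) (Z j')) (i0 : ℕ)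
    (hn : ¬ IsNilpotent (Ξ (Z i0))) :
    ∃ (L : Type u) (_ : AddCommGroup L) (_ : Module k L) (m' : L →ₗ[k] L →ₗ[k] L)
      (ω' : L →ₗ[k] L) (ξ : L →ₗ[k] k), TP1 F m' ω' ∧ Perfect m' ∧ ξ ≠ 0 ∧
      ∀ ε u, Hom ω' ε u → r.sval m' ξ ε u = 0 := by
  have := countable_tr
  set g : Tr → A := fun b => b.ev (fun a b => m a b) Z with hg
  set L : Submodule k A := Submodule.span k (Set.range g) with hL
  have hgL : ∀ b, g b ∈ L := fun b => Submodule.subset_span ⟨b, rfl⟩
  have hm : ∀ x ∈ L, ∀ y ∈ L, m x y ∈ L := by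
    intro x hx y hy
    induction hx, hy using Submodule.span_induction₂ with
    | mem_mem x y hx hy =>
      obtain ⟨a, rfl⟩ := hx
      obtain ⟨b, rfl⟩ := hy
      exact hgL (Tr.nd a b)
    | zero_left => simp
    | zero_right => simp
    | add_left x y z _ _ _ h1 h2 => rw [map_add, LinearMap.add_apply]; exact add_mem h1 h2
    | add_right x y z _ _ _ h1 h2 => rw [map_add]; exact add_mem h1 h2
    | smul_left c x y _ _ h1 => rw [map_smul, LinearMap.smul_apply]; exact L.smul_mem c h1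
    | smul_right c x y _ _ h1 => rw [map_smul]; exact L.smul_mem c h1
  have hw : ∀ x ∈ L, ω x ∈ L := by
    intro x hx
    induction hx using Submodule.span_induction with
    | mem x hx =>
      obtain ⟨b, rfl⟩ := hx
      rw [hg]
      dsimp only
      rw [hom_ev_par h.mul b fun i _ => hZ i]
      split_ifs
      · exact neg_mem (hgL b)
      · exact hgL b
    | zero => simp
    | add x y _ _ h1 h2 => rw [map_add]; exact add_mem h1 h2
    | smul c x _ h1 => rw [map_smul]; exact L.smul_mem c h1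
  let m' : L →ₗ[k] L →ₗ[k] L := LinearMap.mk₂ k (fun x y => ⟨m x y, hm _ x.2 _ y.2⟩)
    (fun _ _ _ => Subtype.ext (by simp)) (fun _ _ _ => Subtype.ext (by simp))
    (fun _ _ _ => Subtype.ext (by simp)) (fun _ _ _ => Subtype.ext (by simp))
  have hm' : ∀ x y : L, L.subtype (m' x y) = m (L.subtype x) (L.subtype y) := fun _ _ => rfl
  let ω' : L →ₗ[k] L := ω.restrict hw
  have hH : ∀ ε u, Hom ω' ε u → Hom ω ε fun i => L.subtype (u i) := by
    intro ε u hu i
    have := congrArg L.subtype (hu i)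
    rw [apply_ite L.subtype, map_neg] at this
    exact this
  have hs : ∀ x ∈ L, Ξ x ∈ Algebra.adjoin k (Set.range fun b => Ξ (g b)) := by
    intro x hx
    induction hx using Submodule.span_induction with
    | mem x hx =>
      obtain ⟨b, rfl⟩ := hx
      exact Algebra.subset_adjoin ⟨b, rfl⟩
    | zero => simp
    | add x y _ _ h1 h2 => rw [map_add]; exact add_mem h1 h2
    | smul c x _ h1 => rw [map_smul]; exact Subalgebra.smul_mem _ h1 c
  let Ξ' : L →ₗ[k] Algebra.adjoin k (Set.range fun b => Ξ (g b)) :=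
    { toFun := fun x => ⟨Ξ x, hs _ x.2⟩
      map_add' := fun _ _ => Subtype.ext (by simp)
      map_smul' := fun _ _ => Subtype.ext (by simp) }
  obtain ⟨φ, hφ⟩ := hN k C _ (Set.countable_range _) (Ξ' ⟨Z i0, hgL (Tr.lf i0)⟩) (by
    rintro ⟨t, ht⟩
    have h1 := congrArg Subtype.val ht
    rw [SubmonoidClass.coe_pow] at h1
    exact hn ⟨t, h1⟩)
  refine ⟨L, inferInstance, inferInstance, m', ω', φ.toLinearMap ∘ₗ Ξ', ⟨fun a => ?_,
    fun a b => ?_, fun l f hl hf hF ε u hu => ?_⟩, ?_, fun h0 => hφ ?_, fun ε u hu => ?_⟩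
  · exact Subtype.ext (h.inv a)
  · exact Subtype.ext (h.mul a b)
  · apply L.injective_subtype
    rw [map_spev (m' := fun a b => m a b) L.subtype hm', map_zero]
    exact h.tp l f hl hf hF ε _ (hH ε u hu)
  · rw [Perfect, eq_top_iff]
    rintro ⟨x, hx⟩ -
    induction hx using Submodule.span_induction with
    | mem x hx =>
      obtain ⟨b, rfl⟩ := hx
      cases b with
      | lf i =>
        obtain ⟨j, j', e⟩ := hp i
        exact Submodule.subset_span ⟨⟨Z j, hgL (Tr.lf j)⟩, ⟨Z j', hgL (Tr.lf j')⟩, Subtype.ext e⟩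
      | nd a b => exact Submodule.subset_span ⟨⟨g a, hgL a⟩, ⟨g b, hgL b⟩, rfl⟩
    | zero => exact zero_mem _
    | add x y hx hy h1 h2 => exact add_mem h1 h2
    | smul c x hx h1 => exact Submodule.smul_mem _ c h1
  · exact LinearMap.congr_fun h0 _
  · have e1 : r.sval m' (φ.toLinearMap ∘ₗ Ξ') ε u = φ (r.sval m' Ξ' ε u) := by
      simp only [Rel.sval, Rel.sum, map_sum, map_smul, map_mul]
      rfl
    have e2 : (Subalgebra.val _) (r.sval m' Ξ' ε u) = r.sval m Ξ ε fun i => L.subtype (u i) := by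
      simp only [Rel.sval, Rel.sum, map_sum, map_smul, map_mul,
        ← Tr.map_ev (m := fun a b => m' a b) (m' := fun a b => m a b) L.subtype hm']
      rfl
    have e3 : (r.sval m' Ξ' ε u) ^ K = 0 := by
      apply Subtype.val_injective
      have h1 := hK ε _ (hH ε u hu)
      rw [← e2, ← map_pow] at h1
      exact h1
    rw [e1]
    apply pow_eq_zero_iff' (n := K) |>.1 (by rw [← map_pow, e3, map_zero]) |>.1

end GERM

open GERM in
theorem stGERM (hN : St_NUL.{u}) : St_GERM.{u} := by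
  intro k _ _ _ _ F _ _ r A _ _ m ω h C _ _ Ξ K hK hz
  choose ε z hε hz using hz
  obtain ⟨e, he⟩ := exists_surjective_nat (List Bool)
  set Y : List Bool → ℕ → A := fun ν n =>
    (dt (n - ν.length) (nd ν)).ev (fun a b => m a b) (z n) with hY
  have hpar : ∀ ν, ∃ b : Bool, ∀ᶠ n in (hyperfilter ℕ : Filter ℕ),
      par (ε n) (dt (n - ν.length) (nd ν)).lv = b := fun ν =>
    Ultrafilter.eventually_exists_iff.1 (Eventually.of_forall fun n => ⟨_, rfl⟩)
  choose p hp using hpar
  obtain ⟨i0, hi0⟩ := he []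
  refine restrict hN r (tp1G h) (xG Ξ) (svalG r hK) (fun i => (nul k A).mkQ (Y (e i)))
    (fun i => p (e i)) (fun i => ?_) (fun i => ?_) i0 ?_
  · have : (nul k A).mkQ (fun n => ω (Y (e i) n)) =
        (nul k A).mkQ fun n => if p (e i) = true then - Y (e i) n else Y (e i) n := by
      rw [mk_eq]
      filter_upwards [hp (e i)] with n hn
      rw [← hn]
      exact hom_ev_par h.mul _ fun j _ => hε n j
    dsimp only
    rw [wG_mk, this]
    split_ifs
    · rw [← map_neg]; rfl
    · rfl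
  · obtain ⟨j, hj⟩ := he (false :: e i)
    obtain ⟨j', hj'⟩ := he (true :: e i)
    refine ⟨j, j', ?_⟩
    rw [← mG_mk, mk_eq, hj, hj']
    filter_upwards [Nat.hyperfilter_le_atTop (eventually_ge_atTop ((e i).length + 1))] with n hn
    rw [mP_apply, hY]
    dsimp only
    rw [show n - (e i).length = n - ((e i).length + 1) + 1 by omega]
    rfl
  · rintro ⟨t, ht⟩
    rw [hi0, xG_mk, ← map_pow] at ht
    have ht' : ∀ᶠ n in (hyperfilter ℕ : Filter ℕ), Ξ (Y [] n) ^ t = 0 :=
      Ideal.Quotient.eq_zero_iff_mem.1 ht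
    obtain ⟨n, h1, h2⟩ :=
      (ht'.and (Nat.hyperfilter_le_atTop (eventually_ge_atTop t))).exists
    exact hz n (pow_eq_zero_of_le (m := t) (by omega) h1)

end Pool.Agent.Lib.EB
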