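import Pool.Agent.Lib.EB.Blue

/-!
Block GU: the growth bound for left normed multilinear operations.
-/

namespace Pool.Agent.Lib.EB

universe u

namespace GU

section
variable {k : Type*} [Field k] {A : Type*} [Ring A] [Algebra k A] (x : ℕ → A)

/-- The product of a word. -/
def wd (w : List ℕ) : A := (w.map x).prod

/-- The value of a monomial under commutators. -/
def X (c : Tr) : A := c.ev (fun a b => a * b - b * a) x

theorem wd_append (a b : List ℕ) : wd x (a ++ b) = wd x a * wd x b := by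
  simp [wd]

theorem wd_cons (t : ℕ) (b : List ℕ) : wd x (t :: b) = x t * wd x b := by
  simp [wd]

theorem wd_nil : wd x [] = 1 := by simp [wd]

theorem wd_one (t : ℕ) : wd x [t] = x t := by simp [wd]

theorem mul_span {s t : Set A} {P : Submodule k A} (h : ∀ a ∈ s, ∀ b ∈ t, a * b ∈ P) {a b : A}
    (ha : a ∈ Submodule.span k s) (hb : b ∈ Submodule.span k t) : a * b ∈ P := by
  have : Submodule.span k s * Submodule.span k t ≤ P := by
    rw [Submodule.span_mul_span, Submodule.span_le]
    rintro _ ⟨a, ha, b, hb, rfl⟩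
    exact h a ha b hb
  exact this (Submodule.mul_mem_mul ha hb)

variable (k)

/-- Span of the words with content `S`. -/
def Wd (S : Multiset ℕ) : Submodule k A :=
  Submodule.span k {z | ∃ w : List ℕ, (w : Multiset ℕ) = S ∧ z = wd x w}

/-- Span of the words with content `S` having `μ` at a place `≥ i`. -/
def R (μ : ℕ) (S : Multiset ℕ) (i : ℕ) : Submodule k A :=
  Submodule.span k {z | ∃ a b : List ℕ, ((a ++ μ :: b : List ℕ) : Multiset ℕ) = S ∧
    i ≤ a.length ∧ z = wd x (a ++ μ :: b)}

variable {k}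

theorem wd_mem (w : List ℕ) : wd x w ∈ Wd k x (w : Multiset ℕ) :=
  Submodule.subset_span ⟨w, rfl, rfl⟩

variable {x}

theorem Wd_mul {S T : Multiset ℕ} {a b : A} (ha : a ∈ Wd k x S) (hb : b ∈ Wd k x T) :
    a * b ∈ Wd k x (S + T) := by
  refine mul_span ?_ ha hb
  rintro _ ⟨w, rfl, rfl⟩ _ ⟨w', rfl, rfl⟩
  rw [← wd_append, Multiset.coe_add]
  exact wd_mem x _

theorem Wd_mul_R {μ i : ℕ} {S T : Multiset ℕ} {a b : A} (ha : a ∈ Wd k x S)
    (hb : b ∈ R k x μ T i) : a * b ∈ R k x μ (S + T) (S.card + i) := by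
  refine mul_span ?_ ha hb
  rintro _ ⟨w, rfl, rfl⟩ _ ⟨a, b, rfl, hi, rfl⟩
  refine Submodule.subset_span ⟨w ++ a, b, ?_, ?_, ?_⟩
  · rw [Multiset.coe_add, List.append_assoc]
  · simp only [Multiset.coe_card, List.length_append]; omega
  · rw [← wd_append, List.append_assoc]

theorem R_mul_Wd {μ i : ℕ} {S T : Multiset ℕ} {a b : A} (ha : a ∈ R k x μ S i)
    (hb : b ∈ Wd k x T) : a * b ∈ R k x μ (S + T) i := by
  refine mul_span ?_ ha hb
  rintro _ ⟨a, b, rfl, hi, rfl⟩ _ ⟨w, rfl, rfl⟩
  refine Submodule.subset_span ⟨a, b ++ w, ?_, hi, ?_⟩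
  · rw [Multiset.coe_add]; simp
  · rw [← wd_append]; simp

theorem R_anti {μ i j : ℕ} {S : Multiset ℕ} (h : i ≤ j) : R k x μ S j ≤ R k x μ S i := by
  refine Submodule.span_mono ?_
  rintro _ ⟨a, b, h1, h2, rfl⟩
  exact ⟨a, b, h1, h.trans h2, rfl⟩

theorem Wd_le_R {μ : ℕ} {S : Multiset ℕ} (h : μ ∈ S) : Wd k x S ≤ R k x μ S 0 := by
  refine Submodule.span_mono ?_
  rintro _ ⟨w, rfl, rfl⟩
  obtain ⟨a, b, rfl⟩ := List.append_of_mem (Multiset.mem_coe.1 h)
  exact ⟨a, b, rfl, Nat.zero_le _, rfl⟩

theorem R_bot {μ i : ℕ} {S : Multiset ℕ} (h : S.card ≤ i) : R k x μ S i ≤ ⊥ := by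
  refine Submodule.span_le.2 ?_
  rintro _ ⟨a, b, rfl, h2, rfl⟩
  simp only [Multiset.coe_card, List.length_append, List.length_cons] at h
  omega

variable (x)

theorem X_mem (c : Tr) : X x c ∈ Wd k x (c.lv : Multiset ℕ) := by
  induction c with
  | lf i =>
    have := wd_mem (k := k) x [i]
    rwa [wd_one] at this
  | nd a b ha hb =>
    have h1 := Wd_mul ha hb
    have h2 := Wd_mul hb ha
    rw [add_comm] at h2
    have := Submodule.sub_mem _ h1 h2
    rw [Multiset.coe_add] at this
    exact this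

theorem prod_X_mem (c : ℕ → Tr) (w : List ℕ) :
    (w.map fun t => X x (c t)).prod ∈
      Wd k x ((w.flatMap fun t => (c t).lv : List ℕ) : Multiset ℕ) := by
  induction w with
  | nil =>
    have := wd_mem (k := k) x []
    rwa [wd_nil] at this
  | cons t w ih =>
    rw [List.map_cons, List.prod_cons, List.flatMap_cons, ← Multiset.coe_add]
    exact Wd_mul (X_mem x _) ih

theorem lw_concat (μ t : ℕ) (a : List ℕ) : lw μ (a ++ [t]) = Tr.nd (lw μ a) (Tr.lf t) := by
  simp [lw, List.foldl_append]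

theorem lv_lw (μ : ℕ) (a : List ℕ) : (lw μ a).lv = μ :: a := by
  induction a using List.reverseRecOn with
  | nil => rfl
  | append_singleton a t ih => rw [lw_concat, Tr.lv, ih]; rfl

theorem lv_pos (c : Tr) : 1 ≤ c.lv.length := by
  induction c with
  | lf i => simp [Tr.lv]
  | nd a b ha _ => simp only [Tr.lv, List.length_append]; omega

theorem X_lw (μ : ℕ) (a : List ℕ) :
    X x (lw μ a) - x μ * wd x a ∈ R k x μ ((μ :: a : List ℕ) : Multiset ℕ) 1 := by
  induction a using List.reverseRecOn with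
  | nil =>
    have : X x (lw μ []) - x μ * wd x [] = 0 := by
      rw [wd_nil, mul_one]; exact sub_self _
    rw [this]; exact Submodule.zero_mem _
  | append_singleton a t ih =>
    have ht : x t ∈ Wd k x (([t] : List ℕ) : Multiset ℕ) := by
      have := wd_mem (k := k) x [t]
      rwa [wd_one] at this
    have h1 := R_mul_Wd ih ht
    have h0 : X x (lw μ a) ∈ R k x μ ((μ :: a : List ℕ) : Multiset ℕ) 0 := by
      have := X_mem (k := k) x (lw μ a)
      rw [lv_lw] at this
      exact Wd_le_R (by simp) this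
    have h2 := Wd_mul_R ht h0
    rw [add_comm] at h2
    have h3 := Submodule.sub_mem _ h1 h2
    rw [Multiset.coe_add] at h3
    have e : X x (lw μ (a ++ [t])) - x μ * wd x (a ++ [t]) =
        (X x (lw μ a) - x μ * wd x a) * x t - x t * X x (lw μ a) := by
      rw [lw_concat, wd_append, wd_one]
      change X x (lw μ a) * x t - x t * X x (lw μ a) - _ = _
      noncomm_ring
    rw [e]
    exact h3

/-- The tail of the identity after the initial segment `p`. -/
noncomputable def E (α : List ℕ →₀ k) (p : List ℕ) (y : ℕ → A) : A :=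
  ∑ w ∈ α.support.filter (fun w => p <+: w), α w • ((w.drop p.length).map y).prod

/-- Multiples of the tails. -/
def I (α : List ℕ →₀ k) (p s : List ℕ) (S : Multiset ℕ) : Submodule k A :=
  Submodule.span k {z | ∃ (a b : List ℕ) (c : ℕ → Tr),
    (a : Multiset ℕ) + ((s.flatMap fun t => (c t).lv : List ℕ) : Multiset ℕ) + b = S ∧
      z = wd x a * E α p (fun t => X x (c t)) * wd x b}

variable {x}

theorem I_mul_Wd {α : List ℕ →₀ k} {p s : List ℕ} {S T : Multiset ℕ} {a b : A}
    (ha : a ∈ I x α p s S) (hb : b ∈ Wd k x T) : a * b ∈ I x α p s (S + T) := by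
  refine mul_span ?_ ha hb
  rintro _ ⟨a, b, c, rfl, rfl⟩ _ ⟨w, rfl, rfl⟩
  refine Submodule.subset_span ⟨a, b ++ w, c, ?_, ?_⟩
  · rw [← Multiset.coe_add b w, add_assoc _ (b : Multiset ℕ)]
  · rw [wd_append, mul_assoc _ (wd x b)]

theorem drop_perm {p s w : List ℕ} (h : w.Perm (p ++ s)) (hp : p <+: w) :
    (w.drop p.length).Perm s := by
  obtain ⟨t, rfl⟩ := hp
  rw [List.drop_left]
  exact (List.perm_append_left_iff p).1 h

theorem E_mem {α : List ℕ →₀ k} {p s : List ℕ} (h : ∀ w ∈ α.support, w.Perm (p ++ s))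
    (c : ℕ → Tr) :
    E α p (fun t => X x (c t)) ∈
      Wd k x ((s.flatMap fun t => (c t).lv : List ℕ) : Multiset ℕ) := by
  refine Submodule.sum_mem _ fun w hw => Submodule.smul_mem _ _ ?_
  rw [Finset.mem_filter] at hw
  have := prod_X_mem (k := k) x c (w.drop p.length)
  rwa [Multiset.coe_eq_coe.2 ((drop_perm (h w hw.1) hw.2).flatMap_right _)] at this

theorem E_congr {α : List ℕ →₀ k} {p s : List ℕ} (h : ∀ w ∈ α.support, w.Perm (p ++ s))
    {y y' : ℕ → A} (hy : ∀ t ∈ s, y t = y' t) : E α p y = E α p y' := by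
  refine Finset.sum_congr rfl fun w hw => ?_
  rw [Finset.mem_filter] at hw
  congr 2
  refine List.map_congr_left fun t ht => hy t ?_
  exact (drop_perm (h w hw.1) hw.2).mem_iff.1 ht

theorem E_split (α : List ℕ →₀ k) (p : List ℕ) (v : ℕ) (y : ℕ → A) :
    E α p y = y v * E α (p ++ [v]) y +
      ∑ w ∈ (α.support.filter (fun w => p <+: w)).filter (fun w => ¬ p ++ [v] <+: w),
        α w • ((w.drop p.length).map y).prod := by
  rw [E, ← Finset.sum_filter_add_sum_filter_not _ (fun w => p ++ [v] <+: w)]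
  congr 1
  rw [E, Finset.mul_sum, Finset.filter_filter]
  refine Finset.sum_congr ?_ fun w hw => ?_
  · refine Finset.filter_congr fun w _ => ⟨fun h => h.2, fun h => ⟨?_, h⟩⟩
    exact (List.prefix_append p [v]).trans h
  · rw [Finset.mem_filter] at hw
    obtain ⟨t, rfl⟩ := hw.2
    rw [List.drop_left, List.append_assoc, List.drop_left, mul_smul_comm]
    simp

theorem key {α : List ℕ →₀ k} {p s : List ℕ} {v : ℕ} (h : ∀ w ∈ α.support, w.Perm (p ++ v :: s))
    (hv : v ∉ s) (μ : ℕ) (a : List ℕ) (c : ℕ → Tr) :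
    E α p (fun t => X x (Function.update c v (lw μ a) t)) -
      x μ * wd x a * E α (p ++ [v]) (fun t => X x (c t)) ∈
      R k x μ (((μ :: a : List ℕ) : Multiset ℕ) +
        ((s.flatMap fun t => (c t).lv : List ℕ) : Multiset ℕ)) 1 := by
  have h' : ∀ w ∈ α.support, w.Perm ((p ++ [v]) ++ s) := by
    intro w hw; rw [List.append_assoc]; exact h w hw
  have hc : ∀ t ∈ s, Function.update c v (lw μ a) t = c t := by
    intro t ht
    exact Function.update_of_ne (fun e : t = v => hv (e ▸ ht)) _ _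
  rw [E_split α p v, E_congr h' (y' := fun t => X x (c t)) (fun t ht => by rw [hc t ht]),
    Function.update_self, add_sub_right_comm, ← sub_mul]
  refine Submodule.add_mem _ (R_mul_Wd (X_lw x μ a) (E_mem h' c)) ?_
  refine Submodule.sum_mem _ fun w hw => Submodule.smul_mem _ _ ?_
  simp only [Finset.mem_filter] at hw
  obtain ⟨⟨hw, hp⟩, hn⟩ := hw
  have hd := drop_perm (h w hw) hp
  obtain ⟨r, rfl⟩ := hp
  rw [List.drop_left] at hd ⊢
  obtain _ | ⟨t, r⟩ := r
  · exact absurd hd.length_eq (by simp)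
  have htv : t ≠ v := by
    rintro rfl
    exact hn ⟨r, by simp⟩
  have hvr : v ∈ r := by
    have : v ∈ t :: r := hd.mem_iff.2 (by simp)
    rcases List.mem_cons.1 this with e | e
    · exact absurd e.symm htv
    · exact e
  rw [List.map_cons, List.prod_cons]
  have h1 := X_mem (k := k) x (Function.update c v (lw μ a) t)
  have h2 := prod_X_mem (k := k) x (Function.update c v (lw μ a)) r
  have h3 := Wd_mul_R h1 (Wd_le_R (μ := μ) (by
    rw [Multiset.mem_coe, List.mem_flatMap]
    exact ⟨v, hvr, by rw [Function.update_self, lv_lw]; simp⟩) h2)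
  have e : ((Function.update c v (lw μ a) t).lv : Multiset ℕ) +
      ((r.flatMap fun t => (Function.update c v (lw μ a) t).lv : List ℕ) : Multiset ℕ) =
      ((μ :: a : List ℕ) : Multiset ℕ) +
        ((s.flatMap fun t => (c t).lv : List ℕ) : Multiset ℕ) := by
    rw [Multiset.coe_add, ← List.flatMap_cons (f := fun t => (Function.update c v (lw μ a) t).lv),
      Multiset.coe_eq_coe.2 (hd.flatMap_right _), List.flatMap_cons, Function.update_self, lv_lw,
      Multiset.coe_add]
    congr 2
    exact List.flatMap_congr fun t ht => by rw [hc t ht]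
  rw [e] at h3
  refine R_anti ?_ h3
  have := lv_pos (Function.update c v (lw μ a) t)
  simpa using this

theorem base {α : List ℕ →₀ k} {p : List ℕ} (h : ∀ w ∈ α.support, w.Perm (p ++ []))
    (h0 : α p ≠ 0) (S : Multiset ℕ) : Wd k x S ≤ I x α p [] S := by
  have hE : ∀ y : ℕ → A, E α p y = α p • (1 : A) := by
    intro y
    rw [E, Finset.sum_eq_single p]
    · simp
    · intro w hw hne
      rw [Finset.mem_filter] at hw
      have := (h w hw.1).length_eq
      rw [List.append_nil] at this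
      exact absurd (hw.2.eq_of_length this.symm).symm hne
    · intro hp
      exact absurd (Finset.mem_filter.2 ⟨Finsupp.mem_support_iff.2 h0, List.prefix_refl p⟩) hp
  refine Submodule.span_le.2 ?_
  rintro _ ⟨w, rfl, rfl⟩
  have : wd x w * E α p (fun t => X x (Tr.lf t)) * wd x [] ∈ I x α p [] (w : Multiset ℕ) :=
    Submodule.subset_span ⟨w, [], Tr.lf, by simp, rfl⟩
  rw [hE, wd_nil, mul_one, mul_smul_comm, mul_one] at this
  have := Submodule.smul_mem _ (α p)⁻¹ this
  rwa [smul_smul, inv_mul_cancel₀ h0, one_smul] at this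

theorem I_step {α : List ℕ →₀ k} {p s : List ℕ} {v : ℕ}
    (h : ∀ w ∈ α.support, w.Perm (p ++ v :: s)) (hv : v ∉ s) (μ : ℕ) {T U : Multiset ℕ} {g z : A}
    (hg : g ∈ Wd k x T) (hz : z ∈ I x α (p ++ [v]) s U) :
    g * (x μ * z) ∈ I x α p (v :: s) (T + (μ ::ₘ U)) ⊔ R k x μ (T + (μ ::ₘ U)) (T.card + 1) := by
  have hz' : x μ * z ∈ Submodule.span k {z | ∃ (a b : List ℕ) (c : ℕ → Tr),
      (a : Multiset ℕ) + ((s.flatMap fun t => (c t).lv : List ℕ) : Multiset ℕ) + b = U ∧
        z = x μ * wd x a * E α (p ++ [v]) (fun t => X x (c t)) * wd x b} := by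
    refine mul_span (s := {x μ}) ?_ (Submodule.subset_span rfl) hz
    rintro _ rfl _ ⟨a, b, c, e, rfl⟩
    exact Submodule.subset_span ⟨a, b, c, e, by simp only [mul_assoc]⟩
  refine mul_span ?_ hg hz'
  rintro _ ⟨w, rfl, rfl⟩ _ ⟨a, b, c, rfl, rfl⟩
  have hk := Wd_mul_R (wd_mem (k := k) x w) (R_mul_Wd (key (x := x) h hv μ a c) (wd_mem x b))
  have e : ((μ :: a : List ℕ) : Multiset ℕ) +
      ((s.flatMap fun t => (c t).lv : List ℕ) : Multiset ℕ) + b =
      μ ::ₘ ((a : Multiset ℕ) + ((s.flatMap fun t => (c t).lv : List ℕ) : Multiset ℕ) + b) := by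
    rw [← Multiset.cons_coe, Multiset.cons_add, Multiset.cons_add]
  rw [e] at hk
  have hI : wd x w * E α p (fun t => X x (Function.update c v (lw μ a) t)) * wd x b ∈
      I x α p (v :: s) ((w : Multiset ℕ) + μ ::ₘ ((a : Multiset ℕ) +
        ((s.flatMap fun t => (c t).lv : List ℕ) : Multiset ℕ) + b)) := by
    refine Submodule.subset_span ⟨w, b, Function.update c v (lw μ a), ?_, rfl⟩
    rw [← e, List.flatMap_cons, Function.update_self, lv_lw, ← Multiset.coe_add, add_assoc]
    congr 4
    refine List.flatMap_congr fun t ht => ?_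
    rw [Function.update_of_ne (fun e : t = v => hv (e ▸ ht))]
  have := Submodule.sub_mem _ (Submodule.mem_sup_left hI) (Submodule.mem_sup_right hk)
  convert this using 1
  noncomm_ring

theorem step {α : List ℕ →₀ k} {p s : List ℕ} {v : ℕ}
    (h : ∀ w ∈ α.support, w.Perm (p ++ v :: s)) (hv : v ∉ s) (g : ℕ → ℕ)
    (ih : ∀ S : Multiset ℕ, ∃ G : Finset A, G.card ≤ g S.card ∧ (∀ z ∈ G, z ∈ Wd k x S) ∧
      Wd k x S ≤ Submodule.span k (G : Set A) ⊔ I x α (p ++ [v]) s S) (n : ℕ) :
    ∀ S : Multiset ℕ, S.card = n → ∃ G : Finset A, G.card ≤ qstep g n ∧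
      (∀ z ∈ G, z ∈ Wd k x S) ∧
      Wd k x S ≤ Submodule.span k (G : Set A) ⊔ I x α p (v :: s) S := by
  classical
  induction n using Nat.strong_induction_on with
  | _ n ihn =>
  intro S hS
  obtain _ | n := n
  · obtain rfl := Multiset.card_eq_zero.1 hS
    have h1 : (1 : A) ∈ Wd k x 0 := by
      have := wd_mem (k := k) x []
      rwa [wd_nil] at this
    refine ⟨{1}, by simp [qstep], by simpa using h1, le_sup_of_le_left ?_⟩
    refine Submodule.span_mono ?_
    rintro _ ⟨w, hw, rfl⟩
    obtain rfl : w = [] := by simpa using hw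
    simp [wd_nil]
  obtain ⟨μ, hμ⟩ := Multiset.card_pos_iff_exists_mem.1 (by omega : 0 < S.card)
  obtain ⟨S, rfl⟩ := Multiset.exists_cons_of_mem hμ
  have hS' : S.card = n := by simpa using hS
  choose G0 hG0c hG0m hG0 using ih
  choose! G1 hG1c hG1m hG1 using fun (T : Multiset ℕ) (hT : T.card < n + 1) =>
    ihn T.card hT T rfl
  let H : Multiset ℕ → Finset A := fun T =>
    (G1 T ×ˢ G0 (S - T)).image fun q => q.1 * (x μ * q.2)
  let G : Finset A := Finset.univ.biUnion fun i : Fin (n + 1) =>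
    (S.powersetCard i).toFinset.biUnion H
  have hx : ∀ {U : Multiset ℕ} {z : A}, z ∈ Wd k x U → x μ * z ∈ Wd k x (μ ::ₘ U) := by
    intro U z hz
    have := Wd_mul (wd_mem (k := k) x [μ]) hz
    rwa [wd_one, Multiset.coe_singleton, Multiset.singleton_add] at this
  have hadd : ∀ T ≤ S, T + (μ ::ₘ (S - T)) = μ ::ₘ S := by
    intro T hT
    rw [Multiset.add_cons, add_tsub_cancel_of_le hT]
  refine ⟨G, ?_, ?_, ?_⟩
  · rw [qstep]
    refine Finset.card_biUnion_le.trans (Finset.sum_le_sum fun i _ => ?_)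
    refine Finset.card_biUnion_le.trans ?_
    refine (Finset.sum_le_card_nsmul _ _ (qstep g i * g (n - i)) ?_).trans ?_
    · intro T hT
      rw [Multiset.mem_toFinset, Multiset.mem_powersetCard] at hT
      refine Finset.card_image_le.trans ?_
      rw [Finset.card_product]
      have a1 := hG1c T (by rw [hT.2]; exact i.2)
      have a2 := hG0c (S - T)
      rw [Multiset.card_sub hT.1, hS', hT.2] at a2
      rw [hT.2] at a1
      exact Nat.mul_le_mul a1 a2
    · rw [smul_eq_mul, mul_assoc]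
      refine Nat.mul_le_mul_right _ ((Multiset.toFinset_card_le _).trans ?_)
      rw [Multiset.card_powersetCard, hS']
  · intro z hz
    simp only [G, H, Finset.mem_biUnion, Finset.mem_univ, true_and, Multiset.mem_toFinset,
      Multiset.mem_powersetCard, Finset.mem_image, Finset.mem_product] at hz
    obtain ⟨i, T, ⟨hT, hTi⟩, ⟨a, b⟩, ⟨ha, hb⟩, rfl⟩ := hz
    rw [← hadd T hT]
    exact Wd_mul (hG1m T (by rw [hTi]; exact i.2) a ha) (hx (hG0m _ b hb))
  have main : ∀ d i, i + d = n + 1 → R k x μ (μ ::ₘ S) i ≤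
      Submodule.span k (G : Set A) ⊔ I x α p (v :: s) (μ ::ₘ S) := by
    intro d
    induction d with
    | zero =>
      intro i hi
      exact (R_bot (by rw [hS]; omega)).trans bot_le
    | succ d ihd =>
      intro i hi
      have hR := ihd (i + 1) (by omega)
      refine Submodule.span_le.2 ?_
      rintro _ ⟨a, b, hab, hia, rfl⟩
      rcases hia.lt_or_eq with hlt | rfl
      · exact hR (Submodule.subset_span ⟨a, b, hab, hlt, rfl⟩)
      have hab' : (a : Multiset ℕ) + b = S := by
        rw [← Multiset.coe_add, ← Multiset.cons_coe, Multiset.add_cons,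
          Multiset.cons_inj_right] at hab
        exact hab
      have hT : (a : Multiset ℕ) ≤ S := by rw [← hab']; exact le_self_add
      have hb : S - a = b := by rw [← hab', add_tsub_cancel_left]
      have hlt : (a : Multiset ℕ).card < n + 1 := by rw [Multiset.coe_card]; omega
      obtain ⟨a1, ha1, a2, ha2, ea⟩ := Submodule.mem_sup.1 (hG1 a hlt (wd_mem x a))
      have hbm : wd x b ∈ Wd k x (S - a) := by rw [hb]; exact wd_mem x b
      obtain ⟨b1, hb1, b2, hb2, eb⟩ := Submodule.mem_sup.1 (hG0 (S - a) hbm)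
      have e : wd x (a ++ μ :: b) =
          a1 * (x μ * b1) + a1 * (x μ * b2) + a2 * (x μ * wd x b) := by
        rw [wd_append, wd_cons, ← mul_add, ← mul_add, eb, ← add_mul, ea]
      rw [SetLike.mem_coe, e]
      refine Submodule.add_mem _ (Submodule.add_mem _ ?_ ?_) ?_
      · refine Submodule.mem_sup_left ?_
        have hb1' : x μ * b1 ∈ Submodule.span k ((fun z => x μ * z) '' (G0 (S - a) : Set A)) := by
          refine mul_span (s := {x μ}) ?_ (Submodule.subset_span rfl) hb1
          rintro _ rfl z hz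
          exact Submodule.subset_span ⟨z, hz, rfl⟩
        refine mul_span ?_ ha1 hb1'
        rintro y hy _ ⟨z, hz, rfl⟩
        refine Submodule.subset_span ?_
        simp only [G, H, Finset.mem_coe, Finset.mem_biUnion, Finset.mem_univ, true_and,
          Multiset.mem_toFinset, Multiset.mem_powersetCard, Finset.mem_image, Finset.mem_product]
        exact ⟨⟨a.length, by omega⟩, a, ⟨hT, by simp⟩, (y, z), ⟨hy, hz⟩, rfl⟩
      · have ha1' : a1 ∈ Wd k x (a : Multiset ℕ) :=
          Submodule.span_le.2 (fun z hz => hG1m a hlt z hz) ha1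
        have := I_step h hv μ ha1' hb2
        rw [hadd a hT, Multiset.coe_card] at this
        exact sup_le le_sup_right hR this
      · refine Submodule.mem_sup_right ?_
        have := I_mul_Wd ha2 (hx hbm)
        rwa [hadd a hT] at this
  exact (Wd_le_R hμ).trans (main (n + 1) 0 (by omega))

theorem all {α : List ℕ →₀ k} (s : List ℕ) : ∀ p : List ℕ,
    (∀ w ∈ α.support, w.Perm (p ++ s)) → s.Nodup → α (p ++ s) ≠ 0 →
    ∀ S : Multiset ℕ, ∃ G : Finset A, G.card ≤ qq s.length S.card ∧ (∀ z ∈ G, z ∈ Wd k x S) ∧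
      Wd k x S ≤ Submodule.span k (G : Set A) ⊔ I x α p s S := by
  induction s with
  | nil =>
    intro p h _ h0 S
    rw [List.append_nil] at h0
    exact ⟨∅, by simp, by simp, le_sup_of_le_right (base h h0 S)⟩
  | cons v s ih =>
    intro p h hn h0 S
    rw [List.nodup_cons] at hn
    exact step h hn.1 (qq s.length) (ih (p ++ [v]) (by simpa using h) hn.2 (by simpa using h0))
      S.card S rfl

end

section
variable (k : Type u) [Field k] {F : Type u} [LieRing F] [LieAlgebra k F]

/-- Right multiplications. -/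
def xx (i : ℕ) : (ℕ → F) → (Module.End k F)ᵐᵒᵖ :=
  fun u => MulOpposite.op ((brL k F).flip (u i))

theorem X_xx (c : Tr) (u : ℕ → F) :
    X (xx k) c u = MulOpposite.op ((brL k F).flip (c.ev br u)) := by
  induction c with
  | lf i => rfl
  | nd a b ha hb =>
    change X (xx k) a u * X (xx k) b u - X (xx k) b u * X (xx k) a u = _
    rw [ha, hb, ← MulOpposite.op_mul, ← MulOpposite.op_mul, ← MulOpposite.op_sub]
    congr 1
    ext z
    change ⁅⁅z, a.ev br u⁆, b.ev br u⁆ - ⁅⁅z, b.ev br u⁆, a.ev br u⁆ = ⁅z, ⁅a.ev br u, b.ev br u⁆⁆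
    rw [leibniz_lie z, ← lie_skew (a.ev br u) ⁅z, b.ev br u⁆, sub_eq_add_neg]

theorem ev_foldl (w : List ℕ) (u : ℕ → F) : ∀ t : Tr,
    (w.foldl (fun t j => Tr.nd t (Tr.lf j)) t).ev br u =
      ((w.map fun j => MulOpposite.op ((brL k F).flip (u j))).prod).unop (t.ev br u) := by
  induction w with
  | nil => intro t; rfl
  | cons j w ih =>
    intro t
    rw [List.foldl_cons, ih, List.map_cons, List.prod_cons, MulOpposite.unop_mul]
    rfl

theorem prod_apply' (w : List ℕ) (y : ℕ → (ℕ → F) → (Module.End k F)ᵐᵒᵖ) (u : ℕ → F) :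
    (w.map y).prod u = (w.map fun j => y j u).prod := by
  induction w with
  | nil => rfl
  | cons j w ih => rw [List.map_cons, List.prod_cons, Pi.mul_apply, ih]; rfl

/-- Application to the variable `0`. -/
def Φ : ((ℕ → F) → (Module.End k F)ᵐᵒᵖ) →ₗ[k] ((ℕ → F) → F) where
  toFun a := fun u => (a u).unop (u 0)
  map_add' _ _ := rfl
  map_smul' _ _ := rfl

theorem Φ_wd (w : List ℕ) : Φ k (wd (xx k) w) = fun u : ℕ → F => (lw 0 w).ev br u := by
  funext u
  rw [lw, ev_foldl k]
  change (wd (xx k) w u).unop (u 0) = _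
  rw [wd, prod_apply']
  rfl

end

end GU

open GU in
theorem stGU (hLN : St_LN.{u}) : St_GU.{u} := by
  classical
  intro k _ F _ _ f0 hf hF
  obtain ⟨l0, hl0, hf0, hns⟩ := hf
  have hsup : ∀ b ∈ f0.support, b.lv.Perm l0 := fun b hb => hf0 (Finset.mem_coe.2 hb)
  obtain _ | ⟨y0, l⟩ := l0
  · exfalso
    apply hns
    have : f0 = 0 := by
      rw [← Finsupp.support_eq_empty, Finset.eq_empty_iff_forall_notMem]
      intro b hb
      have := (hsup b hb).length_eq
      have := lv_pos b
      simp only [List.length_nil] at *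
      omega
    intro u
    rw [this, map_zero]
  choose! β hβ1 hβ2 using fun (b : Tr) (hb : b ∈ f0.support) =>
    hLN k b y0 ((hsup b hb).nodup_iff.2 hl0) ((hsup b hb).mem_iff.2 (by simp))
  let α : List ℕ →₀ k := ∑ b ∈ f0.support, f0 b • β b
  have hα1 : ∀ w ∈ α.support, w.Perm l := by
    intro w hw
    obtain ⟨b, hb, hw⟩ := Finset.mem_biUnion.1 (Finsupp.support_finsetSum hw)
    exact ((hβ1 b hb w (Finsupp.support_smul hw)).trans (hsup b hb)).cons_inv
  have hα2 : ∀ (L : Type u) [LieRing L] [LieAlgebra k L] (u : ℕ → L),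
      pev k br u f0 = ∑ w ∈ α.support, α w • (lw y0 w).ev br u := by
    intro L _ _ u
    change _ = Finsupp.linearCombination k (fun w => (lw y0 w).ev br u) α
    rw [map_sum, pev, Finsupp.linearCombination_apply, Finsupp.sum]
    refine Finset.sum_congr rfl fun b hb => ?_
    rw [map_smul, hβ2 b hb L u]
    rfl
  have hα0 : α ≠ 0 := by
    intro h0
    apply hns
    intro u
    rw [hα2, h0]
    simp
  obtain ⟨w0, hw0⟩ := Finsupp.support_nonempty_iff.2 hα0
  rw [List.nodup_cons] at hl0
  refine ⟨w0.length, fun n => ?_⟩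
  obtain ⟨G, hc, -, hG⟩ := all (x := xx k (F := F)) (α := α) w0 []
    (fun w hw => (hα1 w hw).trans (hα1 w0 hw0).symm) ((hα1 w0 hw0).nodup_iff.2 hl0.2)
    (Finsupp.mem_support_iff.1 hw0) (List.range' 1 n : List ℕ)
  have hE : ∀ c : ℕ → Tr, E α [] (fun t => X (xx k (F := F)) (c t)) = 0 := by
    intro c
    funext u
    apply MulOpposite.unop_injective
    ext z
    have := hF (Function.update (fun t => (c t).ev br u) y0 z)
    rw [hα2] at this
    rw [E, Finset.filter_true_of_mem (fun w _ => List.nil_prefix), Finset.sum_apply,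
      Finset.unop_sum, LinearMap.sum_apply]
    refine Eq.trans (Finset.sum_congr rfl fun w hw => ?_) this
    rw [lw, ev_foldl k, Pi.smul_apply, MulOpposite.unop_smul, LinearMap.smul_apply, prod_apply']
    congr 1
    rw [List.length_nil, List.drop_zero]
    rw [Tr.ev, Function.update_self]
    congr 3
    refine List.map_congr_left fun t ht => ?_
    rw [X_xx, Function.update_of_ne]
    rintro rfl
    exact hl0.1 ((hα1 w hw).mem_iff.1 ht)
  have hI : I (xx k (F := F)) α [] w0 (List.range' 1 n : List ℕ) ≤ ⊥ := by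
    refine Submodule.span_le.2 ?_
    rintro _ ⟨a, b, c, -, rfl⟩
    rw [hE, mul_zero, zero_mul]
    exact Submodule.zero_mem _
  have hG' := hG.trans (sup_le le_rfl (hI.trans bot_le))
  rw [Multiset.coe_card, List.length_range'] at hc
  refine le_trans ?_ (Finset.card_image_le.trans hc : (G.image (Φ k)).card ≤ _)
  refine le_trans (Submodule.finrank_mono ?_) (finrank_span_finset_le_card (R := k) _)
  refine Submodule.span_le.2 ?_
  rintro _ ⟨w, hw, rfl⟩
  rw [← Φ_wd k, Finset.coe_image, SetLike.mem_coe, Submodule.span_image]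
  refine Submodule.mem_map_of_mem (hG' ?_)
  rw [← Multiset.coe_eq_coe.2 hw]
  exact wd_mem _ w

end Pool.Agent.Lib.EB
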