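import Pool.Agent.Lib.EB.Blue

/-!
The dimension of the space of multilinear operations.
-/

namespace Pool.Agent.Lib.EB

universe u

namespace HD

lemma ev_sub {X : Type*} (m : X → X → X) (u : ℕ → X) (g : ℕ → Tr) (b : Tr) :
    (b.sub g).ev m u = b.ev m fun j => (g j).ev m u := by
  induction b with
  | lf i => rfl
  | nd a b ha hb => simp only [Tr.sub, Tr.ev, ha, hb]

lemma lv_ren (τ : ℕ → ℕ) (b : Tr) : (b.sub fun i => Tr.lf (τ i)).lv = b.lv.map τ := by
  induction b with
  | lf i => rfl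
  | nd a b ha hb => simp only [Tr.sub, Tr.lv, ha, hb, List.map_append]

lemma ev_congr {X : Type*} (m : X → X → X) {u u' : ℕ → X} (b : Tr)
    (h : ∀ i ∈ b.lv, u i = u' i) : b.ev m u = b.ev m u' := by
  induction b with
  | lf i => exact h i (by simp [Tr.lv])
  | nd a b ha hb =>
    simp only [Tr.ev]
    rw [ha fun i hi => h i (by simp [Tr.lv, hi]), hb fun i hi => h i (by simp [Tr.lv, hi])]

lemma lv_lw (i : ℕ) (w : List ℕ) : (lw i w).lv = i :: w := by
  induction w using List.reverseRecOn with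
  | nil => rfl
  | append_singleton w j ih =>
    have : lw i (w ++ [j]) = Tr.nd (lw i w) (Tr.lf j) := by simp [lw]
    rw [this, Tr.lv, ih]; rfl

variable (k : Type u) [Field k] (F : Type u) [LieRing F] [LieAlgebra k F]

/-- The space of multilinear operations. -/
def V (l : List ℕ) : Submodule k ((ℕ → F) → F) :=
  Submodule.span k {φ : (ℕ → F) → F | ∃ b : Tr, b.lv.Perm l ∧ φ = fun u => b.ev br u}

lemma V_eq (h : St_LN.{u}) (n : ℕ) : V k F (List.range (n + 1)) = Submodule.span k
    {φ : (ℕ → F) → F | ∃ w : List ℕ, w.Perm (List.range' 1 n) ∧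
      φ = fun u => (lw 0 w).ev br u} := by
  have e : List.range (n + 1) = 0 :: List.range' 1 n := by
    rw [List.range_eq_range', List.range'_succ]
  refine le_antisymm (Submodule.span_le.2 ?_) (Submodule.span_mono ?_)
  · rintro _ ⟨b, hb, rfl⟩
    obtain ⟨α, h1, h2⟩ := h k b 0 (hb.nodup_iff.2 List.nodup_range) (hb.mem_iff.2 (by simp))
    have : (fun u : ℕ → F => b.ev br u) =
        ∑ w ∈ α.support, α w • fun u : ℕ → F => (lw 0 w).ev br u := by
      funext u
      rw [h2 F u, Finsupp.sum, Finset.sum_apply]; rfl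
    rw [this]
    refine Submodule.sum_mem _ fun w hw => Submodule.smul_mem _ _ (Submodule.subset_span ?_)
    exact ⟨w, (List.perm_cons 0).1 (e ▸ (h1 w hw).trans hb), rfl⟩
  · rintro _ ⟨w, hw, rfl⟩
    exact ⟨lw 0 w, by rw [lv_lw, e]; exact hw.cons 0, rfl⟩

lemma fin0 (h : St_LN.{u}) (n : ℕ) : Module.Finite k (V k F (List.range (n + 1))) := by
  rw [V_eq k F h]
  refine Module.Finite.span_of_finite k (((List.range' 1 n).permutations.finite_toSet.image
    fun w => fun u : ℕ → F => (lw 0 w).ev br u).subset ?_)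
  rintro _ ⟨w, hw, rfl⟩
  exact ⟨w, List.mem_permutations.2 hw, rfl⟩

lemma V_le {l l' : List ℕ} (σ τ : ℕ → ℕ) (h1 : l'.map τ = l) (h2 : ∀ y ∈ l', σ (τ y) = y) :
    V k F l' ≤ (V k F l).map (LinearMap.funLeft k F fun u : ℕ → F => u ∘ σ) := by
  refine Submodule.span_le.2 ?_
  rintro _ ⟨b, hb, rfl⟩
  refine ⟨_, Submodule.subset_span ⟨b.sub fun i => Tr.lf (τ i), ?_, rfl⟩, funext fun u => ?_⟩
  · rw [lv_ren, ← h1]; exact hb.map τ
  · change (b.sub _).ev br (u ∘ σ) = _
    rw [ev_sub]
    exact ev_congr _ b fun i hi => congrArg u (h2 i (hb.mem_iff.1 hi))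

lemma fin_le {l l' : List ℕ} (σ τ : ℕ → ℕ) (h1 : l'.map τ = l) (h2 : ∀ y ∈ l', σ (τ y) = y)
    (h : Module.Finite k (V k F l)) :
    Module.Finite k (V k F l') ∧ Module.finrank k (V k F l') ≤ Module.finrank k (V k F l) :=
  ⟨Submodule.finiteDimensional_of_le (V_le k F σ τ h1 h2),
    (Submodule.finrank_mono (V_le k F σ τ h1 h2)).trans (Submodule.finrank_map_le _ _)⟩

lemma fin_eq (h : St_LN.{u}) {l : List ℕ} (hl : l.Nodup) {n : ℕ} (hn : l.length = n + 1) :
    Module.Finite k (V k F l) ∧ Module.finrank k (V k F l) = hdim k F n := by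
  have a := fin_le k F (l := List.range (n + 1)) (l' := l) (fun i => l.getD i 0)
    (fun y => l.idxOf y) (List.ext_getElem (by simp [hn]) fun i h1 h2 => by
      simp [hl.idxOf_getElem]) (fun y hy => by
      rw [List.getD_eq_getElem _ _ (List.idxOf_lt_length_iff.2 hy), List.getElem_idxOf])
    (fin0 k F h n)
  have b := fin_le k F (l := l) (l' := List.range (n + 1)) (fun y => l.idxOf y)
    (fun i => l.getD i 0) (List.ext_getElem (by simp [hn]) fun i h1 h2 => by
      simp [h2]) (fun y hy => by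
      have hy' : y < l.length := hn ▸ List.mem_range.1 hy
      rw [List.getD_eq_getElem _ _ hy', hl.idxOf_getElem]) a.1
  exact ⟨a.1, by rw [hdim, ← V_eq k F h]; exact le_antisymm a.2 b.2⟩

lemma basis {l : List ℕ} (h : Module.Finite k (V k F l)) : ∃ B : Finset Tr,
    (∀ e ∈ B, e.lv.Perm l) ∧ Indep k F B ∧ B.card = Module.finrank k (V k F l) := by
  obtain ⟨b, hb, -, h1, h2⟩ := exists_linearIndepOn_extension (K := k)
    (v := fun (e : Tr) (u : ℕ → F) => e.ev br u) (s := ∅) (t := {e | e.lv.Perm l})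
    (linearIndepOn_empty _ _) (Set.empty_subset _)
  have e : Submodule.span k (Set.range fun e : b => fun u : ℕ → F => e.1.ev br u) = V k F l := by
    refine le_antisymm (Submodule.span_mono ?_) (Submodule.span_le.2 ?_)
    · rintro _ ⟨e, rfl⟩
      exact ⟨e, hb e.2, rfl⟩
    · rintro _ ⟨e, he, rfl⟩
      have := h1 ⟨e, he, rfl⟩
      rwa [Set.image_eq_range] at this
  obtain ⟨S, hS⟩ := Module.Finite.iff_fg.1 h
  have hf : Finite b := LinearIndependent.finite_of_le_span_finite _ h2 (S : Set ((ℕ → F) → F))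
    (by rw [hS, ← e]; exact Submodule.subset_span)
  obtain ⟨B, rfl⟩ := (Set.toFinite b).exists_finset_coe
  refine ⟨B, fun e he => hb he, fun c hc => linearIndepOn_finset_iff.1 h2 c ?_, ?_⟩
  · funext u
    rw [Finset.sum_apply]; exact hc u
  · rw [← e, finrank_span_eq_card h2]; simp

lemma exists_pl {l : List ℕ} {φ : (ℕ → F) → F} (h : φ ∈ V k F l) :
    ∃ f ∈ PL k l, ∀ u, φ u = pev k br u f := by
  induction h using Submodule.span_induction with
  | mem x hx =>
    obtain ⟨b, hb, rfl⟩ := hx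
    exact ⟨Finsupp.single b 1, Finsupp.single_mem_supported _ _ hb, fun u => by simp [pev]⟩
  | zero => exact ⟨0, zero_mem _, fun u => by simp⟩
  | add x y _ _ hx hy =>
    obtain ⟨f, hf, h1⟩ := hx
    obtain ⟨g, hg, h2⟩ := hy
    exact ⟨f + g, add_mem hf hg, fun u => by simp [h1, h2]⟩
  | smul c x _ hx =>
    obtain ⟨f, hf, h1⟩ := hx
    exact ⟨c • f, Submodule.smul_mem _ _ hf, fun u => by simp [h1]⟩

lemma V_dep {l : List ℕ} {φ : (ℕ → F) → F} (h : φ ∈ V k F l) {u u' : ℕ → F}
    (hu : ∀ i ∈ l, u i = u' i) : φ u = φ u' := by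
  induction h using Submodule.span_induction with
  | mem x hx =>
    obtain ⟨b, hb, rfl⟩ := hx
    exact ev_congr _ b fun i hi => hu i (hb.mem_iff.1 hi)
  | zero => rfl
  | add x y _ _ hx hy => simp [hx, hy]
  | smul c x _ hx => simp [hx]

lemma pev_sub (u : ℕ → F) (g : ℕ → Tr) (f : Tr →₀ k) :
    pev k br u (Finsupp.mapDomain (Tr.sub g) f) = pev k br (fun j => (g j).ev br u) f := by
  rw [pev, pev, Finsupp.linearCombination_mapDomain]
  congr 2
  funext b
  exact ev_sub _ _ _ _

/-- An operation with central values vanishes. -/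
lemma central {f0 : Tr →₀ k} (hB : Base k F f0) {l : List ℕ} (hl : l.Nodup)
    {φ : (ℕ → F) → F} (h : φ ∈ V k F l) (hc : ∀ (u : ℕ → F) (y : F), ⁅φ u, y⁆ = 0) : φ = 0 := by
  obtain ⟨f, hf, h1⟩ := exists_pl k F h
  by_contra h0
  obtain ⟨n, g, hg, h2⟩ := hB.min l f hl hf fun hi => h0 (funext fun u => (h1 u).trans (hi u))
  have key : ∀ (u : ℕ → F) (y : F), ⁅pev k br u g, y⁆ = 0 := fun u y => by
    clear h2
    induction hg using Submodule.span_induction with
    | mem x hx =>
      obtain ⟨s, -, rfl⟩ := hx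
      rw [pev_sub, ← h1, hc]
    | zero => simp
    | add x y _ _ hx hy => rw [map_add, add_lie, hx, hy, add_zero]
    | smul c x _ hx => rw [map_smul, smul_lie, hx, smul_zero]
  refine hB.nsol (n + 1) fun u => ?_
  have e := h2 fun i => u (2 * i)
  rw [map_sub, sub_eq_zero] at e
  have e2 : (dt n fun i => id (2 * i)).ev br u = pev k br (fun i => u (2 * i)) g := by
    rw [← e, ev_dt]
    simp [pev, ev_dt]
  change ⁅(dt n fun i => id (2 * i)).ev br u, _⁆ = 0
  rw [e2, key]

/-- Bracket with a new variable. -/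
def ext (j : ℕ) : ((ℕ → F) → F) →ₗ[k] (ℕ → F) → F where
  toFun φ u := ⁅φ u, u j⁆
  map_add' _ _ := funext fun _ => add_lie _ _ _
  map_smul' _ _ := funext fun _ => smul_lie _ _ _

lemma mono (h : St_LN.{u}) {f0 : Tr →₀ k} (hB : Base k F f0) (n : ℕ) :
    hdim k F n ≤ hdim k F (n + 1) := by
  have a := fin_eq k F h (List.nodup_range (n := n + 1)) List.length_range
  have b := fin_eq k F h (List.nodup_range (n := n + 1 + 1)) List.length_range
  have m : ∀ φ ∈ V k F (List.range (n + 1)),
      ext k F (n + 1) φ ∈ V k F (List.range (n + 1 + 1)) := by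
    refine fun φ hφ => (Submodule.map_span_le (ext k F (n + 1)) _ _).2 ?_ ⟨φ, hφ, rfl⟩
    rintro _ ⟨e, he, rfl⟩
    refine Submodule.subset_span ⟨Tr.nd e (Tr.lf (n + 1)), ?_, rfl⟩
    rw [List.range_succ]
    exact he.append_right _
  rw [← a.2, ← b.2]
  have := b.1
  refine LinearMap.finrank_le_finrank_of_injective (f := (ext k F (n + 1)).restrict m)
    ((injective_iff_map_eq_zero _).2 fun φ hφ => Subtype.ext ?_)
  refine central k F hB List.nodup_range φ.2 fun u y => ?_
  have e := congrFun (congrArg Subtype.val hφ) (Function.update u (n + 1) y)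
  change ⁅φ.1 _, Function.update u (n + 1) y (n + 1)⁆ = 0 at e
  rwa [Function.update_self, V_dep k F φ.2 (u' := u) fun i hi =>
    Function.update_of_ne (List.mem_range.1 hi).ne _ _] at e

end HD

theorem stHD (h : St_LN.{u}) : St_HD.{u} := by
  intro k _ F _ _
  refine ⟨fun l hl n hn => ?_, fun f0 hB n => ⟨?_, HD.mono k F h hB n⟩⟩
  · have a := HD.fin_eq k F h hl hn
    exact ⟨a.2 ▸ HD.basis k F a.1, a⟩
  · induction n with
    | zero =>
      have a := HD.fin_eq k F h (List.nodup_range (n := 0 + 1)) List.length_range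
      have := a.1
      rw [← a.2, Submodule.one_le_finrank_iff]
      intro h0
      refine hB.nsol 0 fun u => ?_
      have m : (fun u : ℕ → F => (Tr.lf 0).ev br u) ∈ HD.V k F (List.range (0 + 1)) :=
        Submodule.subset_span ⟨Tr.lf 0, List.Perm.refl _, rfl⟩
      rw [h0, Submodule.mem_bot] at m
      exact congrFun m u
    | succ n ih => exact ih.trans (HD.mono k F h hB n)

end Pool.Agent.Lib.EB
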