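import Pool.Agent.Lib.EB.Blue

/-! Homogeneous components of identities. -/

namespace Pool.Agent.Lib.EB

universe u

lemma ev_smul_HS {k : Type u} [Field k] {L : Type u} [LieRing L] [LieAlgebra k L] (t : ℕ → k)
    (u : ℕ → L) (b : Tr) :
    b.ev br (fun i => t i • u i) = (b.lv.map t).prod • b.ev br u := by
  induction b with
  | lf i => simp [Tr.ev, Tr.lv]
  | nd a b iha ihb =>
    rw [Tr.ev, iha, ihb, Tr.lv, List.map_append, List.prod_append, Tr.ev, br, br, smul_lie,
      lie_smul, mul_smul]

lemma eval_mon_HS {k : Type u} [Field k] (t : ℕ → k) (c : k) (l : List ℕ) :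
    MvPolynomial.eval t (MvPolynomial.monomial (Multiset.toFinsupp (l : Multiset ℕ)) c) =
      c * (l.map t).prod := by
  rw [MvPolynomial.eval_monomial]
  congr 1
  induction l with
  | nil => simp
  | cons a l ih =>
    rw [← Multiset.cons_coe, ← Multiset.singleton_add, map_add, Multiset.toFinsupp_singleton,
      Finsupp.prod_add_index' (fun _ => pow_zero _) fun _ _ _ => pow_add _ _ _, ih,
      Finsupp.prod_single_index (h := fun x => HPow.hPow (t x)) (pow_zero _), pow_one, List.map_cons, List.prod_cons]

theorem stHS : St_HS.{u} := by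
  intro k _ _ L _ _ g hg d _ u
  refine (Module.forall_dual_apply_eq_zero_iff k _).1 fun φ => ?_
  set P : MvPolynomial ℕ k := ∑ b ∈ g.support,
    MvPolynomial.monomial (Multiset.toFinsupp (b.lv : Multiset ℕ)) (g b * φ (b.ev br u)) with hP
  have h0 : P = 0 := by
    refine MvPolynomial.funext fun t => ?_
    have := congrArg φ (hg fun i => t i • u i)
    rw [pev, Finsupp.linearCombination_apply, Finsupp.sum, map_sum, map_zero] at this
    rw [hP, map_sum, map_zero, ← this]
    refine Finset.sum_congr rfl fun b _ => ?_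
    rw [eval_mon_HS, ev_smul_HS, map_smul, map_smul, smul_eq_mul, smul_eq_mul]; ring
  have h1 := congrArg (MvPolynomial.coeff (Multiset.toFinsupp (d : Multiset ℕ))) h0
  rw [hP, MvPolynomial.coeff_sum, MvPolynomial.coeff_zero] at h1
  rw [pev, Finsupp.linearCombination_apply, Finsupp.sum, Finsupp.support_filter, Finset.sum_filter,
    map_sum, ← h1]
  refine Finset.sum_congr rfl fun b _ => ?_
  rw [MvPolynomial.coeff_monomial]
  by_cases h : b.lv.Perm d
  · rw [if_pos h, if_pos (by rw [Multiset.coe_eq_coe.2 h]), Finsupp.filter_apply, if_pos h,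
      map_smul, smul_eq_mul]
  · rw [if_neg h, if_neg fun e => h (Multiset.coe_eq_coe.1 (Multiset.toFinsupp.injective e)),
      map_zero]

end Pool.Agent.Lib.EB
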