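import Pool.Agent.Lib.EB.Blue

/-!
A relation killed by all monomials.
-/

namespace Pool.Agent.Lib.EB

universe u

namespace KR

theorem ev_congr {X : Type*} (m : X → X → X) {u u' : ℕ → X} :
    ∀ b : Tr, (∀ i ∈ b.lv, u i = u' i) → b.ev m u = b.ev m u'
  | .lf i, h => h i (by simp [Tr.lv])
  | .nd a b, h => by
    simp only [Tr.ev]
    rw [ev_congr m a fun i hi => h i (by simp [Tr.lv, hi]),
      ev_congr m b fun i hi => h i (by simp [Tr.lv, hi])]

theorem ev_update {X : Type*} (m : X → X → X) (u : ℕ → X) {b : Tr} {i : ℕ} (h : i ∉ b.lv)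
    (x : X) : b.ev m (Function.update u i x) = b.ev m u :=
  ev_congr m b fun j hj => Function.update_of_ne (fun e : j = i => h (e ▸ hj)) _ _

/-- left normed extension of a monomial -/
def ext (t : Tr) (w : List ℕ) : Tr := w.foldl (fun t j => Tr.nd t (Tr.lf j)) t

theorem ext_lv (w : List ℕ) : ∀ t : Tr, (ext t w).lv = t.lv ++ w := by
  induction w with
  | nil => simp [ext]
  | cons j w ih =>
    intro t
    exact (ih (Tr.nd t (Tr.lf j))).trans (by simp [Tr.lv])

variable {k : Type u} [Field k] {F : Type u} [LieRing F] [LieAlgebra k F]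

theorem rop_cons (y : F) (l : List F) (x : F) : rop k (y :: l) x = rop k l ⁅x, y⁆ := rfl

theorem ext_ev (u : ℕ → F) (w : List ℕ) :
    ∀ t : Tr, (ext t w).ev br u = rop k (w.map u) (t.ev br u) := by
  induction w with
  | nil => intro t; rfl
  | cons j w ih => intro t; exact ih (Tr.nd t (Tr.lf j))

theorem rop_concat (z : F) (l : List F) : ∀ x : F, rop k (l ++ [z]) x = ⁅rop k l x, z⁆ := by
  induction l with
  | nil => intro x; rfl
  | cons y l ih => intro x; exact ih ⁅x, y⁆

theorem sum_congr (r : Rel k) {W : Type*} [AddCommGroup W] [Module k W] {φ ψ : Tr → Tr → W}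
    (h : ∀ T ∈ r.S.powersetCard r.i, ∀ e ∈ r.B T, ∀ e' ∈ r.B' T, φ e e' = ψ e e') :
    r.sum φ = r.sum ψ :=
  Finset.sum_congr rfl fun T hT => Finset.sum_congr rfl fun e he =>
    Finset.sum_congr rfl fun e' he' => by rw [h T hT e he e' he']

theorem map_sum' (r : Rel k) {W W' : Type*} [AddCommGroup W] [Module k W] [AddCommGroup W']
    [Module k W'] (f : W →ₗ[k] W') (φ : Tr → Tr → W) :
    f (r.sum φ) = r.sum fun e e' => f (φ e e') := by
  simp only [Rel.sum, map_sum, map_smul]

theorem sum_sub (r : Rel k) {W : Type*} [AddCommGroup W] [Module k W] (φ ψ : Tr → Tr → W) :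
    (r.sum fun e e' => φ e e' - ψ e e') = r.sum φ - r.sum ψ := by
  simp only [Rel.sum, smul_sub, Finset.sum_sub_distrib]

theorem sum_zero (r : Rel k) {W W' : Type*} [AddCommGroup W] [Module k W] [AddCommGroup W']
    [Module k W'] (f : W →ₗ[k] W') {φ : Tr → Tr → W} (h : r.sum φ = 0) :
    (r.sum fun e e' => f (φ e e')) = 0 := by rw [← map_sum', h, map_zero]

theorem one_var (v : ℕ → F) (a : ℕ) : ∀ g : Tr, g.lv.Nodup → a ∈ g.lv →
    ∃ (c : k) (l : List F), ∀ x, g.ev br (Function.update v a x) = c • rop k l x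
  | .lf i, _, h => by
    obtain rfl : a = i := by simpa [Tr.lv] using h
    exact ⟨1, [], fun x => by simp [Tr.ev, rop]⟩
  | .nd g1 g2, hn, h => by
    obtain ⟨n1, n2, n3⟩ := List.nodup_append.1 hn
    rcases List.mem_append.1 h with h | h
    · obtain ⟨c, l, e⟩ := one_var v a g1 n1 h
      refine ⟨c, l ++ [g2.ev br v], fun x => ?_⟩
      rw [Tr.ev, e, ev_update br v fun h' => n3 a h a h' rfl, rop_concat, br, smul_lie]
    · obtain ⟨c, l, e⟩ := one_var v a g2 n2 h
      refine ⟨-c, l ++ [g1.ev br v], fun x => ?_⟩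
      rw [Tr.ev, e, ev_update br v fun h' => n3 a h' a h rfl, rop_concat, br, lie_smul,
        ← lie_skew, smul_neg, neg_smul]

theorem two_ops (r : Rel k) (x y : Tr → F)
    (h : ∀ l : List F, (r.sum fun e e' => ⁅rop k l (x e), y e'⁆) = 0) (l' : List F) :
    ∀ l : List F, (r.sum fun e e' => ⁅rop k l (x e), rop k l' (y e')⁆) = 0 := by
  induction l' using List.reverseRecOn with
  | nil => exact h
  | append_singleton l' z ih =>
    intro l
    have := sum_sub r (fun e e' => (brL k F).flip z ⁅rop k l (x e), rop k l' (y e')⁆)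
      fun e e' => ⁅rop k (l ++ [z]) (x e), rop k l' (y e')⁆
    rw [sum_zero r _ (ih l), ih, sub_zero] at this
    refine Eq.trans (sum_congr r fun _ _ e _ e' _ => ?_) this
    change _ = ⁅⁅rop k l (x e), rop k l' (y e')⁆, z⁆ - _
    rw [rop_concat, rop_concat, leibniz_lie, ← lie_skew (rop k l' (y e')) ⁅_, z⁆, sub_eq_add_neg]

theorem two_var (r : Rel k) (x y : Tr → F)
    (h : ∀ l : List F, (r.sum fun e e' => ⁅rop k l (x e), y e'⁆) = 0) (v : ℕ → F) {a b : ℕ}
    (hab : a ≠ b) : ∀ g : Tr, g.lv.Nodup → a ∈ g.lv → b ∈ g.lv →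
      (r.sum fun e e' => g.ev br (Function.update (Function.update v a (x e)) b (y e'))) = 0
  | .lf i, _, ha, hb => by
    simp only [Tr.lv, List.mem_singleton] at ha hb
    exact (hab (ha.trans hb.symm)).elim
  | .nd g1 g2, hn, ha, hb => by
    obtain ⟨n1, n2, n3⟩ := List.nodup_append.1 hn
    have d1 : ∀ {i}, i ∈ g1.lv → i ∉ g2.lv := fun h h' => n3 _ h _ h' rfl
    have d2 : ∀ {i}, i ∈ g2.lv → i ∉ g1.lv := fun h h' => n3 _ h' _ h rfl
    rcases List.mem_append.1 ha with ha | ha <;> rcases List.mem_append.1 hb with hb | hb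
    · refine Eq.trans (sum_congr r fun _ _ e _ e' _ => ?_)
        (sum_zero r ((brL k F).flip (g2.ev br v)) (two_var r x y h v hab g1 n1 ha hb))
      rw [Tr.ev, ev_update br _ (d1 hb), ev_update br _ (d1 ha)]
      rfl
    · obtain ⟨c, l, e1⟩ := one_var (k := k) v a g1 n1 ha
      obtain ⟨c', l', e2⟩ := one_var (k := k) v b g2 n2 hb
      refine Eq.trans (sum_congr r fun _ _ e _ e' _ => ?_)
        (sum_zero r ((c * c') • LinearMap.id) (two_ops r x y h l' l))
      rw [Tr.ev, ev_update br _ (d2 hb), Function.update_comm hab, ev_update br _ (d1 ha), e1, e2,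
        br, smul_lie, lie_smul, smul_smul]
      rfl
    · obtain ⟨c, l, e1⟩ := one_var (k := k) v a g2 n2 ha
      obtain ⟨c', l', e2⟩ := one_var (k := k) v b g1 n1 hb
      refine Eq.trans (sum_congr r fun _ _ e _ e' _ => ?_)
        (sum_zero r (-(c' * c) • LinearMap.id) (two_ops r x y h l' l))
      rw [Tr.ev, ev_update br _ (d1 hb), Function.update_comm hab, ev_update br _ (d2 ha), e1, e2,
        br, smul_lie, lie_smul, smul_smul, ← lie_skew, smul_neg, ← neg_smul]
      rfl
    · refine Eq.trans (sum_congr r fun _ _ e _ e' _ => ?_)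
        (sum_zero r (brL k F (g1.ev br v)) (two_var r x y h v hab g2 n2 ha hb))
      rw [Tr.ev, ev_update br _ (d2 hb), ev_update br _ (d2 ha)]
      rfl

theorem map_range (ys : List F) (M : ℕ) (u : ℕ → F) (h : ∀ i, u (M + i) = ys.getD i 0) :
    (List.range' M ys.length).map u = ys := by
  refine List.ext_getElem (by simp) fun i h1 h2 => ?_
  simp [h, List.getD_eq_getElem?_getD, h2]

theorem short (r : Rel k) (ys : List F) (u : ℕ → F)
    (h : ∀ v : ℕ → F, (r.sum fun e e' => (Tr.nd (lw 0 (List.range' 2 ys.length)) (Tr.lf 1)).ev br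
      (Function.update (Function.update v 0 (e.ev br u)) 1 (e'.ev br u))) = 0) :
    (r.sum fun e e' => ⁅rop k ys (e.ev br u), e'.ev br u⁆) = 0 := by
  refine Eq.trans (sum_congr r fun _ _ e _ e' _ => ?_) (h fun i => ys.getD (i - 2) 0)
  have := ext_ev (k := k) (Function.update (Function.update (fun i => ys.getD (i - 2) 0) 0
    (e.ev br u)) 1 (e'.ev br u)) (List.range' 2 ys.length) (Tr.lf 0)
  rw [map_range ys 2 _ fun i => by
    rw [Function.update_of_ne (by omega), Function.update_of_ne (by omega), Nat.add_sub_cancel_left]]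
    at this
  rw [Tr.ev, show lw 0 (List.range' 2 ys.length) = ext (Tr.lf 0) (List.range' 2 ys.length) from rfl,
    this]
  simp [Tr.ev, br]

theorem deep (hD : St_DN.{u}) {f0 : Tr →₀ k} (hB : Base k F f0) {r : Rel k} (hr : r.Good F)
    (D : ℕ) (ys : List F) (u : ℕ → F)
    (h : ∀ zs : List F, zs.length = ys.length → (∀ z ∈ zs, z ∈ LieAlgebra.derivedSeries k F D) →
      ∀ u : ℕ → F, (r.sum fun e e' => ⁅rop k zs (e.ev br u), e'.ev br u⁆) = 0) :
    (r.sum fun e e' => ⁅rop k ys (e.ev br u), e'.ev br u⁆) = 0 := by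
  classical
  obtain ⟨M, hM⟩ : ∃ M, ∀ i ∈ r.p :: r.q :: r.S.toList, i < M :=
    ⟨(r.p :: r.q :: r.S.toList).sum + 1, fun i hi =>
      Nat.lt_succ_of_le (List.single_le_sum (fun _ _ => Nat.zero_le _) i hi)⟩
  have lv : ∀ T ∈ r.S.powersetCard r.i, ∀ e ∈ r.B T, ∀ e' ∈ r.B' T,
      (e.lv ++ e'.lv).Perm (r.p :: r.q :: r.S.toList) := fun T hT e he e' he' => by
    refine ((hr.lvB T hT e he).append (hr.lvB' T hT e' he')).trans (List.Perm.cons _ ?_)
    refine List.perm_middle.trans (List.Perm.cons _ ?_)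
    rw [← Multiset.coe_eq_coe, ← Multiset.coe_add, Finset.coe_toList, Finset.coe_toList,
      Finset.coe_toList, Finset.sdiff_val, add_tsub_cancel_of_le]
    exact Finset.val_le_iff.2 (Finset.mem_powersetCard.1 hT).1
  let w := List.range' M ys.length
  let f : Tr →₀ k := r.sum fun e e' => Finsupp.single (Tr.nd (ext e w) e') 1
  have ef : ∀ u : ℕ → F, pev k br u f =
      r.sum fun e e' => ⁅rop k (w.map u) (e.ev br u), e'.ev br u⁆ := fun u => by
    rw [map_sum']
    refine sum_congr r fun _ _ e _ e' _ => ?_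
    rw [pev, Finsupp.linearCombination_single, one_smul, Tr.ev, ext_ev (k := k), br]
  have hf : f ∈ PL k (r.p :: r.q :: r.S.toList ++ w) := by
    refine Submodule.sum_mem _ fun T hT => Submodule.sum_mem _ fun e he =>
      Submodule.sum_mem _ fun e' he' => Submodule.smul_mem _ _
        (Finsupp.single_mem_supported k _ ?_)
    change ((ext e w).lv ++ e'.lv).Perm _
    rw [ext_lv, List.append_assoc]
    refine (List.Perm.append_left _ List.perm_append_comm).trans ?_
    rw [← List.append_assoc]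
    exact (lv T hT e he e' he').append_right w
  have nd : (r.p :: r.q :: r.S.toList ++ w).Nodup := by
    refine List.nodup_append.2 ⟨?_, List.nodup_range', fun i hi j hj => ?_⟩
    · simp [hr.hp, hr.hq, hr.hpq, Finset.nodup_toList]
    · have := hM i hi
      have := List.left_le_of_mem_range' hj
      omega
  have id := hD k F f0 hB _ f D nd hf fun u hu => by
    rw [ef]
    exact h _ (by simp [w]) (fun z hz => by
      obtain ⟨i, -, rfl⟩ := List.mem_map.1 hz
      exact hu i) u
  have := id fun i => if i < M then u i else ys.getD (i - M) 0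
  rw [ef, map_range ys M _ fun i => by rw [if_neg (by omega), Nat.add_sub_cancel_left]] at this
  refine Eq.trans (sum_congr r fun T hT e he e' he' => ?_) this
  have m := fun i hi => hM i ((lv T hT e he e' he').subset hi)
  rw [ev_congr br (u' := u) e fun i hi => if_pos (m i (List.mem_append_left _ hi)),
    ev_congr br (u' := u) e' fun i hi => if_pos (m i (List.mem_append_right _ hi))]

end KR

open KR in
theorem stKR : St_REL.{u} → St_BL.{u} → St_DN.{u} → St_KR.{u} := by
  intro hR hL hD k _ _ _ _ F _ _ f0 hB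
  obtain ⟨N, n, hN⟩ := hL k F f0 hB
  obtain ⟨r, hr, h⟩ := hR k F f0 hB
    ((List.range N).map fun j => Tr.nd (lw 0 (List.range' 2 j)) (Tr.lf 1)) (by
      intro c hc
      obtain ⟨j, -, rfl⟩ := List.mem_map.1 hc
      have e : (Tr.nd (lw 0 (List.range' 2 j)) (Tr.lf 1)).lv = 0 :: List.range' 2 j ++ [1] :=
        congrArg (· ++ [1]) (ext_lv (List.range' 2 j) (Tr.lf 0))
      rw [e]
      refine ⟨List.nodup_append.2 ⟨List.nodup_cons.2 ⟨fun h => ?_, List.nodup_range'⟩,
        List.nodup_singleton _, fun a ha b hb => ?_⟩, by simp, by simp⟩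
      · exact absurd (List.left_le_of_mem_range' h) (by omega)
      · obtain rfl := List.mem_singleton.1 hb
        rcases List.mem_cons.1 ha with rfl | ha
        · omega
        · have := List.left_le_of_mem_range' ha
          omega)
  refine ⟨r, hr, fun g a b hg ha hb hab u v => two_var r (fun e => e.ev br u)
    (fun e => e.ev br u) (fun ys => deep hD hB hr (ys.length * n) ys u fun zs hz hd u => ?_)
    v hab g hg ha hb⟩
  let Φ : (F →ₗ[k] F) →ₗ[k] F :=
    { toFun := fun A => r.sum fun e e' => ⁅A (e.ev br u), e'.ev br u⁆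
      map_add' := fun A B => by
        simp only [Rel.sum, LinearMap.add_apply, add_lie, smul_add, Finset.sum_add_distrib]
      map_smul' := fun c A => by
        simp only [Rel.sum, LinearMap.smul_apply, smul_lie, RingHom.id_apply, Finset.smul_sum,
          smul_comm c] }
  have : Submodule.span k {a | ∃ l : List F, l.length < N ∧ a = rop k l} ≤ LinearMap.ker Φ := by
    rw [Submodule.span_le]
    rintro _ ⟨l, hl, rfl⟩
    exact short r l u fun v => h _ (List.mem_map.2 ⟨_, List.mem_range.2 hl, rfl⟩) u v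
  exact this (hN zs (by rwa [hz]))

end Pool.Agent.Lib.EB
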