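import Pool.Agent.Lib.EB.Blue

/-!
Linearization of identities.
-/

namespace Pool.Agent.Lib.EB

open TensorProduct Polynomial Pool.Agent.Lib.MP_eb02d8_al

universe u

/-- All ways to replace one leaf `s` by `y`. -/
def linD (s y : ℕ) : Tr → List Tr
  | .lf i => if i = s then [.lf y] else []
  | .nd a b => (linD s y a).map (fun a' => .nd a' b) ++ (linD s y b).map (fun b' => .nd a b')

theorem linD_lv (s y : ℕ) (b : Tr) : ∀ b' ∈ linD s y b, (s :: b'.lv).Perm (y :: b.lv) := by
  induction b with
  | lf i =>
    intro b' hb'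
    simp only [linD] at hb'
    split_ifs at hb' with h
    · simp only [List.mem_singleton] at hb'
      subst hb' h
      exact List.Perm.swap _ _ _
    · simp at hb'
  | nd a b iha ihb =>
    intro b' hb'
    simp only [linD, List.mem_append, List.mem_map] at hb'
    rcases hb' with ⟨a', ha', rfl⟩ | ⟨c', hc', rfl⟩
    · exact (iha a' ha').append_right b.lv
    · exact (List.perm_middle.symm.trans ((ihb c' hc').append_left a.lv)).trans List.perm_middle

section
variable {k : Type u} [Field k] {L : Type*} [LieRing L] [LieAlgebra k L]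

theorem lin_sum_lie (l : List Tr) (u : ℕ → L) (b : Tr) :
    ((l.map fun a' => Tr.nd a' b).map (Tr.ev br u)).sum =
      ⁅(l.map (Tr.ev br u)).sum, b.ev br u⁆ := by
  induction l with
  | nil => simp
  | cons a l ih =>
    simp only [List.map_cons, List.sum_cons, ih, add_lie]
    rfl

theorem lin_lie_sum (l : List Tr) (u : ℕ → L) (a : Tr) :
    ((l.map fun b' => Tr.nd a b').map (Tr.ev br u)).sum =
      ⁅a.ev br u, (l.map (Tr.ev br u)).sum⁆ := by
  induction l with
  | nil => simp
  | cons b l ih =>
    simp only [List.map_cons, List.sum_cons, ih, lie_add]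
    rfl

theorem linD_nd (s y : ℕ) (a b : Tr) (u : ℕ → L) :
    ((linD s y (.nd a b)).map (Tr.ev br u)).sum =
      ⁅((linD s y a).map (Tr.ev br u)).sum, b.ev br u⁆ +
        ⁅a.ev br u, ((linD s y b).map (Tr.ev br u)).sum⁆ := by
  rw [linD, List.map_append, List.sum_append, lin_sum_lie, lin_lie_sum]

theorem linD_diag (s y : ℕ) (u : ℕ → L) (h : u y = u s) (b : Tr) :
    ((linD s y b).map (Tr.ev br u)).sum = b.lv.count s • b.ev br u := by
  induction b with
  | lf i =>
    by_cases hi : i = s
    · subst hi
      simp [linD, Tr.lv, Tr.ev, h]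
    · simp [linD, Tr.lv, hi]
  | nd a b iha ihb =>
    rw [linD_nd, iha, ihb, nsmul_lie, lie_nsmul, Tr.lv, List.count_append, add_smul]
    rfl

theorem lin_ev_congr {X : Type*} (m : X → X → X) (u v : ℕ → X) (b : Tr)
    (h : ∀ i ∈ b.lv, u i = v i) : b.ev m u = b.ev m v := by
  induction b with
  | lf i => exact h i (by simp [Tr.lv])
  | nd a b iha ihb =>
    simp only [Tr.ev]
    rw [iha fun i hi => h i (by simp [Tr.lv, hi]), ihb fun i hi => h i (by simp [Tr.lv, hi])]

theorem lin_hom_ev {L' : Type*} [LieRing L'] [LieAlgebra k L'] (φ : L →ₗ⁅k⁆ L') (u : ℕ → L)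
    (b : Tr) : φ (b.ev br u) = b.ev br (fun i => φ (u i)) := by
  induction b with
  | lf i => rfl
  | nd a b iha ihb => simp only [Tr.ev, br, LieHom.map_lie, iha, ihb]

theorem lin_hom_pev {L' : Type*} [LieRing L'] [LieAlgebra k L'] (φ : L →ₗ⁅k⁆ L') (u : ℕ → L)
    (g : Tr →₀ k) : φ (pev k br u g) = pev k br (fun i => φ (u i)) g := by
  induction g using Finsupp.induction_linear with
  | zero => simp
  | add f g hf hg => simp only [map_add, hf, hg]
  | single b c => simp [pev, lin_hom_ev]

/-- The formal polarization. -/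
noncomputable def linF (k : Type u) [Field k] (s y : ℕ) : (Tr →₀ k) →ₗ[k] (Tr →₀ k) :=
  Finsupp.linearCombination k
    (fun b : Tr => ((linD s y b).map fun b' => Finsupp.single b' (1 : k)).sum)

theorem pev_list_single (u : ℕ → L) (l : List Tr) :
    pev k br u (l.map fun b' => Finsupp.single b' (1 : k)).sum = (l.map (Tr.ev br u)).sum := by
  induction l with
  | nil => simp
  | cons a l ih =>
    simp only [List.map_cons, List.sum_cons, map_add, ih]
    simp [pev]

theorem pev_linF_single (s y : ℕ) (u : ℕ → L) (b : Tr) (c : k) :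
    pev k br u (linF k s y (Finsupp.single b c)) =
      c • ((linD s y b).map (Tr.ev br u)).sum := by
  rw [linF, Finsupp.linearCombination_single, map_smul, pev_list_single]

/-- The deformed assignment. -/
noncomputable def linU (k : Type u) [Field k] {L : Type*} [LieRing L] [LieAlgebra k L]
    (s y : ℕ) (u : ℕ → L) (i : ℕ) : k[X] ⊗[k] L :=
  (1 : k[X]) ⊗ₜ[k] u i + (X : k[X]) ⊗ₜ[k] (if i = s then u y else 0)

theorem linU_zero (s y : ℕ) (u : ℕ → L) (b : Tr) :
    evL (0 : k) (b.ev br (linU k s y u)) = b.ev br u := by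
  rw [lin_hom_ev]
  congr 1
  funext i
  simp [linU, evL_apply]

theorem linU_one (s y : ℕ) (u : ℕ → L) (b : Tr) :
    cf (Polynomial.lcoeff k 1) (b.ev br (linU k s y u)) =
      ((linD s y b).map (Tr.ev br u)).sum := by
  induction b with
  | lf i =>
    by_cases hi : i = s
    · simp [linD, Tr.ev, linU, hi, Polynomial.coeff_one]
    · simp [linD, Tr.ev, linU, hi, Polynomial.coeff_one]
  | nd a b iha ihb =>
    rw [linD_nd, ← iha, ← ihb]
    change cf (Polynomial.lcoeff k 1) ⁅a.ev br (linU k s y u), b.ev br (linU k s y u)⁆ = _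
    rw [cf_one_lie, linU_zero, linU_zero, ← lie_skew (b.ev br u)]
    abel

theorem idt_linF [Infinite k] (s y : ℕ) (g : Tr →₀ k) (hg : Idt k L g) :
    Idt k L (linF k s y g) := by
  intro u
  have h1 : ∀ g : Tr →₀ k, pev k br u (linF k s y g) =
      cf (Polynomial.lcoeff k 1) (pev k br (linU k s y u) g) := by
    intro g
    induction g using Finsupp.induction_linear with
    | zero => simp
    | add f g hf hg => simp only [map_add, hf, hg]
    | single b c =>
      rw [pev_linF_single, ← linU_one (k := k)]
      simp [pev]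
  rw [h1]
  apply cf_eq_zero
  intro t
  rw [← evL_apply, lin_hom_pev]
  exact hg _

theorem linF_mem (s y : ℕ) (d : List ℕ) (g : Tr →₀ k) (hg : g ∈ PL k (s :: d)) :
    linF k s y g ∈ PL k (y :: d) := by
  rw [PL, Finsupp.supported_eq_span_single] at hg
  induction hg using Submodule.span_induction with
  | zero => simp
  | add a b _ _ ha hb => rw [map_add]; exact add_mem ha hb
  | smul c a _ ha => rw [map_smul]; exact Submodule.smul_mem _ _ ha
  | mem a ha =>
    obtain ⟨b, hb, rfl⟩ := ha
    rw [linF, Finsupp.linearCombination_single, one_smul]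
    apply list_sum_mem
    intro x hx
    obtain ⟨b', hb', rfl⟩ := List.mem_map.1 hx
    apply Finsupp.single_mem_supported
    have h := (linD_lv s y b b' hb').trans (List.Perm.cons y hb)
    exact (h.trans (List.Perm.swap _ _ _)).cons_inv

theorem linF_diag (s y : ℕ) (d : List ℕ) (hy : y ∉ d) (hs : s ∈ d) (u : ℕ → L) (g : Tr →₀ k)
    (hg : g ∈ PL k d) :
    pev k br (Function.update u y (u s)) (linF k s y g) = d.count s • pev k br u g := by
  rw [PL, Finsupp.supported_eq_span_single] at hg
  induction hg using Submodule.span_induction with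
  | zero => simp
  | add a b _ _ ha hb => simp only [map_add, ha, hb, smul_add]
  | smul c a _ ha => simp only [map_smul, ha, smul_comm c]
  | mem a ha =>
    obtain ⟨b, hb, rfl⟩ := ha
    have hb : b.lv.Perm d := hb
    have hsy : s ≠ y := fun h => hy (h ▸ hs)
    rw [pev_linF_single, one_smul, linD_diag _ _ _ (by simp [hsy]), hb.count_eq]
    congr 1
    simp only [pev, Finsupp.linearCombination_single, one_smul]
    apply lin_ev_congr
    intro i hi
    have : i ≠ y := fun h => hy (h ▸ hb.subset hi)
    simp [this]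

theorem not_idt_linF [CharZero k] (s y : ℕ) (d : List ℕ) (hy : y ∉ d) (hs : s ∈ d)
    (g : Tr →₀ k) (hg : g ∈ PL k d) (h : ¬ Idt k L g) : ¬ Idt k L (linF k s y g) := by
  intro h'
  apply h
  intro u
  have h1 := linF_diag s y d hy hs u g hg
  rw [h', ← Nat.cast_smul_eq_nsmul k] at h1
  have h2 : ((d.count s : ℕ) : k) ≠ 0 := by
    exact_mod_cast (List.count_pos_iff.2 hs).ne'
  exact (smul_eq_zero.1 h1.symm).resolve_left h2

theorem lin_component (g : Tr →₀ k) (h : ¬ Idt k L g) :
    ∃ d : List ℕ, ¬ Idt k L (g.filter fun b => b.lv.Perm d) := by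
  classical
  by_contra hne
  push Not at hne
  apply h
  intro u
  rw [pev, Finsupp.linearCombination_apply, Finsupp.sum,
    ← Finset.sum_fiberwise_of_maps_to (t := g.support.image fun b => (b.lv : Multiset ℕ))
      (g := fun b => (b.lv : Multiset ℕ)) (fun b hb => Finset.mem_image_of_mem _ hb)]
  apply Finset.sum_eq_zero
  intro M _
  induction M using Quotient.inductionOn with
  | h d =>
    have h1 := hne d u
    rw [pev, Finsupp.linearCombination_apply, Finsupp.sum, Finsupp.support_filter] at h1
    rw [← h1]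
    apply Finset.sum_congr
    · ext b
      simp
    · intro b hb
      rw [Finsupp.filter_apply_pos (fun b : Tr => b.lv.Perm d) g (Finset.mem_filter.1 hb).2]

end

theorem lin_free (k : Type u) [Field k] (t : FreeLieAlgebra k ℕ) :
    ∃ g : Tr →₀ k, pev k br (FreeLieAlgebra.of k) g = t := by
  let S : LieSubalgebra k (FreeLieAlgebra k ℕ) :=
    { LinearMap.range (pev k br (FreeLieAlgebra.of k : ℕ → FreeLieAlgebra k ℕ)) with
      lie_mem' := by
        rintro _ _ ⟨f, rfl⟩ ⟨g, rfl⟩
        change _ ∈ LinearMap.range (pev k br (FreeLieAlgebra.of k : ℕ → FreeLieAlgebra k ℕ))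
        induction f using Finsupp.induction_linear with
        | zero => simp
        | add f f' hf hf' => rw [map_add, add_lie]; exact add_mem hf hf'
        | single a c =>
          induction g using Finsupp.induction_linear with
          | zero => simp
          | add g g' hg hg' => rw [map_add, lie_add]; exact add_mem hg hg'
          | single b e =>
            refine ⟨Finsupp.single (Tr.nd a b) (c * e), ?_⟩
            simp only [pev, Finsupp.linearCombination_single, Tr.ev, br, smul_lie, lie_smul,
              smul_smul, mul_comm] }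
  let ψ : FreeLieAlgebra k ℕ →ₗ⁅k⁆ S :=
    FreeLieAlgebra.lift k fun i => ⟨FreeLieAlgebra.of k i, ⟨Finsupp.single (Tr.lf i) 1, by
      simp [pev, Tr.ev]⟩⟩
  have h : S.incl.comp ψ = LieHom.id := by
    apply FreeLieAlgebra.hom_ext
    intro i
    simp [ψ]
  have h2 : ((ψ t : S) : FreeLieAlgebra k ℕ) = t := LieHom.congr_fun h t
  obtain ⟨g, hg⟩ := (ψ t).2
  exact ⟨g, hg.trans h2⟩

attribute [local instance 100] LieRing.ofAssociativeRing in
theorem stLIN (hH : St_HS.{u}) : St_LIN.{u} := by
  classical
  intro k _ _ T hT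
  have key : ∀ (d l : List ℕ) (g : Tr →₀ k), l.Nodup → g ∈ PL k (d ++ l) →
      ¬ Idt k (LieAlgebra.SpecialLinear.sl (Fin 2) k) g →
      (∀ (L : Type u) [LieRing L] [LieAlgebra k L], Sat k T L → Idt k L g) →
      ∃ f0 : Tr →₀ k, NoSl k f0 ∧
        ∀ (L : Type u) [LieRing L] [LieAlgebra k L], Sat k T L → Idt k L f0 := by
    intro d
    induction d with
    | nil => exact fun l g hl hg h1 h2 => ⟨g, ⟨l, hl, hg, h1⟩, h2⟩
    | cons s d ih =>
      intro l g hl hg h1 h2
      obtain ⟨y, hy⟩ := Infinite.exists_notMem_finset (s :: d ++ l).toFinset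
      rw [List.mem_toFinset] at hy
      refine ih (y :: l) (linF k s y g) (List.nodup_cons.2 ⟨fun h => hy (by simp [h]), hl⟩) ?_
        (not_idt_linF s y _ hy (by simp) g hg h1) (fun L _ _ hL => idt_linF s y g (h2 L hL))
      have h3 := linF_mem s y (d ++ l) g hg
      have h4 : PL k (y :: (d ++ l)) = PL k (d ++ y :: l) := by
        unfold PL
        congr 1
        ext b
        exact ⟨fun h => List.Perm.trans h List.perm_middle.symm,
          fun h => List.Perm.trans h List.perm_middle⟩
      rwa [h4] at h3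
  unfold Sat at hT
  push Not at hT
  obtain ⟨t, ht, a, ha⟩ := hT
  obtain ⟨g, rfl⟩ := lin_free k t
  have hev : ∀ (L : Type u) [LieRing L] [LieAlgebra k L] (v : ℕ → L),
      FreeLieAlgebra.lift k v (pev k br (FreeLieAlgebra.of k) g) = pev k br v g := by
    intro L _ _ v
    rw [lin_hom_pev]
    simp
  obtain ⟨d, hd⟩ := lin_component (L := LieAlgebra.SpecialLinear.sl (Fin 2) k) g
    (fun h => ha ((hev _ a).trans (h a)))
  refine key d [] _ List.nodup_nil ?_ hd (fun L _ _ hL => hH k L g ?_ d)
  · rw [List.append_nil, PL, Finsupp.mem_supported]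
    intro b hb
    rw [Finset.mem_coe, Finsupp.support_filter, Finset.mem_filter] at hb
    exact hb.2
  · intro v
    rw [← hev]
    exact hL _ ht v

end Pool.Agent.Lib.EB
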