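import Pool.Agent.Lib.EB.Blue

/-!
Invariant lines and subalgebras of finite codimension.
-/

namespace Pool.Agent.Lib.EB

universe u

attribute [local instance 100] LieRing.ofAssociativeRing

section transfer

variable {k : Type u} [Field k] {L G : Type u} [LieRing L] [LieAlgebra k L] [LieRing G]
  [LieAlgebra k G]

theorem ev_map_LL (φ : L →ₗ⁅k⁆ G) (u : ℕ → L) (b : Tr) :
    φ (b.ev br u) = b.ev br (fun i => φ (u i)) := by
  induction b with
  | lf i => rfl
  | nd a b ha hb => simp only [Tr.ev, br, LieHom.map_lie] at *; rw [ha, hb]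

theorem pev_map_LL (φ : L →ₗ⁅k⁆ G) (u : ℕ → L) (f : Tr →₀ k) :
    φ (pev k br u f) = pev k br (fun i => φ (u i)) f := by
  simp only [pev, Finsupp.linearCombination_apply, Finsupp.sum, map_sum, map_smul, ev_map_LL]

theorem idt_inj_LL (φ : L →ₗ⁅k⁆ G) (hφ : Function.Injective φ) {f : Tr →₀ k} (h : Idt k G f) :
    Idt k L f := fun u => hφ (by rw [pev_map_LL, h, map_zero])

theorem idt_surj_LL (φ : L →ₗ⁅k⁆ G) (hφ : Function.Surjective φ) {f : Tr →₀ k} (h : Idt k L f) :
    Idt k G f := fun u => by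
  choose v hv using fun i => hφ (u i)
  have : u = fun i => φ (v i) := funext fun i => (hv i).symm
  rw [this, ← pev_map_LL, h, map_zero]

end transfer

/-- The invariant line, when the finite dimensional images are solvable. -/
theorem line_LL (k : Type u) [Field k] [CharZero k] [IsAlgClosed k] (L : Type u) [LieRing L]
    [LieAlgebra k L]
    (hs : ∀ (G : Type u) [LieRing G] [LieAlgebra k G] [Module.Finite k G] (φ : L →ₗ⁅k⁆ G),
      Function.Surjective φ → LieAlgebra.IsSolvable G)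
    (X : Type u) [AddCommGroup X] [Module k X] (ρ : L →ₗ[k] X →ₗ[k] X)
    (hρ : ∀ a b x, ρ ⁅a, b⁆ x = ρ a (ρ b x) - ρ b (ρ a x))
    (W : Submodule k X) (hW : ∀ a, ∀ x ∈ W, ρ a x ∈ W) (hf : Module.Finite k (X ⧸ W))
    (hne : W ≠ ⊤) : ∃ x, x ∉ W ∧ ∀ a, ∃ c : k, ρ a x - c • x ∈ W := by
  let φ : L →ₗ⁅k⁆ Module.End k (X ⧸ W) :=
    { toFun := fun a => W.mapQ W (ρ a) (hW a)
      map_add' := fun a b => by
        ext x
        simp
      map_smul' := fun c a => by
        ext x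
        simp
      map_lie' := fun {a b} => by
        ext x
        simp [hρ, LieRing.of_associative_ring_bracket] }
  have hφ : ∀ a x, φ a (W.mkQ x) = W.mkQ (ρ a x) := fun a x => rfl
  have : Nontrivial (X ⧸ W) := Submodule.Quotient.nontrivial_iff.2 hne
  have : Module.Finite k φ.range := inferInstanceAs (Module.Finite k φ.range.toSubmodule)
  have : LieAlgebra.IsSolvable φ.range := hs _ φ.rangeRestrict φ.surjective_rangeRestrict
  obtain ⟨χ, hχ⟩ := LieModule.exists_nontrivial_weightSpace_of_isSolvable k φ.range (X ⧸ W)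
  obtain ⟨⟨v, hv⟩, hv0⟩ := exists_ne (0 : LieModule.weightSpace (X ⧸ W) χ)
  obtain ⟨x, rfl⟩ := W.mkQ_surjective v
  refine ⟨x, fun hx => hv0 (Subtype.ext ?_), fun a => ⟨χ (φ.rangeRestrict a), ?_⟩⟩
  · exact (Submodule.Quotient.mk_eq_zero W).2 hx
  · rw [LieModule.mem_weightSpace] at hv
    have h1 : φ a (W.mkQ x) = χ (φ.rangeRestrict a) • W.mkQ x := hv (φ.rangeRestrict a)
    rw [hφ, ← map_smul, ← sub_eq_zero, ← map_sub] at h1
    exact (Submodule.Quotient.mk_eq_zero W).1 h1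

section step

variable {k : Type u} [Field k] {L : Type u} [LieRing L] [LieAlgebra k L]

/-- The subalgebra spanned by `H` and a vector normalising it modulo itself. -/
def addLine_LL (H : LieSubalgebra k L) (e : L) (h : ∀ a ∈ H, ∃ c : k, ⁅a, e⁆ - c • e ∈ H) :
    LieSubalgebra k L where
  carrier := {x | ∃ c : k, x - c • e ∈ H}
  add_mem' := by
    rintro x y ⟨c, hc⟩ ⟨d, hd⟩
    refine ⟨c + d, ?_⟩
    have := H.add_mem hc hd
    convert this using 1
    rw [add_smul]
    abel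
  zero_mem' := ⟨0, by simp⟩
  smul_mem' := by
    rintro t x ⟨c, hc⟩
    refine ⟨t * c, ?_⟩
    have := H.smul_mem t hc
    rwa [smul_sub, smul_smul] at this
  lie_mem' := by
    rintro x y ⟨c, hc⟩ ⟨d, hd⟩
    obtain ⟨c', hc'⟩ := h _ hc
    obtain ⟨d', hd'⟩ := h _ hd
    refine ⟨d * c' - c * d', ?_⟩
    have := H.sub_mem (H.add_mem (H.lie_mem hc hd) (H.smul_mem d hc')) (H.smul_mem c hd')
    convert this using 1
    simp only [lie_sub, sub_lie, lie_smul, smul_lie, lie_self, smul_zero, smul_sub, sub_smul,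
      mul_smul, ← lie_skew e y]
    module

theorem derived_two_LL (H : LieSubalgebra k L) (I : LieIdeal k L)
    (h : ∀ a ∈ I, ∀ b ∈ I, ∀ c ∈ I, ∀ d ∈ I, ⁅⁅a, b⁆, ⁅c, d⁆⁆ ∈ H) :
    ∀ x ∈ (⁅⁅I, I⁆, ⁅I, I⁆⁆ : LieIdeal k L), x ∈ H := by
  have key : ∀ (J : LieIdeal k L) (P : Submodule k L), (∀ a ∈ J, ∀ b ∈ J, ⁅a, b⁆ ∈ P) →
      ∀ x ∈ (⁅J, J⁆ : LieIdeal k L), x ∈ P := by
    intro J P hP x hx
    have hx' : x ∈ (⁅J, J⁆ : LieIdeal k L).toSubmodule := hx
    rw [LieSubmodule.lieIdeal_oper_eq_linear_span'] at hx'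
    refine Submodule.span_le.2 ?_ hx'
    rintro _ ⟨a, ha, b, hb, rfl⟩
    exact hP a ha b hb
  refine key _ H.toSubmodule fun x hx y hy => ?_
  refine key I (H.toSubmodule.comap ((brL k L).flip y)) (fun a ha b hb => ?_) x hx
  exact key I (H.toSubmodule.comap (brL k L ⁅a, b⁆)) (fun c hc d hd => h a ha b hb c hc d hd) y hy

end step

/-- Climbing from a subalgebra of finite codimension. -/
theorem climb_LL (hC : St_C1.{u}) (k : Type u) [Field k] [CharZero k] (f0 : Tr →₀ k)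
    (h0 : NoSl k f0) (L : Type u) [LieRing L] [LieAlgebra k L] (hL : Idt k L f0)
    (hl : ∀ H : LieSubalgebra k L, Module.Finite k (L ⧸ H.toSubmodule) → H.toSubmodule ≠ ⊤ →
      ∃ e, e ∉ H ∧ ∀ a ∈ H, ∃ c : k, ⁅a, e⁆ - c • e ∈ H) (n : ℕ) :
    ∀ H : LieSubalgebra k L, Module.Finite k (L ⧸ H.toSubmodule) →
      Module.finrank k (L ⧸ H.toSubmodule) = n →
      ∃ c : ℕ, ∀ a ∈ LieAlgebra.derivedSeries k L c, a ∈ H := by
  induction n using Nat.strong_induction_on with
  | _ n ih =>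
    intro H hf hn
    by_cases ht : H.toSubmodule = ⊤
    · exact ⟨0, fun a _ => by
        have : a ∈ H.toSubmodule := ht ▸ Submodule.mem_top
        exact this⟩
    obtain ⟨e, he, h⟩ := hl H hf ht
    have hle : H.toSubmodule ≤ (addLine_LL H e h).toSubmodule := fun x hx => ⟨0, by simpa using hx⟩
    have hmem : e ∈ addLine_LL H e h := ⟨1, by simp⟩
    let π := H.toSubmodule.factor hle
    have hπ : Function.Surjective π := Submodule.factor_surjective hle
    have hf' : Module.Finite k (L ⧸ (addLine_LL H e h).toSubmodule) := Module.Finite.of_surjective π hπ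
    have hlt : Module.finrank k (L ⧸ (addLine_LL H e h).toSubmodule) < n := by
      have h1 := LinearMap.finrank_range_add_finrank_ker π
      rw [LinearMap.range_eq_top.2 hπ, finrank_top] at h1
      have h2 : LinearMap.ker π ≠ ⊥ := by
        rw [Submodule.ne_bot_iff]
        refine ⟨H.toSubmodule.mkQ e, ?_, fun hz => he ((Submodule.Quotient.mk_eq_zero _).1 hz)⟩
        exact (Submodule.Quotient.mk_eq_zero _).2 hmem
      have h3 : Module.finrank k (LinearMap.ker π) ≠ 0 := fun hz =>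
        h2 (Submodule.finrank_eq_zero.1 hz)
      omega
    obtain ⟨c, hc⟩ := ih _ hlt _ hf' rfl
    have h1 := hC k f0 h0 (addLine_LL H e h)
      (idt_inj_LL (addLine_LL H e h).incl Subtype.val_injective hL)
      (H.comap (addLine_LL H e h).incl) ⟨e, hmem⟩ fun a => a.2
    refine ⟨c + 2, fun a ha => derived_two_LL H (LieAlgebra.derivedSeries k L c)
      (fun a ha b hb x hx y hy => h1 ⟨a, hc a ha⟩ ⟨b, hc b hb⟩ ⟨x, hc x hx⟩ ⟨y, hc y hy⟩) a ?_⟩
    simpa only [LieAlgebra.derivedSeries_def, LieAlgebra.derivedSeriesOfIdeal_succ] using ha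

/-- The adjoint action of a subalgebra. -/
theorem adline_LL {k : Type u} [Field k] {L : Type u} [LieRing L] [LieAlgebra k L]
    (H : LieSubalgebra k L)
    (h : ∀ ρ : H →ₗ[k] L →ₗ[k] L, (∀ a b x, ρ ⁅a, b⁆ x = ρ a (ρ b x) - ρ b (ρ a x)) →
      (∀ a, ∀ x ∈ H.toSubmodule, ρ a x ∈ H.toSubmodule) →
      ∃ x, x ∉ H.toSubmodule ∧ ∀ a, ∃ c : k, ρ a x - c • x ∈ H.toSubmodule) :
    ∃ e, e ∉ H ∧ ∀ a ∈ H, ∃ c : k, ⁅a, e⁆ - c • e ∈ H := by
  obtain ⟨e, he, h1⟩ := h ((brL k L).domRestrict H.toSubmodule)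
    (fun a b x => lie_lie (a : L) (b : L) x) (fun a x hx => H.lie_mem a.2 hx)
  exact ⟨e, he, fun a ha => h1 ⟨a, ha⟩⟩

/-- Finite dimensional algebras are solvable. -/
theorem fd_LL (hC : St_C1.{u}) (k : Type u) [Field k] [CharZero k] [IsAlgClosed k] (f0 : Tr →₀ k)
    (h0 : NoSl k f0) (n : ℕ) : ∀ (L : Type u) [LieRing L] [LieAlgebra k L] [Module.Finite k L],
    Idt k L f0 → Module.finrank k L = n → LieAlgebra.IsSolvable L := by
  induction n using Nat.strong_induction_on with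
  | _ n ih =>
    intro L _ _ _ hL hn
    obtain ⟨c, hc⟩ := climb_LL hC k f0 h0 L hL (fun H hf ht => adline_LL H fun ρ h1 h2 => by
      have : Module.Finite k H := inferInstanceAs (Module.Finite k H.toSubmodule)
      have : LieAlgebra.IsSolvable H := ih _ (hn ▸ Submodule.finrank_lt ht) H
        (idt_inj_LL H.incl Subtype.val_injective hL) rfl
      exact line_LL k H (fun G _ _ _ φ hφ => hφ.lieAlgebra_isSolvable) L ρ h1 _ h2 hf ht)
      _ ⊥ inferInstance rfl
    exact LieAlgebra.IsSolvable.mk (k := c) (eq_bot_iff.2 fun a ha => by simpa using hc a ha)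

theorem stLL (hC : St_C1.{u}) : St_LL.{u} := fun k _ _ _ f0 h0 L _ _ hL X _ _ ρ hρ W hW hf hne =>
  line_LL k L (fun G _ _ _ φ hφ => fd_LL hC k f0 h0 _ G (idt_surj_LL φ hφ hL) rfl) X ρ hρ W hW
    hf hne

theorem stBP (hC : St_C1.{u}) : St_BP.{u} := fun k _ _ _ f0 h0 L _ _ hL H hf =>
  climb_LL hC k f0 h0 L hL (fun H hf ht => adline_LL H fun ρ h1 h2 =>
    stLL hC k f0 h0 H (idt_inj_LL H.incl Subtype.val_injective hL) L ρ h1 _ h2 hf ht) _ H hf rfl

end Pool.Agent.Lib.EB
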