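import Pool.Agent.Lib.EB.Blue

/-! Left normed form of a bracket monomial. -/

namespace Pool.Agent.Lib.EB

universe u

namespace LN

variable {k : Type u} [Field k]

/-- iterated right multiplication -/
def fo (k : Type u) [Field k] {L : Type u} [LieRing L] [LieAlgebra k L] (u : ℕ → L) :
    List ℕ → L →ₗ[k] L
  | [] => LinearMap.id
  | j :: w => (fo k u w).comp (-LieAlgebra.ad k L (u j))

lemma fo_append {L : Type u} [LieRing L] [LieAlgebra k L] (u : ℕ → L) (v w : List ℕ) (x : L) :
    fo k u (v ++ w) x = fo k u w (fo k u v x) := by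
  induction v generalizing x with
  | nil => rfl
  | cons j v ih => simp only [List.cons_append, fo, LinearMap.comp_apply, ih]

lemma ev_foldl {L : Type u} [LieRing L] [LieAlgebra k L] (u : ℕ → L) (w : List ℕ) (t : Tr) :
    (w.foldl (fun t j => Tr.nd t (Tr.lf j)) t).ev br u = fo k u w (t.ev br u) := by
  induction w generalizing t with
  | nil => rfl
  | cons j w ih =>
    rw [List.foldl_cons, ih, fo, LinearMap.comp_apply, LinearMap.neg_apply, LieAlgebra.ad_apply,
      lie_skew]
    rfl

/-- concatenation product -/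
noncomputable def ml (α γ : List ℕ →₀ k) : List ℕ →₀ k :=
  α.sum fun v c => γ.sum fun w d => Finsupp.single (v ++ w) (c * d)

/-- action of a combination of words -/
noncomputable def act {L : Type u} [LieRing L] [LieAlgebra k L] (u : ℕ → L) (x : L) :
    (List ℕ →₀ k) →ₗ[k] L := Finsupp.linearCombination k fun w => fo k u w x

lemma act_ml {L : Type u} [LieRing L] [LieAlgebra k L] (u : ℕ → L) (x : L) (α γ : List ℕ →₀ k) :
    act u x (ml α γ) = act u (act u x α) γ := by
  simp only [ml, act, Finsupp.sum, map_sum, Finsupp.linearCombination_single]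
  simp only [Finsupp.linearCombination_apply, Finsupp.sum, map_sum, map_smul, Finset.smul_sum,
    fo_append, smul_smul]
  rw [Finset.sum_comm]
  simp only [mul_comm]

lemma ml_mem {α γ : List ℕ →₀ k} {s t r : Set (List ℕ)} (ha : α ∈ Finsupp.supported k k s)
    (hg : γ ∈ Finsupp.supported k k t) (h : ∀ v ∈ s, ∀ w ∈ t, v ++ w ∈ r) :
    ml α γ ∈ Finsupp.supported k k r :=
  Submodule.sum_mem _ fun _ hv => Submodule.sum_mem _ fun _ hw =>
    Finsupp.single_mem_supported k _ (h _ (ha hv) _ (hg hw))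

lemma right (c : Tr) : ∃ β ∈ Finsupp.supported k k {w | w.Perm c.lv},
    ∀ (L : Type u) [LieRing L] [LieAlgebra k L] (u : ℕ → L) (x : L),
      ⁅x, c.ev br u⁆ = act u x β := by
  induction c with
  | lf i =>
    exact ⟨Finsupp.single [i] 1, Finsupp.single_mem_supported k _ (List.Perm.refl _),
      fun L _ _ u x => by simp [act, fo, Tr.ev]⟩
  | nd a b ha hb =>
    obtain ⟨α, a1, a2⟩ := ha
    obtain ⟨γ, g1, g2⟩ := hb
    refine ⟨ml α γ - ml γ α, Submodule.sub_mem _ (ml_mem a1 g1 fun v hv w hw => hv.append hw)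
      (ml_mem g1 a1 fun v hv w hw => (hv.append hw).trans List.perm_append_comm),
      fun L _ _ u x => ?_⟩
    rw [map_sub, act_ml, act_ml, ← a2, ← g2, ← g2, ← a2, Tr.ev, br, leibniz_lie,
      ← lie_skew (a.ev br u), sub_eq_add_neg]

lemma left (b : Tr) (μ : ℕ) (h : μ ∈ b.lv) :
    ∃ α ∈ Finsupp.supported k k {w | (μ :: w).Perm b.lv},
      ∀ (L : Type u) [LieRing L] [LieAlgebra k L] (u : ℕ → L), b.ev br u = act u (u μ) α := by
  induction b with
  | lf i =>
    obtain rfl : μ = i := by simpa [Tr.lv] using h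
    exact ⟨Finsupp.single [] 1, Finsupp.single_mem_supported k _ (List.Perm.refl _),
      fun L _ _ u => by simp [act, fo, Tr.ev]⟩
  | nd a c ha hc =>
    rcases List.mem_append.1 h with h | h
    · obtain ⟨α, a1, a2⟩ := ha h
      obtain ⟨β, b1, b2⟩ := right (k := k) c
      refine ⟨ml α β, ml_mem a1 b1 fun v hv w hw => hv.append hw, fun L _ _ u => ?_⟩
      rw [act_ml, ← a2, ← b2, Tr.ev, br]
    · obtain ⟨α, a1, a2⟩ := hc h
      obtain ⟨β, b1, b2⟩ := right (k := k) a
      refine ⟨-ml α β, Submodule.neg_mem _ (ml_mem a1 b1 fun v hv w hw =>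
        (List.Perm.append hv hw).trans List.perm_append_comm), fun L _ _ u => ?_⟩
      rw [map_neg, act_ml, ← a2, ← b2, Tr.ev, br, lie_skew]

end LN

theorem stLN : St_LN.{u} := by
  intro k _ b μ _ h
  obtain ⟨α, a1, a2⟩ := LN.left (k := k) b μ h
  refine ⟨α, fun w hw => a1 hw, fun L _ _ u => ?_⟩
  rw [a2, LN.act, Finsupp.linearCombination_apply]
  simp only [lw, LN.ev_foldl (k := k), Tr.ev]

end Pool.Agent.Lib.EB
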