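import Pool.Agent.Lib.EB.Blue

/-!
Nullstellensatz for countably generated algebras over an uncountable algebraically closed field.
-/

namespace Pool.Agent.Lib.EB

open Cardinal

universe u

/-- A countably generated field extension of an uncountable field is algebraic. -/
theorem algebraic_of_countable_NUL (k : Type u) [Field k] [Uncountable k] (E : Type u) [Field E]
    [Algebra k E] (t : Set E) (ht : t.Countable) (h : Algebra.adjoin k t = ⊤) :
    Algebra.IsAlgebraic k E := by
  refine ⟨fun x => ?_⟩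
  by_contra hx
  have hx' : Transcendental k x := hx
  have h1 : #k ≤ Module.rank k E := hx'.linearIndependent_sub_inv.cardinal_le_rank
  have h2 : Module.rank k (Algebra.adjoin k t) ≤ max #t ℵ₀ := Algebra.rank_adjoin_le t
  have h3 : Module.rank k E = Module.rank k (Algebra.adjoin k t) := by
    rw [h]
    exact (Subalgebra.topEquiv (R := k) (A := E)).toLinearEquiv.rank_eq.symm
  have h4 : #t ≤ ℵ₀ := Cardinal.le_aleph0_iff_set_countable.2 ht
  have h5 : #k ≤ ℵ₀ := h1.trans (h3.le.trans (h2.trans (max_le h4 le_rfl)))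
  exact absurd (Cardinal.aleph0_lt_mk (α := k)) (not_lt.2 h5)

theorem exists_hom_NUL (k : Type u) [Field k] [IsAlgClosed k] [Uncountable k] (D : Type u)
    [CommRing D] [Algebra k D] (s : Set D) (hs : s.Countable) (h : Algebra.adjoin k s = ⊤)
    (ρ : D) (hρ : ¬ IsNilpotent ρ) : ∃ φ : D →ₐ[k] k, φ ρ ≠ 0 := by
  classical
  let L := Localization.Away ρ
  have : Nontrivial L := by
    by_contra hL
    rw [not_nontrivial_iff_subsingleton] at hL
    have h0 : algebraMap D L 1 = 0 := Subsingleton.elim _ _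
    rw [IsLocalization.map_eq_zero_iff (Submonoid.powers ρ)] at h0
    obtain ⟨⟨m, n, rfl⟩, hm⟩ := h0
    exact hρ ⟨n, by simpa using hm⟩
  obtain ⟨M, hM⟩ := Ideal.exists_maximal L
  let _ : Field (L ⧸ M) := Ideal.Quotient.field M
  let q : L →ₐ[k] L ⧸ M := Ideal.Quotient.mkₐ k M
  let ψ : D →ₐ[k] L ⧸ M := q.comp (IsScalarTower.toAlgHom k D L)
  let w : L ⧸ M := q (IsLocalization.Away.invSelf ρ)
  have hw : ψ ρ * w = 1 := by
    have := IsLocalization.Away.mul_invSelf (S := L) ρ
    show q (algebraMap D L ρ) * q _ = 1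
    rw [← map_mul, this, map_one]
  have hD : ∀ a : D, ψ a ∈ Algebra.adjoin k (insert w (ψ '' s)) := by
    intro a
    have ha : a ∈ Algebra.adjoin k s := h ▸ Algebra.mem_top
    have : ψ a ∈ Algebra.adjoin k (ψ '' s) := by
      rw [← AlgHom.map_adjoin]
      exact ⟨a, ha, rfl⟩
    exact Algebra.adjoin_mono (Set.subset_insert _ _) this
  have htop : Algebra.adjoin k (insert w (ψ '' s)) = ⊤ := by
    rw [eq_top_iff]
    intro x _
    obtain ⟨y, rfl⟩ := Ideal.Quotient.mkₐ_surjective k M x
    obtain ⟨⟨a, m, n, rfl⟩, hy⟩ := IsLocalization.surj (Submonoid.powers ρ) y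
    have h1 : q y * ψ ρ ^ n = ψ a := by
      have := congrArg q hy
      rw [map_mul] at this
      rw [← map_pow]
      exact this
    have h2 : q y = ψ a * w ^ n := by
      rw [← h1, mul_assoc, ← mul_pow, hw, one_pow, mul_one]
    show q y ∈ _
    rw [h2]
    exact Subalgebra.mul_mem _ (hD a)
      (Subalgebra.pow_mem _ (Algebra.subset_adjoin (Set.mem_insert _ _)) n)
  have : Algebra.IsAlgebraic k (L ⧸ M) :=
    algebraic_of_countable_NUL k (L ⧸ M) _ ((hs.image ψ).insert w) htop
  have hb : Function.Bijective (algebraMap k (L ⧸ M)) :=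
    IsAlgClosed.algebraMap_bijective_of_isIntegral
  let e : k ≃ₐ[k] L ⧸ M := AlgEquiv.ofBijective (Algebra.ofId k (L ⧸ M)) hb
  refine ⟨(e.symm : (L ⧸ M) →ₐ[k] k).comp ψ, ?_⟩
  intro h0
  have h1 : ψ ρ = 0 := by
    have h2 : e.symm (ψ ρ) = 0 := h0
    simpa using h2
  rw [h1, zero_mul] at hw
  exact zero_ne_one hw

theorem stNUL : St_NUL.{u} := by
  intro k _ _ _ C _ _ s hs ρ hρ
  exact exists_hom_NUL k (Algebra.adjoin k s) (((↑) : Algebra.adjoin k s → C) ⁻¹' s)
    (hs.preimage_of_injOn Subtype.val_injective.injOn) Algebra.adjoin_adjoin_coe_preimage ρ hρ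

end Pool.Agent.Lib.EB
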