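import Pool.Agent.Lib.EB.Blue

/-!
Block PP: prime preservation.
-/

namespace Pool.Agent.Lib.EB

open Function

universe u

private theorem ev_dep {X : Type*} (m : X → X → X) (b : Tr) (u u' : ℕ → X)
    (h : ∀ s ∈ b.lv, u s = u' s) : b.ev m u = b.ev m u' := by
  induction b with
  | lf i => exact h i (by simp [Tr.lv])
  | nd x y hx hy =>
    simp only [Tr.ev]
    rw [hx fun s hs => h s (by simp [Tr.lv, hs]), hy fun s hs => h s (by simp [Tr.lv, hs])]

private theorem ev_upd {X : Type*} (m : X → X → X) (b : Tr) (u : ℕ → X) (s : ℕ) (x : X)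
    (h : s ∉ b.lv) : b.ev m (update u s x) = b.ev m u :=
  ev_dep m b _ _ fun t ht => update_of_ne (fun e : t = s => h (e ▸ ht)) _ _

private theorem ev_lin {k : Type u} [Field k] {L : Type u} [AddCommGroup L] [Module k L]
    (m : L →ₗ[k] L →ₗ[k] L) (b : Tr) (hb : b.lv.Nodup) (s : ℕ) (hs : s ∈ b.lv) (u : ℕ → L) :
    ∃ ψ : L →ₗ[k] L, ∀ x, b.ev (fun a b => m a b) (update u s x) = ψ x := by
  induction b with
  | lf i =>
    have : s = i := by simpa [Tr.lv] using hs
    subst this
    exact ⟨LinearMap.id, fun x => by simp [Tr.ev]⟩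
  | nd x y hx hy =>
    simp only [Tr.lv, List.nodup_append, List.mem_append] at hb hs
    obtain ⟨h1, h2, h3⟩ := hb
    rcases hs with hs | hs
    · obtain ⟨ψ, hψ⟩ := hx h1 hs
      have hn : s ∉ y.lv := fun h => h3 s hs s h rfl
      refine ⟨(m.flip (y.ev (fun a b => m a b) u)) ∘ₗ ψ, fun z => ?_⟩
      simp only [Tr.ev, hψ, ev_upd _ y u s z hn, LinearMap.comp_apply, LinearMap.flip_apply]
    · obtain ⟨ψ, hψ⟩ := hy h2 hs
      have hn : s ∉ x.lv := fun h => h3 s h s hs rfl
      refine ⟨(m (x.ev (fun a b => m a b) u)) ∘ₗ ψ, fun z => ?_⟩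
      simp only [Tr.ev, hψ, ev_upd _ x u s z hn, LinearMap.comp_apply]

private theorem cherry {X : Type*} (m : X → X → X) (b : Tr) (hb : b.lv.Nodup) :
    (∃ i, b = Tr.lf i) ∨ ∃ (b' : Tr) (s s' : ℕ), s ∈ b'.lv ∧ (s' :: b'.lv).Perm b.lv ∧
      ∀ u : ℕ → X, b.ev m u = b'.ev m (update u s (m (u s) (u s'))) := by
  induction b with
  | lf i => exact Or.inl ⟨i, rfl⟩
  | nd x y hx hy =>
    right
    simp only [Tr.lv, List.nodup_append] at hb
    obtain ⟨h1, h2, h3⟩ := hb
    rcases hx h1 with ⟨i, rfl⟩ | ⟨x', s, s', hs, hp, he⟩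
    · rcases hy h2 with ⟨j, rfl⟩ | ⟨y', s, s', hs, hp, he⟩
      · refine ⟨Tr.lf i, i, j, by simp [Tr.lv], ?_, fun u => by simp [Tr.ev]⟩
        simp only [Tr.lv, List.cons_append, List.nil_append]
        exact List.Perm.swap _ _ _
      · refine ⟨Tr.nd (Tr.lf i) y', s, s', by simp [Tr.lv, hs], ?_, fun u => ?_⟩
        · simp only [Tr.lv, List.cons_append, List.nil_append]
          exact (List.Perm.swap _ _ _).trans (hp.cons i)
        · have hn : s ∉ (Tr.lf i).lv := fun h =>
            h3 s h s (hp.subset (List.mem_cons_of_mem _ hs)) rfl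
          show m ((Tr.lf i).ev m u) (y.ev m u) = m ((Tr.lf i).ev m _) (y'.ev m _)
          rw [he, ev_upd m _ u s _ hn]
    · refine ⟨Tr.nd x' y, s, s', by simp [Tr.lv, hs], ?_, fun u => ?_⟩
      · simp only [Tr.lv]
        rw [← List.cons_append]
        exact hp.append_right _
      · have hn : s ∉ y.lv := fun h =>
          h3 s (hp.subset (List.mem_cons_of_mem _ hs)) s h rfl
        show m (x.ev m u) (y.ev m u) = m (x'.ev m _) (y.ev m _)
        rw [he, ev_upd m _ u s _ hn]

private theorem retr {k : Type u} [Field k] {L : Type u} [AddCommGroup L] [Module k L]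
    (m : L →ₗ[k] L →ₗ[k] L) (hm : Dag k m) :
    ∃ R : (L → L → k) →ₗ[k] (L →ₗ[k] k), (∀ ψ : L →ₗ[k] k, R (fun a b => ψ (m a b)) = ψ) ∧
      ∀ α β : L →ₗ[k] k, R (fun a b => α a * β b) = 0 := by
  classical
  let FR : Submodule k (L → L → k) :=
    Submodule.span k {f | ∃ α β : L →ₗ[k] k, f = fun a b => α a * β b}
  let j : (L →ₗ[k] k) →ₗ[k] (L → L → k) :=
    { toFun := fun ψ a b => ψ (m a b)
      map_add' := fun _ _ => rfl
      map_smul' := fun _ _ => rfl }
  have hFR : ∀ f ∈ FR, ∃ (n : ℕ) (α β : Fin n → L →ₗ[k] k),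
      ∀ a b, f a b = ∑ i, α i a * β i b := by
    intro f hf
    obtain ⟨n, c, g, hg⟩ := Submodule.mem_span_set'.1 hf
    choose α β h using fun i => (g i).2
    refine ⟨n, fun i => c i • α i, β, fun a b => ?_⟩
    rw [← hg]
    simp only [Finset.sum_apply, Pi.smul_apply, h, smul_eq_mul, LinearMap.smul_apply, mul_assoc]
  have hinj : LinearMap.ker (FR.mkQ ∘ₗ j) = ⊥ := by
    rw [LinearMap.ker_eq_bot']
    intro ψ hψ
    have h1 : j ψ ∈ FR := by
      simpa only [LinearMap.comp_apply, Submodule.mkQ_apply, Submodule.Quotient.mk_eq_zero]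
        using hψ
    exact hm ψ (hFR _ h1)
  obtain ⟨r, hr⟩ := LinearMap.exists_leftInverse_of_injective _ hinj
  refine ⟨r ∘ₗ FR.mkQ, fun ψ => LinearMap.congr_fun hr ψ, fun α β => ?_⟩
  have h0 : FR.mkQ (fun a b => α a * β b) = 0 := by
    rw [Submodule.mkQ_apply, Submodule.Quotient.mk_eq_zero]
    exact Submodule.subset_span ⟨α, β, rfl⟩
  rw [LinearMap.comp_apply, h0, map_zero]

/-- The contraction of two variables into one. -/
private def phiPP {k : Type u} [Field k] {L : Type u} [AddCommGroup L] [Module k L]
    (R : (L → L → k) →ₗ[k] (L →ₗ[k] k)) (s s' : ℕ) :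
    ((ℕ → L) → k) →ₗ[k] ((ℕ → L) → k) where
  toFun δ u := R (fun a b => δ (update (update u s a) s' b)) (u s)
  map_add' δ δ' := by
    funext u
    rw [Pi.add_apply, ← LinearMap.add_apply, ← map_add]
    rfl
  map_smul' c δ := by
    funext u
    rw [Pi.smul_apply, ← LinearMap.smul_apply, ← map_smul]
    rfl

private theorem phi_ML {k : Type u} [Field k] {L : Type u} [AddCommGroup L] [Module k L]
    (R : (L → L → k) →ₗ[k] (L →ₗ[k] k)) (s s' : ℕ) (P : Finset ℕ) (hs : s ∈ P.erase s')
    (α : (ℕ → L) → k) (hα : ML k P α) : ML k (P.erase s') (phiPP R s s' α) := by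
  have key : ∀ t ∈ P.erase s', ∀ u : ℕ → L, ∃ ψ : L →ₗ[k] k,
      ∀ x, phiPP R s s' α (update u t x) = ψ x := by
    intro t ht u
    obtain ⟨hts', htP⟩ := Finset.mem_erase.1 ht
    by_cases hts : t = s
    · subst hts
      refine ⟨R (fun a b => α (update (update u t a) s' b)), fun x => ?_⟩
      show R (fun a b => α (update (update (update u t x) t a) s' b)) (update u t x t) = _
      simp only [update_idem, update_self]
    · let g : L →ₗ[k] (L → L → k) :=
        { toFun := fun x a b => α (update (update (update u s a) s' b) t x)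
          map_add' := fun x y => by
            funext a b
            exact hα.add t htP _ x y
          map_smul' := fun c x => by
            funext a b
            exact hα.smul t htP _ c x }
      refine ⟨(R.flip (u s)) ∘ₗ g, fun x => ?_⟩
      show R (fun a b => α (update (update (update u t x) s a) s' b)) (update u t x s) =
        R (fun a b => α (update (update (update u s a) s' b) t x)) (u s)
      rw [update_of_ne (Ne.symm hts)]
      have : ∀ a b, update (update (update u t x) s a) s' b =
          update (update (update u s a) s' b) t x := by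
        intro a b
        rw [update_comm hts, update_comm hts']
      simp only [this]
  refine ⟨fun t ht u x y => ?_, fun t ht u c x => ?_, fun u u' h => ?_⟩
  · obtain ⟨ψ, hψ⟩ := key t ht u
    simp only [hψ, map_add]
  · obtain ⟨ψ, hψ⟩ := key t ht u
    simp only [hψ, map_smul]
  · show R (fun a b => α (update (update u s a) s' b)) (u s) =
      R (fun a b => α (update (update u' s a) s' b)) (u' s)
    rw [h s hs]
    have : (fun a b => α (update (update u s a) s' b)) =
        fun a b => α (update (update u' s a) s' b) := by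
      funext a b
      refine hα.dep _ _ fun t ht => ?_
      by_cases h1 : t = s'
      · subst h1
        simp only [update_self]
      · rw [update_of_ne h1, update_of_ne h1]
        by_cases h2 : t = s
        · subst h2
          simp only [update_self]
        · rw [update_of_ne h2, update_of_ne h2]
          exact h t (Finset.mem_erase.2 ⟨h1, ht⟩)
    rw [this]

private theorem ML_lin {k : Type u} [Field k] {L : Type u} [AddCommGroup L] [Module k L]
    {P : Finset ℕ} {α : (ℕ → L) → k} (hα : ML k P α) {s : ℕ} (hs : s ∈ P) (u : ℕ → L) :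
    ∃ ψ : L →ₗ[k] k, ∀ x, α (update u s x) = ψ x :=
  ⟨{ toFun := fun x => α (update u s x)
     map_add' := hα.add s hs u
     map_smul' := hα.smul s hs u }, fun _ => rfl⟩

private theorem ML_upd {k : Type u} [Field k] {L : Type u} [AddCommGroup L] [Module k L]
    {P : Finset ℕ} {α : (ℕ → L) → k} (hα : ML k P α) {s : ℕ} (hs : s ∉ P) (u : ℕ → L) (x : L) :
    α (update u s x) = α u :=
  hα.dep _ _ fun t ht => update_of_ne (fun e : t = s => hs (e ▸ ht)) _ _

private theorem phi_mul {k : Type u} [Field k] {L : Type u} [AddCommGroup L] [Module k L]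
    (R : (L → L → k) →ₗ[k] (L →ₗ[k] k)) (s s' : ℕ) {Q : Finset ℕ} (hs : s ∉ Q) (hs' : s' ∉ Q)
    (α β : (ℕ → L) → k) (hβ : ML k Q β) (u : ℕ → L) :
    phiPP R s s' (fun u => α u * β u) u = phiPP R s s' α u * β u := by
  show R (fun a b => α (update (update u s a) s' b) * β (update (update u s a) s' b)) (u s) =
    R (fun a b => α (update (update u s a) s' b)) (u s) * β u
  have : (fun a b => α (update (update u s a) s' b) * β (update (update u s a) s' b)) =
      β u • fun a b => α (update (update u s a) s' b) := by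
    funext a b
    rw [ML_upd hβ hs', ML_upd hβ hs, mul_comm]
    rfl
  rw [this, map_smul, LinearMap.smul_apply, smul_eq_mul, mul_comm]

private theorem phi_sep {k : Type u} [Field k] {L : Type u} [AddCommGroup L] [Module k L]
    (R : (L → L → k) →ₗ[k] (L →ₗ[k] k)) (hR : ∀ α β : L →ₗ[k] k, R (fun a b => α a * β b) = 0)
    (s s' : ℕ) {P Q : Finset ℕ} (h1 : s ∈ P) (h2 : s' ∉ P) (h3 : s ∉ Q) (h4 : s' ∈ Q)
    (α β : (ℕ → L) → k) (hα : ML k P α) (hβ : ML k Q β) :
    phiPP R s s' (fun u => α u * β u) = 0 := by
  funext u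
  show R (fun a b => α (update (update u s a) s' b) * β (update (update u s a) s' b)) (u s) = 0
  have hne : s ≠ s' := fun e => h2 (e ▸ h1)
  obtain ⟨ψ, hψ⟩ := ML_lin hα h1 u
  obtain ⟨χ, hχ⟩ := ML_lin hβ h4 u
  have : (fun a b => α (update (update u s a) s' b) * β (update (update u s a) s' b)) =
      fun a b => ψ a * χ b := by
    funext a b
    rw [ML_upd hα h2, hψ, update_comm hne, ML_upd hβ h3, hχ]
  rw [this, hR, LinearMap.zero_apply]

private theorem phi_dec {k : Type u} [Field k] {L : Type u} [AddCommGroup L] [Module k L]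
    (R : (L → L → k) →ₗ[k] (L →ₗ[k] k)) (hR : ∀ α β : L →ₗ[k] k, R (fun a b => α a * β b) = 0)
    (s s' : ℕ) (U : Finset ℕ) (hs : s ∈ U) (hs' : s' ∉ U) (δ : (ℕ → L) → k)
    (hδ : δ ∈ Dec k L (insert s' U)) : phiPP R s s' δ ∈ Dec k L U := by
  have hne : s ≠ s' := fun e => hs' (e ▸ hs)
  have : Dec k L (insert s' U) ≤ (Dec k L U).comap (phiPP R s s') := by
    refine Submodule.span_le.2 ?_
    rintro _ ⟨P, hPS, hP0, hPn, α, β, hα, hβ, rfl⟩
    show phiPP R s s' (fun u => α u * β u) ∈ Dec k L U
    by_cases h1 : s ∈ P <;> by_cases h2 : s' ∈ P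
    · have he : U \ P.erase s' = insert s' U \ P := by
        ext t
        simp only [Finset.mem_sdiff, Finset.mem_erase, Finset.mem_insert]
        by_cases ht : t = s'
        · subst ht
          simp [hs', h2]
        · simp [ht]
      refine Submodule.subset_span ⟨P.erase s', ?_, ⟨s, Finset.mem_erase.2 ⟨hne, h1⟩⟩, ?_,
        phiPP R s s' α, β, phi_ML R s s' P (Finset.mem_erase.2 ⟨hne, h1⟩) α hα, he ▸ hβ, ?_⟩
      · intro t ht
        obtain ⟨ha, hb⟩ := Finset.mem_erase.1 ht
        exact (Finset.mem_insert.1 (hPS hb)).resolve_left ha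
      · intro e
        apply hPn
        rw [← e, Finset.insert_erase h2]
      · funext u
        exact phi_mul R s s' (by simp [h1]) (by simp [h2]) α β hβ u
    · rw [phi_sep R hR s s' h1 h2 (by simp [h1]) (by simp [h2]) α β hα hβ]
      exact Submodule.zero_mem _
    · have : (fun u => α u * β u) = fun u => β u * α u := by
        funext u
        exact mul_comm _ _
      rw [this, phi_sep R hR s s' (by simp [h1, hs]) (by simp [h2]) h1 h2 β α hβ hα]
      exact Submodule.zero_mem _
    · have he : (insert s' U \ P).erase s' = U \ P := by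
        ext t
        simp only [Finset.mem_sdiff, Finset.mem_erase, Finset.mem_insert]
        by_cases ht : t = s'
        · subst ht
          simp [hs']
        · simp [ht]
      refine Submodule.subset_span ⟨P, ?_, hP0, fun e => h1 (e ▸ hs),
        α, phiPP R s s' β, hα, he ▸ phi_ML R s s' _ (by simp [hne, hs, h1]) β hβ, ?_⟩
      · intro t ht
        exact (Finset.mem_insert.1 (hPS ht)).resolve_left fun e => h2 (e ▸ ht)
      · funext u
        have : (fun u => α u * β u) = fun u => β u * α u := by
          funext u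
          exact mul_comm _ _
        rw [this, phi_mul R s s' h1 h2 β α hα u, mul_comm]
  exact this hδ

theorem stPP0 : St_PP.{u} := by
  intro k _ L _ _ m hm ξ hξ
  obtain ⟨R, hR1, hR2⟩ := retr m hm
  have main : ∀ n, ∀ b : Tr, b.lv.length = n → b.lv.Nodup →
      (fun u => ξ (b.ev (fun a b => m a b) u)) ∉ Dec k L b.lv.toFinset := by
    intro n
    induction n with
    | zero =>
      intro b hn hb
      rcases cherry (fun a b => m a b) b hb with ⟨i, rfl⟩ | ⟨b', s, s', hs, hp, he⟩
      · simp [Tr.lv] at hn
      · have := hp.length_eq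
        simp [hn] at this
    | succ n ih =>
      intro b hn hb hdec
      rcases cherry (fun a b => m a b) b hb with ⟨i, rfl⟩ | ⟨b', s, s', hs, hp, he⟩
      · have hbot : Dec k L (Tr.lf i).lv.toFinset ≤ ⊥ := by
          refine Submodule.span_le.2 ?_
          rintro _ ⟨P, hPS, hP0, hPn, -⟩
          exfalso
          simp only [Tr.lv, List.toFinset_cons, List.toFinset_nil, insert_empty_eq] at hPS hPn
          rcases Finset.subset_singleton_iff.1 hPS with h | h
          · exact hP0.ne_empty h
          · exact hPn h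
        have h0 := (Submodule.mem_bot k).1 (hbot hdec)
        apply hξ
        ext x
        exact congrFun h0 fun _ => x
      · have hnd : (s' :: b'.lv).Nodup := hp.nodup_iff.2 hb
        obtain ⟨hs', hb'⟩ := List.nodup_cons.1 hnd
        have hlen : b'.lv.length = n := by
          have := hp.length_eq
          simp only [List.length_cons, hn] at this
          omega
        refine ih b' hlen hb' ?_
        have hne : s ≠ s' := fun e => hs' (e ▸ hs)
        have hfs : b.lv.toFinset = insert s' b'.lv.toFinset := by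
          rw [← List.toFinset_cons]
          exact (List.toFinset_eq_of_perm _ _ hp).symm
        rw [hfs] at hdec
        have h1 := phi_dec R hR2 s s' _ (List.mem_toFinset.2 hs)
          (fun h => hs' (List.mem_toFinset.1 h)) _ hdec
        have h2 : phiPP R s s' (fun u => ξ (b.ev (fun a b => m a b) u)) =
            fun u => ξ (b'.ev (fun a b => m a b) u) := by
          funext u
          obtain ⟨ψ, hψ⟩ := ev_lin m b' hb' s hs u
          show R (fun x y => ξ (b.ev (fun a b => m a b) (update (update u s x) s' y))) (u s) = _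
          have : (fun x y => ξ (b.ev (fun a b => m a b) (update (update u s x) s' y))) =
              fun x y => (ξ ∘ₗ ψ) (m x y) := by
            funext x y
            rw [he, update_self, update_of_ne hne, update_self, update_comm hne.symm,
              ev_upd _ b' _ s' _ hs', update_idem, hψ]
            rfl
          rw [this, hR1, LinearMap.comp_apply, ← hψ, update_eq_self]
        exact h2 ▸ h1
  exact fun b hb => main _ b rfl hb

theorem stPP : St_DS.{u} → St_PP.{u} := fun _ => stPP0

end Pool.Agent.Lib.EB
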