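import Pool.Agent.Lib.EB.Blue

/-!
Signed identities and signed relation in `F ⊗ E`.
-/

namespace Pool.Agent.Lib.EB

open TensorProduct

universe u

namespace PRE1

variable {k : Type u} [Field k]

/-- Linear in the slot `s`. -/
def Lin (k : Type u) [Field k] {X W : Type*} [AddCommGroup X] [Module k X] [AddCommGroup W]
    [Module k W] (s : ℕ) (h : (ℕ → X) → W) : Prop :=
  ∀ u : ℕ → X, IsLinearMap k fun x => h (Function.update u s x)

section lin

variable {X W : Type*} [AddCommGroup X] [Module k X] [AddCommGroup W] [Module k W]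

theorem span_ext (S : Finset ℕ) (h : (ℕ → X) → W) (hl : ∀ s ∈ S, Lin k s h) (G : ℕ → Set X)
    (hG : ∀ u : ℕ → X, (∀ s ∈ S, u s ∈ G s) → h u = 0) (u : ℕ → X)
    (hu : ∀ s ∈ S, u s ∈ Submodule.span k (G s)) : h u = 0 := by
  have key : ∀ T : Finset ℕ, T ⊆ S → ∀ u : ℕ → X, (∀ s ∈ T, u s ∈ Submodule.span k (G s)) →
      (∀ s ∈ S, s ∉ T → u s ∈ G s) → h u = 0 := by
    intro T
    induction T using Finset.induction_on with
    | empty => exact fun _ u _ h2 => hG u fun s hs => h2 s hs (Finset.notMem_empty s)
    | insert t T ht ih =>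
      intro hT u h1 h2
      have e : ∀ x ∈ Submodule.span k (G t), h (Function.update u t x) = 0 := by
        intro x hx
        have L := hl t (hT (Finset.mem_insert_self t T)) u
        induction hx using Submodule.span_induction with
        | mem x hx =>
          refine ih (fun s hs => hT (Finset.mem_insert_of_mem hs)) _ (fun s hs => ?_)
            fun s hs hs' => ?_
          · rw [Function.update_of_ne (ne_of_mem_of_not_mem hs ht)]
            exact h1 s (Finset.mem_insert_of_mem hs)
          · by_cases e : s = t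
            · rw [e, Function.update_self]
              exact hx
            · rw [Function.update_of_ne e]
              exact h2 s hs (by simp [e, hs'])
        | zero => exact L.map_zero
        | add x y _ _ hx hy => rw [L.map_add, hx, hy, add_zero]
        | smul c x _ hx => rw [L.map_smul, hx, smul_zero]
      have := e _ (h1 t (Finset.mem_insert_self t T))
      rwa [Function.update_eq_self] at this
  exact key S le_rfl u hu fun s hs hs' => absurd hs hs'

theorem Lin.sum {ι : Type*} {s : ℕ} (T : Finset ι) (h : ι → (ℕ → X) → W)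
    (hl : ∀ i ∈ T, Lin k s (h i)) : Lin k s fun u => ∑ i ∈ T, h i u := fun u =>
  ⟨fun x y => by
    rw [← Finset.sum_add_distrib]
    exact Finset.sum_congr rfl fun i hi => (hl i hi u).map_add x y,
  fun c x => by
    rw [Finset.smul_sum]
    exact Finset.sum_congr rfl fun i hi => (hl i hi u).map_smul c x⟩

theorem Lin.smul {s : ℕ} {h : (ℕ → X) → W} (hl : Lin k s h) (c : k) :
    Lin k s fun u => c • h u := fun u =>
  ⟨fun x y => by simp only [(hl u).map_add, smul_add],
    fun d x => by simp only [(hl u).map_smul, smul_comm c d]⟩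

theorem ev_congr {Y : Type*} (m : Y → Y → Y) {u u' : ℕ → Y} (b : Tr)
    (h : ∀ s ∈ b.lv, u s = u' s) : b.ev m u = b.ev m u' := by
  induction b with
  | lf i => exact h i (by simp [Tr.lv])
  | nd a b ha hb =>
    simp only [Tr.ev]
    rw [ha fun s hs => h s (by simp [Tr.lv, hs]), hb fun s hs => h s (by simp [Tr.lv, hs])]

theorem ev_update {Y : Type*} (m : Y → Y → Y) (u : ℕ → Y) (b : Tr) {s : ℕ} (hs : s ∉ b.lv)
    (x : Y) : b.ev m (Function.update u s x) = b.ev m u :=
  ev_congr m b fun _ ht => Function.update_of_ne (ne_of_mem_of_not_mem ht hs) _ _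

theorem lin_two (m : X → X → X) (n : X →ₗ[k] X →ₗ[k] W) {a b : Tr} {s : ℕ}
    (hn : (a.lv ++ b.lv).Nodup) (hs : s ∈ a.lv ++ b.lv)
    (ha : s ∈ a.lv → Lin k s fun u => a.ev m u) (hb : s ∈ b.lv → Lin k s fun u => b.ev m u) :
    Lin k s fun u => n (a.ev m u) (b.ev m u) := by
  intro u
  have hd := List.disjoint_of_nodup_append hn
  rcases List.mem_append.1 hs with h | h
  · have L := ha h u
    beta_reduce at L
    simp only [ev_update m u b (hd h)]
    exact ⟨fun x y => by rw [L.map_add, map_add, LinearMap.add_apply],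
      fun c x => by rw [L.map_smul, map_smul, LinearMap.smul_apply]⟩
  · have L := hb h u
    beta_reduce at L
    simp only [ev_update m u a fun h' => hd h' h]
    exact ⟨fun x y => by rw [L.map_add, map_add], fun c x => by rw [L.map_smul, map_smul]⟩

theorem lin_ev (m : X →ₗ[k] X →ₗ[k] X) (b : Tr) {s : ℕ} (hn : b.lv.Nodup) (hs : s ∈ b.lv) :
    Lin k s fun u => b.ev (fun a b => m a b) u := by
  induction b with
  | lf i =>
    obtain rfl : s = i := by simpa [Tr.lv] using hs
    intro u
    simp only [Tr.ev, Function.update_self]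
    exact ⟨fun _ _ => rfl, fun _ _ => rfl⟩
  | nd a b ha hb =>
    exact lin_two _ m hn hs (ha (List.Nodup.of_append_left hn))
      (hb (List.Nodup.of_append_right hn))

end lin

section tens

variable {E : Type u} [Ring E] [Algebra k E] {w : E →ₐ[k] E}

/-- Homogeneous pure tensors. -/
def PT (M : Type u) [AddCommGroup M] [Module k M] (w : E →ₐ[k] E) (b : Bool) : Set (M ⊗[k] E) :=
  {x | ∃ a θ, w θ = (if b = true then - θ else θ) ∧ x = a ⊗ₜ θ}

theorem mem_span [CharZero k] {M : Type u} [AddCommGroup M] [Module k M] (hw : SCA w) (b : Bool)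
    (x : M ⊗[k] E) (hx : LinearMap.lTensor M w.toLinearMap x = if b = true then - x else x) :
    x ∈ Submodule.span k (PT M w b) := by
  have key : ∀ y : M ⊗[k] E, y + (if b = true then (-1 : k) else 1) •
      LinearMap.lTensor M w.toLinearMap y ∈ Submodule.span k (PT M w b) := by
    intro y
    induction y using TensorProduct.induction_on with
    | zero => simp
    | tmul a θ =>
      refine Submodule.subset_span ⟨a, θ + (if b = true then (-1 : k) else 1) • w θ, ?_, ?_⟩
      · cases b
        · simp [hw.inv, add_comm]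
        · simp [hw.inv]
      · rw [tmul_add, tmul_smul]
        rfl
    | add x y hx hy =>
      have := Submodule.add_mem _ hx hy
      rwa [map_add, smul_add, add_add_add_comm]
  have h2 := Submodule.smul_mem _ (2⁻¹ : k) (key x)
  have e : x + (if b = true then (-1 : k) else 1) • LinearMap.lTensor M w.toLinearMap x =
      (2 : k) • x := by
    rw [hx, two_smul]
    cases b <;> simp
  rwa [e, smul_smul, inv_mul_cancel₀ two_ne_zero, one_smul] at h2

theorem sg_perm (hw : SCA w) (ε : ℕ → Bool) (θ : ℕ → E)
    (hθ : ∀ i, w (θ i) = if ε i = true then - θ i else θ i) {l l' : List ℕ} (h : l.Perm l') :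
    sg k ε l • (l.map θ).prod = sg k ε l' • (l'.map θ).prod := by
  induction h with
  | nil => rfl
  | cons a h ih =>
    simp only [sg, List.map_cons, List.prod_cons, mul_smul]
    rw [← mul_smul_comm, ← mul_smul_comm, ← mul_smul_comm, ← mul_smul_comm, ih,
      (h.map _).prod_eq]
  | swap a b l =>
    simp only [sg, List.map_cons, List.prod_cons]
    have key : (if a < b ∧ ε b = true ∧ ε a = true then (-1 : k) else 1) • (θ b * θ a) =
        (if b < a ∧ ε a = true ∧ ε b = true then (-1 : k) else 1) • (θ a * θ b) := by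
      have ha := hθ a
      have hb := hθ b
      cases h1 : ε a
      · rw [h1] at ha
        simp [hw.even _ (θ b) ha]
      cases h2 : ε b
      · rw [h2] at hb
        simp [hw.even _ (θ a) hb]
      rw [h1] at ha
      rw [h2] at hb
      rcases lt_trichotomy a b with h | rfl | h
      · simp [h, h.le, hw.odd _ _ ha hb]
      · rfl
      · simp [h, h.le, hw.odd _ _ ha hb]
    have fin : ∀ (c d p q t : k) (x y z : E), c • (x * y) = d • (y * x) →
        (c * p * (q * t)) • (x * (y * z)) = (d * q * (p * t)) • (y * (x * z)) := by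
      intro c d p q t x y z h
      rw [show c * p * (q * t) = p * q * t * c by ring, show d * q * (p * t) = p * q * t * d by ring,
        mul_smul _ c, mul_smul _ d, ← mul_assoc, ← mul_assoc, ← smul_mul_assoc c, h,
        smul_mul_assoc]
    exact fin _ _ _ _ _ _ _ _ key
  | trans _ _ h1 h2 => exact h1.trans h2

theorem choose_pt {M : Type u} [AddCommGroup M] [Module k M] (ε : ℕ → Bool) (S : Finset ℕ)
    (u : ℕ → M ⊗[k] E) (hu : ∀ s ∈ S, u s ∈ PT M w (ε s)) :
    ∃ (a : ℕ → M) (θ : ℕ → E), (∀ i, w (θ i) = if ε i = true then - θ i else θ i) ∧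
      ∀ s ∈ S, u s = a s ⊗ₜ θ s := by
  have : ∀ s, ∃ (a : M) (θ : E), (w θ = if ε s = true then - θ else θ) ∧
      (s ∈ S → u s = a ⊗ₜ θ) := fun s => by
    by_cases h : s ∈ S
    · obtain ⟨a, θ, h1, h2⟩ := hu s h
      exact ⟨a, θ, h1, fun _ => h2⟩
    · exact ⟨0, 0, by simp, fun h' => absurd h' h⟩
  choose a θ h1 h2 using this
  exact ⟨a, θ, h1, h2⟩

variable {F : Type u} [LieRing F] [LieAlgebra k F]

theorem mE_tmul (a b : F) (x y : E) : mE k F E (a ⊗ₜ x) (b ⊗ₜ y) = ⁅a, b⁆ ⊗ₜ (x * y) := rfl

theorem ev_tmul (a : ℕ → F) (θ : ℕ → E) (u : ℕ → F ⊗[k] E) (b : Tr)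
    (h : ∀ s ∈ b.lv, u s = a s ⊗ₜ θ s) :
    b.ev (fun x y => mE k F E x y) u = b.ev br a ⊗ₜ (b.lv.map θ).prod := by
  induction b with
  | lf i => simpa [Tr.ev, Tr.lv] using h i (by simp [Tr.lv])
  | nd c d hc hd =>
    simp only [Tr.ev, Tr.lv]
    rw [hc fun s hs => h s (by simp [Tr.lv, hs]), hd fun s hs => h s (by simp [Tr.lv, hs]),
      mE_tmul, List.map_append, List.prod_append, br]

theorem tp1 [CharZero k] (hw : SCA w) :
    TP1 F (mE k F E) (LinearMap.lTensor F w.toLinearMap) where
  inv a := by
    induction a using TensorProduct.induction_on with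
    | zero => simp
    | tmul a θ => simp [hw.inv]
    | add a b ha hb => simp only [map_add, ha, hb]
  mul a b := by
    induction a using TensorProduct.induction_on with
    | zero => simp
    | tmul a θ =>
      induction b using TensorProduct.induction_on with
      | zero => simp
      | tmul b θ' => simp [mE_tmul]
      | add b c hb hc => simp only [map_add, hb, hc]
    | add a c ha hc => simp only [map_add, LinearMap.add_apply, ha, hc]
  tp l f hl hf hI ε u hu := by
    have hp : ∀ b ∈ f.support, b.lv.Perm l := fun b hb => hf hb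
    refine span_ext (k := k) l.toFinset (fun u => spev k ε (fun a b => mE k F E a b) u f)
      (fun s hs => ?_) (fun s => PT F w (ε s)) (fun u hu => ?_) u
      fun s _ => mem_span hw _ _ (hu s)
    · simp only [spev, Finsupp.linearCombination_apply, Finsupp.sum]
      exact Lin.sum _ _ fun b hb => ((lin_ev _ b ((hp b hb).nodup_iff.2 hl)
        ((hp b hb).mem_iff.2 (List.mem_toFinset.1 hs))).smul _).smul _
    · obtain ⟨a, θ, h1, h2⟩ := choose_pt ε _ u hu
      have e := congrArg (fun x : F => x ⊗ₜ[k] (sg k ε l • (l.map θ).prod)) (hI a)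
      simp only [spev, pev, Finsupp.linearCombination_apply, Finsupp.sum, sum_tmul,
        zero_tmul] at e ⊢
      rw [← e]
      refine Finset.sum_congr rfl fun b hb => ?_
      rw [ev_tmul a θ u b fun s hs => h2 s (List.mem_toFinset.2 ((hp b hb).mem_iff.1 hs)),
        ← tmul_smul (sg k ε b.lv), sg_perm hw ε θ h1 (hp b hb), smul_tmul']

variable {R : Type u} [CommRing R] [Algebra k R]

theorem sca [CharZero k] (hw : SCA w) :
    SCA (Algebra.TensorProduct.map (AlgHom.id k R) w) where
  inv a := by
    induction a using TensorProduct.induction_on with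
    | zero => simp
    | tmul a θ => simp [hw.inv]
    | add a b ha hb => simp only [map_add, ha, hb]
  even x y hx := by
    have h := mem_span hw false x hx
    clear hx
    induction h using Submodule.span_induction with
    | mem x hx =>
      obtain ⟨a, θ, h1, rfl⟩ := hx
      induction y using TensorProduct.induction_on with
      | zero => simp
      | tmul b θ' => simp [hw.even θ θ' h1, mul_comm a b]
      | add b c hb hc => rw [mul_add, add_mul, hb, hc]
    | zero => simp
    | add x z _ _ hx hz => rw [mul_add, add_mul, hx, hz]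
    | smul c x _ hx => rw [smul_mul_assoc, hx, mul_smul_comm]
  odd x y hx hy := by
    have h := mem_span hw true x hx
    have h' := mem_span hw true y hy
    clear hx hy
    induction h using Submodule.span_induction with
    | mem x hx =>
      obtain ⟨a, θ, h1, rfl⟩ := hx
      induction h' using Submodule.span_induction with
      | mem y hy =>
        obtain ⟨b, θ', h2, rfl⟩ := hy
        simp [hw.odd θ θ' h1 h2, mul_comm a b, tmul_neg]
      | zero => simp
      | add y z _ _ hy hz => rw [mul_add, add_mul, hy, hz, neg_add]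
      | smul c y _ hy => rw [smul_mul_assoc, mul_smul_comm, hy, smul_neg]
    | zero => simp
    | add x z _ _ hx hz => rw [mul_add, add_mul, hx, hz, neg_add]
    | smul c x _ hx => rw [smul_mul_assoc, hx, mul_smul_comm, smul_neg]

theorem perm_rel {r : Rel k} (hr : r.Good F) {T : Finset ℕ} (hT : T ∈ r.S.powersetCard r.i)
    {e e' : Tr} (he : e ∈ r.B T) (he' : e' ∈ r.B' T) :
    (e.lv ++ e'.lv).Perm (r.p :: r.q :: r.S.toList) := by
  refine ((hr.lvB T hT e he).append (hr.lvB' T hT e' he')).trans ?_
  refine List.Perm.cons _ (List.perm_middle.trans (List.Perm.cons _ ?_))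
  rw [← Multiset.coe_eq_coe, ← Multiset.coe_add, Finset.coe_toList, Finset.coe_toList,
    Finset.coe_toList, Finset.sdiff_val, add_comm]
  exact tsub_add_cancel_of_le (Finset.val_le_iff.2 (Finset.mem_powersetCard.1 hT).1)

theorem sval_zero [CharZero k] (hw : SCA w) {r : Rel k} (hr : r.Good F) (ξ0 : F →ₗ[k] R)
    (h0 : ∀ u : ℕ → F, (r.sum fun e e' => ξ0 (e.ev br u) * ξ0 (e'.ev br u)) = 0)
    (ε : ℕ → Bool) (u : ℕ → F ⊗[k] E) (hu : Hom (LinearMap.lTensor F w.toLinearMap) ε u) :
    r.sval (mE k F E) (LinearMap.rTensor E ξ0) ε u = 0 := by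
  have hl : (r.p :: r.q :: r.S.toList).Nodup := by
    simp [hr.hp, hr.hq, hr.hpq, Finset.nodup_toList]
  refine span_ext (k := k) (r.p :: r.q :: r.S.toList).toFinset
    (fun u => r.sval (mE k F E) (LinearMap.rTensor E ξ0) ε u)
    (fun s hs => ?_) (fun s => PT F w (ε s)) (fun u hu => ?_) u
    fun s _ => mem_span hw _ _ (hu s)
  · refine Lin.sum _ _ fun T hT => Lin.sum _ _ fun e he => Lin.sum _ _ fun e' he' => ?_
    have hp := perm_rel hr hT he he'
    have hn := hp.nodup_iff.2 hl
    exact ((lin_two _ ((LinearMap.mul k (R ⊗[k] E)).compl₁₂ (LinearMap.rTensor E ξ0)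
      (LinearMap.rTensor E ξ0)) hn (hp.mem_iff.2 (List.mem_toFinset.1 hs))
      (lin_ev _ e hn.of_append_left) (lin_ev _ e' hn.of_append_right)).smul _).smul _
  · obtain ⟨a, θ, h1, h2⟩ := choose_pt ε _ u hu
    have e := congrArg (fun x : R => x ⊗ₜ[k] (sg k ε (r.p :: r.q :: r.S.toList) •
      ((r.p :: r.q :: r.S.toList).map θ).prod)) (h0 a)
    simp only [Rel.sval, Rel.sum, sum_tmul, zero_tmul] at e ⊢
    rw [← e]
    refine Finset.sum_congr rfl fun T hT => Finset.sum_congr rfl fun c hc =>
      Finset.sum_congr rfl fun d hd => ?_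
    have hp := perm_rel hr hT hc hd
    rw [ev_tmul a θ u c fun s hs =>
        h2 s (List.mem_toFinset.2 (hp.mem_iff.1 (List.mem_append_left _ hs))),
      ev_tmul a θ u d fun s hs =>
        h2 s (List.mem_toFinset.2 (hp.mem_iff.1 (List.mem_append_right _ hs))),
      LinearMap.rTensor_tmul, LinearMap.rTensor_tmul, Algebra.TensorProduct.tmul_mul_tmul,
      ← List.prod_append, ← List.map_append, ← tmul_smul (sg k ε _), sg_perm hw ε θ h1 hp,
      smul_tmul']

end tens

end PRE1

theorem stPRE1 : St_PRE1.{u} := fun _ _ _ _ _ _ _ _ _ _ hw =>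
  ⟨PRE1.tp1 hw, fun _ hr _ _ _ ξ0 h0 => ⟨PRE1.sca hw, PRE1.sval_zero hw hr ξ0 h0⟩⟩

end Pool.Agent.Lib.EB
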