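import Pool.Agent.Lib.EB.Sign

namespace Pool.Agent.Lib.EB

open Function TensorProduct Pool.Agent.Lib.MP_eb02d8_al

universe u

variable {k : Type u} [Field k]

section
variable {E : Type u} [Ring E] [Algebra k E]

/-- Reordering a product of homogeneous elements costs a universal nonzero scalar. -/
theorem perm_prod_pre2 {w : E →ₐ[k] E} (hw : SCA w) {ι : Type} (p : ι → Bool) {l l' : List ι}
    (h : l.Perm l') : ∃ c : k, c ≠ 0 ∧ ∀ g : ι → E,
      (∀ i, w (g i) = if p i = true then - g i else g i) →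
      (l.map g).prod = c • (l'.map g).prod := by
  induction h with
  | nil => exact ⟨1, one_ne_zero, fun g _ => by simp⟩
  | cons a _ ih =>
    obtain ⟨c, hc, h⟩ := ih
    exact ⟨c, hc, fun g hg => by simp [h g hg]⟩
  | swap a b l =>
    refine ⟨if p b = true ∧ p a = true then -1 else 1, by split_ifs <;> simp, fun g hg => ?_⟩
    simp only [List.map_cons, List.prod_cons, ← mul_assoc]
    rw [hw.comm (hg b) (hg a), smul_mul_assoc]
  | trans _ _ ih ih' =>
    obtain ⟨c, hc, h⟩ := ih
    obtain ⟨c', hc', h'⟩ := ih'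
    exact ⟨c * c', mul_ne_zero hc hc', fun g hg => by rw [h g hg, h' g hg, smul_smul]⟩

theorem perm_two_pre2 {ι : Type} [DecidableEq ι] {l : List ι} {x y : ι} (hx : x ∈ l)
    (hy : y ∈ l) (hxy : x ≠ y) : l.Perm (x :: y :: (l.erase x).erase y) :=
  (List.perm_cons_erase hx).trans
    (List.Perm.cons x (List.perm_cons_erase ((List.mem_erase_of_ne hxy.symm).2 hy)))

theorem prod_zero_pre2 {w : E →ₐ[k] E} (hw : SCA w) {ι : Type} (p : ι → Bool) {l : List ι}
    {x y : ι} (hx : x ∈ l) (hy : y ∈ l) (hxy : x ≠ y) (g : ι → E)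
    (hg : ∀ i, w (g i) = if p i = true then - g i else g i) (h0 : g x * g y = 0) :
    (l.map g).prod = 0 := by
  classical
  obtain ⟨c, -, h⟩ := perm_prod_pre2 hw p (perm_two_pre2 hx hy hxy)
  rw [h g hg]
  simp [← mul_assoc, h0]

theorem prod_swap_pre2 {w : E →ₐ[k] E} (hw : SCA w) {ι : Type} [DecidableEq ι] (p : ι → Bool)
    {l : List ι} (hl : l.Nodup) {x y : ι} (hx : x ∈ l) (hy : y ∈ l) (hxy : x ≠ y)
    (hp : p x = p y) (g : ι → E) (hg : ∀ i, w (g i) = if p i = true then - g i else g i) :
    (l.map fun i => g (Equiv.swap x y i)).prod =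
      (if p x = true then (-1 : k) else 1) • (l.map g).prod := by
  have hperm := perm_two_pre2 hx hy hxy
  obtain ⟨c, -, h⟩ := perm_prod_pre2 hw p hperm
  have hnd := hperm.nodup_iff.1 hl
  have hg' : ∀ i, w (g (Equiv.swap x y i)) =
      if p i = true then - g (Equiv.swap x y i) else g (Equiv.swap x y i) := by
    intro i
    have : p (Equiv.swap x y i) = p i := by
      rw [Equiv.swap_apply_def]
      split_ifs with h1 h2
      · rw [h1, hp]
      · rw [h2, hp]
      · rfl
    rw [hg, this]
  rw [h _ hg', h g hg]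
  simp only [List.map_cons, List.prod_cons, Equiv.swap_apply_left, Equiv.swap_apply_right]
  have e : ((l.erase x).erase y).map (fun i => g (Equiv.swap x y i)) =
      ((l.erase x).erase y).map g := by
    refine List.map_congr_left fun i hi => ?_
    simp only [List.nodup_cons, List.mem_cons, not_or] at hnd
    rw [Equiv.swap_apply_of_ne_of_ne]
    · rintro rfl; exact hnd.1.2 hi
    · rintro rfl; exact hnd.2.1 hi
  rw [e, ← mul_assoc, ← mul_assoc, hw.comm (hg y) (hg x), hp, smul_mul_assoc, smul_comm]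
  simp

/-- Permuting the entries of each column multiplies the product by the signs. -/
theorem prod_col_pre2 {w : E →ₐ[k] E} (hw : SCA w) {J : Type} [Fintype J] [DecidableEq J]
    {t : ℕ} (ε : J → Bool) {l : List (J × Fin t)} (hl : l.Nodup) (hall : ∀ x, x ∈ l)
    (τ : J → Equiv.Perm (Fin t)) (g : J × Fin t → E)
    (hg : ∀ i, w (g i) = if ε i.1 = true then - g i else g i) :
    (l.map fun i => g (i.1, τ i.1 i.2)).prod =
      (((∏ j, if ε j = true then ((Equiv.Perm.sign (τ j) : ℤˣ) : ℤ) else 1 : ℤ) : k)) •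
        (l.map g).prod := by
  let H : Submonoid (J → Equiv.Perm (Fin t)) :=
    { carrier := {τ | ∀ g : J × Fin t → E,
        (∀ i, w (g i) = if ε i.1 = true then - g i else g i) →
        (l.map fun i => g (i.1, τ i.1 i.2)).prod =
          (((∏ j, if ε j = true then ((Equiv.Perm.sign (τ j) : ℤˣ) : ℤ) else 1 : ℤ) : k)) •
            (l.map g).prod}
      one_mem' := by
        intro g _
        simp
      mul_mem' := by
        intro a b ha hb g hg
        have h1 := hb (fun i => g (i.1, a i.1 i.2)) (fun i => hg _)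
        have h2 := ha g hg
        simp only [Pi.mul_apply, Equiv.Perm.mul_apply] at h1 ⊢
        rw [h1, h2, smul_smul, ← Int.cast_mul, ← Finset.prod_mul_distrib]
        congr 2
        refine Finset.prod_congr rfl fun j _ => ?_
        split_ifs <;> simp [mul_comm] }
  have hmem : τ ∈ H := by
    refine Submonoid.pi_mem_of_mulSingle_mem τ fun j => ?_
    induction τ j using Equiv.Perm.swap_induction_on with
    | one => rw [Pi.mulSingle_one]; exact H.one_mem
    | swap_mul f x y hxy ih =>
      rw [Pi.mulSingle_mul]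
      refine H.mul_mem ?_ ih
      intro g hg
      have h1 := prod_swap_pre2 hw (fun i : J × Fin t => ε i.1) hl (hall (j, x)) (hall (j, y))
        (by simpa using hxy) rfl g hg
      have e : (fun i : J × Fin t => g (i.1, (Pi.mulSingle (M := fun _ => Equiv.Perm (Fin t)) j
          (Equiv.swap x y)) i.1 i.2)) = fun i => g (Equiv.swap (j, x) (j, y) i) := by
        funext ⟨a, b⟩
        congr 1
        by_cases ha : a = j
        · subst ha
          simp only [Pi.mulSingle_eq_same, Equiv.swap_apply_def, Prod.mk.injEq, true_and]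
          split_ifs <;> rfl
        · rw [Pi.mulSingle_eq_of_ne ha, Equiv.swap_apply_of_ne_of_ne (by simp [ha])
            (by simp [ha])]
          rfl
      rw [e, h1]
      congr 1
      rw [Finset.prod_eq_single j]
      · simp only [Pi.mulSingle_eq_same, Equiv.Perm.sign_swap hxy]
        split_ifs <;> simp
      · intro b _ hb
        rw [Pi.mulSingle_eq_of_ne hb]
        simp
      · simp
  exact hmem g hg

theorem ev_tmul_pre2 {F : Type u} [LieRing F] [LieAlgebra k F] (a : ℕ → F) (θ : ℕ → E)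
    (b : Tr) : b.ev (fun x y => mE k F E x y) (fun s => a s ⊗ₜ[k] θ s) =
      b.ev br a ⊗ₜ[k] (b.lv.map θ).prod := by
  induction b with
  | lf i => simp [Tr.ev, Tr.lv]
  | nd b c hb hc => simp [Tr.ev, Tr.lv, hb, hc, br]

theorem prod_tmul_pre2 {R : Type u} [CommRing R] [Algebra k R] {t : ℕ} (x : Fin t → R)
    (y : Fin t → E) :
    (List.ofFn fun p => x p ⊗ₜ[k] y p).prod = (∏ p, x p) ⊗ₜ[k] (List.ofFn y).prod := by
  induction t with
  | zero => simp [Algebra.TensorProduct.one_def]
  | succ t ih =>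
    simp only [List.ofFn_succ, List.prod_cons, ih, Fin.prod_univ_succ,
      Algebra.TensorProduct.tmul_mul_tmul]

theorem pow_sum_pre2 {Λ : Type u} [Ring Λ] [Algebra k Λ] {ι : Type} [Fintype ι] (t : ℕ)
    (x : ι → Λ) : (∑ i, x i) ^ t = ∑ r : Fin t → ι, (List.ofFn fun p => x (r p)).prod := by
  have := (MultilinearMap.mkPiAlgebraFin k t Λ).map_sum (fun (_ : Fin t) (i : ι) => x i)
  simp only [MultilinearMap.mkPiAlgebraFin_apply] at this
  rw [← this, List.ofFn_const, List.prod_replicate]

theorem tmul_ne_zero_pre2 {R : Type u} [AddCommGroup R] [Module k R] {x : R} {y : E}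
    (hx : x ≠ 0) (hy : y ≠ 0) : x ⊗ₜ[k] y ≠ 0 := by
  obtain ⟨φ, hφ⟩ := Module.Projective.exists_dual_ne_zero k hy
  intro h
  have := congrArg (fun z => TensorProduct.rid k R (LinearMap.lTensor R φ z)) h
  simp only [LinearMap.lTensor_tmul, rid_tmul, map_zero] at this
  exact hx ((smul_eq_zero.1 this).resolve_left hφ)

end

theorem exists_dw_pre2 {F : Type u} [LieRing F] [LieAlgebra k F] {R : Type u} [CommRing R]
    [Algebra k R] (ξ0 : F →ₗ[k] R) (n N : ℕ) (c : Fin N → F)
    (hc : ∀ i, c i ∈ LieAlgebra.derivedSeries k F n) (h : ∏ i, ξ0 (c i) ≠ 0) :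
    ∃ a : Fin N → ℕ → F, ∏ i, ξ0 ((dt n id).ev br (a i)) ≠ 0 := by
  by_contra hne
  push Not at hne
  apply h
  let μ : MultilinearMap k (fun _ : Fin N => F) R :=
    (MultilinearMap.mkPiAlgebra k (Fin N) R).compLinearMap fun _ => ξ0
  have key : ∀ T : Finset (Fin N), ∀ c : Fin N → F,
      (∀ i ∈ T, c i ∈ Submodule.span k (Set.range (dw n : (ℕ → F) → F))) →
      (∀ i, i ∉ T → c i ∈ Set.range (dw n : (ℕ → F) → F)) → μ c = 0 := by
    intro T
    induction T using Finset.induction_on with
    | empty =>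
      intro c _ h2
      choose a ha using fun i => h2 i (by simp)
      have := hne a
      simp only [ev_dt, id, ha] at this
      simpa [μ] using this
    | insert j T hj ih =>
      intro c h1 h2
      have hle : Submodule.span k (Set.range (dw n : (ℕ → F) → F)) ≤
          LinearMap.ker (μ.toLinearMap c j) := by
        rw [Submodule.span_le]
        intro x hx
        refine ih _ (fun i hi => ?_) fun i hi => ?_
        · rw [update_of_ne (by rintro rfl; exact hj hi)]
          exact h1 i (by simp [hi])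
        · by_cases e : i = j
          · subst e; simpa using hx
          · rw [update_of_ne e]; exact h2 i (by simp [e, hi])
      have := hle (h1 j (by simp))
      simpa using this
  have := key Finset.univ c (fun i _ => derived_le_span n (hc i)) (by simp)
  simpa [μ] using this

theorem sum_inj_pre2 {J : Type} [Fintype J] [DecidableEq J] {t : ℕ} {M : Type*}
    [AddCommMonoid M] (f : (Fin t → J → Fin t) → M)
    (hf : ∀ r, (¬ ∀ j, Injective fun p => r p j) → f r = 0) :
    ∑ r, f r = ∑ τ : J → Equiv.Perm (Fin t), f fun p j => τ j p := by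
  classical
  symm
  refine Finset.sum_bij_ne_zero (fun τ _ _ => fun p j => τ j p) (fun _ _ _ => Finset.mem_univ _)
    ?_ ?_ fun _ _ _ => rfl
  · intro a _ _ b _ _ h
    funext j
    ext p
    exact congrArg Fin.val (congrFun (congrFun h p) j)
  · intro r _ hr
    have hi : ∀ j, Injective fun p => r p j := by
      by_contra h; exact hr (hf r h)
    exact ⟨fun j => Equiv.ofBijective _ (Finite.injective_iff_bijective.1 (hi j)),
      Finset.mem_univ _, hr, rfl⟩

theorem stPRE2 : St_SY.{u} → St_PRE2.{u} := by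
  intro hSY k _ _ F _ _ E _ _ w hw hR R _ _ ξ0 n t hne
  classical
  set S : Finset ℕ := (dt n id).lv.toFinset with hS
  obtain ⟨N, hN⟩ := hSY k S t
  obtain ⟨c, hc, hc0⟩ := hne N
  obtain ⟨a, ha⟩ := exists_dw_pre2 ξ0 n N c hc hc0
  have hML : ML k S (fun u : ℕ → F => (dt n id).ev br u) :=
    ML_ev_br (nodup_dt_id n) (List.Perm.refl _)
  let D : (S → F) → R := fun v => ξ0 (hML.toMul v)
  let Γ : (S → Equiv.Perm (Fin N)) → R := fun σ => ∏ i, D fun j => a (σ j i) j.1
  have hΓ : Γ 1 ≠ 0 := by
    simpa only [Γ, D, Pi.one_apply, Equiv.Perm.one_apply, hML.toMul_apply] using ha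
  have hex : ∃ (σ : S → Equiv.Perm (Fin N)) (B : Fin t ↪ Fin N) (ε : S → Bool),
      ∑ τ : S → Equiv.Perm (Fin t),
        (∏ j, if ε j = true then ((Equiv.Perm.sign (τ j) : ℤˣ) : ℤ) else 1) •
          Γ (fun j => σ j * (τ j).viaEmbedding B) ≠ 0 := by
    by_contra h
    push Not at h
    exact hΓ (hN N le_rfl R Γ h 1)
  obtain ⟨σ, B, ε, hsum⟩ := hex
  let b : S → Fin t → F := fun j p => a (σ j (B p)) j.1
  have hsig : ∑ τ : S → Equiv.Perm (Fin t),
      (∏ j, if ε j = true then ((Equiv.Perm.sign (τ j) : ℤˣ) : ℤ) else 1) •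
        ∏ p, D (fun j => b j (τ j p)) ≠ 0 := by
    intro h
    apply hsum
    have e : ∀ τ : S → Equiv.Perm (Fin t), Γ (fun j => σ j * (τ j).viaEmbedding B) =
        (∏ p, D (fun j => b j (τ j p))) *
          ∏ i ∈ (Finset.univ.map B)ᶜ, D fun j => a (σ j i) j.1 := by
      intro τ
      simp only [Γ]
      rw [← Finset.prod_mul_prod_compl (Finset.univ.map B), Finset.prod_map]
      congr 1
      · refine Finset.prod_congr rfl fun p _ => ?_
        simp only [Equiv.Perm.mul_apply, Equiv.Perm.viaEmbedding_apply, b]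
      · refine Finset.prod_congr rfl fun i hi => ?_
        have : i ∉ Set.range B := by simpa using hi
        simp only [Equiv.Perm.mul_apply, Equiv.Perm.viaEmbedding_apply_of_notMem _ _ _ this]
    simp only [e, ← smul_mul_assoc, ← Finset.sum_mul, h, zero_mul]
  let ε' : ℕ → Bool := fun s => if hs : s ∈ S then ε ⟨s, hs⟩ else false
  obtain ⟨θ, hθ, hθ0, hθne⟩ := hR ε'
  let b' : ℕ → Fin t → F := fun s p => if hs : s ∈ S then b ⟨s, hs⟩ p else 0
  refine ⟨ε', fun s => ∑ p : Fin t, b' s p ⊗ₜ[k] θ s p, fun s => ?_, ?_⟩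
  · simp only [map_sum, LinearMap.lTensor_tmul, AlgHom.toLinearMap_apply, hθ]
    split_ifs
    · simp [TensorProduct.tmul_neg]
    · rfl
  have hML' : ML k S (fun u : ℕ → F ⊗[k] E => (dt n id).ev (fun a b => mE k F E a b) u) :=
    ML_ev _ _ (nodup_dt_id n)
  let lS : List S := (dt n id).lv.attach.map fun x => ⟨x.1, List.mem_toFinset.2 x.2⟩
  have hlS : lS.map Subtype.val = (dt n id).lv := by
    simp [lS, List.map_map, Function.comp_def]
  have hlSn : lS.Nodup := List.Nodup.of_map _ (hlS ▸ nodup_dt_id n)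
  have hlSa : ∀ j : S, j ∈ lS := by
    intro j
    have : j.1 ∈ lS.map Subtype.val := hlS ▸ List.mem_toFinset.1 j.2
    obtain ⟨x, hx, e⟩ := List.mem_map.1 this
    exact Subtype.ext e ▸ hx
  have hexp : LinearMap.rTensor E ξ0 ((dt n id).ev (fun a b => mE k F E a b)
      fun s => ∑ p : Fin t, b' s p ⊗ₜ[k] θ s p) =
      ∑ r : S → Fin t, D (fun j => b j (r j)) ⊗ₜ[k] (lS.map fun j => θ j.1 (r j)).prod := by
    rw [hML'.map_sum (fun s p => b' s p ⊗ₜ[k] θ s p), map_sum]
    refine Finset.sum_congr rfl fun r _ => ?_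
    have e : (fun s => if hs : s ∈ S then b' s (r ⟨s, hs⟩) ⊗ₜ[k] θ s (r ⟨s, hs⟩) else 0) =
        fun s => (if hs : s ∈ S then b ⟨s, hs⟩ (r ⟨s, hs⟩) else 0) ⊗ₜ[k]
          (if hs : s ∈ S then θ s (r ⟨s, hs⟩) else 0) := by
      funext s
      by_cases hs : s ∈ S <;> simp [hs, b']
    rw [e, ev_tmul_pre2, LinearMap.rTensor_tmul]
    congr 2
    rw [← hlS, List.map_map]
    exact List.map_congr_left fun j _ => by simp
  let l0 : List (S × Fin t) := (List.finRange t).flatMap fun p => lS.map fun j => (j, p)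
  have hl0 : l0.Nodup := by
    refine List.nodup_flatMap.2 ⟨fun p _ => hlSn.map fun x y h => (Prod.mk.inj h).1, ?_⟩
    refine (List.nodup_finRange t).imp fun {p q} hpq => ?_
    intro x hx hy
    obtain ⟨j, -, rfl⟩ := List.mem_map.1 hx
    obtain ⟨j', -, e⟩ := List.mem_map.1 hy
    exact hpq (Prod.mk.inj e).2.symm
  have hl0a : ∀ x, x ∈ l0 := by
    rintro ⟨j, p⟩
    exact List.mem_flatMap.2 ⟨p, List.mem_finRange p, List.mem_map.2 ⟨j, hlSa j, rfl⟩⟩
  have hprod : ∀ g : S × Fin t → E,
      (List.ofFn fun p : Fin t => (lS.map fun j => g (j, p)).prod).prod = (l0.map g).prod := by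
    intro g
    simp only [l0, List.ofFn_eq_map, List.map_flatMap, List.map_map, Function.comp_def]
    rw [List.flatMap, List.prod_flatten, List.map_map]
    rfl
  have hε : ∀ j : S, ε' j.1 = ε j := fun j => by simp [ε']
  rw [hexp, pow_sum_pre2 (k := k)]
  simp only [prod_tmul_pre2]
  rw [sum_inj_pre2]
  · have e : ∀ τ : S → Equiv.Perm (Fin t),
        (List.ofFn fun p : Fin t => (lS.map fun j => θ j.1 (τ j p)).prod).prod =
        (((∏ j, if ε j = true then ((Equiv.Perm.sign (τ j) : ℤˣ) : ℤ) else 1 : ℤ) : k)) •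
          (l0.map fun i => θ i.1.1 i.2).prod := by
      intro τ
      rw [hprod fun i => θ i.1.1 (τ i.1 i.2)]
      exact prod_col_pre2 hw ε hl0 hl0a τ (fun i => θ i.1.1 i.2) fun i => by rw [hθ, hε]
    simp only [e, ← TensorProduct.smul_tmul, Int.cast_smul_eq_zsmul]
    rw [← TensorProduct.sum_tmul]
    refine tmul_ne_zero_pre2 hsig ?_
    have := hθne (l0.map fun i => (i.1.1, i.2.1)) (hl0.map fun x y h =>
      Prod.ext (Subtype.ext (Prod.mk.inj h).1) (Fin.ext (Prod.mk.inj h).2))
    rwa [List.map_map] at this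
  · intro r hr
    push Not at hr
    obtain ⟨j, hj⟩ := hr
    obtain ⟨p, q, hpq, hne⟩ := Function.not_injective_iff.1 hj
    rw [hprod fun i => θ i.1.1 (r i.2 i.1),
      prod_zero_pre2 hw (fun i : S × Fin t => ε i.1) (hl0a (j, p)) (hl0a (j, q))
        (fun h => hne (Prod.mk.inj h).2) _ (fun i => by rw [hθ, hε])
        (by simp only [hpq]; exact hθ0 _ _), TensorProduct.tmul_zero]

end Pool.Agent.Lib.EB
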