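import Pool.Agent.Lib.EB.Blue

/-!
Passing from a supercommutative target to a commutative one.
-/

namespace Pool.Agent.Lib.EB

universe u

namespace Pre3

variable {k : Type u} [Field k] [CharZero k] {Λ : Type u} [Ring Λ] [Algebra k Λ] {w : Λ →ₐ[k] Λ}

omit [CharZero k] in
theorem cen (hw : SCA w) {x : Λ} (h : w x = x) : x ∈ Subalgebra.center k Λ :=
  Subalgebra.mem_center_iff.2 fun y => (hw.even x y h).symm

theorem sq_odd (hw : SCA w) {x : Λ} (h : w x = -x) : x * x = 0 := by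
  have h1 : (2 : k) • (x * x) = 0 := by
    rw [two_smul]
    exact add_eq_zero_iff_eq_neg.2 (hw.odd x x h h)
  exact (smul_eq_zero.1 h1).resolve_left two_ne_zero

/-- the even part -/
noncomputable def pe (hw : SCA w) : Λ →ₗ[k] Subalgebra.center k Λ :=
  LinearMap.codRestrict (Subalgebra.toSubmodule (Subalgebra.center k Λ))
    ((2⁻¹ : k) • (LinearMap.id + w.toLinearMap)) fun x => cen hw (by
      simp only [LinearMap.smul_apply, LinearMap.add_apply, LinearMap.id_apply,
        AlgHom.toLinearMap_apply, map_smul, map_add, hw.inv, add_comm])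

omit [CharZero k] in
theorem pe_val (hw : SCA w) (x : Λ) : (pe hw x : Λ) = (2⁻¹ : k) • (x + w x) := rfl

theorem pe_even (hw : SCA w) {x : Λ} (h : w x = x) : (pe hw x : Λ) = x := by
  rw [pe_val, h, ← two_smul k x, smul_smul, inv_mul_cancel₀ two_ne_zero, one_smul]

theorem pe_mul (hw : SCA w) (x y : Λ) : (pe hw x * pe hw y - pe hw (x * y)) ^ 2 = 0 := by
  have h1 : ∀ x : Λ, w (x - w x) = -(x - w x) := fun x => by rw [map_sub, hw.inv, neg_sub]
  have h2 : ((pe hw x * pe hw y - pe hw (x * y) : Subalgebra.center k Λ) : Λ) =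
      (-4⁻¹ : k) • ((x - w x) * (y - w y)) := by
    simp only [Subalgebra.coe_sub, Subalgebra.coe_mul, pe_val, map_mul, smul_mul_smul_comm,
      mul_add, add_mul, mul_sub, sub_mul]
    module
  refine Subtype.ext ?_
  rw [sq, Subalgebra.coe_mul, h2, smul_mul_smul_comm, mul_assoc, ← mul_assoc (y - w y),
    hw.odd _ _ (h1 y) (h1 x), neg_mul (_ * _), mul_assoc, sq_odd hw (h1 y)]
  simp

omit [CharZero k] in
theorem hom_ev {A : Type u} [AddCommGroup A] [Module k A] {m : A →ₗ[k] A →ₗ[k] A}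
    {ω : A →ₗ[k] A} (hm : ∀ a b, ω (m a b) = m (ω a) (ω b)) {ε : ℕ → Bool} {u : ℕ → A}
    (h : Hom ω ε u) (b : Tr) : ω (b.ev (fun a b => m a b) u) = b.ev (fun a b => m a b) u ∨
      ω (b.ev (fun a b => m a b) u) = -b.ev (fun a b => m a b) u := by
  induction b with
  | lf i =>
    have := h i
    split_ifs at this
    exacts [Or.inr this, Or.inl this]
  | nd a b ha hb =>
    simp only [Tr.ev, hm]
    rcases ha with ha | ha <;> rcases hb with hb | hb <;> simp [ha, hb]

end Pre3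

open Pre3 in
theorem stPRE3 : St_PRE3.{u} := by
  intro k _ _ r A _ _ m ω _ hm Λ _ _ w hw Ξ hΞ hr hz
  let ev : Tr → (ℕ → A) → Λ := fun e u => Ξ (e.ev (fun a b => m a b) u)
  let φ : Tr → Tr → (ℕ → Bool) × (ℕ → A) → Subalgebra.center k Λ := fun e e' p =>
    sg k p.1 (e.lv ++ e'.lv) • (pe hw (ev e p.2) * pe hw (ev e' p.2) - pe hw (ev e p.2 * ev e' p.2))
  have h1 : ∀ (c : k) e e', IsNilpotent (c • φ e e') := fun c e e' => ⟨2, funext fun p => by
    simp only [φ, Pi.pow_apply, Pi.smul_apply, smul_pow, pe_mul, smul_zero, Pi.zero_apply]⟩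
  obtain ⟨K, hK⟩ : IsNilpotent (r.sum φ) :=
    isNilpotent_sum fun _ _ => isNilpotent_sum fun _ _ => isNilpotent_sum fun _ _ => h1 _ _ _
  refine ⟨Subalgebra.center k Λ, inferInstance, inferInstance, pe hw ∘ₗ Ξ, K, fun ε u hu => ?_,
    fun n => ?_⟩
  · have h3 : r.sval m (pe hw ∘ₗ Ξ) ε u = r.sum φ (ε, u) := by
      rw [← sub_zero (r.sval _ _ _ _), ← map_zero (pe hw), ← hr ε u hu]
      simp only [Rel.sval, Rel.sum, φ, ev, map_sum, map_smul, Finset.sum_apply, Pi.smul_apply,
        smul_sub, Finset.sum_sub_distrib, LinearMap.comp_apply]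
    exact (congrArg (· ^ K) h3).trans (congrFun hK (ε, u))
  · obtain ⟨ε, z, hh, hn⟩ := hz n
    refine ⟨ε, z, hh, fun h => hn ?_⟩
    rcases hom_ev hm hh (dt n id) with a | a
    · have := congrArg Subtype.val h
      rwa [SubmonoidClass.coe_pow, LinearMap.comp_apply, pe_even hw (by rw [← hΞ, a])] at this
    · rw [pow_add, sq, sq_odd hw (by rw [← hΞ, a, map_neg]), mul_zero]

end Pool.Agent.Lib.EB
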