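import Pool.Agent.Lib.EB.Blue

/-!
Polynomials whose signed forms are decomposable are identities.
-/

namespace Pool.Agent.Lib.EB

universe u

namespace PRIME

variable {k : Type u} [Field k]

/-- Sign of a pair of variables. -/
def pr (k : Type u) [Field k] (ε : ℕ → Bool) (a b : ℕ) : k :=
  if b < a ∧ ε a = true ∧ ε b = true then -1 else 1

/-- Sign of a pair of parities. -/
def sb (k : Type u) [Field k] (x y : Bool) : k := if x = true ∧ y = true then -1 else 1

/-- Cross sign of two lists. -/
def cr (k : Type u) [Field k] (ε : ℕ → Bool) (l l' : List ℕ) : k :=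
  (l.map fun a => (l'.map fun b => pr k ε a b).prod).prod

/-- Parity of a list. -/
def par (ε : ℕ → Bool) : List ℕ → Bool
  | [] => false
  | a :: l => xor (ε a) (par ε l)

theorem par_append (ε : ℕ → Bool) (l l' : List ℕ) :
    par ε (l ++ l') = xor (par ε l) (par ε l') := by
  induction l with
  | nil => simp [par]
  | cons a l ih => simp [par, ih]

theorem sg_cons (ε : ℕ → Bool) (a : ℕ) (l : List ℕ) :
    sg k ε (a :: l) = (l.map fun b => pr k ε a b).prod * sg k ε l := rfl

theorem cr_cons (ε : ℕ → Bool) (a : ℕ) (l l' : List ℕ) :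
    cr k ε (a :: l) l' = (l'.map fun b => pr k ε a b).prod * cr k ε l l' := by
  simp [cr]

theorem cr_cons' (ε : ℕ → Bool) (a : ℕ) (l l' : List ℕ) :
    cr k ε l (a :: l') = (l.map fun b => pr k ε b a).prod * cr k ε l l' := by
  induction l with
  | nil => simp [cr]
  | cons c l ih =>
    rw [cr_cons, cr_cons, ih, List.map_cons, List.prod_cons, List.map_cons, List.prod_cons]
    ring

theorem cr_append' (ε : ℕ → Bool) (l l' l'' : List ℕ) :
    cr k ε l (l' ++ l'') = cr k ε l l' * cr k ε l l'' := by
  induction l with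
  | nil => simp [cr]
  | cons c l ih =>
    rw [cr_cons, cr_cons, cr_cons, ih, List.map_append, List.prod_append]
    ring

theorem cr_perm (ε : ℕ → Bool) (l : List ℕ) {l' l'' : List ℕ} (h : l'.Perm l'') :
    cr k ε l l' = cr k ε l l'' := by
  induction l with
  | nil => simp [cr]
  | cons c l ih => rw [cr_cons, cr_cons, ih, (h.map _).prod_eq]

theorem sg_app (ε : ℕ → Bool) (l l' : List ℕ) :
    sg k ε (l ++ l') = sg k ε l * sg k ε l' * cr k ε l l' := by
  induction l with
  | nil => simp [sg, cr]
  | cons a l ih =>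
    rw [List.cons_append, sg_cons, sg_cons, cr_cons, ih, List.map_append, List.prod_append]
    ring

theorem pr_sq (ε : ℕ → Bool) (a b : ℕ) : pr k ε a b * pr k ε a b = 1 := by
  unfold pr
  split_ifs <;> simp

theorem prod_sq {f : ℕ → k} (hf : ∀ b, f b * f b = 1) (l : List ℕ) :
    (l.map f).prod * (l.map f).prod = 1 := by
  induction l with
  | nil => simp
  | cons a l ih =>
    rw [List.map_cons, List.prod_cons, mul_mul_mul_comm, hf, ih, one_mul]

theorem cr_sq (ε : ℕ → Bool) (l l' : List ℕ) : cr k ε l l' * cr k ε l l' = 1 :=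
  prod_sq (fun a => prod_sq (pr_sq ε a) l') l

theorem sg_sq (ε : ℕ → Bool) (l : List ℕ) : sg k ε l * sg k ε l = 1 := by
  induction l with
  | nil => simp [sg]
  | cons a l ih => rw [sg_cons, mul_mul_mul_comm, prod_sq (pr_sq ε a), ih, one_mul]

theorem pr_mul (ε : ℕ → Bool) {a b : ℕ} (h : a ≠ b) :
    pr k ε a b * pr k ε b a = sb k (ε a) (ε b) := by
  unfold pr sb
  rcases lt_or_gt_of_ne h with h | h
  · cases ε a <;> cases ε b <;> simp [h, h.le]
  · cases ε a <;> cases ε b <;> simp [h, h.le]

theorem sb_xor (x y z : Bool) : sb k x (xor y z) = sb k x y * sb k x z := by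
  cases x <;> cases y <;> cases z <;> simp [sb]

theorem sb_xor' (x y z : Bool) : sb k (xor x y) z = sb k x z * sb k y z := by
  cases x <;> cases y <;> cases z <;> simp [sb]

theorem row_mul (ε : ℕ → Bool) (a : ℕ) (l : List ℕ) (h : a ∉ l) :
    (l.map fun b => pr k ε a b).prod * (l.map fun b => pr k ε b a).prod =
      sb k (ε a) (par ε l) := by
  induction l with
  | nil => simp [par, sb]
  | cons c l ih =>
    rw [List.mem_cons, not_or] at h
    rw [List.map_cons, List.prod_cons, List.map_cons, List.prod_cons, mul_mul_mul_comm,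
      pr_mul ε h.1, ih h.2, par, sb_xor]

theorem cr_mul (ε : ℕ → Bool) (l l' : List ℕ) (h : ∀ a ∈ l, a ∉ l') :
    cr k ε l l' * cr k ε l' l = sb k (par ε l) (par ε l') := by
  induction l with
  | nil => simp [cr, par, sb]
  | cons c l ih =>
    rw [cr_cons, cr_cons', mul_mul_mul_comm, row_mul ε c l' (h c (by simp)),
      ih (fun a ha => h a (by simp [ha])), par, sb_xor']

/-- The sign of a list of blocks. -/
theorem sg_blocks (ε : ℕ → Bool) (B : ℕ → List ℕ) {l l' : List ℕ} (h : l.Perm l')
    (h1 : l.Nodup) (h2 : (l.flatMap B).Nodup) :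
    sg k ε (l.flatMap B) * sg k (fun j => par ε (B j)) l =
      sg k ε (l'.flatMap B) * sg k (fun j => par ε (B j)) l' := by
  induction h with
  | nil => rfl
  | @cons a l l' h ih =>
    rw [List.flatMap_cons, List.nodup_append] at h2
    have := ih (List.nodup_cons.1 h1).2 h2.2.1
    rw [List.flatMap_cons, List.flatMap_cons, sg_app, sg_app, sg_cons, sg_cons,
      cr_perm ε _ (h.flatMap_right B), (h.map _).prod_eq]
    linear_combination (sg k ε (B a) * cr k ε (B a) (l'.flatMap B) *
      (l'.map fun b => pr k (fun j => par ε (B j)) a b).prod) * this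
  | swap x y l =>
    have hxy : y ≠ x := fun e => (List.nodup_cons.1 h1).1 (by simp [e])
    rw [List.flatMap_cons, List.flatMap_cons, List.nodup_append] at h2
    have hd : ∀ a ∈ B y, a ∉ B x := fun a ha hb =>
      h2.2.2 a ha a (List.mem_append_left _ hb) rfl
    have e1 := cr_mul (k := k) ε _ _ hd
    have e2 := pr_mul (k := k) (fun j => par ε (B j)) hxy
    have e3 := cr_sq (k := k) ε (B x) (B y)
    have e4 := pr_sq (k := k) (fun j => par ε (B j)) y x
    have e5 : cr k ε (B y) (B x) * pr k (fun j => par ε (B j)) y x =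
        cr k ε (B x) (B y) * pr k (fun j => par ε (B j)) x y := by
      linear_combination (cr k ε (B x) (B y) * pr k (fun j => par ε (B j)) y x) * (e1 - e2) -
        (cr k ε (B y) (B x) * pr k (fun j => par ε (B j)) y x) * e3 +
        (cr k ε (B x) (B y) * pr k (fun j => par ε (B j)) x y) * e4
    simp only [List.flatMap_cons, sg_app, sg_cons, cr_append', List.map_cons, List.prod_cons]
    linear_combination (sg k ε (B y) * sg k ε (B x) * sg k ε (l.flatMap B) *
      cr k ε (B x) (l.flatMap B) * cr k ε (B y) (l.flatMap B) *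
      (l.map fun b => pr k (fun j => par ε (B j)) y b).prod *
      (l.map fun b => pr k (fun j => par ε (B j)) x b).prod *
      sg k (fun j => par ε (B j)) l) * e5
  | trans ha _ iha ihb =>
    exact (iha h1 h2).trans (ihb (ha.nodup_iff.1 h1) ((ha.flatMap_right B).nodup_iff.1 h2))

theorem lv_sub (g : ℕ → Tr) (b : Tr) : (b.sub g).lv = b.lv.flatMap fun j => (g j).lv := by
  induction b with
  | lf i => simp [Tr.sub, Tr.lv]
  | nd a b iha ihb => simp [Tr.sub, Tr.lv, iha, ihb]

theorem ev_sub {X : Type*} (m : X → X → X) (u : ℕ → X) (g : ℕ → Tr) (b : Tr) :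
    (b.sub g).ev m u = b.ev m fun j => (g j).ev m u := by
  induction b with
  | lf i => rfl
  | nd a b iha ihb => simp only [Tr.sub, Tr.ev, iha, ihb]

theorem lv_ne (b : Tr) : b.lv ≠ [] := by
  induction b with
  | lf i => simp [Tr.lv]
  | nd a b iha _ => simp [Tr.lv, iha]

theorem ev_dep {X : Type*} (m : X → X → X) {u u' : ℕ → X} (b : Tr)
    (h : ∀ s ∈ b.lv, u s = u' s) : b.ev m u = b.ev m u' := by
  induction b with
  | lf i => exact h i (by simp [Tr.lv])
  | nd a b iha ihb =>
    simp only [Tr.ev]
    rw [iha fun s hs => h s (by simp [Tr.lv, hs]), ihb fun s hs => h s (by simp [Tr.lv, hs])]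

theorem mem_dt (n : ℕ) (s : ℕ → ℕ) : ∀ x ∈ (dt n s).lv, ∃ i, x = s i := by
  induction n generalizing s with
  | zero => intro x hx; exact ⟨0, by simpa [dt, Tr.lv] using hx⟩
  | succ n ih =>
    intro x hx
    rcases List.mem_append.1 hx with h | h
    · obtain ⟨i, e⟩ := ih _ x h
      exact ⟨_, e⟩
    · obtain ⟨i, e⟩ := ih _ x h
      exact ⟨_, e⟩

theorem nodup_dt (n : ℕ) (s : ℕ → ℕ) (hs : Function.Injective s) : (dt n s).lv.Nodup := by
  induction n generalizing s with
  | zero => simp [dt, Tr.lv]
  | succ n ih =>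
    refine List.nodup_append.2 ⟨ih _ fun i j h => ?_, ih _ fun i j h => ?_, fun a ha b hb e => ?_⟩
    · have := hs h
      omega
    · have := hs h
      omega
    · obtain ⟨i, rfl⟩ := mem_dt _ _ a ha
      obtain ⟨j, rfl⟩ := mem_dt _ _ b hb
      have := hs e
      omega

variable {L : Type u} [AddCommGroup L] [Module k L]

theorem ev_lin (m : L →ₗ[k] L →ₗ[k] L) (b : Tr) (hb : b.lv.Nodup) (s : ℕ) (hs : s ∈ b.lv)
    (u : ℕ → L) : ∃ φ : L →ₗ[k] L, ∀ x,
      b.ev (fun a b => m a b) (Function.update u s x) = φ x := by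
  induction b with
  | lf i =>
    obtain rfl : s = i := by simpa [Tr.lv] using hs
    exact ⟨LinearMap.id, fun x => by simp [Tr.ev]⟩
  | nd a b iha ihb =>
    obtain ⟨h1, h2, h3⟩ := List.nodup_append.1 hb
    rcases List.mem_append.1 hs with h | h
    · obtain ⟨φ, hφ⟩ := iha h1 h
      refine ⟨m.flip (b.ev (fun a b => m a b) u) ∘ₗ φ, fun x => ?_⟩
      simp only [Tr.ev]
      rw [hφ, ev_dep _ b fun t ht => Function.update_of_ne (fun e => h3 s h t ht e.symm) x u]
      rfl
    · obtain ⟨φ, hφ⟩ := ihb h2 h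
      refine ⟨m (a.ev (fun a b => m a b) u) ∘ₗ φ, fun x => ?_⟩
      simp only [Tr.ev]
      rw [hφ, ev_dep _ a fun t ht => Function.update_of_ne (fun e => h3 t ht s h e) x u]
      rfl

theorem ml_ev (m : L →ₗ[k] L →ₗ[k] L) (b : Tr) (hb : b.lv.Nodup) :
    ML k b.lv.toFinset fun u : ℕ → L => b.ev (fun a b => m a b) u where
  add s hs u x y := by
    obtain ⟨φ, hφ⟩ := ev_lin m b hb s (List.mem_toFinset.1 hs) u
    rw [hφ, hφ, hφ, map_add]
  smul s hs u c x := by
    obtain ⟨φ, hφ⟩ := ev_lin m b hb s (List.mem_toFinset.1 hs) u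
    rw [hφ, hφ, map_smul]
  dep u u' h := ev_dep _ b fun s hs => h s (List.mem_toFinset.2 hs)

theorem ml_pre {W : Type u} [AddCommGroup W] [Module k W] {S : Finset ℕ} {h : (ℕ → L) → W}
    (hh : ML k S h) (p : ℕ → L →ₗ[k] L) : ML k S fun u => h fun i => p i (u i) := by
  have e : ∀ (u : ℕ → L) (s : ℕ) (x : L), (fun i => p i (Function.update u s x i)) =
      Function.update (fun i => p i (u i)) s (p s x) := fun u s x =>
    funext fun i => Function.apply_update (fun i y => p i y) u s x i
  refine ⟨fun s hs u x y => ?_, fun s hs u c x => ?_, fun u u' h' => hh.dep _ _ fun s hs => ?_⟩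
  · simp only [e, map_add, hh.add s hs]
  · simp only [e, map_smul, hh.smul s hs]
  · rw [h' s hs]

theorem mem_of_split {S : Finset ℕ} {h : (ℕ → L) → k} (hh : ML k S h) (p : Bool → L → L)
    (hp : ∀ x, p true x + p false x = x) (D : Submodule k ((ℕ → L) → k))
    (H : ∀ ε : ℕ → Bool, (fun u : ℕ → L => h fun i => p (ε i) (u i)) ∈ D) : h ∈ D := by
  have key : ∀ T : Finset ℕ, T ⊆ S → ∀ ε : ℕ → Bool,
      (fun u : ℕ → L => h fun i => if i ∈ T then u i else p (ε i) (u i)) ∈ D := by
    intro T
    induction T using Finset.induction_on with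
    | empty => intro _ ε; simpa using H ε
    | insert s T hs ih =>
      intro hT ε
      have hT' : T ⊆ S := (Finset.subset_insert _ _).trans hT
      have e : ∀ (u : ℕ → L) (c : Bool),
          (fun i => if i ∈ T then u i else p (Function.update ε s c i) (u i)) =
          Function.update (fun i => if i ∈ insert s T then u i else p (ε i) (u i)) s
            (p c (u s)) := fun u c => funext fun i => by
        by_cases hi : i = s
        · subst hi
          simp [hs]
        · simp [hi]
      have := D.add_mem (ih hT' (Function.update ε s true)) (ih hT' (Function.update ε s false))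
      refine (congrArg (· ∈ D) (funext fun u => ?_)).mp this
      rw [Pi.add_apply, e, e, ← hh.add s (hT (Finset.mem_insert_self _ _)), hp]
      refine congrArg h (Function.update_eq_self_iff.2 ?_)
      simp
  refine (congrArg (· ∈ D) (funext fun u => ?_)).mp (key S le_rfl fun _ => true)
  exact hh.dep _ _ fun s hs => if_pos hs

/-- The projections to the homogeneous components. -/
noncomputable def pj (ω : L →ₗ[k] L) (c : Bool) : L →ₗ[k] L :=
  (2⁻¹ : k) • (if c = true then LinearMap.id - ω else LinearMap.id + ω)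

theorem pj_apply (ω : L →ₗ[k] L) (c : Bool) (x : L) :
    pj ω c x = (2⁻¹ : k) • (if c = true then x - ω x else x + ω x) := by
  cases c <;> simp [pj]

theorem pj_add [CharZero k] (ω : L →ₗ[k] L) (x : L) : pj ω true x + pj ω false x = x := by
  simp only [pj_apply, if_true, Bool.false_eq_true, if_false]
  rw [← smul_add, sub_add_add_cancel, ← two_smul k x, smul_smul, inv_mul_cancel₀ two_ne_zero,
    one_smul]

theorem pj_hom {ω : L →ₗ[k] L} (hω : ∀ a, ω (ω a) = a) (ε : ℕ → Bool) (u : ℕ → L) :
    Hom ω ε fun i => pj ω (ε i) (u i) := fun i => by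
  simp only [pj_apply]
  cases ε i
  · simp [hω, add_comm]
  · simp only [if_true, map_smul, map_sub, hω]
    rw [← smul_neg, neg_sub]

theorem pj_eq [CharZero k] {ω : L →ₗ[k] L} {c : Bool} {x : L}
    (h : ω x = if c = true then - x else x) : pj ω c x = x := by
  rw [pj_apply, h]
  cases c
  · simp only [Bool.false_eq_true, if_false]
    rw [← two_smul k x, smul_smul, inv_mul_cancel₀ two_ne_zero, one_smul]
  · simp only [if_true]
    rw [sub_neg_eq_add, ← two_smul k x, smul_smul, inv_mul_cancel₀ two_ne_zero, one_smul]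

theorem ev_hom {m : L →ₗ[k] L →ₗ[k] L} {ω : L →ₗ[k] L}
    (hm : ∀ a b, ω (m a b) = m (ω a) (ω b)) {ε : ℕ → Bool} {u : ℕ → L} (hu : Hom ω ε u)
    (b : Tr) : ω (b.ev (fun a b => m a b) u) =
      if par ε b.lv = true then - b.ev (fun a b => m a b) u else b.ev (fun a b => m a b) u := by
  induction b with
  | lf i => simpa [Tr.ev, Tr.lv, par] using hu i
  | nd a b iha ihb =>
    simp only [Tr.ev, Tr.lv, par_append]
    rw [hm, iha, ihb]
    cases par ε a.lv <;> cases par ε b.lv <;> simp

theorem spev_sub (m : L → L → L) (ε : ℕ → Bool) (u : ℕ → L) (g : ℕ → Tr) {l : List ℕ}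
    (h1 : l.Nodup) (h2 : (l.flatMap fun j => (g j).lv).Nodup) {f : Tr →₀ k} (hf : f ∈ PL k l) :
    spev k ε m u (Finsupp.mapDomain (Tr.sub g) f) =
      (sg k ε (l.flatMap fun j => (g j).lv) * sg k (fun j => par ε (g j).lv) l) •
        spev k (fun j => par ε (g j).lv) m (fun j => (g j).ev m u) f := by
  rw [PL, Finsupp.supported_eq_span_single] at hf
  induction hf using Submodule.span_induction with
  | mem x hx =>
    obtain ⟨b, hb, rfl⟩ := hx
    have hb' : b.lv.Perm l := hb
    simp only [Finsupp.mapDomain_single, spev, Finsupp.linearCombination_single, one_smul]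
    rw [sg_blocks ε _ hb'.symm h1 h2, smul_smul, mul_assoc, sg_sq, mul_one, lv_sub, ev_sub]
  | zero => simp
  | add x y _ _ hx hy => simp only [Finsupp.mapDomain_add, map_add, hx, hy, smul_add]
  | smul c x _ hx => simp only [Finsupp.mapDomain_smul, map_smul, hx, smul_comm c]

theorem sub_mem (g : ℕ → Tr) {l l' : List ℕ} (h : (l.flatMap fun j => (g j).lv).Perm l')
    {f : Tr →₀ k} (hf : f ∈ PL k l) : Finsupp.mapDomain (Tr.sub g) f ∈ PL k l' := by
  rw [PL, Finsupp.supported_eq_span_single] at hf
  induction hf using Submodule.span_induction with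
  | mem x hx =>
    obtain ⟨b, hb, rfl⟩ := hx
    have hb' : b.lv.Perm l := hb
    rw [Finsupp.mapDomain_single]
    refine Finsupp.single_mem_supported k _ ?_
    change (b.sub g).lv.Perm l'
    rw [lv_sub]
    exact (hb'.flatMap_right _).trans h
  | zero => simp
  | add x y _ _ hx hy => rw [Finsupp.mapDomain_add]; exact add_mem hx hy
  | smul c x _ hx => rw [Finsupp.mapDomain_smul]; exact Submodule.smul_mem _ c hx

end PRIME

open PRIME in
theorem stPRIME : St_DS.{u} → St_PP.{u} → St_PRIME.{u} := by
  intro hDS hPP k _ _ F _ _ f0 hB L _ _ m ω hT hD ξ hξ l f hl hf H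
  by_contra hne
  obtain ⟨n, h, hh, hid⟩ := hB.min l f hl hf hne
  have hn : (dt n id).lv.Nodup := nodup_dt n id Function.injective_id
  have key : h ∈ PL k (dt n id).lv ∧ ∀ ε : ℕ → Bool, (fun u : ℕ → L =>
      ξ (spev k ε (fun a b => m a b) (fun i => pj ω (ε i) (u i)) h)) ∈
        Dec k L (dt n id).lv.toFinset := by
    clear hid
    induction hh using Submodule.span_induction with
    | mem x hx =>
      obtain ⟨g, hg, rfl⟩ := hx
      refine ⟨sub_mem g hg hf, fun ε => ?_⟩
      have h2 := hg.nodup_iff.2 hn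
      have h3 := List.nodup_flatMap.1 h2
      have := hDS k L l.toFinset (fun j => (g j).lv.toFinset)
        (fun j u => (g j).ev (fun a b => m a b) fun i => pj ω (ε i) (u i)) _
        (H fun j => par ε (g j).lv)
        (fun t ht => ml_pre (ml_ev m (g t) (h3.1 t (List.mem_toFinset.1 ht))) fun i => pj ω (ε i))
        (fun t _ => List.toFinset_nonempty_iff _ |>.2 (lv_ne _))
        (fun t ht t' ht' hne => List.disjoint_toFinset_iff_disjoint.2
          (@List.Pairwise.forall _ _ _ ⟨fun _ _ h => List.disjoint_symm h⟩ h3.2 _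
            (List.mem_toFinset.1 ht) _ (List.mem_toFinset.1 ht') hne))
      have e : (l.toFinset.biUnion fun j => (g j).lv.toFinset) = (dt n id).lv.toFinset := by
        ext x
        simp only [Finset.mem_biUnion, List.mem_toFinset, ← hg.mem_iff, List.mem_flatMap]
      rw [e] at this
      refine (congrArg (· ∈ _) (funext fun u => ?_)).mp (Submodule.smul_mem _
        (sg k ε (l.flatMap fun j => (g j).lv) * sg k (fun j => par ε (g j).lv) l) this)
      rw [spev_sub _ ε _ g hl h2 hf, map_smul, Pi.smul_apply]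
      refine congrArg (fun v => _ • ξ (spev k _ _ v f)) (funext fun j => ?_)
      rw [← pj_apply]
      exact pj_eq (ev_hom hT.mul (pj_hom hT.inv ε u) (g j))
    | zero => exact ⟨zero_mem _, fun ε => by simp only [map_zero]; exact zero_mem _⟩
    | add x y _ _ hx hy =>
      refine ⟨add_mem hx.1 hy.1, fun ε => ?_⟩
      simp only [map_add]
      exact add_mem (hx.2 ε) (hy.2 ε)
    | smul c x _ hx =>
      refine ⟨Submodule.smul_mem _ c hx.1, fun ε => ?_⟩
      simp only [map_smul]
      exact Submodule.smul_mem _ c (hx.2 ε)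
  have hml := ml_ev m (dt n id) hn
  refine hPP k L m hD ξ hξ (dt n id) hn (mem_of_split (S := (dt n id).lv.toFinset)
    ⟨fun s hs u x y => by rw [hml.add s hs, map_add], fun s hs u c x => by
      rw [hml.smul s hs, map_smul], fun u u' h => congrArg ξ (hml.dep u u' h)⟩
    (fun c x => pj ω c x) (pj_add ω) _ fun ε => ?_)
  refine (congrArg (· ∈ _) (funext fun u => ?_)).mp
    (Submodule.smul_mem _ (sg k ε (dt n id).lv) (key.2 ε))
  have := hT.tp _ _ hn (sub_mem (Finsupp.single_mem_supported k 1 (List.Perm.refl _)) key.1) hid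
    ε _ (pj_hom hT.inv ε u)
  rw [map_sub, sub_eq_zero] at this
  rw [Pi.smul_apply, ← this]
  simp only [spev, Finsupp.linearCombination_single, one_smul, map_smul]
  rw [smul_smul, sg_sq, one_smul]

end Pool.Agent.Lib.EB
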