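import Pool.Agent.Lib.EB.Blue

/-!
The numerical contradiction: the recursive bound grows slower than `n! / R ^ n` for every `R`,
while the quadratic inequality forces growth at least `n! / P ^ n` for some `P`.
-/

namespace Pool.Agent.Lib.EB

open Nat

private theorem geomQN (n : ℕ) : ∑ i ∈ Finset.range (n + 1), 2 ^ i ≤ 2 ^ n * 2 := by
  induction n with
  | zero => simp
  | succ n ih =>
    rw [Finset.sum_range_succ, pow_succ]
    omega

private theorem qstep_succQN (g : ℕ → ℕ) (n : ℕ) :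
    qstep g (n + 1) = ∑ i ∈ Finset.range (n + 1), n.choose i * qstep g i * g (n - i) := by
  rw [qstep]
  exact Fin.sum_univ_eq_sum_range (fun i => n.choose i * qstep g i * g (n - i)) (n + 1)

private theorem keyQN (g : ℕ → ℕ) (R B M n : ℕ) (hg : ∀ m, g m * (2 * R) ^ m ≤ B * m !)
    (hq : ∀ i ≤ n, qstep g i * R ^ i ≤ M * i !) :
    qstep g (n + 1) * R ^ (n + 1) ≤ 2 * R * B * M * n ! := by
  have h1 : 2 ^ n * (qstep g (n + 1) * R ^ n) ≤ 2 ^ n * (2 * B * M * n !) := by
    rw [qstep_succQN, Finset.sum_mul, Finset.mul_sum]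
    calc ∑ i ∈ Finset.range (n + 1), 2 ^ n * (n.choose i * qstep g i * g (n - i) * R ^ n)
        ≤ ∑ i ∈ Finset.range (n + 1), 2 ^ i * (B * M * n !) := by
          refine Finset.sum_le_sum fun i hi => ?_
          have hi' : i ≤ n := Nat.lt_succ_iff.mp (Finset.mem_range.mp hi)
          obtain ⟨d, rfl⟩ := Nat.exists_eq_add_of_le hi'
          have hc := Nat.add_choose_mul_factorial_mul_factorial d i
          rw [Nat.add_sub_cancel_left]
          have e1 : 2 ^ (i + d) * ((i + d).choose i * qstep g i * g d * R ^ (i + d)) =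
              2 ^ i * ((i + d).choose i * ((qstep g i * R ^ i) * (g d * (2 * R) ^ d))) := by
            rw [mul_pow, pow_add, pow_add]; ring
          have e2 : B * M * (i + d)! = (i + d).choose i * ((M * i !) * (B * d !)) := by
            rw [add_comm i d, ← hc]; ring
          rw [e1, e2]
          exact Nat.mul_le_mul_left _ (Nat.mul_le_mul_left _ (Nat.mul_le_mul (hq i hi') (hg d)))
      _ = (∑ i ∈ Finset.range (n + 1), 2 ^ i) * (B * M * n !) := by rw [Finset.sum_mul]
      _ ≤ (2 ^ n * 2) * (B * M * n !) := Nat.mul_le_mul_right _ (geomQN n)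
      _ = 2 ^ n * (2 * B * M * n !) := by ring
  have h2 := Nat.le_of_mul_le_mul_left h1 (Nat.two_pow_pos n)
  calc qstep g (n + 1) * R ^ (n + 1) = R * (qstep g (n + 1) * R ^ n) := by ring
    _ ≤ R * (2 * B * M * n !) := Nat.mul_le_mul_left _ h2
    _ = 2 * R * B * M * n ! := by ring

private theorem upperQN (j : ℕ) : ∀ R : ℕ, ∃ B : ℕ, ∀ n, qq j n * R ^ n ≤ B * n ! := by
  induction j with
  | zero => intro R; exact ⟨0, fun n => by simp [qq]⟩
  | succ j ih =>
    intro R
    obtain ⟨B, hB⟩ := ih (2 * R)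
    obtain ⟨A, hA⟩ : ∃ A, A = 2 * R * B + 1 := ⟨_, rfl⟩
    have hA1 : 1 ≤ A := by omega
    have hA2 : 2 * R * B ≤ A := by omega
    have s1 : ∀ n, qstep (qq j) n * R ^ n ≤ A ^ n * n ! := by
      intro n
      induction n using Nat.strong_induction_on with
      | _ n ihn =>
        cases n with
        | zero => simp [qstep]
        | succ n =>
          have := keyQN (qq j) R B (A ^ n) n hB (fun i hi =>
            (ihn i (by omega)).trans (Nat.mul_le_mul_right _ (Nat.pow_le_pow_right hA1 hi)))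
          refine this.trans ?_
          rw [pow_succ, mul_comm (A ^ n) A]
          exact Nat.mul_le_mul (Nat.mul_le_mul_right _ hA2) (Nat.factorial_le (by omega))
    refine ⟨A ^ A, fun n => ?_⟩
    show qstep (qq j) n * R ^ n ≤ A ^ A * (n !)
    induction n using Nat.strong_induction_on with
    | _ n ihn =>
      by_cases hn : n ≤ A
      · exact (s1 n).trans (Nat.mul_le_mul_right _ (Nat.pow_le_pow_right hA1 hn))
      · cases n with
        | zero => omega
        | succ n =>
          have := keyQN (qq j) R B (A ^ A) n hB (fun i hi => ihn i (by omega))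
          refine this.trans ?_
          rw [Nat.factorial_succ]
          calc 2 * R * B * A ^ A * n ! ≤ (n + 1) * A ^ A * n ! :=
                Nat.mul_le_mul_right _ (Nat.mul_le_mul_right _ (by omega))
            _ = A ^ A * ((n + 1) * n !) := by ring

private theorem factQN (m k : ℕ) : (m + k)! ≤ m ! * (m + k) ^ k := by
  rw [← Nat.factorial_mul_ascFactorial]
  exact Nat.mul_le_mul_left _ (Nat.ascFactorial_le_pow_add m k)

private theorem lowerQN (C J : ℕ) (h : ℕ → ℕ) (hJ : 1 ≤ J) (hC : 1 ≤ C) (h1 : ∀ n, 1 ≤ h n)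
    (H : ∀ n, n.choose (n / 2) * h (n / 2) * h (n - n / 2) ≤ C * h (n + J)) :
    ∃ D P : ℕ, ∀ n, (n + J)! ≤ D * P ^ n * h n := by
  obtain ⟨D, hD⟩ : ∃ D, D = (J + J)! := ⟨_, rfl⟩
  obtain ⟨P, hP⟩ : ∃ P, P = (16 * J ^ 2) ^ J * D * C := ⟨_, rfl⟩
  have hD1 : 1 ≤ D := hD ▸ Nat.factorial_pos _
  have hP1 : 1 ≤ P := by
    rw [hP]
    have : 0 < J := hJ
    have : 0 < D := hD1
    have : 0 < C := hC
    exact Nat.succ_le_of_lt (by positivity)
  refine ⟨D, P, fun n => ?_⟩
  induction n using Nat.strong_induction_on with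
  | _ n ihn =>
    by_cases hn : n < J
    · calc (n + J)! ≤ D := hD ▸ Nat.factorial_le (by omega)
        _ = D * 1 * 1 := by ring
        _ ≤ D * P ^ n * h n :=
          Nat.mul_le_mul (Nat.mul_le_mul_left _ (Nat.one_le_pow _ _ hP1)) (h1 n)
    · obtain ⟨m, rfl⟩ : ∃ m, n = m + J := ⟨n - J, by omega⟩
      have Hm := H m
      obtain ⟨a, ha⟩ : ∃ a, a = m / 2 := ⟨_, rfl⟩
      obtain ⟨b, hb⟩ : ∃ b, b = m - m / 2 := ⟨_, rfl⟩
      rw [← hb, ← ha] at Hm
      have hab : m = b + a := by omega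
      have ia := ihn a (by omega)
      have ib := ihn b (by omega)
      have hc : m.choose a * b ! * a ! = m ! := by
        rw [hab]; exact Nat.add_choose_mul_factorial_mul_factorial b a
      have fa : a ! * (a + 1) ^ J ≤ (a + J)! := Nat.factorial_mul_pow_le_factorial
      have fb : b ! * (b + 1) ^ J ≤ (b + J)! := Nat.factorial_mul_pow_le_factorial
      have e1 : m + (J + J) ≤ 2 * J * (m + 1) := by nlinarith
      have e2 : (m + (J + J)) ^ 2 ≤ 16 * J ^ 2 * ((a + 1) * (b + 1)) := by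
        have x1 : m + 1 ≤ 2 * (a + 1) := by omega
        have x2 : m + 1 ≤ 2 * (b + 1) := by omega
        calc (m + (J + J)) ^ 2 ≤ (2 * J * (m + 1)) ^ 2 := Nat.pow_le_pow_left e1 2
          _ = 4 * J ^ 2 * ((m + 1) * (m + 1)) := by ring
          _ ≤ 4 * J ^ 2 * ((2 * (a + 1)) * (2 * (b + 1))) :=
            Nat.mul_le_mul_left _ (Nat.mul_le_mul x1 x2)
          _ = 16 * J ^ 2 * ((a + 1) * (b + 1)) := by ring
      have e3 : (m + (J + J)) ^ (J + J) ≤ (16 * J ^ 2) ^ J * ((a + 1) ^ J * (b + 1) ^ J) := by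
        rw [← mul_pow, ← mul_pow, ← two_mul J, pow_mul, two_mul J]
        exact Nat.pow_le_pow_left e2 J
      have hPm : P ^ m = P ^ a * P ^ b := by rw [hab, pow_add, mul_comm]
      calc (m + J + J)! = (m + (J + J))! := by rw [add_assoc]
        _ ≤ m ! * (m + (J + J)) ^ (J + J) := factQN m (J + J)
        _ ≤ m ! * ((16 * J ^ 2) ^ J * ((a + 1) ^ J * (b + 1) ^ J)) := Nat.mul_le_mul_left _ e3
        _ = (16 * J ^ 2) ^ J * m.choose a * ((a ! * (a + 1) ^ J) * (b ! * (b + 1) ^ J)) := by
          rw [← hc]; ring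
        _ ≤ (16 * J ^ 2) ^ J * m.choose a * ((D * P ^ a * h a) * (D * P ^ b * h b)) :=
          Nat.mul_le_mul_left _ (Nat.mul_le_mul (fa.trans ia) (fb.trans ib))
        _ = (16 * J ^ 2) ^ J * D * D * P ^ m * (m.choose a * h a * h b) := by
          rw [hPm]; ring
        _ ≤ (16 * J ^ 2) ^ J * D * D * P ^ m * (C * h (m + J)) := Nat.mul_le_mul_left _ Hm
        _ = D * (P ^ m * P ^ 1) * h (m + J) := by rw [pow_one, hP]; ring
        _ ≤ D * (P ^ m * P ^ J) * h (m + J) :=
          Nat.mul_le_mul_right _ (Nat.mul_le_mul_left _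
            (Nat.mul_le_mul_left _ (Nat.pow_le_pow_right hP1 hJ)))
        _ = D * P ^ (m + J) * h (m + J) := by rw [pow_add]

theorem stQN : St_QN := by
  intro j C J h hJ h1 hq
  by_contra hne
  push Not at hne
  have hC : 1 ≤ C := by
    have h0 := hne 0
    have ha := h1 0
    rcases Nat.eq_zero_or_pos C with hC | hC
    · subst hC
      simp only [Nat.zero_div, Nat.choose_self, one_mul, Nat.sub_self, zero_mul] at h0
      nlinarith
    · exact hC
  obtain ⟨D, P, hlow⟩ := lowerQN C J h hJ hC h1 hne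
  obtain ⟨B, hB⟩ := upperQN j (2 * P)
  have hall : ∀ n, 2 ^ n ≤ D * B := by
    intro n
    have a1 : n ! ≤ D * P ^ n * h n := (Nat.factorial_le (by omega)).trans (hlow n)
    have a2 : h n * (2 * P) ^ n ≤ B * n ! := (Nat.mul_le_mul_right _ (hq n)).trans (hB n)
    have a3 : 2 ^ n * n ! ≤ D * B * n ! := by
      calc 2 ^ n * n ! ≤ 2 ^ n * (D * P ^ n * h n) := Nat.mul_le_mul_left _ a1
        _ = D * (h n * (2 * P) ^ n) := by rw [mul_pow]; ring
        _ ≤ D * (B * n !) := Nat.mul_le_mul_left _ a2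
        _ = D * B * n ! := by ring
    exact Nat.le_of_mul_le_mul_right a3 (Nat.factorial_pos n)
  exact absurd (hall (D * B)) (not_le.mpr Nat.lt_two_pow_self)

end Pool.Agent.Lib.EB
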