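import Pool.Agent.Lib.EB.Blue

/-! Existence of quadratic relations, by counting dimensions. -/

namespace Pool.Agent.Lib.EB

universe u

namespace REL

theorem ev_congr {X : Type*} (m : X → X → X) {u u' : ℕ → X} (b : Tr)
    (h : ∀ i ∈ b.lv, u i = u' i) : b.ev m u = b.ev m u' := by
  induction b with
  | lf i => exact h i (by simp [Tr.lv])
  | nd a b iha ihb =>
    simp only [Tr.ev]
    rw [iha fun i hi => h i (by simp [Tr.lv, hi]), ihb fun i hi => h i (by simp [Tr.lv, hi])]

theorem ev_sub {X : Type*} (m : X → X → X) (u : ℕ → X) (g : ℕ → Tr) (b : Tr) :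
    (b.sub g).ev m u = b.ev m fun i => (g i).ev m u := by
  induction b with
  | lf i => rfl
  | nd a b iha ihb => simp only [Tr.sub, Tr.ev, iha, ihb]

theorem lv_sub (g : ℕ → Tr) (b : Tr) : (b.sub g).lv = b.lv.flatMap fun i => (g i).lv := by
  induction b with
  | lf i => simp [Tr.sub, Tr.lv]
  | nd a b iha ihb => simp only [Tr.sub, Tr.lv, iha, ihb, List.flatMap_append]

/-- the substitution of two monomials -/
def sb (e e' : Tr) : ℕ → Tr := Function.update (Function.update Tr.lf 0 e) 1 e'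

theorem ev_sb {X : Type*} (m : X → X → X) (u : ℕ → X) (e e' c : Tr) :
    (c.sub (sb e e')).ev m u =
      c.ev m (Function.update (Function.update u 0 (e.ev m u)) 1 (e'.ev m u)) := by
  rw [ev_sub]
  congr 1
  funext i
  by_cases h1 : i = 1
  · subst h1; simp [sb]
  by_cases h0 : i = 0
  · subst h0; simp [sb]
  simp [sb, h0, h1, Tr.ev]

theorem perm_rest {l : List ℕ} (h0 : 0 ∈ l) (h1 : 1 ∈ l) :
    l.Perm (0 :: 1 :: (l.erase 0).erase 1) :=
  (List.perm_cons_erase h0).trans
    ((List.perm_cons_erase ((List.mem_erase_of_ne (by decide)).2 h1)).cons 0)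

theorem lv_sb {c e e' : Tr} (hc : c.lv.Nodup) (h0 : 0 ∈ c.lv) (h1 : 1 ∈ c.lv) {p q : ℕ}
    {S T : Finset ℕ} (hT : T ⊆ S) (he : e.lv.Perm (p :: T.toList))
    (he' : e'.lv.Perm (q :: (S \ T).toList)) :
    (c.sub (sb e e')).lv.Perm (p :: q :: (S.toList ++ (c.lv.erase 0).erase 1)) := by
  have hp := perm_rest h0 h1
  have hn := hp.nodup_iff.1 hc
  generalize (c.lv.erase 0).erase 1 = R at hp hn ⊢
  have n0 : 0 ∉ R := fun h => (List.nodup_cons.1 hn).1 (List.mem_cons_of_mem _ h)
  have n1 : 1 ∉ R := (List.nodup_cons.1 (List.nodup_cons.1 hn).2).1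
  have e1 : (R.flatMap fun i => (sb e e' i).lv) = R := by
    rw [List.flatMap_congr (g := fun i => [i]), List.flatMap_singleton']
    intro i hi
    have a0 : i ≠ 0 := fun h => n0 (h ▸ hi)
    have a1 : i ≠ 1 := fun h => n1 (h ▸ hi)
    simp [sb, a0, a1, Tr.lv]
  have e2 : (T.toList ++ (S \ T).toList).Perm S.toList := by
    rw [← Multiset.coe_eq_coe, ← Multiset.coe_add, Finset.coe_toList, Finset.coe_toList,
      Finset.coe_toList, Finset.sdiff_val, add_tsub_cancel_of_le (Finset.val_le_iff.2 hT)]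
  rw [lv_sub]
  refine (hp.flatMap_right _).trans ?_
  rw [List.flatMap_cons, List.flatMap_cons, e1]
  have f0 : sb e e' 0 = e := by simp [sb]
  have f1 : sb e e' 1 = e' := by simp [sb]
  rw [f0, f1]
  refine (he.append (he'.append_right R)).trans ?_
  rw [List.cons_append, List.cons_append]
  refine List.Perm.cons p (List.perm_middle.trans (List.Perm.cons q ?_))
  rw [← List.append_assoc]
  exact e2.append_right R

end REL

open REL in
theorem stREL (hD : St_HD.{u}) (hG : St_GU.{u}) (hQ : St_QN) : St_REL.{u} := by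
  classical
  intro k _ F _ _ f0 hB cs hcs
  obtain ⟨hD1, hD2⟩ := hD k F
  obtain ⟨j, hj⟩ := hG k F f0 hB.nosl hB.pi
  have hmono : Monotone (hdim k F) := monotone_nat_of_le_succ fun n => (hD2 f0 hB n).2
  obtain ⟨K, hK⟩ : ∃ K, ∀ c ∈ cs, ∀ i ∈ c.lv, i < K := by
    obtain ⟨K, hK⟩ := (cs.flatMap Tr.lv).toFinset.exists_nat_subset_range
    exact ⟨K, fun c hc i hi => Finset.mem_range.1
      (hK (List.mem_toFinset.2 (List.mem_flatMap.2 ⟨c, hc, hi⟩)))⟩
  obtain ⟨J, hJ⟩ : ∃ J, ∀ c ∈ cs, c.lv.length < J := by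
    obtain ⟨J, hJ⟩ := (cs.map fun c => c.lv.length).toFinset.exists_nat_subset_range
    exact ⟨J, fun c hc => Finset.mem_range.1
      (hJ (List.mem_toFinset.2 (List.mem_map.2 ⟨c, hc, rfl⟩)))⟩
  obtain ⟨n, hn⟩ := hQ j cs.length (J + 1) (hdim k F) (by omega) (fun n => (hD2 f0 hB n).1) hj
  obtain ⟨S, hS, hS'⟩ : ∃ S : Finset ℕ, S.card = n ∧ ∀ s ∈ S, K + 2 ≤ s :=
    ⟨Finset.Ico (K + 2) (K + 2 + n), by simp, fun s hs => (Finset.mem_Ico.1 hs).1⟩
  have hp : K ∉ S := fun h => by have := hS' _ h; omega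
  have hq : K + 1 ∉ S := fun h => by have := hS' _ h; omega
  have x1 : ∀ T : Finset ℕ, ∃ B : Finset Tr, T ∈ S.powersetCard (n / 2) →
      (∀ e ∈ B, e.lv.Perm (K :: T.toList)) ∧ Indep k F B ∧ B.card = hdim k F (n / 2) := fun T => by
    by_cases h : T ∈ S.powersetCard (n / 2)
    · obtain ⟨h1, h2⟩ := Finset.mem_powersetCard.1 h
      obtain ⟨B, hB⟩ := (hD1 (K :: T.toList) (List.nodup_cons.2
        ⟨fun a => hp (h1 (Finset.mem_toList.1 a)), T.nodup_toList⟩) (n / 2) (by simp [h2])).1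
      exact ⟨B, fun _ => hB⟩
    · exact ⟨∅, fun a => absurd a h⟩
  have x2 : ∀ T : Finset ℕ, ∃ B : Finset Tr, T ∈ S.powersetCard (n / 2) →
      (∀ e ∈ B, e.lv.Perm ((K + 1) :: (S \ T).toList)) ∧ Indep k F B ∧
        B.card = hdim k F (n - n / 2) := fun T => by
    by_cases h : T ∈ S.powersetCard (n / 2)
    · obtain ⟨h1, h2⟩ := Finset.mem_powersetCard.1 h
      obtain ⟨B, hB⟩ := (hD1 ((K + 1) :: (S \ T).toList) (List.nodup_cons.2
        ⟨fun a => hq (Finset.mem_sdiff.1 (Finset.mem_toList.1 a)).1, Finset.nodup_toList _⟩)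
        (n - n / 2) (by simp [Finset.card_sdiff_of_subset h1, h2, hS])).1
      exact ⟨B, fun _ => hB⟩
    · exact ⟨∅, fun a => absurd a h⟩
  choose B hB1 using x1
  choose B' hB2 using x2
  let A : Finset (Σ _ : Finset ℕ, Tr × Tr) := (S.powersetCard (n / 2)).sigma fun T => B T ×ˢ B' T
  have cA : A.card = n.choose (n / 2) * hdim k F (n / 2) * hdim k F (n - n / 2) := by
    rw [Finset.card_sigma, Finset.sum_congr rfl fun T hT => by
      rw [Finset.card_product, (hB1 T hT).2.2, (hB2 T hT).2.2], Finset.sum_const,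
      Finset.card_powersetCard, hS, smul_eq_mul, mul_assoc]
  let l : Fin cs.length → List ℕ := fun c =>
    K :: (K + 1) :: (S.toList ++ ((cs.get c).lv.erase 0).erase 1)
  let V : Fin cs.length → Submodule k ((ℕ → F) → F) := fun c => Submodule.span k
    {φ : (ℕ → F) → F | ∃ b : Tr, b.lv.Perm (l c) ∧ φ = fun u => b.ev br u}
  have hV : ∀ c, Module.Finite k (V c) ∧ Module.finrank k (V c) ≤ hdim k F (n + (J + 1)) := by
    intro c
    have hc := List.get_mem cs c
    obtain ⟨c1, c2, c3⟩ := hcs _ hc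
    have hp' := perm_rest c2 c3
    have hlt : ∀ i ∈ ((cs.get c).lv.erase 0).erase 1, i < K := fun i hi =>
      hK _ hc i (List.mem_of_mem_erase (List.mem_of_mem_erase hi))
    have hnd : (l c).Nodup := by
      refine List.nodup_cons.2 ⟨?_, List.nodup_cons.2 ⟨?_, List.nodup_append.2
        ⟨S.nodup_toList, (c1.erase _).erase _, fun a ha b hb => ?_⟩⟩⟩
      · rw [List.mem_cons, List.mem_append, Finset.mem_toList]
        rintro (h | h | h)
        · omega
        · exact hp h
        · exact absurd (hlt _ h) (lt_irrefl _)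
      · rw [List.mem_append, Finset.mem_toList]
        rintro (h | h)
        · exact hq h
        · have := hlt _ h; omega
      · have := hS' a (Finset.mem_toList.1 ha)
        have := hlt b hb
        omega
    obtain ⟨-, a1, a2⟩ := hD1 (l c) hnd (n + (((cs.get c).lv.erase 0).erase 1).length + 1)
      (by simp only [l, List.length_cons, List.length_append, Finset.length_toList, hS])
    refine ⟨a1, a2.le.trans (hmono ?_)⟩
    have := hp'.length_eq
    have := hJ _ hc
    simp only [List.length_cons] at *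
    omega
  have : ∀ c, Module.Finite k (V c) := fun c => (hV c).1
  have mA : ∀ a : A, a.1.1 ∈ S.powersetCard (n / 2) ∧ a.1.2.1 ∈ B a.1.1 ∧ a.1.2.2 ∈ B' a.1.1 :=
    fun a => ⟨(Finset.mem_sigma.1 a.2).1, Finset.mem_product.1 (Finset.mem_sigma.1 a.2).2⟩
  let x : A → ∀ c, V c := fun a c =>
    ⟨fun u => ((cs.get c).sub (sb a.1.2.1 a.1.2.2)).ev br u, Submodule.subset_span ⟨_,
      lv_sb (hcs _ (List.get_mem cs c)).1 (hcs _ (List.get_mem cs c)).2.1
        (hcs _ (List.get_mem cs c)).2.2 (Finset.mem_powersetCard.1 (mA a).1).1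
        ((hB1 _ (mA a).1).1 _ (mA a).2.1) ((hB2 _ (mA a).1).1 _ (mA a).2.2), rfl⟩⟩
  have hx : ¬LinearIndependent k x := fun h => by
    have h1 := h.fintype_card_le_finrank
    rw [Fintype.card_coe, cA, Module.finrank_pi_fintype] at h1
    have h2 : ∑ c, Module.finrank k (V c) ≤ cs.length * hdim k F (n + (J + 1)) :=
      (Finset.sum_le_card_nsmul _ _ _ fun c _ => (hV c).2).trans (by simp)
    omega
  obtain ⟨g, hg, a0, ha0⟩ := Fintype.not_linearIndependent_iff.1 hx
  let κ : Finset ℕ → Tr → Tr → k := fun T e e' =>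
    if h : (⟨T, (e, e')⟩ : Σ _ : Finset ℕ, Tr × Tr) ∈ A then g ⟨_, h⟩ else 0
  have hκ : ∀ a : A, κ a.1.1 a.1.2.1 a.1.2.2 = g a := fun a => dif_pos a.2
  refine ⟨⟨S, K, K + 1, n / 2, B, B', κ⟩, ⟨hp, hq, by simp, fun T h => (hB1 T h).1,
    fun T h => (hB2 T h).1, fun T h => (hB1 T h).2.1, fun T h => (hB2 T h).2.1,
    _, (mA a0).1, _, (mA a0).2.1, _, (mA a0).2.2, fun h => ha0 ((hκ a0).symm.trans h)⟩, fun c hc u v => ?_⟩
  obtain ⟨ci, rfl⟩ := List.mem_iff_get.1 hc
  let w : ℕ → F := fun s => if s < K then v s else u s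
  have h1 := congrFun (congrArg Subtype.val (congrFun hg ci)) w
  simp only [Finset.sum_apply, Pi.smul_apply, Submodule.coe_sum, Submodule.coe_smul,
    Pi.zero_apply, Submodule.coe_zero, x] at h1
  have h2 : ∀ a : A, ((cs.get ci).sub (sb a.1.2.1 a.1.2.2)).ev br w = (cs.get ci).ev br
      (Function.update (Function.update v 0 (a.1.2.1.ev br u)) 1 (a.1.2.2.ev br u)) := by
    intro a
    have hT := (Finset.mem_powersetCard.1 (mA a).1).1
    have e1 : a.1.2.1.ev br w = a.1.2.1.ev br u := ev_congr _ _ fun i hi => by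
      have := ((hB1 _ (mA a).1).1 _ (mA a).2.1).subset hi
      rw [List.mem_cons, Finset.mem_toList] at this
      refine if_neg ?_
      rcases this with h | h
      · omega
      · have := hS' _ (hT h); omega
    have e2 : a.1.2.2.ev br w = a.1.2.2.ev br u := ev_congr _ _ fun i hi => by
      have := ((hB2 _ (mA a).1).1 _ (mA a).2.2).subset hi
      rw [List.mem_cons, Finset.mem_toList] at this
      refine if_neg ?_
      rcases this with h | h
      · omega
      · have := hS' _ (Finset.mem_sdiff.1 h).1; omega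
    rw [ev_sb, e1, e2]
    refine ev_congr _ _ fun i hi => ?_
    have e3 : w i = v i := if_pos (hK _ hc i hi)
    simp only [Function.update_apply, e3]
  simp only [h2, ← hκ] at h1
  rw [Finset.sum_coe_sort A fun a => κ a.1 a.2.1 a.2.2 • (cs.get ci).ev br
    (Function.update (Function.update v 0 (a.2.1.ev br u)) 1 (a.2.2.ev br u)),
    Finset.sum_sigma] at h1
  simp only [Finset.sum_product] at h1
  exact h1

end Pool.Agent.Lib.EB
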