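import Pool.Agent.Lib.EB.Blue

set_option linter.unusedSectionVars false

namespace Pool.Agent.Lib.EB

universe u

namespace SB

variable {k : Type u} [Field k] [CharZero k] {L : Type u} [AddCommGroup L] [Module k L]
  {m : L →ₗ[k] L →ₗ[k] L} {ω : L →ₗ[k] L}

theorem fc_mono {W W' : Submodule k L} (h : W ≤ W') (hW : Module.Finite k (L ⧸ W)) :
    Module.Finite k (L ⧸ W') :=
  Module.Finite.of_surjective (Submodule.factor h) (Submodule.factor_surjective h)

theorem fc_ker {V : Type u} [AddCommGroup V] [Module k V] [Module.Finite k V] (f : L →ₗ[k] V)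
    {W : Submodule k L} (h : ∀ a, f a = 0 → a ∈ W) : Module.Finite k (L ⧸ W) :=
  fc_mono (W := LinearMap.ker f) h (Module.Finite.of_injective
    ((LinearMap.ker f).liftQ f le_rfl) (LinearMap.ker_eq_bot.1 (Submodule.ker_liftQ_eq_bot _ _ _ le_rfl)))

theorem fc_lt {W W' : Submodule k L} (h : W ≤ W') {x : L} (hx : x ∈ W') (hx' : x ∉ W)
    (hW : Module.Finite k (L ⧸ W)) : Module.finrank k (L ⧸ W') < Module.finrank k (L ⧸ W) := by
  have h1 := (Submodule.factor h).finrank_range_add_finrank_ker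
  rw [LinearMap.range_eq_top.2 (Submodule.factor_surjective h), finrank_top] at h1
  have h2 : LinearMap.ker (Submodule.factor h) ≠ ⊥ := fun e => hx' (by
    have : W.mkQ x ∈ LinearMap.ker (Submodule.factor h) := by simpa using hx
    rw [e] at this
    simpa using this)
  have := Submodule.finrank_eq_zero.not.2 h2
  omega

/-- The even projection. -/
def pe (ω : L →ₗ[k] L) : L →ₗ[k] L := (2⁻¹ : k) • (LinearMap.id + ω)

/-- The odd projection. -/
def po (ω : L →ₗ[k] L) : L →ₗ[k] L := (2⁻¹ : k) • (LinearMap.id - ω)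

theorem half (a : L) : (2⁻¹ : k) • (a + a) = a := by
  rw [← two_smul k, smul_smul, inv_mul_cancel₀ two_ne_zero, one_smul]

theorem pe_add_po (a : L) : pe ω a + po ω a = a := by
  simp only [pe, po, LinearMap.smul_apply, LinearMap.add_apply, LinearMap.sub_apply,
    LinearMap.id_apply]
  rw [← smul_add, add_add_sub_cancel, half]

theorem ω_pe (h : SuperAx m ω) (a : L) : ω (pe ω a) = pe ω a := by
  simp [pe, h.inv, add_comm]

theorem ω_po (h : SuperAx m ω) (a : L) : ω (po ω a) = - po ω a := by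
  simp [po, h.inv, ← smul_neg]

theorem pe_ω (h : SuperAx m ω) (a : L) : pe ω (ω a) = pe ω a := by
  simp [pe, h.inv, add_comm]

theorem pe_even {a : L} (ha : ω a = a) : pe ω a = a := by
  simp only [pe, LinearMap.smul_apply, LinearMap.add_apply, LinearMap.id_apply, ha, half]

theorem pe_odd {a : L} (ha : ω a = -a) : pe ω a = 0 := by simp [pe, ha]

theorem pe_mul (h : SuperAx m ω) {a : L} (ha : ω a = a) (b : L) :
    pe ω (m a b) = m a (pe ω b) := by simp [pe, h.mul, ha]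

theorem pe_mem {U : Submodule k L} (hU : ∀ a ∈ U, ω a ∈ U) {a : L} (ha : a ∈ U) : pe ω a ∈ U :=
  U.smul_mem _ (U.add_mem ha (hU a ha))

theorem po_mem {U : Submodule k L} (hU : ∀ a ∈ U, ω a ∈ U) {a : L} (ha : a ∈ U) : po ω a ∈ U :=
  U.smul_mem _ (U.sub_mem ha (hU a ha))

theorem mem_of_hom (h : SuperAx m ω) {U V : Submodule k L} (hV : ∀ a ∈ V, ω a ∈ V)
    (h1 : ∀ a ∈ V, ∀ b ∈ V, ω a = a → m a b ∈ U)
    (h2 : ∀ a ∈ V, ∀ b ∈ V, ω a = -a → ω b = -b → m a b ∈ U) {a b : L} (ha : a ∈ V) (hb : b ∈ V) :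
    m a b ∈ U := by
  have e : m a b = m (pe ω a) b + (-m (pe ω b) (po ω a) + m (po ω a) (po ω b)) := by
    rw [h.skew _ _ (ω_pe h b), neg_neg, ← map_add, pe_add_po, ← LinearMap.add_apply, ← map_add,
      pe_add_po]
  rw [e]
  exact U.add_mem (h1 _ (pe_mem hV ha) _ hb (ω_pe h a))
    (U.add_mem (U.neg_mem (h1 _ (pe_mem hV hb) _ (po_mem hV ha) (ω_pe h b)))
      (h2 _ (po_mem hV ha) _ (po_mem hV hb) (ω_po h a) (ω_po h b)))

theorem top_of_mul (hp : Perfect m) {U : Submodule k L} (h : ∀ a b, m a b ∈ U) : U = ⊤ :=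
  top_le_iff.1 (hp ▸ Submodule.span_le.2 (by rintro _ ⟨a, b, rfl⟩; exact h a b))

theorem zero_of_hom (h : SuperAx m ω) (hp : Perfect m) (f : L →ₗ[k] k)
    (h1 : ∀ a b, ω a = a → f (m a b) = 0) (h2 : ∀ a b, ω a = -a → ω b = -b → f (m a b) = 0) :
    f = 0 :=
  LinearMap.ker_eq_top.1 (top_of_mul hp fun _ _ => mem_of_hom h (V := ⊤) (by simp)
    (fun a _ b _ => h1 a b) (fun a _ b _ => h2 a b) trivial trivial)

theorem line (h : SuperAx m ω) (hp : Perfect m) (f : L →ₗ[k] k) (x : L) (hx : ω x = -x)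
    (h1 : f x = 1) (h0 : ∀ a, ω a = a → f a = 0)
    (h2 : ∀ a y, ω a = a → f (m a y) = f (m a x) * f y) : False := by
  have oo : ∀ a b, ω a = -a → ω b = -b → ω (m a b) = m a b := fun a b ha hb => by
    simp [h.mul, ha, hb]
  have cyc : ∀ a b c, ω a = -a → ω b = -b → ω c = -c → f (m (m a b) x) * f c +
      f (m (m b c) x) * f a + f (m (m a c) x) * f b = 0 := fun a b c ha hb hc => by
    have e := congrArg f (h.jacO a b c ha hb)
    have e1 := h.skew _ a (oo b c hb hc)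
    have e2 := h.skew _ b (oo a c ha hc)
    rw [← h2 _ _ (oo a b ha hb), ← h2 _ _ (oo b c hb hc), ← h2 _ _ (oo a c ha hc), e1, e2]
    simp only [map_sub, map_neg] at e ⊢
    linear_combination -e
  have b1 : f (m (m x x) x) = 0 := by
    have := cyc x x x hx hx hx
    rw [h1] at this
    linear_combination (3⁻¹ : k) * this
  have b2 : ∀ a, ω a = -a → f (m (m a x) x) = 0 := fun a ha => by
    have := cyc a x x ha hx hx
    rw [h1, b1] at this
    linear_combination (2⁻¹ : k) * this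
  have b3 : f ∘ₗ m.flip x ∘ₗ pe ω = 0 := zero_of_hom h hp _ (fun a b ha => by
      have hb := ω_pe h b
      have e := congrArg f (h.jacE a (pe ω b) x ha)
      rw [map_add, h2 a _ ha, h2 (pe ω b) (m a x) hb] at e
      simp only [LinearMap.comp_apply, LinearMap.flip_apply, pe_mul h ha]
      linear_combination -e) fun a b ha hb => by
    have := cyc a b x ha hb hx
    rw [h1, b2 a ha, b2 b hb] at this
    simp only [LinearMap.comp_apply, LinearMap.flip_apply, pe_even (oo a b ha hb)]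
    linear_combination this
  have b4 : f = 0 := zero_of_hom h hp f (fun a b ha => by
    have := LinearMap.congr_fun b3 a
    simp only [LinearMap.comp_apply, LinearMap.flip_apply, pe_even ha, LinearMap.zero_apply] at this
    rw [h2 a b ha, this, zero_mul]) fun a b ha hb => h0 _ (oo a b ha hb)
  simp [b4] at h1

/-- The even part. -/
def Ev (_ : SuperAx m ω) : Type u := LinearMap.eqLocus ω LinearMap.id

variable (h : SuperAx m ω)

instance : AddCommGroup (Ev h) := inferInstanceAs (AddCommGroup (LinearMap.eqLocus ω LinearMap.id))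

instance : Module k (Ev h) := inferInstanceAs (Module k (LinearMap.eqLocus ω LinearMap.id))

/-- The inclusion of the even part. -/
def vl : Ev h →ₗ[k] L := (LinearMap.eqLocus ω LinearMap.id).subtype

theorem vl_inj : Function.Injective (vl h) := Subtype.val_injective

theorem vl_ev (a : Ev h) : ω (vl h a) = vl h a := a.2

/-- The bracket on the even part. -/
def brE (a b : Ev h) : Ev h :=
  ⟨m (vl h a) (vl h b), show ω _ = _ by rw [h.mul, vl_ev, vl_ev]; rfl⟩

theorem vl_brE (a b : Ev h) : vl h (brE h a b) = m (vl h a) (vl h b) := rfl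

instance : LieRing (Ev h) where
  bracket := brE h
  add_lie a b c := vl_inj h (by
    change vl h (brE h _ _) = vl h (brE h _ _ + brE h _ _)
    simp [vl_brE])
  lie_add a b c := vl_inj h (by
    change vl h (brE h _ _) = vl h (brE h _ _ + brE h _ _)
    simp [vl_brE])
  lie_self a := vl_inj h (by
    change vl h (brE h _ _) = vl h 0
    rw [vl_brE, map_zero, ← half (k := k) (m _ _), add_eq_zero_iff_eq_neg.2 (h.skew _ _ (vl_ev h a)),
      smul_zero])
  leibniz_lie a b c := vl_inj h (by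
    change vl h (brE h _ (brE h _ _)) = vl h (brE h (brE h _ _) _ + brE h _ (brE h _ _))
    simp only [vl_brE, map_add]
    exact h.jacE _ _ _ (vl_ev h a))

theorem vl_lie (a b : Ev h) : vl h ⁅a, b⁆ = m (vl h a) (vl h b) := rfl

instance : LieAlgebra k (Ev h) where
  lie_smul c a b := vl_inj h (by simp [vl_lie])

theorem idt {f0 : Tr →₀ k}
    (hf : ∀ u : ℕ → L, (∀ i, ω (u i) = u i) → pev k (fun a b => m a b) u f0 = 0) :
    Idt k (Ev h) f0 := fun u => vl_inj h (by
  have e : ∀ b : Tr, vl h (b.ev br u) = b.ev (fun a b => m a b) fun i => vl h (u i) := fun b => by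
    induction b with
    | lf i => rfl
    | nd a b ha hb => simp only [Tr.ev, br, vl_lie, ← ha, ← hb]
  rw [map_zero, ← hf (fun i => vl h (u i)) fun i => vl_ev h _, pev, pev,
    Finsupp.apply_linearCombination]
  congr 2
  exact funext e)

/-- The elements that multiply everything into `U`. -/
def D (m : L →ₗ[k] L →ₗ[k] L) (U : Submodule k L) : Submodule k L :=
  ⨅ b, U.comap (m.flip b)

theorem mem_D {U : Submodule k L} {a : L} : a ∈ D m U ↔ ∀ b, m a b ∈ U := by simp [D]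

include h

theorem D_gr {U : Submodule k L} (hU : ∀ a ∈ U, ω a ∈ U) : ∀ a ∈ D m U, ω a ∈ D m U :=
  fun a ha => mem_D.2 fun b => by
    have := hU _ (mem_D.1 ha (ω b))
    rwa [h.mul, h.inv] at this

theorem D_mul {U : Submodule k L} (hU : ∀ a ∈ U, ω a ∈ U) {a b : L} (ha : a ∈ D m U)
    (hb : b ∈ D m U) : m a b ∈ D m U := by
  refine mem_of_hom h (D_gr h hU) (fun a ha b hb e => mem_D.2 fun c => ?_)
    (fun a ha b hb e e' => mem_D.2 fun c => ?_) ha hb
  · rw [eq_sub_of_add_eq (h.jacE a b c e).symm]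
    exact U.sub_mem (mem_D.1 ha _) (mem_D.1 hb _)
  · rw [eq_add_of_sub_eq (h.jacO a b c e e').symm]
    exact U.add_mem (mem_D.1 ha _) (mem_D.1 hb _)

omit h in
theorem fc_step {H : Submodule k L} (h1 : ∀ a ∈ H, ∀ b ∈ H, m a b ∈ H)
    (h2 : Module.Finite k (L ⧸ H)) : Module.Finite k (L ⧸ (H ⊓ D m H)) := by
  obtain ⟨s, hs⟩ := H.mkQ.exists_rightInverse_of_surjective H.range_mkQ
  refine fc_ker (H.mkQ.prod ((m.compl₂ s).compr₂ H.mkQ)) fun a ha => ?_
  replace ha := Prod.ext_iff.1 ha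
  have a1 : a ∈ H := (Submodule.Quotient.mk_eq_zero H).1 ha.1
  refine ⟨a1, mem_D.2 fun b => ?_⟩
  rw [← sub_add_cancel b (s (H.mkQ b)), map_add]
  refine H.add_mem (h1 a a1 _ ((Submodule.Quotient.eq H).1 ?_))
    ((Submodule.Quotient.mk_eq_zero H).1 (LinearMap.congr_fun ha.2 (H.mkQ b)))
  exact (LinearMap.congr_fun hs (H.mkQ b)).symm

variable [IsAlgClosed k] {f0 : Tr →₀ k}

theorem case1 (hL : St_LL.{u}) (hn : NoSl k f0) (hf : Idt k (Ev h) f0) (hp : Perfect m) (n : ℕ) :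
    ∀ W : Submodule k L, Module.finrank k (L ⧸ W) = n → Module.Finite k (L ⧸ W) →
      (∀ a, ω a = a → a ∈ W) → (∀ a, ω a = a → ∀ y ∈ W, m a y ∈ W) → W = ⊤ := by
  induction n using Nat.strong_induction_on with
  | _ n ih =>
  intro W hr hW h1 h2
  by_contra hne
  obtain ⟨x', a1, a2⟩ := hL k f0 hn (Ev h) hf L (m ∘ₗ vl h)
    (fun a b x => eq_sub_of_add_eq (h.jacE _ _ x (vl_ev h a)).symm) W
    (fun a => h2 _ (vl_ev h a)) hW hne
  obtain ⟨x, hx⟩ : ∃ x, x = po ω x' := ⟨_, rfl⟩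
  have b0 : x' = pe ω x' + x := by rw [hx, pe_add_po]
  have b1 : pe ω x' ∈ W := h1 _ (ω_pe h _)
  have b2 : x ∉ W := fun e => a1 (b0 ▸ W.add_mem b1 e)
  have b3 : ∀ a, ω a = a → ∃ c : k, m a x - c • x ∈ W := fun a ha => by
    obtain ⟨c, hc⟩ := a2 ⟨a, ha⟩
    refine ⟨c, ?_⟩
    have := W.add_mem (W.sub_mem hc (h2 a ha _ b1)) (W.smul_mem c b1)
    convert this using 1
    change _ = m a x' - c • x' - _ + _
    conv_rhs => rw [b0]
    rw [← b0]
    simp only [eq_sub_of_add_eq' b0.symm, map_sub, smul_sub]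
    abel
  have b4 : W ⊔ k ∙ x = ⊤ := ih _ (hr ▸ fc_lt le_sup_left
    (Submodule.mem_sup_right (Submodule.mem_span_singleton_self x)) b2 hW) _ rfl
    (fc_mono le_sup_left hW) (fun a ha => Submodule.mem_sup_left (h1 a ha)) fun a ha y hy => by
      obtain ⟨w, hw, z, hz, rfl⟩ := Submodule.mem_sup.1 hy
      obtain ⟨c, rfl⟩ := Submodule.mem_span_singleton.1 hz
      obtain ⟨d, hd⟩ := b3 a ha
      rw [map_add, map_smul, ← sub_add_cancel (m a x) (d • x)]
      exact Submodule.add_mem _ (Submodule.mem_sup_left (h2 a ha w hw)) (Submodule.smul_mem _ _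
        (Submodule.add_mem_sup hd (Submodule.smul_mem _ _ (Submodule.mem_span_singleton_self x))))
  obtain ⟨f, c1, c2⟩ := Submodule.exists_dual_map_eq_bot_of_notMem b2 inferInstance
  have c3 : ∀ w ∈ W, f w = 0 := fun w hw => by
    have := Submodule.mem_map_of_mem (f := f) hw
    rwa [c2] at this
  refine line h hp ((f x)⁻¹ • f) x (hx ▸ ω_po h _) (inv_mul_cancel₀ c1)
    (fun a ha => by simp [c3 a (h1 a ha)]) fun a y ha => ?_
  obtain ⟨w, hw, z, hz, rfl⟩ := Submodule.mem_sup.1 (b4 ▸ Submodule.mem_top : y ∈ W ⊔ k ∙ x)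
  obtain ⟨c, rfl⟩ := Submodule.mem_span_singleton.1 hz
  simp only [map_add, map_smul, LinearMap.smul_apply, smul_eq_mul, c3 w hw, c3 _ (h2 a ha w hw)]
  field_simp
  ring

theorem case2 (hL : St_LL.{u}) (hn : NoSl k f0) (hf : Idt k (Ev h) f0) (hp : Perfect m)
    {U : Submodule k L} (hU : ∀ a ∈ U, ω a ∈ U) (h1 : Module.Finite k (L ⧸ D m U))
    (h2 : ∀ a, ω a = a → a ∈ D m U) : U = ⊤ :=
  top_of_mul hp fun a => mem_D.1 (case1 h hL hn hf hp _ _ rfl h1 h2
    (fun a ha _ hy => D_mul h hU (h2 a ha) hy) ▸ Submodule.mem_top : a ∈ D m U)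

theorem deep (hL : St_LL.{u}) (hn : NoSl k f0) (hf : Idt k (Ev h) f0) (hp : Perfect m) (c : ℕ) :
    ∀ H : Submodule k L, (∀ a ∈ H, ω a ∈ H) → (∀ a ∈ H, ∀ b ∈ H, m a b ∈ H) →
      Module.Finite k (L ⧸ H) → ∀ a, ω a = a →
      a ∈ (LieAlgebra.derivedSeries k (Ev h) c).toSubmodule.map (vl h) ⊔ H := by
  induction c with
  | zero => exact fun H _ _ _ a ha => Submodule.mem_sup_left ⟨⟨a, ha⟩, trivial, rfl⟩
  | succ c ih =>
    intro H h1 h2 h3 a ha
    have h4 := ih (H ⊓ D m H) (fun a ha => ⟨h1 a ha.1, D_gr h h1 a ha.2⟩)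
      (fun a ha b hb => ⟨h2 a ha.1 b hb.1, D_mul h h1 ha.2 hb.2⟩) (fc_step h2 h3)
    have h7 : ∀ {d d' : Ev h}, d ∈ LieAlgebra.derivedSeries k (Ev h) c →
        d' ∈ LieAlgebra.derivedSeries k (Ev h) c →
        ⁅d, d'⁆ ∈ LieAlgebra.derivedSeries k (Ev h) (c + 1) := fun hd hd' => by
      rw [LieAlgebra.derivedSeries_def, LieAlgebra.derivedSeriesOfIdeal_succ]
      exact LieSubmodule.lie_mem_lie hd hd'
    have h5 := case2 h hL hn hf hp (U := ((LieAlgebra.derivedSeries k (Ev h) (c + 1)).toSubmodule.map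
      (vl h) ⊔ H).comap (pe ω)) (fun a ha => by rwa [Submodule.mem_comap, pe_ω h])
      (fc_mono (W := H ⊓ D m H) (fun a ha => mem_D.2 fun b =>
        Submodule.mem_sup_right (pe_mem h1 (mem_D.1 ha.2 b))) (fc_step h2 h3))
      fun x hx => mem_D.2 fun y => by
        rw [Submodule.mem_comap, pe_mul h hx]
        obtain ⟨_, ⟨d, hd, rfl⟩, z, hz, rfl⟩ := Submodule.mem_sup.1 (h4 x hx)
        obtain ⟨_, ⟨d', hd', rfl⟩, z', hz', e⟩ := Submodule.mem_sup.1 (h4 _ (ω_pe h y))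
        rw [map_add, LinearMap.add_apply, ← e, map_add (m (vl h d)), h.skew _ z' (vl_ev h d), e]
        exact Submodule.add_mem _ (Submodule.add_mem_sup
          ⟨⁅d, d'⁆, h7 hd hd', rfl⟩ (H.neg_mem (mem_D.1 hz'.2 _)))
          (Submodule.mem_sup_right (mem_D.1 hz.2 _))
    have h6 : a ∈ (⊤ : Submodule k L) := trivial
    rwa [← h5, Submodule.mem_comap, pe_even ha] at h6

end SB

open SB in
theorem stSB (hL : St_LL.{u}) (hB : St_BP.{u}) : St_SB.{u} := by
  intro k _ _ _ f0 hn L _ _ m ω h hf hp ψ ⟨n, α, β, hψ⟩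
  have hf' := idt h hf
  have a1 : ∀ a ∈ LinearMap.ker ψ ⊓ LinearMap.ker (ψ ∘ₗ ω),
      ω a ∈ LinearMap.ker ψ ⊓ LinearMap.ker (ψ ∘ₗ ω) :=
    fun a ha => ⟨ha.2, show ψ (ω (ω a)) = 0 by rw [h.inv]; exact ha.1⟩
  have a2 : Module.Finite k (L ⧸ D m (LinearMap.ker ψ ⊓ LinearMap.ker (ψ ∘ₗ ω))) :=
    fc_ker ((LinearMap.pi α).prod (LinearMap.pi α ∘ₗ ω)) fun a ha => mem_D.2 fun b => by
      replace ha := Prod.ext_iff.1 ha
      have b1 : ∀ i, α i a = 0 := fun i => congrFun ha.1 i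
      have b2 : ∀ i, α i (ω a) = 0 := fun i => congrFun ha.2 i
      exact ⟨show ψ _ = 0 by simp [hψ, b1], show ψ (ω _) = 0 by simp [h.mul, hψ, b2]⟩
  set H := D m (LinearMap.ker ψ ⊓ LinearMap.ker (ψ ∘ₗ ω))
  obtain ⟨c, hc⟩ := hB k f0 hn (Ev h) hf' ⟨H.comap (vl h), fun ha hb => D_mul h a1 ha hb⟩
    (fc_ker (H.mkQ ∘ₗ vl h) fun a ha => (Submodule.Quotient.mk_eq_zero H).1 ha)
  have a3 := case2 h hL hn hf' hp a1 a2 fun a ha => by
    have := deep h hL hn hf' hp c H (D_gr h a1) (fun a ha b hb => D_mul h a1 ha hb) a2 a ha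
    refine (sup_le ?_ le_rfl : _ ≤ H) this
    rintro _ ⟨d, hd, rfl⟩
    exact hc d hd
  exact LinearMap.ker_eq_top.1 (top_le_iff.1 (a3 ▸ inf_le_left))

end Pool.Agent.Lib.EB
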