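import Pool.Agent.Lib.EB.Blue

/-!
The strong Engel condition.
-/

namespace Pool.Agent.Lib.EB

universe u

namespace SEb

theorem ev_congr {X : Type*} (m : X → X → X) {u u' : ℕ → X} (g : Tr)
    (h : ∀ i ∈ g.lv, u i = u' i) : g.ev m u = g.ev m u' := by
  induction g with
  | lf i => exact h i (by simp [Tr.lv])
  | nd a b ha hb =>
    simp only [Tr.ev]
    rw [ha fun i hi => h i (by simp [Tr.lv, hi]), hb fun i hi => h i (by simp [Tr.lv, hi])]

theorem ev_skip {X : Type*} (m : X → X → X) (u : ℕ → X) {g : Tr} {s : ℕ} (h : s ∉ g.lv) (x : X) :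
    g.ev m (Function.update u s x) = g.ev m u :=
  ev_congr m g fun i hi => Function.update_of_ne (fun e : i = s => h (e ▸ hi)) _ _

theorem ev_lin {k : Type u} [Field k] {F : Type u} [LieRing F] [LieAlgebra k F] (u : ℕ → F)
    {g : Tr} {s : ℕ} (hn : g.lv.Nodup) (h : s ∈ g.lv) :
    IsLinearMap k fun x => g.ev br (Function.update u s x) := by
  induction g with
  | lf i =>
    obtain rfl : s = i := by simpa [Tr.lv] using h
    exact ⟨fun x y => by simp [Tr.ev], fun c x => by simp [Tr.ev]⟩
  | nd a b ha hb =>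
    obtain ⟨h1, h2, h3⟩ := List.nodup_append.1 hn
    simp only [Tr.ev, br]
    rcases List.mem_append.1 h with h4 | h4
    · have h5 : s ∉ b.lv := fun h5 => h3 s h4 s h5 rfl
      simp only [ev_skip br u h5]
      exact ⟨fun x y => by rw [(ha h1 h4).map_add, add_lie],
        fun c x => by rw [(ha h1 h4).map_smul, smul_lie]⟩
    · have h5 : s ∉ a.lv := fun h5 => h3 s h5 s h4 rfl
      simp only [ev_skip br u h5]
      exact ⟨fun x y => by rw [(hb h2 h4).map_add, lie_add],
        fun c x => by rw [(hb h2 h4).map_smul, lie_smul]⟩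

theorem ext_upd {ι X : Type*} [DecidableEq ι] (w : ι ↪ ℕ) (c : ι → X) (v : ℕ → X) (j : ι) (x : X) :
    Function.extend w (Function.update c j x) v =
      Function.update (Function.extend w c v) (w j) x := by
  funext i
  by_cases h : ∃ a, w a = i
  · obtain ⟨a, rfl⟩ := h
    rw [w.injective.extend_apply]
    by_cases h1 : a = j
    · subst h1
      simp
    · rw [Function.update_of_ne h1, Function.update_of_ne (w.injective.ne h1),
        w.injective.extend_apply]
  · rw [Function.extend_apply' _ _ _ h, Function.update_of_ne (fun e => h ⟨j, e.symm⟩),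
      Function.extend_apply' _ _ _ h]

theorem ev_ren {X : Type*} (m : X → X → X) (u : ℕ → X) (π : ℕ → ℕ) (g : Tr) :
    (g.sub fun i => Tr.lf (π i)).ev m u = g.ev m fun i => u (π i) := by
  induction g with
  | lf i => rfl
  | nd a b ha hb => simp only [Tr.sub, Tr.ev, ha, hb]

theorem lv_ren (π : ℕ → ℕ) (g : Tr) : (g.sub fun i => Tr.lf (π i)).lv = g.lv.map π := by
  induction g with
  | lf i => rfl
  | nd a b ha hb => simp only [Tr.sub, Tr.lv, ha, hb, List.map_append]

/-- The value of a monomial as a multilinear map in some of its variables. -/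
noncomputable def mm (k : Type u) [Field k] {F : Type u} [LieRing F] [LieAlgebra k F] {N : ℕ}
    {g : Tr} {w : Fin N ↪ ℕ} (hn : g.lv.Nodup) (hw : ∀ i, w i ∈ g.lv) (v : ℕ → F) :
    MultilinearMap k (fun _ : Fin N => F) F where
  toFun c := g.ev br (Function.extend w c v)
  map_update_add' c j x y := by
    simp only [ext_upd]
    exact (ev_lin (k := k) _ hn (hw j)).map_add x y
  map_update_smul' c j a x := by
    simp only [ext_upd]
    exact (ev_lin (k := k) _ hn (hw j)).map_smul a x

theorem sum_swap {k : Type u} [Field k] (r : Rel k) {W ι : Type*} [AddCommGroup W] [Module k W]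
    [Fintype ι] (φ : ι → Tr → Tr → W) :
    (r.sum fun e e' => ∑ τ, φ τ e e') = ∑ τ, r.sum (φ τ) := by
  simp only [Rel.sum, Finset.smul_sum]
  rw [Finset.sum_congr rfl fun T _ => Finset.sum_congr rfl fun e _ => Finset.sum_comm,
    Finset.sum_congr rfl fun T _ => Finset.sum_comm, Finset.sum_comm]

end SEb

open SEb in
theorem stSE (hKR : St_KR.{u}) (hF : St_F3U.{u}) (hD : St_DN.{u}) : St_SE.{u} := by
  intro k _ _ _ _ F _ _ f0 hB
  obtain ⟨r, hr, hrel⟩ := hKR k F f0 hB
  obtain ⟨n, N, hΘ⟩ := hF k F f0 hB r hr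
  refine ⟨N + 2, fun g w hn hw => ?_⟩
  have key : ∀ (v : ℕ → F) (c : Fin (N + 2) → F), (∀ i, c i ∈ LieAlgebra.derivedSeries k F n) →
      ∑ τ : Equiv.Perm (Fin (N + 2)), g.ev br (Function.extend w (fun i => c (τ i)) v) = 0 := by
    intro v c hc
    have hap : ∀ c : Fin (N + 2) → F,
        (∑ τ : Equiv.Perm (Fin (N + 2)), (mm k hn hw v).domDomCongr τ) c =
        ∑ τ : Equiv.Perm (Fin (N + 2)), g.ev br (Function.extend w (fun i => c (τ i)) v) :=
      fun c => by
        rw [sum_apply]
        rfl
    rw [← hap]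
    refine hΘ F _ (fun σ c => ?_) (fun u d => ?_) c hc
    · rw [hap, hap]
      exact Fintype.sum_equiv (Equiv.mulLeft σ) _ _ fun τ => rfl
    · have h1 : ∀ (τ : Equiv.Perm (Fin (N + 2))) (x y : F),
          Function.extend w (fun i => (Fin.cons x (Fin.cons y d : Fin (N + 1) → F) :
            Fin (N + 2) → F) (τ i)) v = Function.update (Function.update (Function.extend w
              (fun i => (Fin.cons 0 (Fin.cons 0 d : Fin (N + 1) → F) : Fin (N + 2) → F) (τ i)) v)
              (w (τ.symm 0)) x) (w (τ.symm 1)) y := fun τ x y => by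
        rw [← ext_upd, ← ext_upd]
        congr 1
        funext i
        obtain ⟨j, rfl⟩ := τ.symm.surjective i
        simp only [Function.update_apply, Equiv.apply_symm_apply, EmbeddingLike.apply_eq_iff_eq]
        refine Fin.cases ?_ (fun j => Fin.cases ?_ (fun j => ?_) j) j
        · simp
        · simp
        · rw [if_neg (fun h => by simp [Fin.ext_iff] at h), if_neg (Fin.succ_ne_zero _)]
          rfl
      simp only [hap]
      rw [sum_swap]
      refine Finset.sum_eq_zero fun τ _ => Eq.trans ?_ (hrel g _ _ hn (hw _) (hw _)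
        (w.injective.ne (τ.symm.injective.ne Fin.zero_ne_one)) u (Function.extend w
          (fun i => (Fin.cons 0 (Fin.cons 0 d : Fin (N + 1) → F) : Fin (N + 2) → F) (τ i)) v))
      congr 1
      funext e e'
      rw [h1 τ (e.ev br u)]
  have hev : ∀ u : ℕ → F, pev k br u (∑ τ : Equiv.Perm (Fin (N + 2)),
      Finsupp.single (g.sub fun i => Tr.lf (τ.viaEmbedding w i)) (1 : k)) =
      ∑ τ : Equiv.Perm (Fin (N + 2)), g.ev br (fun i => u (τ.viaEmbedding w i)) := fun u => by
    rw [map_sum]
    exact Finset.sum_congr rfl fun τ _ => by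
      rw [pev, Finsupp.linearCombination_single, one_smul, ev_ren]
  intro u
  rw [← hev]
  refine hD k F f0 hB g.lv _ n hn (Submodule.sum_mem _ fun τ _ =>
    Finsupp.single_mem_supported k _ ?_) (fun v hv => ?_) u
  · change (g.sub _).lv.Perm g.lv
    rw [lv_ren]
    refine (List.subperm_of_subset (hn.map (τ.viaEmbedding w).injective) fun a ha => ?_
      ).perm_of_length_le (by simp)
    obtain ⟨b, hb, rfl⟩ := List.mem_map.1 ha
    by_cases h : b ∈ Set.range w
    · obtain ⟨j, rfl⟩ := h
      rw [Equiv.Perm.viaEmbedding_apply]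
      exact hw _
    · rwa [Equiv.Perm.viaEmbedding_apply_of_notMem _ _ _ h]
  · rw [hev, ← key v (fun i => v (w i)) fun i => hv _]
    refine Finset.sum_congr rfl fun τ _ => ?_
    congr 1
    funext b
    by_cases h : b ∈ Set.range w
    · obtain ⟨j, rfl⟩ := h
      rw [Equiv.Perm.viaEmbedding_apply, w.injective.extend_apply]
    · rw [Equiv.Perm.viaEmbedding_apply_of_notMem _ _ _ h, Function.extend_apply' _ _ _ h]

end Pool.Agent.Lib.EB
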