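import Pool.Agent.Lib.EB.Blue

/-!
The Young lemma for several columns.
-/

namespace Pool.Agent.Lib.EB

open Equiv

universe u

/-- The sign character or the trivial character. -/
def sgnSY {α : Type} [Fintype α] [DecidableEq α] (b : Bool) (τ : Perm α) : ℤ :=
  if b = true then ((Perm.sign τ : ℤˣ) : ℤ) else 1

theorem sgnSY_mul {α : Type} [Fintype α] [DecidableEq α] (b : Bool) (σ τ : Perm α) :
    sgnSY b (σ * τ) = sgnSY b σ * sgnSY b τ := by
  unfold sgnSY
  split_ifs <;> simp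

theorem sgnSY_via {t s : ℕ} (b : Bool) (τ : Perm (Fin t)) (B : Fin t ↪ Fin s) :
    sgnSY b (τ.viaEmbedding B) = sgnSY b τ := by
  unfold sgnSY
  split_ifs
  · unfold Perm.viaEmbedding
    rw [Perm.sign_extendDomain]
  · rfl

theorem viaSY_mul {α β : Type} (σ τ : Perm α) (B : α ↪ β) :
    (σ * τ).viaEmbedding B = σ.viaEmbedding B * τ.viaEmbedding B := by
  simp only [← Perm.viaEmbeddingHom_apply, map_mul]

theorem viaSY_one {α β : Type} (B : α ↪ β) : (1 : Perm α).viaEmbedding B = 1 := by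
  simp only [← Perm.viaEmbeddingHom_apply, map_one]

theorem viaSY_trans {α β γ : Type} (τ : Perm α) (B : α ↪ β) (A : β ↪ γ) :
    (τ.viaEmbedding B).viaEmbedding A = τ.viaEmbedding (B.trans A) := by
  ext x
  by_cases hx : x ∈ Set.range A
  · obtain ⟨y, rfl⟩ := hx
    rw [Perm.viaEmbedding_apply]
    by_cases hy : y ∈ Set.range B
    · obtain ⟨z, rfl⟩ := hy
      rw [Perm.viaEmbedding_apply]
      exact (Perm.viaEmbedding_apply τ (B.trans A) z).symm
    · rw [Perm.viaEmbedding_apply_of_notMem _ _ _ hy, Perm.viaEmbedding_apply_of_notMem]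
      rintro ⟨z, hz⟩
      exact hy ⟨z, A.injective hz⟩
  · rw [Perm.viaEmbedding_apply_of_notMem _ _ _ hx, Perm.viaEmbedding_apply_of_notMem]
    rintro ⟨z, hz⟩
    exact hx ⟨B z, hz⟩

/-- The real valued statement for `n` columns. -/
def RSY (n t : ℕ) : Prop :=
  ∃ N0 : ℕ, ∀ N, N0 ≤ N → ∀ Γ : (Fin n → Perm (Fin N)) → ℝ,
    (∀ (σ : Fin n → Perm (Fin N)) (B : Fin t ↪ Fin N) (ε : Fin n → Bool),
      ∑ τ : Fin n → Perm (Fin t), (∏ j, sgnSY (ε j) (τ j)) •
        Γ (fun j => σ j * (τ j).viaEmbedding B) = 0) → ∀ σ, Γ σ = 0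

theorem rsy_zero (t : ℕ) : RSY 0 t := by
  refine ⟨t, fun N hN Γ h σ => ?_⟩
  have := h σ (Fin.castLEEmb hN) (fun _ => false)
  simp only [Finset.univ_unique, Finset.sum_singleton, Finset.univ_eq_empty, Finset.prod_empty,
    one_smul] at this
  rw [← this]
  congr 1
  exact Subsingleton.elim _ _

theorem rsy_succ (hY : St_Y0) (n t : ℕ) (ih : RSY n t) : RSY (n + 1) t := by
  obtain ⟨s, hs⟩ := ih
  obtain ⟨N0, hN0⟩ := hY s
  refine ⟨N0, fun N hN Γ h σ => ?_⟩
  rw [← Fin.cons_self_tail σ]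
  generalize σ 0 = σ0
  generalize Fin.tail σ = σ'
  refine hN0 N hN (fun x => Γ (Fin.cons x σ')) ?_ σ0
  intro σ0 A b
  have key := hs s le_rfl (fun π => ∑ ρ : Perm (Fin s), sgnSY b ρ •
    Γ (Fin.cons (σ0 * ρ.viaEmbedding A) (fun j => σ' j * (π j).viaEmbedding A))) ?_ (fun _ => 1)
  · simp only [viaSY_one, mul_one] at key
    exact key
  intro π B ε
  set X := ∑ τ : Fin n → Perm (Fin t), (∏ j, sgnSY (ε j) (τ j)) • ∑ ρ : Perm (Fin s), sgnSY b ρ •
    Γ (Fin.cons (σ0 * ρ.viaEmbedding A)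
      (fun j => σ' j * (π j * (τ j).viaEmbedding B).viaEmbedding A)) with hX
  have h1 : ∀ τ0 : Perm (Fin t), X = ∑ ρ : Perm (Fin s), sgnSY b ρ •
      ∑ τ : Fin n → Perm (Fin t), (sgnSY b τ0 * ∏ j, sgnSY (ε j) (τ j)) •
        Γ (Fin.cons (σ0 * ρ.viaEmbedding A * τ0.viaEmbedding (B.trans A))
          (fun j => σ' j * (π j).viaEmbedding A * (τ j).viaEmbedding (B.trans A))) := by
    intro τ0
    rw [hX]
    simp only [Finset.smul_sum]
    rw [Finset.sum_comm]
    rw [← Equiv.sum_comp (Equiv.mulRight (τ0.viaEmbedding B))]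
    refine Finset.sum_congr rfl fun ρ _ => Finset.sum_congr rfl fun τ _ => ?_
    simp only [Equiv.coe_mulRight, sgnSY_mul, sgnSY_via, viaSY_mul, viaSY_trans, smul_smul,
      mul_assoc]
    congr 1
    ring
  have h2 : ∑ _τ0 : Perm (Fin t), X = 0 := by
    rw [Finset.sum_congr rfl fun τ0 _ => h1 τ0, Finset.sum_comm]
    refine Finset.sum_eq_zero fun ρ _ => ?_
    rw [← Finset.smul_sum]
    have := h (Fin.cons (σ0 * ρ.viaEmbedding A) (fun j => σ' j * (π j).viaEmbedding A))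
      (B.trans A) (Fin.cons b ε)
    rw [← (Fin.consEquiv fun _ : Fin (n + 1) => Perm (Fin t)).sum_comp,
      Fintype.sum_prod_type] at this
    rw [← smul_zero (sgnSY b ρ), ← this]
    congr 1
    refine Finset.sum_congr rfl fun τ0 _ => Finset.sum_congr rfl fun τ _ => ?_
    simp only [Fin.consEquiv_apply, Fin.prod_univ_succ, Fin.cons_zero, Fin.cons_succ]
    congr 2
    funext j
    refine Fin.cases ?_ (fun j => ?_) j <;> simp
  rw [Finset.sum_const, nsmul_eq_mul, mul_eq_zero] at h2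
  rcases h2 with h2 | h2
  · exact absurd h2 (by exact_mod_cast Finset.card_ne_zero.2 Finset.univ_nonempty)
  · exact h2

theorem rsy_all (hY : St_Y0) (n t : ℕ) : RSY n t := by
  induction n with
  | zero => exact rsy_zero t
  | succ n ih => exact rsy_succ hY n t ih

theorem sepSY (k : Type u) [Field k] [CharZero k] (W : Type u) [AddCommGroup W] [Module k W]
    (w : W) (h : ∀ φ : W →+ ℝ, φ w = 0) : w = 0 := by
  let _ : Module ℚ W := Module.compHom W (algebraMap ℚ k)
  rw [← Module.forall_dual_apply_eq_zero_iff ℚ w]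
  intro φ
  have := h ((Rat.castHom ℝ).toAddMonoidHom.comp φ.toAddMonoidHom)
  simpa using this

theorem stSY (hY : St_Y0) : St_SY.{u} := by
  intro k _ _ J _ _ t
  obtain ⟨N0, hN0⟩ := rsy_all hY (Fintype.card J) t
  refine ⟨N0, fun N hN W _ _ Γ h σ => sepSY k W _ fun φ => ?_⟩
  let e : J ≃ Fin (Fintype.card J) := Fintype.equivFin J
  have key := hN0 N hN (fun x => φ (Γ fun j => x (e j))) ?_ (fun i => σ (e.symm i))
  · simpa using key
  intro σ B ε
  have := congrArg φ (h (fun j => σ (e j)) B (fun j => ε (e j)))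
  rw [map_sum, map_zero] at this
  rw [← this, ← (Equiv.arrowCongr e (Equiv.refl (Perm (Fin t)))).sum_comp]
  refine Finset.sum_congr rfl fun τ _ => ?_
  rw [map_zsmul, ← e.prod_comp]
  simp [sgnSY]

end Pool.Agent.Lib.EB
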