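import Pool.Agent.Lib.EB.Blue

/-! A function on a large symmetric group killed by all symmetrizers and all alternators of
`s` points is zero. -/

namespace Pool.Agent.Lib.EB

open Equiv Finset

namespace Y0

variable {X : Type} [Fintype X] [DecidableEq X]

/-- killed by all symmetrizers and alternators -/
def H (s : ℕ) (v : Perm X → ℝ) : Prop :=
  ∀ (σ : Perm X) (B : Fin s ↪ X) (b : Bool), ∑ τ : Perm (Fin s),
    (if b = true then ((Perm.sign τ : ℤˣ) : ℤ) else 1) • v (σ * τ.viaEmbedding B) = 0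

/-- invariant under the permutations that preserve the colouring -/
def Inv (c : X → X) (v : Perm X → ℝ) : Prop :=
  ∀ t : Perm X, (∀ x, c (t x) = c x) → ∀ σ, v (σ * t) = v σ

/-- the size of a colour class -/
def sz (c : X → X) (κ : X) : ℕ := (univ.filter fun x => c x = κ).card

omit [Fintype X] [DecidableEq X] in
theorem via_conj {s : ℕ} (τ : Perm (Fin s)) (B : Fin s ↪ X) (g : Perm X) :
    τ.viaEmbedding B * g = g * τ.viaEmbedding (B.trans g⁻¹.toEmbedding) := by
  ext x
  by_cases h : g x ∈ Set.range B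
  · obtain ⟨i, hi⟩ := h
    have e : x = (B.trans g⁻¹.toEmbedding) i := by simp [hi]
    rw [Perm.mul_apply, Perm.mul_apply, ← hi, Perm.viaEmbedding_apply, e, Perm.viaEmbedding_apply]
    simp
  · rw [Perm.mul_apply, Perm.mul_apply, Perm.viaEmbedding_apply_of_notMem _ _ _ h,
      Perm.viaEmbedding_apply_of_notMem]
    rintro ⟨i, hi⟩
    exact h ⟨i, by rw [← hi]; simp⟩

omit [Fintype X] [DecidableEq X] in
theorem H.sum {s : ℕ} {v : Perm X → ℝ} (h : H s v) (R : Finset X) (g : X → Perm X) :
    H s fun σ => ∑ a ∈ R, v (σ * g a) := by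
  intro σ B b
  simp only [Finset.smul_sum]
  rw [Finset.sum_comm]
  refine Finset.sum_eq_zero fun a _ => ?_
  simp only [mul_assoc, via_conj]
  simp only [← mul_assoc]
  exact h _ _ b

theorem sym {s : ℕ} {v : Perm X → ℝ} (h : H s v) {c : X → X} (hc : Inv c v) {κ : X}
    (hs : s ≤ sz c κ) (σ : Perm X) : v σ = 0 := by
  obtain ⟨B, hB⟩ := Function.Embedding.exists_of_card_le_finset (α := Fin s)
    (s := univ.filter fun x => c x = κ) (by simpa [sz] using hs)
  have hB' : ∀ i, c (B i) = κ := fun i => by simpa using hB ⟨i, rfl⟩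
  have e : ∀ τ : Perm (Fin s), v (σ * τ.viaEmbedding B) = v σ := fun τ => hc _ (fun x => by
    by_cases hx : x ∈ Set.range B
    · obtain ⟨i, rfl⟩ := hx
      rw [Perm.viaEmbedding_apply, hB', hB']
    · rw [Perm.viaEmbedding_apply_of_notMem _ _ _ hx]) σ
  have := h σ B false
  simp only [e, Bool.false_eq_true, if_false, one_smul, Finset.sum_const, nsmul_eq_mul,
    mul_eq_zero, Nat.cast_eq_zero, Finset.card_univ, Fintype.card_ne_zero, false_or] at this
  exact this

theorem inv_step {v : Perm X → ℝ} {c : X → X} (hc : Inv c v) (b κ : X) :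
    Inv (Function.update c b κ)
      fun σ => ∑ a with Function.update c b κ a = κ, v (σ * swap a b) := by
  intro t ht σ
  have sw : ∀ a, Function.update c b κ a = κ → ∀ x,
      Function.update c b κ (swap a b x) = Function.update c b κ x := fun a ha x => by
    rw [swap_apply_def]
    split_ifs with h1 h2
    · rw [h1, ha, Function.update_self]
    · rw [h2, ha, Function.update_self]
    · rfl
  refine Finset.sum_equiv t (fun a => by simp only [mem_filter, mem_univ, true_and, ht]) ?_
  intro a ha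
  have ha' : Function.update c b κ a = κ := (mem_filter.1 ha).2
  have e : σ * t * swap a b = σ * swap (t a) b * (swap (t a) b * t * swap a b) := by
    simp only [mul_assoc, swap_mul_self_mul]
  have fb : (swap (t a) b * t * swap a b) b = b := by simp
  rw [e]
  refine hc _ (fun x => ?_) _
  by_cases hx : x = b
  · rw [hx, fb]
  have h1 : (swap (t a) b * t * swap a b) x ≠ b := fun h => hx (Equiv.injective _ (h.trans fb.symm))
  rw [← Function.update_of_ne h1 κ c, ← Function.update_of_ne hx κ c, Perm.mul_apply,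
    Perm.mul_apply, sw _ ((ht a).trans ha'), ht, sw _ ha']

theorem sz_update (c : X → X) (b κ l : X) : (sz (Function.update c b κ) l : ℤ) =
    sz c l + (if l = κ then 1 else 0) - if l = c b then 1 else 0 := by
  simp only [sz, card_filter, Nat.cast_sum, Nat.cast_ite, Nat.cast_one, Nat.cast_zero]
  rw [← add_sum_erase _ _ (mem_univ b), ← add_sum_erase _ _ (mem_univ b), Function.update_self,
    sum_congr rfl fun x hx => by rw [Function.update_of_ne (ne_of_mem_erase hx)]]
  simp only [eq_comm (a := l)]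
  ring

/-- the potential -/
def pot (c : X → X) : ℤ := ∑ l, (sz c l : ℤ) ^ 2

theorem pot_lt {c : X → X} {b κ : X} (h : c b ≠ κ) (hs : sz c (c b) ≤ sz c κ) :
    pot c < pot (Function.update c b κ) := by
  have e : ∀ l, (sz (Function.update c b κ) l : ℤ) ^ 2 = (sz c l : ℤ) ^ 2 +
      (if l = κ then 2 * (sz c l : ℤ) + 1 else 0) + if l = c b then 1 - 2 * (sz c l : ℤ) else 0 := by
    intro l
    rw [sz_update]
    split_ifs with h1 h2
    · exact absurd (h2.symm.trans h1) h
    all_goals ring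
  simp only [pot, e, sum_add_distrib, sum_ite_eq', mem_univ, if_true]
  omega

omit [Fintype X] in
theorem via_dec {j : ℕ} (B : Fin (j + 1) ↪ X) (p : Fin (j + 1)) (e : Perm (Fin j)) :
    (Perm.decomposeFin.symm (p, e)).viaEmbedding B =
      swap (B 0) (B p) * e.viaEmbedding ((Fin.succEmb j).trans B) := by
  ext x
  rw [Perm.mul_apply]
  by_cases h : x ∈ Set.range B
  · obtain ⟨i, rfl⟩ := h
    rw [Perm.viaEmbedding_apply]
    refine Fin.cases ?_ (fun i => ?_) i
    · rw [Perm.decomposeFin_symm_apply_zero, Perm.viaEmbedding_apply_of_notMem, swap_apply_left]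
      rintro ⟨i, hi⟩
      exact Fin.succ_ne_zero i (B.injective hi)
    · have : e.viaEmbedding ((Fin.succEmb j).trans B) (B i.succ) = B (e i).succ :=
        Perm.viaEmbedding_apply e _ i
      rw [Perm.decomposeFin_symm_apply_succ, this, B.injective.swap_apply]
  · rw [Perm.viaEmbedding_apply_of_notMem _ _ _ h, Perm.viaEmbedding_apply_of_notMem,
      swap_apply_of_ne_of_ne (fun k => h ⟨_, k.symm⟩) fun k => h ⟨_, k.symm⟩]
    rintro ⟨i, hi⟩
    exact h ⟨_, hi⟩

/-- the alternator -/
noncomputable def alt (v : Perm X → ℝ) {j : ℕ} (B : Fin j ↪ X) (σ : Perm X) : ℝ :=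
  ∑ τ : Perm (Fin j), ((Perm.sign τ : ℤˣ) : ℤ) • v (σ * (τ.viaEmbedding B)⁻¹)

omit [Fintype X] in
theorem alt_succ (v : Perm X → ℝ) {j : ℕ} (B : Fin (j + 1) ↪ X) (σ : Perm X) :
    alt v B σ = ∑ e : Perm (Fin j), ((Perm.sign e : ℤˣ) : ℤ) •
      (v (σ * (e.viaEmbedding ((Fin.succEmb j).trans B))⁻¹) - ∑ i : Fin j,
        v (σ * (e.viaEmbedding ((Fin.succEmb j).trans B))⁻¹ * swap (B 0) (B i.succ))) := by
  rw [alt, ← Perm.decomposeFin.symm.sum_comp, Fintype.sum_prod_type_right]
  refine sum_congr rfl fun e _ => ?_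
  rw [Fin.sum_univ_succ, smul_sub, smul_sum, sub_eq_add_neg, ← sum_neg_distrib]
  simp only [via_dec, Perm.decomposeFin.symm_sign, mul_inv_rev, swap_inv, mul_assoc]
  simp [Fin.succ_ne_zero, ← Perm.one_def]

theorem skew {v : Perm X → ℝ} {c : X → X}
    (hr : ∀ b κ, c b ≠ κ → sz c (c b) ≤ sz c κ → ∀ σ, ∑ a with c a = κ, v (σ * swap a b) = -v σ)
    (j : ℕ) : ∀ T : Finset X, T.card = j → (∀ κ ∈ T, 0 < sz c κ) →
      (∀ B : Fin j ↪ X, (∀ i, c (B i) ∈ T) → (Function.Injective fun i => c (B i)) →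
        ∀ σ, alt v B σ = 0) → ∀ σ, v σ = 0 := by
  induction j with
  | zero =>
    intro T _ _ h σ
    have := h (Function.Embedding.ofIsEmpty) (fun i => i.elim0) (fun i => i.elim0) σ
    have e : ∀ B : Fin 0 ↪ X, (1 : Perm (Fin 0)).viaEmbedding B = 1 := fun B =>
      (Perm.viaEmbeddingHom B).map_one
    rw [alt, Fintype.sum_subsingleton _ 1, e] at this
    simpa using this
  | succ j ih =>
    intro T hT hp h
    obtain ⟨κ, hκ, hm⟩ := T.exists_max_image (sz c) (card_pos.1 (by omega))
    refine ih (T.erase κ) (by rw [card_erase_of_mem hκ, hT]; rfl)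
      (fun l hl => hp l (mem_of_mem_erase hl)) fun B hB hi σ => ?_
    have key : ∀ a, c a = κ → ∑ e : Perm (Fin j), ((Perm.sign e : ℤˣ) : ℤ) •
        (v (σ * (e.viaEmbedding B)⁻¹) - ∑ i, v (σ * (e.viaEmbedding B)⁻¹ * swap a (B i))) = 0 := by
      intro a ha
      have hi' : Function.Injective fun i => c ((Fin.cons a B : Fin (j + 1) → X) i) := by
        have : (fun i => c ((Fin.cons a B : Fin (j + 1) → X) i)) =
            Fin.cons (c a) fun i => c (B i) := by
          funext i; refine Fin.cases rfl (fun _ => rfl) i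
        rw [this, Fin.cons_injective_iff]
        exact ⟨fun ⟨i, e⟩ => ne_of_mem_erase (hB i) (e.trans ha), hi⟩
      have := h ⟨Fin.cons a B, Function.Injective.of_comp (f := c) hi'⟩
        (fun i => Fin.cases (by exact ha ▸ hκ) (fun i => mem_of_mem_erase (hB i)) i) hi' σ
      rw [alt_succ] at this
      exact this
    have h1 := sum_eq_zero (s := univ.filter fun a => c a = κ) fun a ha => key a (mem_filter.1 ha).2
    rw [sum_comm] at h1
    have h2 : ∀ ρ : Perm X, ∑ a with c a = κ, (v ρ - ∑ i, v (ρ * swap a (B i))) =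
        ((sz c κ : ℝ) + j) * v ρ := fun ρ => by
      rw [sum_sub_distrib, sum_comm, sum_congr rfl fun i _ => hr (B i) κ (ne_of_mem_erase (hB i))
        (hm _ (mem_of_mem_erase (hB i))) ρ]
      simp only [sum_const, card_univ, Fintype.card_fin, nsmul_eq_mul, sz]
      ring
    simp only [← smul_sum, h2, ← mul_smul_comm, ← mul_sum] at h1
    have h3 : (0 : ℝ) < sz c κ := by exact_mod_cast hp κ hκ
    exact (mul_eq_zero.1 h1).resolve_left (by positivity)

theorem main {s : ℕ} (hN : s * s + 1 ≤ Fintype.card X) (Γ : Perm X → ℝ) (hΓ : H s Γ)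
    (σ : Perm X) : Γ σ = 0 := by
  classical
  by_contra hne
  obtain ⟨c, hc, hm⟩ := (univ.filter fun c : X → X =>
      ∃ v, H s v ∧ Inv c v ∧ ∃ σ, v σ ≠ 0).exists_max_image pot
    ⟨id, mem_filter.2 ⟨mem_univ _, Γ, hΓ, fun t ht σ => by
      rw [show t = 1 from Equiv.ext ht, mul_one], σ, hne⟩⟩
  obtain ⟨v, h1, h2, ρ, h3⟩ := (mem_filter.1 hc).2
  have hr : ∀ b κ, c b ≠ κ → sz c (c b) ≤ sz c κ → ∀ σ,
      ∑ a with c a = κ, v (σ * swap a b) = -v σ := by
    intro b κ hb hs σ
    by_contra hh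
    refine absurd (hm _ (mem_filter.2 ⟨mem_univ _, _, h1.sum _ _, inv_step h2 b κ, σ, fun h => hh ?_⟩))
      (not_le.2 (pot_lt hb hs))
    have e : (univ.filter fun a => Function.update c b κ a = κ) =
        insert b (univ.filter fun a => c a = κ) := by
      ext a
      by_cases ha : a = b <;> simp [ha]
    rw [e, sum_insert (by simpa using hb), swap_self] at h
    exact eq_neg_of_add_eq_zero_right h
  have hlt : ∀ κ, sz c κ ≤ s := fun κ => by
    by_contra hh
    exact h3 (sym h1 h2 (not_le.1 hh).le ρ)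
  have hcard := card_le_mul_card_image (f := c) univ s fun κ _ => hlt κ
  obtain ⟨T, hT, hT'⟩ := exists_subset_card_eq (s := univ.image c) (n := s) (by
    by_contra hh
    have := Nat.mul_le_mul_left s (not_le.1 hh).le
    rw [card_univ] at hcard
    omega)
  refine h3 (skew hr s T hT' (fun κ hκ => ?_) (fun B _ _ σ => ?_) ρ)
  · obtain ⟨x, -, hx⟩ := mem_image.1 (hT hκ)
    exact card_pos.2 ⟨x, mem_filter.2 ⟨mem_univ _, hx⟩⟩
  · have := h1 σ B true
    rw [← Equiv.sum_comp (Equiv.inv (Perm (Fin s)))] at this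
    have e : ∀ τ : Perm (Fin s), τ⁻¹.viaEmbedding B = (τ.viaEmbedding B)⁻¹ := fun τ =>
      (Perm.viaEmbeddingHom B).map_inv τ
    simp only [if_true, Equiv.inv_apply, Perm.sign_inv, e] at this
    exact this

end Y0

theorem stY0 : St_Y0 := fun s =>
  ⟨s * s + 1, fun _ hN Γ h σ => Y0.main (by simpa using hN) Γ h σ⟩

end Pool.Agent.Lib.EB
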