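import Pool.Agent.Lib.EB.Blue

/-!
Existence of a minimal non solvable variety.
-/

namespace Pool.Agent.Lib.EB

universe u

namespace Zorn

section general
variable {k : Type u} [Field k]

theorem ev_congr {X : Type*} (m : X → X → X) (b : Tr) (u u' : ℕ → X)
    (h : ∀ i ∈ b.lv, u i = u' i) : b.ev m u = b.ev m u' := by
  induction b with
  | lf i => exact h i (by simp [Tr.lv])
  | nd a b iha ihb =>
    simp only [Tr.ev]
    rw [iha fun i hi => h i (by simp [Tr.lv, hi]), ihb fun i hi => h i (by simp [Tr.lv, hi])]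

theorem ev_sub {X : Type*} (m : X → X → X) (u : ℕ → X) (g : ℕ → Tr) (b : Tr) :
    (b.sub g).ev m u = b.ev m fun j => (g j).ev m u := by
  induction b with
  | lf i => rfl
  | nd a b iha ihb => simp only [Tr.sub, Tr.ev, iha, ihb]

theorem lv_sub (g : ℕ → Tr) (b : Tr) : (b.sub g).lv = b.lv.flatMap fun j => (g j).lv := by
  induction b with
  | lf i => simp [Tr.sub, Tr.lv]
  | nd a b iha ihb => simp [Tr.sub, Tr.lv, iha, ihb]

theorem pev_single {X : Type*} [AddCommGroup X] [Module k X] (m : X → X → X) (u : ℕ → X)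
    (b : Tr) (c : k) : pev k m u (Finsupp.single b c) = c • b.ev m u := by
  simp [pev]

theorem pev_map {X : Type*} [AddCommGroup X] [Module k X] (m : X → X → X) (u : ℕ → X)
    (g : ℕ → Tr) (f : Tr →₀ k) :
    pev k m u (Finsupp.mapDomain (Tr.sub g) f) = pev k m (fun j => (g j).ev m u) f := by
  induction f using Finsupp.induction_linear with
  | zero => simp
  | add f f' h h' => simp only [Finsupp.mapDomain_add, map_add, h, h']
  | single b c => rw [Finsupp.mapDomain_single, pev_single, pev_single, ev_sub]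

theorem PL_ind {l : List ℕ} {P : (Tr →₀ k) → Prop} (h0 : P 0)
    (hadd : ∀ f g, P f → P g → P (f + g))
    (hs : ∀ (b : Tr) (c : k), b.lv.Perm l → P (Finsupp.single b c)) {f : Tr →₀ k}
    (hf : f ∈ PL k l) : P f := by
  unfold PL at hf
  rw [Finsupp.supported_eq_span_single] at hf
  have key : ∀ c : k, P (c • f) := by
    induction hf using Submodule.span_induction with
    | mem x hx =>
      obtain ⟨b, hb, rfl⟩ := hx
      intro c
      rw [Finsupp.smul_single]
      exact hs b _ hb
    | zero => intro c; simpa using h0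
    | add x y _ _ hx hy => intro c; rw [smul_add]; exact hadd _ _ (hx c) (hy c)
    | smul a x _ hx => intro c; rw [smul_smul]; exact hx _
  simpa using key 1

variable {L L' : Type*} [LieRing L] [LieAlgebra k L] [LieRing L'] [LieAlgebra k L']

theorem map_ev (φ : L →ₗ⁅k⁆ L') (u : ℕ → L) (b : Tr) :
    φ (b.ev br u) = b.ev br fun i => φ (u i) := by
  induction b with
  | lf i => rfl
  | nd a b iha ihb => simp only [Tr.ev, br, LieHom.map_lie] at *; rw [iha, ihb]

theorem map_pev (φ : L →ₗ⁅k⁆ L') (u : ℕ → L) (f : Tr →₀ k) :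
    φ (pev k br u f) = pev k br (fun i => φ (u i)) f := by
  induction f using Finsupp.induction_linear with
  | zero => simp
  | add f f' h h' => simp only [map_add, h, h']
  | single b c => rw [pev_single, pev_single, map_smul, map_ev]

omit [LieAlgebra k L] in
theorem lie_ev (v : L) (u : ℕ → L) (b : Tr) (hb : b.lv.Nodup) :
    ⁅v, b.ev br u⁆ = (b.lv.map fun s => b.ev br (Function.update u s ⁅v, u s⁆)).sum := by
  induction b with
  | lf i => simp [Tr.ev, Tr.lv]
  | nd a b iha ihb =>
    simp only [Tr.lv] at hb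
    rw [List.nodup_append] at hb
    obtain ⟨ha, hb, hab⟩ := hb
    simp only [Tr.ev, Tr.lv, List.map_append, List.sum_append]
    have e1 : (a.lv.map fun s => br (a.ev br (Function.update u s ⁅v, u s⁆))
        (b.ev br (Function.update u s ⁅v, u s⁆))).sum = ⁅⁅v, a.ev br u⁆, b.ev br u⁆ := by
      rw [iha ha]
      have : ∀ l : List ℕ, (∀ s ∈ l, s ∈ a.lv) →
          (l.map fun s => br (a.ev br (Function.update u s ⁅v, u s⁆))
          (b.ev br (Function.update u s ⁅v, u s⁆))).sum =
          ⁅(l.map fun s => a.ev br (Function.update u s ⁅v, u s⁆)).sum, b.ev br u⁆ := by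
        intro l hl
        induction l with
        | nil => simp
        | cons s l ih =>
          simp only [List.map_cons, List.sum_cons, add_lie]
          rw [ih fun t ht => hl t (by simp [ht])]
          congr 1
          rw [ev_congr br b (Function.update u s ⁅v, u s⁆) u]
          · rfl
          · intro i hi
            exact Function.update_of_ne (fun e => hab s (hl s (by simp)) i hi e.symm) _ _
      exact this _ fun s hs => hs
    have e2 : (b.lv.map fun s => br (a.ev br (Function.update u s ⁅v, u s⁆))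
        (b.ev br (Function.update u s ⁅v, u s⁆))).sum = ⁅a.ev br u, ⁅v, b.ev br u⁆⁆ := by
      rw [ihb hb]
      have : ∀ l : List ℕ, (∀ s ∈ l, s ∈ b.lv) →
          (l.map fun s => br (a.ev br (Function.update u s ⁅v, u s⁆))
          (b.ev br (Function.update u s ⁅v, u s⁆))).sum =
          ⁅a.ev br u, (l.map fun s => b.ev br (Function.update u s ⁅v, u s⁆)).sum⁆ := by
        intro l hl
        induction l with
        | nil => simp
        | cons s l ih =>
          simp only [List.map_cons, List.sum_cons, lie_add]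
          rw [ih fun t ht => hl t (by simp [ht])]
          congr 1
          rw [ev_congr br a (Function.update u s ⁅v, u s⁆) u]
          · rfl
          · intro i hi
            exact Function.update_of_ne (fun e => hab i hi s (hl s (by simp)) e) _ _
      exact this _ fun s hs => hs
    rw [e1, e2]
    exact leibniz_lie v _ _

theorem lie_pev (v : L) (u : ℕ → L) {l : List ℕ} (hl : l.Nodup) {f : Tr →₀ k} (hf : f ∈ PL k l) :
    ⁅v, pev k br u f⁆ = (l.map fun s => pev k br (Function.update u s ⁅v, u s⁆) f).sum := by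
  refine PL_ind (P := fun f => ⁅v, pev k br u f⁆ =
    (l.map fun s => pev k br (Function.update u s ⁅v, u s⁆) f).sum) ?_ ?_ ?_ hf
  · simp
  · intro f g hf hg
    simp only [map_add, lie_add, hf, hg, List.sum_map_add]
  · intro b c hb
    simp only [pev_single, lie_smul]
    rw [lie_ev v u b (hb.nodup_iff.2 hl), List.smul_sum, List.map_map]
    exact (hb.map _).sum_eq

omit [LieAlgebra k L] in
theorem ev_upd_add (u : ℕ → L) (s : ℕ) (y z : L) (b : Tr) (hb : b.lv.Nodup) (hs : s ∈ b.lv) :
    b.ev br (Function.update u s (y + z)) =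
      b.ev br (Function.update u s y) + b.ev br (Function.update u s z) := by
  induction b with
  | lf i =>
    simp only [Tr.lv, List.mem_singleton] at hs
    subst hs
    simp [Tr.ev]
  | nd a b iha ihb =>
    simp only [Tr.lv] at hb hs
    rw [List.nodup_append] at hb
    obtain ⟨ha, hb, hab⟩ := hb
    simp only [Tr.ev, br]
    rcases List.mem_append.1 hs with h | h
    · have e : ∀ w, b.ev br (Function.update u s w) = b.ev br u := fun w =>
        ev_congr br b _ _ fun i hi => Function.update_of_ne (fun e => hab s h i hi e.symm) _ _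
      rw [iha ha h, e, e, e, add_lie]
    · have e : ∀ w, a.ev br (Function.update u s w) = a.ev br u := fun w =>
        ev_congr br a _ _ fun i hi => Function.update_of_ne (fun e => hab i hi s h e) _ _
      rw [ihb hb h, e, e, e, lie_add]

theorem ev_upd_smul (u : ℕ → L) (s : ℕ) (c : k) (y : L) (b : Tr) (hb : b.lv.Nodup)
    (hs : s ∈ b.lv) :
    b.ev br (Function.update u s (c • y)) = c • b.ev br (Function.update u s y) := by
  induction b with
  | lf i =>
    simp only [Tr.lv, List.mem_singleton] at hs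
    subst hs
    simp [Tr.ev]
  | nd a b iha ihb =>
    simp only [Tr.lv] at hb hs
    rw [List.nodup_append] at hb
    obtain ⟨ha, hb, hab⟩ := hb
    simp only [Tr.ev, br]
    rcases List.mem_append.1 hs with h | h
    · have e : ∀ w, b.ev br (Function.update u s w) = b.ev br u := fun w =>
        ev_congr br b _ _ fun i hi => Function.update_of_ne (fun e => hab s h i hi e.symm) _ _
      rw [iha ha h, e, e, smul_lie]
    · have e : ∀ w, a.ev br (Function.update u s w) = a.ev br u := fun w =>
        ev_congr br a _ _ fun i hi => Function.update_of_ne (fun e => hab i hi s h e) _ _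
      rw [ihb hb h, e, e, lie_smul]

theorem pev_upd_add (u : ℕ → L) {l : List ℕ} (hl : l.Nodup) {f : Tr →₀ k} (hf : f ∈ PL k l)
    {s : ℕ} (hs : s ∈ l) (y z : L) :
    pev k br (Function.update u s (y + z)) f =
      pev k br (Function.update u s y) f + pev k br (Function.update u s z) f := by
  refine PL_ind (P := fun f => pev k br (Function.update u s (y + z)) f =
      pev k br (Function.update u s y) f + pev k br (Function.update u s z) f) ?_ ?_ ?_ hf
  · simp
  · intro f g hf hg
    simp only [map_add, hf, hg]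
    abel
  · intro b c hb
    simp only [pev_single]
    rw [ev_upd_add u s y z b (hb.nodup_iff.2 hl) (hb.mem_iff.2 hs), smul_add]

theorem pev_upd_smul (u : ℕ → L) {l : List ℕ} (hl : l.Nodup) {f : Tr →₀ k} (hf : f ∈ PL k l)
    {s : ℕ} (hs : s ∈ l) (c : k) (y : L) :
    pev k br (Function.update u s (c • y)) f = c • pev k br (Function.update u s y) f := by
  refine PL_ind (P := fun f => pev k br (Function.update u s (c • y)) f =
      c • pev k br (Function.update u s y) f) ?_ ?_ ?_ hf
  · simp
  · intro f g hf hg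
    simp only [map_add, hf, hg, smul_add]
  · intro b c' hb
    simp only [pev_single]
    rw [ev_upd_smul u s c y b (hb.nodup_iff.2 hl) (hb.mem_iff.2 hs), smul_comm]

theorem pev_dep (u u' : ℕ → L) {l : List ℕ} {f : Tr →₀ k} (hf : f ∈ PL k l)
    (h : ∀ i ∈ l, u i = u' i) : pev k br u f = pev k br u' f := by
  refine PL_ind (P := fun f => pev k br u f = pev k br u' f) ?_ ?_ ?_ hf
  · simp
  · intro f g hf hg
    simp only [map_add, hf, hg]
  · intro b c hb
    simp only [pev_single]
    rw [ev_congr br b u u' fun i hi => h i (hb.mem_iff.1 hi)]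

/-- Values on arbitrary arguments are combinations of values on a spanning set. -/
theorem pev_mem (A : Set L) (hA : Submodule.span k A = ⊤) {l : List ℕ} (hl : l.Nodup)
    {f : Tr →₀ k} (hf : f ∈ PL k l) (W : Submodule k L)
    (hW : ∀ u : ℕ → L, (∀ i ∈ l, u i ∈ A) → pev k br u f ∈ W) (u : ℕ → L) :
    pev k br u f ∈ W := by
  classical
  have key : ∀ S : List ℕ, (∀ s ∈ S, s ∈ l) → ∀ u : ℕ → L, (∀ i ∈ l, i ∉ S → u i ∈ A) →
      pev k br u f ∈ W := by
    intro S
    induction S with
    | nil => intro _ u hu; exact hW u fun i hi => hu i hi (by simp)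
    | cons s S ih =>
      intro hS u hu
      have hs : s ∈ l := hS s (by simp)
      have h1 : ∀ y ∈ Submodule.span k A, pev k br (Function.update u s y) f ∈ W := by
        intro y hy
        induction hy using Submodule.span_induction with
        | mem y hy =>
          refine ih (fun t ht => hS t (by simp [ht])) _ fun i hi hiS => ?_
          by_cases e : i = s
          · subst e; simpa using hy
          · rw [Function.update_of_ne e]
            exact hu i hi (by simp [e, hiS])
        | zero =>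
          have := pev_upd_smul u hl hf hs (0 : k) 0
          rw [zero_smul, zero_smul] at this
          rw [this]; exact W.zero_mem
        | add y z _ _ hy hz => rw [pev_upd_add u hl hf hs]; exact W.add_mem hy hz
        | smul c y _ hy => rw [pev_upd_smul u hl hf hs]; exact W.smul_mem c hy
      have := h1 (u s) (by rw [hA]; trivial)
      rwa [Function.update_eq_self] at this
  exact key l (fun s hs => hs) u fun i hi hi' => (hi' hi).elim

end general

variable (k : Type u) [Field k]

/-- The free Lie algebra. -/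
abbrev Fr : Type u := FreeLieAlgebra k ℕ

/-- The free generators. -/
noncomputable def xs : ℕ → Fr k := FreeLieAlgebra.of k

theorem span_tr : Submodule.span k (Set.range fun b : Tr => b.ev br (xs k)) = ⊤ := by
  set S := Submodule.span k (Set.range fun b : Tr => b.ev br (xs k)) with hS
  have hlie : ∀ a ∈ S, ∀ b ∈ S, ⁅a, b⁆ ∈ S := by
    intro a ha b hb
    induction ha using Submodule.span_induction with
    | mem a ha =>
      induction hb using Submodule.span_induction with
      | mem b hb =>
        obtain ⟨s, rfl⟩ := ha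
        obtain ⟨t, rfl⟩ := hb
        exact Submodule.subset_span ⟨Tr.nd s t, rfl⟩
      | zero => simp
      | add y z _ _ hy hz => rw [lie_add]; exact S.add_mem hy hz
      | smul c y _ hy => rw [lie_smul]; exact S.smul_mem c hy
    | zero => simp
    | add y z _ _ hy hz => rw [add_lie]; exact S.add_mem hy hz
    | smul c y _ hy => rw [smul_lie]; exact S.smul_mem c hy
  let K : LieSubalgebra k (Fr k) := { S with lie_mem' := fun {a b} ha hb => hlie a ha b hb }
  have hx : ∀ i, xs k i ∈ K := fun i => Submodule.subset_span ⟨Tr.lf i, rfl⟩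
  let φ : Fr k →ₗ⁅k⁆ K := FreeLieAlgebra.lift k fun i => ⟨xs k i, hx i⟩
  have e : K.incl.comp φ = LieHom.id := by
    refine FreeLieAlgebra.hom_ext fun i => ?_
    simp [φ, xs]
  rw [eq_top_iff]
  intro a _
  have : K.incl (φ a) = a := LieHom.congr_fun e a
  rw [← this]
  exact (φ a).2

/-- The span of the values of a set of polynomials. -/
noncomputable def Iv (T : Set (Tr →₀ k)) : Submodule k (Fr k) :=
  Submodule.span k {y | ∃ f ∈ T, ∃ u : ℕ → Fr k, y = pev k br u f}

/-- Sets of multilinear polynomials. -/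
def Mu (T : Set (Tr →₀ k)) : Prop := ∀ f ∈ T, ∃ l : List ℕ, l.Nodup ∧ f ∈ PL k l

variable {k}

theorem Iv_mono {T T' : Set (Tr →₀ k)} (h : T ⊆ T') : Iv k T ≤ Iv k T' :=
  Submodule.span_mono fun _ ⟨f, hf, u, e⟩ => ⟨f, h hf, u, e⟩

theorem Iv_lie {T : Set (Tr →₀ k)} (hT : Mu k T) (v : Fr k) {y : Fr k} (hy : y ∈ Iv k T) :
    ⁅v, y⁆ ∈ Iv k T := by
  induction hy using Submodule.span_induction with
  | mem y hy =>
    obtain ⟨f, hf, u, rfl⟩ := hy
    obtain ⟨l, hl, hfl⟩ := hT f hf
    rw [lie_pev v u hl hfl]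
    refine list_sum_mem fun z hz => ?_
    obtain ⟨s, _, rfl⟩ := List.mem_map.1 hz
    exact Submodule.subset_span ⟨f, hf, _, rfl⟩
  | zero => simp
  | add y z _ _ hy hz => rw [lie_add]; exact (Iv k T).add_mem hy hz
  | smul c y _ hy => rw [lie_smul]; exact (Iv k T).smul_mem c hy

theorem Iv_map {T : Set (Tr →₀ k)} (φ : Fr k →ₗ⁅k⁆ Fr k) {y : Fr k} (hy : y ∈ Iv k T) :
    φ y ∈ Iv k T := by
  induction hy using Submodule.span_induction with
  | mem y hy =>
    obtain ⟨f, hf, u, rfl⟩ := hy
    rw [map_pev]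
    exact Submodule.subset_span ⟨f, hf, _, rfl⟩
  | zero => simp
  | add y z _ _ hy hz => rw [map_add]; exact (Iv k T).add_mem hy hz
  | smul c y _ hy => rw [map_smul]; exact (Iv k T).smul_mem c hy

theorem Iv_chain {c : Set (Set (Tr →₀ k))} (hc : IsChain (· ⊆ ·) c) (hne : c.Nonempty)
    {y : Fr k} (hy : y ∈ Iv k (⋃₀ c)) : ∃ T ∈ c, y ∈ Iv k T := by
  induction hy using Submodule.span_induction with
  | mem y hy =>
    obtain ⟨f, ⟨T, hT, hf⟩, u, rfl⟩ := hy
    exact ⟨T, hT, Submodule.subset_span ⟨f, hf, u, rfl⟩⟩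
  | zero => obtain ⟨T, hT⟩ := hne; exact ⟨T, hT, (Iv k T).zero_mem⟩
  | add y z _ _ hy hz =>
    obtain ⟨T, hT, hy⟩ := hy
    obtain ⟨T', hT', hz⟩ := hz
    rcases hc.total hT hT' with h | h
    · exact ⟨T', hT', (Iv k T').add_mem (Iv_mono h hy) hz⟩
    · exact ⟨T, hT, (Iv k T).add_mem hy (Iv_mono h hz)⟩
  | smul a y _ hy => obtain ⟨T, hT, hy⟩ := hy; exact ⟨T, hT, (Iv k T).smul_mem a hy⟩

/-- The verbal ideal. -/
noncomputable def Id {T : Set (Tr →₀ k)} (hT : Mu k T) : LieIdeal k (Fr k) :=
  { Iv k T with lie_mem := fun {v _} hy => Iv_lie hT v hy }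

/-- The projection to a quotient. -/
noncomputable def pr (I : LieIdeal k (Fr k)) : Fr k →ₗ⁅k⁆ (Fr k ⧸ I) :=
  { (LieSubmodule.Quotient.mk' I : Fr k →ₗ[k] (Fr k ⧸ I)) with
    map_lie' := fun {a b} => LieSubmodule.Quotient.mk_bracket I a b }

theorem pr_surj (I : LieIdeal k (Fr k)) : Function.Surjective (pr I) :=
  LieSubmodule.Quotient.surjective_mk' I

theorem pr_zero (I : LieIdeal k (Fr k)) (a : Fr k) : pr I a = 0 ↔ a ∈ I :=
  LieSubmodule.Quotient.mk_eq_zero (N := I)

theorem idt_of {T : Set (Tr →₀ k)} (hT : Mu k T) (G : Tr →₀ k)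
    (hG : pev k br (xs k) G ∈ Iv k T) : Idt k (Fr k ⧸ Id hT) G := by
  intro u
  choose u' hu' using fun i => pr_surj (Id hT) (u i)
  have e : u = fun i => pr (Id hT) (FreeLieAlgebra.lift k u' (xs k i)) := by
    funext i
    simp [xs, hu']
  have e2 := map_pev ((pr (Id hT)).comp (FreeLieAlgebra.lift k u')) (xs k) G
  simp only [LieHom.comp_apply] at e2
  rw [e, ← e2, pr_zero]
  exact Iv_map _ hG

theorem exists_lift {T : Set (Tr →₀ k)} (hT : Mu k T) (a : ℕ → Fr k ⧸ Id hT) :
    ∃ χ : (Fr k ⧸ Id hT) →ₗ⁅k⁆ (Fr k ⧸ Id hT), ∀ i, χ (pr (Id hT) (xs k i)) = a i := by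
  choose a' ha' using fun i => pr_surj (Id hT) (a i)
  let φ : Fr k →ₗ⁅k⁆ (Fr k ⧸ Id hT) := (pr (Id hT)).comp (FreeLieAlgebra.lift k a')
  have hφ : (Id hT).toSubmodule ≤ LinearMap.ker (φ : Fr k →ₗ[k] (Fr k ⧸ Id hT)) := by
    intro y hy
    exact (pr_zero _ _).2 (Iv_map _ hy)
  let ψ : (Fr k ⧸ Id hT) →ₗ[k] (Fr k ⧸ Id hT) := Submodule.liftQ _ _ hφ
  have hψ : ∀ y, ψ (pr (Id hT) y) = φ y := fun y => rfl
  refine ⟨{ ψ with map_lie' := fun {y z} => ?_ }, fun i => ?_⟩
  · obtain ⟨y, rfl⟩ := pr_surj _ y
    obtain ⟨z, rfl⟩ := pr_surj _ z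
    change ψ ⁅pr (Id hT) y, pr (Id hT) z⁆ = ⁅ψ (pr (Id hT) y), ψ (pr (Id hT) z)⁆
    rw [← LieHom.map_lie, hψ, hψ, hψ, LieHom.map_lie]
  · change ψ (pr (Id hT) (xs k i)) = a i
    rw [hψ]
    simp [φ, xs, ha']

theorem gen_top (I : LieIdeal k (Fr k)) :
    LieSubalgebra.lieSpan k (Fr k ⧸ I) (Set.range fun i => pr I (xs k i)) = ⊤ := by
  set K := LieSubalgebra.lieSpan k (Fr k ⧸ I) (Set.range fun i => pr I (xs k i)) with hK
  have h1 : ∀ b : Tr, pr I (b.ev br (xs k)) ∈ K := by
    intro b
    induction b with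
    | lf i => exact LieSubalgebra.subset_lieSpan ⟨i, rfl⟩
    | nd a b iha ihb =>
      simp only [Tr.ev, br, LieHom.map_lie]
      exact K.lie_mem iha ihb
  have h2 : ∀ y ∈ Submodule.span k (Set.range fun b : Tr => b.ev br (xs k)), pr I y ∈ K := by
    intro y hy
    induction hy using Submodule.span_induction with
    | mem y hy => obtain ⟨b, rfl⟩ := hy; exact h1 b
    | zero => rw [map_zero]; exact K.zero_mem
    | add y z _ _ hy hz => rw [map_add]; exact K.add_mem hy hz
    | smul c y _ hy => rw [map_smul]; exact K.smul_mem c hy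
  rw [eq_top_iff]
  intro y _
  obtain ⟨y, rfl⟩ := pr_surj I y
  exact h2 y (by rw [span_tr]; trivial)

/-- An element of the verbal ideal of `insert f T` is a combination of substitution instances of
`f` modulo the verbal ideal of `T`. -/
theorem Iv_insert {T : Set (Tr →₀ k)} {l : List ℕ} (hl : l.Nodup) {f : Tr →₀ k}
    (hf : f ∈ PL k l) {y : Fr k} (hy : y ∈ Iv k (insert f T)) :
    ∃ h ∈ Submodule.span k {h | ∃ g : ℕ → Tr, h = Finsupp.mapDomain (Tr.sub g) f},
      y - pev k br (xs k) h ∈ Iv k T := by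
  classical
  set V := Submodule.span k {h | ∃ g : ℕ → Tr, h = Finsupp.mapDomain (Tr.sub g) f} with hV
  induction hy using Submodule.span_induction with
  | mem y hy =>
    obtain ⟨f', hf', u, rfl⟩ := hy
    rcases hf' with rfl | hf'
    · have := pev_mem _ (span_tr k) hl hf (V.map (pev k br (xs k))) (fun u hu => ?_) u
      · obtain ⟨h, hh, e⟩ := this
        exact ⟨h, hh, by rw [e, sub_self]; exact (Iv k T).zero_mem⟩
      · have hu' : ∀ i, ∃ b : Tr, i ∈ l → b.ev br (xs k) = u i := by
          intro i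
          by_cases hi : i ∈ l
          · obtain ⟨b, hb⟩ := hu i hi
            exact ⟨b, fun _ => hb⟩
          · exact ⟨Tr.lf 0, fun h => (hi h).elim⟩
        choose g hg using hu'
        refine ⟨_, Submodule.subset_span ⟨g, rfl⟩, ?_⟩
        rw [pev_map]
        exact pev_dep _ _ hf fun i hi => hg i hi
    · refine ⟨0, V.zero_mem, ?_⟩
      rw [map_zero, sub_zero]
      exact Submodule.subset_span ⟨f', hf', u, rfl⟩
  | zero => exact ⟨0, V.zero_mem, by simp⟩
  | add y z _ _ hy hz =>
    obtain ⟨h, hh, e⟩ := hy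
    obtain ⟨h', hh', e'⟩ := hz
    refine ⟨h + h', V.add_mem hh hh', ?_⟩
    rw [map_add, add_sub_add_comm]
    exact (Iv k T).add_mem e e'
  | smul c y _ hy =>
    obtain ⟨h, hh, e⟩ := hy
    refine ⟨c • h, V.smul_mem c hh, ?_⟩
    rw [map_smul, ← smul_sub]
    exact (Iv k T).smul_mem c e

theorem filter_mem {l : List ℕ} {f : Tr →₀ k} (hf : f ∈ PL k l) (d : List ℕ)
    [DecidablePred fun b : Tr => b.lv.Perm d] {h : Tr →₀ k}
    (hh : h ∈ Submodule.span k {h | ∃ g : ℕ → Tr, h = Finsupp.mapDomain (Tr.sub g) f}) :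
    h.filter (fun b => b.lv.Perm d) ∈ Submodule.span k {h | ∃ g : ℕ → Tr,
      (l.flatMap fun j => (g j).lv).Perm d ∧ h = Finsupp.mapDomain (Tr.sub g) f} := by
  induction hh using Submodule.span_induction with
  | mem h hh =>
    obtain ⟨g, rfl⟩ := hh
    by_cases hg : (l.flatMap fun j => (g j).lv).Perm d
    · have : (Finsupp.mapDomain (Tr.sub g) f).filter (fun b => b.lv.Perm d) =
          Finsupp.mapDomain (Tr.sub g) f := by
        refine PL_ind (P := fun f => (Finsupp.mapDomain (Tr.sub g) f).filter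
          (fun b => b.lv.Perm d) = Finsupp.mapDomain (Tr.sub g) f) ?_ ?_ ?_ hf
        · simp [Finsupp.filter_zero]
        · intro f f' h h'
          rw [Finsupp.mapDomain_add, Finsupp.filter_add, h, h']
        · intro b c hb
          rw [Finsupp.mapDomain_single, Finsupp.filter_single_of_pos]
          rw [lv_sub]
          exact (hb.flatMap_right _).trans hg
      rw [this]
      exact Submodule.subset_span ⟨g, hg, rfl⟩
    · have : (Finsupp.mapDomain (Tr.sub g) f).filter (fun b => b.lv.Perm d) = 0 := by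
        refine PL_ind (P := fun f => (Finsupp.mapDomain (Tr.sub g) f).filter
          (fun b => b.lv.Perm d) = 0) ?_ ?_ ?_ hf
        · simp [Finsupp.filter_zero]
        · intro f f' h h'
          rw [Finsupp.mapDomain_add, Finsupp.filter_add, h, h', add_zero]
        · intro b c hb
          rw [Finsupp.mapDomain_single, Finsupp.filter_single_of_neg]
          rw [lv_sub]
          exact fun h => hg ((hb.flatMap_right _).symm.trans h)
      rw [this]
      exact Submodule.zero_mem _
  | zero => rw [Finsupp.filter_zero]; exact Submodule.zero_mem _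
  | add y z _ _ hy hz => rw [Finsupp.filter_add]; exact Submodule.add_mem _ hy hz
  | smul c y _ hy => rw [Finsupp.filter_smul]; exact Submodule.smul_mem _ c hy

end Zorn

open Zorn in
theorem stZORN : St_HS.{u} → St_ZORN.{u} := by
  intro hHS k _ _ f0 hf0 hns
  classical
  let P : Set (Set (Tr →₀ k)) :=
    {T | Mu k T ∧ ∀ n, (dt n id).ev br (xs k) ∉ Iv k T}
  have h0 : ({f0} : Set (Tr →₀ k)) ∈ P := by
    refine ⟨?_, fun n hn => ?_⟩
    · rintro f rfl
      obtain ⟨l, hl, hf, -⟩ := hf0
      exact ⟨l, hl, hf⟩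
    · obtain ⟨L, _, _, hL, hne⟩ := hns n
      refine hne fun u => ?_
      have h1 : ∀ y ∈ Iv k ({f0} : Set (Tr →₀ k)), FreeLieAlgebra.lift k u y = 0 := by
        intro y hy
        induction hy using Submodule.span_induction with
        | mem y hy =>
          obtain ⟨f, rfl, v, rfl⟩ := hy
          rw [map_pev]
          exact hL _
        | zero => simp
        | add y z _ _ hy hz => rw [map_add, hy, hz, add_zero]
        | smul c y _ hy => rw [map_smul, hy, smul_zero]
      have h2 := h1 _ hn
      rw [map_ev] at h2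
      simpa [xs] using h2
  obtain ⟨T, hT0, hT⟩ := zorn_subset_nonempty P (fun c hc hch hne => by
    refine ⟨⋃₀ c, ⟨?_, fun n hn => ?_⟩, fun s hs => Set.subset_sUnion_of_mem hs⟩
    · rintro f ⟨T, hT, hf⟩
      exact (hc hT).1 f hf
    · obtain ⟨T, hT, hy⟩ := Iv_chain hch hne hn
      exact (hc hT).2 n hy) _ h0
  obtain ⟨hMu, hd⟩ := hT.prop
  have hmem : ∀ f ∈ T, Idt k (Fr k ⧸ Id hMu) f := fun f hf =>
    idt_of hMu f (Submodule.subset_span ⟨f, hf, _, rfl⟩)
  refine ⟨Fr k ⧸ Id hMu, inferInstance, inferInstance, hf0, hmem f0 (hT0 rfl), fun n hn => ?_,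
    fun l f hl hf hni => ?_, _, gen_top _, exists_lift hMu⟩
  · have := hn fun i => pr (Id hMu) (xs k i)
    rw [← map_ev, pr_zero] at this
    exact hd n this
  · have hnot : insert f T ∉ P := by
      intro hP
      have := hT.le_of_ge hP (Set.subset_insert f T)
      exact hni (hmem f (this (Set.mem_insert f T)))
    have : ∃ n, (dt n id).ev br (xs k) ∈ Iv k (insert f T) := by
      by_contra hcon
      refine hnot ⟨?_, fun n hn => hcon ⟨n, hn⟩⟩
      rintro f' (rfl | hf')
      · exact ⟨l, hl, hf⟩
      · exact hMu f' hf'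
    obtain ⟨n, hn⟩ := this
    obtain ⟨h, hh, e⟩ := Iv_insert hl hf hn
    have hI : Idt k (Fr k ⧸ Id hMu) (Finsupp.single (dt n id) 1 - h) := by
      refine idt_of hMu _ ?_
      rwa [map_sub, pev_single, one_smul]
    refine ⟨n, _, filter_mem hf (dt n id).lv hh, ?_⟩
    have := hHS k _ _ hI (dt n id).lv
    rwa [Finsupp.filter_sub, Finsupp.filter_single_of_pos] at this
    exact List.Perm.refl _

end Pool.Agent.Lib.EB
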