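import Pool.Agent.Lib.EB.Blue

/-!
Basic lemmas on monomials, polynomials and multilinear functions.
-/

namespace Pool.Agent.Lib.EB

open Function

universe u

namespace Tr

theorem lv_ne_nil (b : Tr) : b.lv ≠ [] := by
  induction b with
  | lf i => simp [lv]
  | nd a b ha _ => simp [lv, ha]

theorem ev_sub {X : Type*} (m : X → X → X) (u : ℕ → X) (g : ℕ → Tr) (b : Tr) :
    (b.sub g).ev m u = b.ev m (fun j => (g j).ev m u) := by
  induction b with
  | lf i => rfl
  | nd a b ha hb => simp only [sub, ev, ha, hb]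

theorem lv_sub (g : ℕ → Tr) (b : Tr) : (b.sub g).lv = b.lv.flatMap fun j => (g j).lv := by
  induction b with
  | lf i => simp [sub, lv]
  | nd a b ha hb => simp only [sub, lv, ha, hb, List.flatMap_append]

theorem ev_congr {X : Type*} (m : X → X → X) {u u' : ℕ → X} (b : Tr)
    (h : ∀ i ∈ b.lv, u i = u' i) : b.ev m u = b.ev m u' := by
  induction b with
  | lf i => exact h i (by simp [lv])
  | nd a b ha hb =>
    simp only [ev]
    rw [ha fun i hi => h i (by simp [lv, hi]), hb fun i hi => h i (by simp [lv, hi])]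

theorem map_ev {X Y : Type*} {m : X → X → X} {m' : Y → Y → Y} (φ : X → Y)
    (hφ : ∀ a b, φ (m a b) = m' (φ a) (φ b)) (u : ℕ → X) (b : Tr) :
    φ (b.ev m u) = b.ev m' (fun i => φ (u i)) := by
  induction b with
  | lf i => rfl
  | nd a b ha hb => simp only [ev, hφ, ha, hb]

theorem ev_ind {X : Type*} {m : X → X → X} (P : X → Prop)
    (hP : ∀ a b, P a → P b → P (m a b)) {u : ℕ → X} (b : Tr) (h : ∀ i ∈ b.lv, P (u i)) :
    P (b.ev m u) := by
  induction b with
  | lf i => exact h i (by simp [lv])
  | nd a b ha hb =>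
    exact hP _ _ (ha fun i hi => h i (by simp [lv, hi])) (hb fun i hi => h i (by simp [lv, hi]))

end Tr

theorem lv_dt (n : ℕ) (s : ℕ → ℕ) : (dt n s).lv = (dt n id).lv.map s := by
  induction n generalizing s with
  | zero => simp [dt, Tr.lv]
  | succ n ih =>
    simp only [dt, Tr.lv, List.map_append]
    rw [ih fun i => s (2 * i), ih fun i => s (2 * i + 1), ih fun i => id (2 * i),
      ih fun i => id (2 * i + 1)]
    simp [List.map_map, Function.comp_def]

theorem nodup_dt_id (n : ℕ) : (dt n id).lv.Nodup := by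
  induction n with
  | zero => simp [dt, Tr.lv]
  | succ n ih =>
    simp only [dt, Tr.lv]
    rw [lv_dt n fun i => id (2 * i), lv_dt n fun i => id (2 * i + 1), List.nodup_append]
    refine ⟨ih.map fun a b h => by simpa using h, ih.map fun a b h => by simpa using h, ?_⟩
    intro a ha b hb hab
    simp only [List.mem_map, id] at ha hb
    obtain ⟨x, -, rfl⟩ := ha
    obtain ⟨y, -, rfl⟩ := hb
    omega

theorem nodup_dt (n : ℕ) {s : ℕ → ℕ} (hs : Injective s) : (dt n s).lv.Nodup := by
  rw [lv_dt]; exact (nodup_dt_id n).map hs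

theorem length_dt (n : ℕ) (s : ℕ → ℕ) : (dt n s).lv.length = 2 ^ n := by
  induction n generalizing s with
  | zero => simp [dt, Tr.lv]
  | succ n ih => simp only [dt, Tr.lv, List.length_append, ih]; ring

theorem mem_lv_dt_id (n i : ℕ) : i ∈ (dt n id).lv ↔ i < 2 ^ n := by
  induction n generalizing i with
  | zero => simp [dt, Tr.lv]
  | succ n ih =>
    simp only [dt, Tr.lv]
    rw [lv_dt n fun i => id (2 * i), lv_dt n fun i => id (2 * i + 1)]
    simp only [List.mem_append, List.mem_map, ih, id, pow_succ]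
    constructor
    · rintro (⟨a, ha, rfl⟩ | ⟨a, ha, rfl⟩) <;> omega
    · intro h
      rcases Nat.even_or_odd' i with ⟨a, rfl | rfl⟩
      · exact Or.inl ⟨a, by omega, rfl⟩
      · exact Or.inr ⟨a, by omega, rfl⟩

theorem ev_dt_comp {X : Type*} (m : X → X → X) (n : ℕ) (s : ℕ → ℕ) (u : ℕ → X) :
    (dt n s).ev m u = (dt n id).ev m (fun i => u (s i)) := by
  induction n generalizing s u with
  | zero => rfl
  | succ n ih =>
    simp only [dt, Tr.ev]
    rw [ih fun i => s (2 * i), ih fun i => s (2 * i + 1), ih fun i => id (2 * i),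
      ih fun i => id (2 * i + 1)]
    rfl

theorem lw_nil (i : ℕ) : lw i [] = Tr.lf i := rfl

theorem lw_concat (i : ℕ) (w : List ℕ) (j : ℕ) :
    lw i (w ++ [j]) = Tr.nd (lw i w) (Tr.lf j) := by
  simp [lw, List.foldl_append]

theorem lv_lw (i : ℕ) (w : List ℕ) : (lw i w).lv = i :: w := by
  induction w using List.reverseRecOn with
  | nil => rfl
  | append_singleton w j ih => rw [lw_concat]; simp [Tr.lv, ih]

theorem ev_lw {X : Type*} (m : X → X → X) (u : ℕ → X) (i : ℕ) (w : List ℕ) :
    (lw i w).ev m u = (w.map u).foldl m (u i) := by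
  induction w using List.reverseRecOn with
  | nil => rfl
  | append_singleton w j ih => rw [lw_concat]; simp [Tr.ev, ih, List.foldl_append]

section
variable {k : Type u} [Field k]

@[simp] theorem brL_apply {F : Type u} [LieRing F] [LieAlgebra k F] (a b : F) :
    brL k F a b = ⁅a, b⁆ := rfl

theorem brL_eq {F : Type u} [LieRing F] [LieAlgebra k F] :
    (fun a b : F => brL k F a b) = br := rfl

theorem rop_apply {F : Type u} [LieRing F] [LieAlgebra k F] (l : List F) (z : F) :
    rop k l z = l.foldl br z := by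
  induction l generalizing z with
  | nil => rfl
  | cons y l ih => simp [rop, ih, br]

theorem rop_append {F : Type u} [LieRing F] [LieAlgebra k F] (l l' : List F) :
    rop k (l ++ l') = rop k l' ∘ₗ rop k l := by
  ext z; simp [rop_apply, List.foldl_append]

@[simp] theorem mE_tmul {F : Type u} [LieRing F] [LieAlgebra k F] {E : Type u} [Ring E]
    [Algebra k E] (a b : F) (x y : E) :
    mE k F E (a ⊗ₜ[k] x) (b ⊗ₜ[k] y) = ⁅a, b⁆ ⊗ₜ[k] (x * y) := by
  simp [mE]

variable {X W : Type*} [AddCommGroup X] [Module k X] [AddCommGroup W] [Module k W]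

@[simp] theorem pev_single (m : X → X → X) (u : ℕ → X) (b : Tr) (c : k) :
    pev k m u (Finsupp.single b c) = c • b.ev m u := by
  simp [pev]

@[simp] theorem spev_single (ε : ℕ → Bool) (m : X → X → X) (u : ℕ → X) (b : Tr) (c : k) :
    spev k ε m u (Finsupp.single b c) = c • (sg k ε b.lv • b.ev m u) := by
  simp [spev]

theorem pev_apply (m : X → X → X) (u : ℕ → X) (f : Tr →₀ k) :
    pev k m u f = ∑ b ∈ f.support, f b • b.ev m u := by
  simp [pev, Finsupp.linearCombination_apply, Finsupp.sum]

theorem spev_apply (ε : ℕ → Bool) (m : X → X → X) (u : ℕ → X) (f : Tr →₀ k) :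
    spev k ε m u f = ∑ b ∈ f.support, f b • (sg k ε b.lv • b.ev m u) := by
  simp [spev, Finsupp.linearCombination_apply, Finsupp.sum]

theorem mem_PL {l : List ℕ} {f : Tr →₀ k} : f ∈ PL k l ↔ ∀ b ∈ f.support, b.lv.Perm l := by
  simp only [PL, Finsupp.mem_supported]
  rfl

theorem single_mem_PL {l : List ℕ} {b : Tr} (h : b.lv.Perm l) (c : k) :
    Finsupp.single b c ∈ PL k l :=
  Finsupp.single_mem_supported k c h

theorem PL_perm {l l' : List ℕ} (h : l.Perm l') : PL k l = PL k l' := by
  ext f
  simp only [mem_PL]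
  exact ⟨fun H b hb => (H b hb).trans h, fun H b hb => (H b hb).trans h.symm⟩

/-- Induction principle for multilinear polynomials. -/
theorem PL_ind {l : List ℕ} {P : (Tr →₀ k) → Prop} (h0 : P 0)
    (h1 : ∀ (b : Tr) (c : k), b.lv.Perm l → P (Finsupp.single b c))
    (h2 : ∀ f g, P f → P g → P (f + g)) {f : Tr →₀ k} (hf : f ∈ PL k l) : P f := by
  rw [mem_PL] at hf
  rw [← Finsupp.sum_single f, Finsupp.sum]
  refine Finset.sum_induction _ P h2 h0 fun b hb => h1 b _ (hf b hb)

theorem pev_mapDomain_sub (m : X → X → X) (u : ℕ → X) (g : ℕ → Tr) (f : Tr →₀ k) :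
    pev k m u (Finsupp.mapDomain (Tr.sub g) f) = pev k m (fun j => (g j).ev m u) f := by
  induction f using Finsupp.induction_linear with
  | zero => simp
  | add f f' h h' => simp only [Finsupp.mapDomain_add, map_add, h, h']
  | single b c => simp [Finsupp.mapDomain_single, Tr.ev_sub]

theorem mapDomain_sub_mem_PL {l l' : List ℕ} {g : ℕ → Tr} {f : Tr →₀ k} (hf : f ∈ PL k l)
    (hg : (l.flatMap fun j => (g j).lv).Perm l') : Finsupp.mapDomain (Tr.sub g) f ∈ PL k l' := by
  refine PL_ind (P := fun f => Finsupp.mapDomain (Tr.sub g) f ∈ PL k l') (by simp) ?_ ?_ hf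
  · intro b c hb
    rw [Finsupp.mapDomain_single]
    refine single_mem_PL ?_ c
    rw [Tr.lv_sub]
    exact (hb.flatMap_right _).trans hg
  · intro f f' h h'
    rw [Finsupp.mapDomain_add]
    exact add_mem h h'

theorem map_pev {Y : Type*} [AddCommGroup Y] [Module k Y] {m : X → X → X} {m' : Y → Y → Y}
    (φ : X →ₗ[k] Y) (hφ : ∀ a b, φ (m a b) = m' (φ a) (φ b)) (u : ℕ → X) (f : Tr →₀ k) :
    φ (pev k m u f) = pev k m' (fun i => φ (u i)) f := by
  simp only [pev_apply, map_sum, map_smul, Tr.map_ev φ hφ]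

theorem map_spev {Y : Type*} [AddCommGroup Y] [Module k Y] {m : X → X → X} {m' : Y → Y → Y}
    (φ : X →ₗ[k] Y) (hφ : ∀ a b, φ (m a b) = m' (φ a) (φ b)) (ε : ℕ → Bool) (u : ℕ → X)
    (f : Tr →₀ k) : φ (spev k ε m u f) = spev k ε m' (fun i => φ (u i)) f := by
  simp only [spev_apply, map_sum, map_smul, Tr.map_ev φ hφ]

theorem hom_pev {L L' : Type*} [LieRing L] [LieAlgebra k L] [LieRing L'] [LieAlgebra k L']
    (φ : L →ₗ⁅k⁆ L') (u : ℕ → L) (f : Tr →₀ k) :
    φ (pev k br u f) = pev k br (fun i => φ (u i)) f :=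
  map_pev (m := br) (m' := br) φ.toLinearMap (fun a b => φ.map_lie a b) u f

theorem hom_ev {L L' : Type*} [LieRing L] [LieAlgebra k L] [LieRing L'] [LieAlgebra k L']
    (φ : L →ₗ⁅k⁆ L') (u : ℕ → L) (b : Tr) :
    φ (b.ev br u) = b.ev br (fun i => φ (u i)) :=
  Tr.map_ev (m := br) (m' := br) φ (fun a b => φ.map_lie a b) u b

theorem Idt.of_injective {L L' : Type*} [LieRing L] [LieAlgebra k L] [LieRing L']
    [LieAlgebra k L'] (φ : L →ₗ⁅k⁆ L') (hφ : Injective φ) {f : Tr →₀ k} (h : Idt k L' f) :
    Idt k L f := fun u => hφ (by rw [hom_pev, h, map_zero])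

theorem Idt.of_surjective {L L' : Type*} [LieRing L] [LieAlgebra k L] [LieRing L']
    [LieAlgebra k L'] (φ : L →ₗ⁅k⁆ L') (hφ : Surjective φ) {f : Tr →₀ k} (h : Idt k L f) :
    Idt k L' f := by
  intro u
  choose v hv using fun i => hφ (u i)
  have : u = fun i => φ (v i) := funext fun i => (hv i).symm
  rw [this, ← hom_pev, h, map_zero]

namespace ML

theorem zero (S : Finset ℕ) : ML k S (fun _ : ℕ → X => (0 : W)) :=
  ⟨fun _ _ _ _ _ => by simp, fun _ _ _ _ _ => by simp, fun _ _ _ => rfl⟩

theorem add' {S : Finset ℕ} {h h' : (ℕ → X) → W} (H : ML k S h) (H' : ML k S h') :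
    ML k S (fun u => h u + h' u) :=
  ⟨fun s hs u x y => by rw [H.add s hs, H'.add s hs]; abel,
    fun s hs u c x => by rw [H.smul s hs, H'.smul s hs, smul_add],
    fun u u' e => by rw [H.dep u u' e, H'.dep u u' e]⟩

theorem map {V : Type*} [AddCommGroup V] [Module k V] {S : Finset ℕ} {h : (ℕ → X) → W}
    (H : ML k S h) (φ : W →ₗ[k] V) : ML k S (fun u => φ (h u)) :=
  ⟨fun s hs u x y => by rw [H.add s hs, map_add],
    fun s hs u c x => by rw [H.smul s hs, map_smul],
    fun u u' e => by rw [H.dep u u' e]⟩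

theorem smul' {S : Finset ℕ} {h : (ℕ → X) → W} (H : ML k S h) (c : k) :
    ML k S (fun u => c • h u) := H.map (c • LinearMap.id)

theorem sum {ι : Type*} {S : Finset ℕ} (I : Finset ι) {h : ι → (ℕ → X) → W}
    (H : ∀ i ∈ I, ML k S (h i)) : ML k S (fun u => ∑ i ∈ I, h i u) := by
  classical
  induction I using Finset.induction_on with
  | empty => simpa using zero S
  | insert a I ha ih =>
    simp only [Finset.sum_insert ha]
    exact (H a (by simp)).add' (ih fun i hi => H i (by simp [hi]))

/-- Precomposition with linear maps in each coordinate. -/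
theorem comp {Y : Type*} [AddCommGroup Y] [Module k Y] {S : Finset ℕ} {h : (ℕ → X) → W}
    (H : ML k S h) (π : ℕ → Y →ₗ[k] X) : ML k S (fun u : ℕ → Y => h fun i => π i (u i)) := by
  have key : ∀ (u : ℕ → Y) (s : ℕ) (x : Y), (fun i => π i (update u s x i)) =
      update (fun i => π i (u i)) s (π s x) := by
    intro u s x
    funext i
    by_cases hi : i = s
    · subst hi; simp
    · simp [update_of_ne hi]
  refine ⟨fun s hs u x y => ?_, fun s hs u c x => ?_, fun u u' e => ?_⟩
  · simp only [key, map_add, H.add s hs]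
  · simp only [key, map_smul, H.smul s hs]
  · exact H.dep _ _ fun s hs => by rw [e s hs]

theorem update_notMem {S : Finset ℕ} {h : (ℕ → X) → W} (H : ML k S h) {s : ℕ} (hs : s ∉ S)
    (u : ℕ → X) (x : X) : h (update u s x) = h u :=
  H.dep _ _ fun t ht => update_of_ne (by rintro rfl; exact hs ht) _ _

/-- Bilinear product of multilinear functions on disjoint sets of variables. -/
theorem bil {V Z : Type*} [AddCommGroup V] [Module k V] [AddCommGroup Z] [Module k Z]
    {S T : Finset ℕ} {h : (ℕ → X) → W} {h' : (ℕ → X) → V} (H : ML k S h) (H' : ML k T h')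
    (hd : Disjoint S T) (B : W →ₗ[k] V →ₗ[k] Z) : ML k (S ∪ T) (fun u => B (h u) (h' u)) := by
  refine ⟨fun s hs u x y => ?_, fun s hs u c x => ?_, fun u u' e => ?_⟩
  · rcases Finset.mem_union.1 hs with hs | hs
    · have hT : s ∉ T := Finset.disjoint_left.1 hd hs
      simp only [H.add s hs, H'.update_notMem hT, map_add, LinearMap.add_apply]
    · have hS : s ∉ S := Finset.disjoint_right.1 hd hs
      simp only [H'.add s hs, H.update_notMem hS, map_add]
  · rcases Finset.mem_union.1 hs with hs | hs
    · have hT : s ∉ T := Finset.disjoint_left.1 hd hs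
      simp only [H.smul s hs, H'.update_notMem hT, map_smul, LinearMap.smul_apply]
    · have hS : s ∉ S := Finset.disjoint_right.1 hd hs
      simp only [H'.smul s hs, H.update_notMem hS, map_smul]
  · rw [H.dep u u' fun s hs => e s (by simp [hs]), H'.dep u u' fun s hs => e s (by simp [hs])]

theorem proj (s : ℕ) : ML k {s} (fun u : ℕ → X => u s) :=
  ⟨fun t ht u x y => by obtain rfl := Finset.mem_singleton.1 ht; simp,
    fun t ht u c x => by obtain rfl := Finset.mem_singleton.1 ht; simp,
    fun u u' e => e s (by simp)⟩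

/-- Fixing the variables outside `P`. -/
theorem fix {S : Finset ℕ} {h : (ℕ → X) → W} (H : ML k S h) (P : Finset ℕ) (v : ℕ → X) :
    ML k (S ∩ P) (fun u => h fun i => if i ∈ P then u i else v i) := by
  have key : ∀ (u : ℕ → X) (s : ℕ), s ∈ P → ∀ x : X,
      (fun i => if i ∈ P then update u s x i else v i) =
        update (fun i => if i ∈ P then u i else v i) s x := by
    intro u s hs x
    funext i
    by_cases hi : i = s
    · subst hi; simp [hs]
    · simp [update_of_ne hi]
  refine ⟨fun s hs u x y => ?_, fun s hs u c x => ?_, fun u u' e => ?_⟩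
  · obtain ⟨h1, h2⟩ := Finset.mem_inter.1 hs
    simp only [key u s h2, H.add s h1]
  · obtain ⟨h1, h2⟩ := Finset.mem_inter.1 hs
    simp only [key u s h2, H.smul s h1]
  · refine H.dep _ _ fun s hs => ?_
    by_cases hP : s ∈ P
    · simp [hP, e s (Finset.mem_inter.2 ⟨hs, hP⟩)]
    · simp [hP]

/-- The linear map in one coordinate. -/
def lin {S : Finset ℕ} {h : (ℕ → X) → W} (H : ML k S h) {s : ℕ} (hs : s ∈ S) (u : ℕ → X) :
    X →ₗ[k] W where
  toFun x := h (update u s x)
  map_add' := H.add s hs u
  map_smul' := H.smul s hs u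

theorem lin_apply {S : Finset ℕ} {h : (ℕ → X) → W} (H : ML k S h) {s : ℕ} (hs : s ∈ S)
    (u : ℕ → X) (x : X) : H.lin hs u x = h (update u s x) := rfl

theorem eq_zero {S : Finset ℕ} {h : (ℕ → X) → W} (H : ML k S h) {s : ℕ} (hs : s ∈ S)
    {u : ℕ → X} (hu : u s = 0) : h u = 0 := by
  have := (H.lin hs u).map_zero
  rwa [lin_apply, ← hu, update_eq_self] at this

/-- A multilinear function with values in `Q` on spanning sets has values in `Q` on the spans. -/
theorem span_mem {S : Finset ℕ} {h : (ℕ → X) → W} (H : ML k S h) (G : ℕ → Set X)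
    (Q : Submodule k W) (hG : ∀ u : ℕ → X, (∀ s ∈ S, u s ∈ G s) → h u ∈ Q) (u : ℕ → X)
    (hu : ∀ s ∈ S, u s ∈ Submodule.span k (G s)) : h u ∈ Q := by
  have key : ∀ T : Finset ℕ, T ⊆ S → ∀ u : ℕ → X, (∀ s ∈ S, s ∉ T → u s ∈ G s) →
      (∀ s ∈ T, u s ∈ Submodule.span k (G s)) → h u ∈ Q := by
    intro T
    induction T using Finset.induction_on with
    | empty => exact fun _ u h1 _ => hG u fun s hs => h1 s hs (by simp)
    | insert a T ha ih =>
      intro hT u h1 h2
      have haS : a ∈ S := hT (by simp)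
      have hle : Submodule.span k (G a) ≤ Q.comap (H.lin haS u) := by
        rw [Submodule.span_le]
        intro x hx
        refine ih (fun t ht => hT (by simp [ht])) _ (fun s hs hsT => ?_) fun s hs => ?_
        · by_cases e : s = a
          · subst e; simpa using hx
          · rw [update_of_ne e]; exact h1 s hs (by simp [e, hsT])
        · have e : s ≠ a := by rintro rfl; exact ha hs
          rw [update_of_ne e]; exact h2 s (by simp [hs])
      have := hle (h2 a (by simp))
      rwa [Submodule.mem_comap, lin_apply, update_eq_self] at this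
  exact key S subset_rfl u (fun s hs hs' => absurd hs hs') hu

theorem span_ext {S : Finset ℕ} {h : (ℕ → X) → W} (H : ML k S h) (G : ℕ → Set X)
    (hG : ∀ u : ℕ → X, (∀ s ∈ S, u s ∈ G s) → h u = 0) (u : ℕ → X)
    (hu : ∀ s ∈ S, u s ∈ Submodule.span k (G s)) : h u = 0 :=
  (Submodule.mem_bot k).1 (H.span_mem G ⊥ (fun u hu => by simp [hG u hu]) u hu)

/-- The multilinear map on the subtype of variables. -/
def toMul {S : Finset ℕ} {h : (ℕ → X) → W} (H : ML k S h) :
    MultilinearMap k (fun _ : S => X) W where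
  toFun v := h fun i => if hi : i ∈ S then v ⟨i, hi⟩ else 0
  map_update_add' := by
    intro inst v s x y
    have key : ∀ z : X, (fun i => if hi : i ∈ S then update v s z ⟨i, hi⟩ else 0) =
        update (fun i => if hi : i ∈ S then v ⟨i, hi⟩ else 0) s.1 z := by
      intro z; funext i
      by_cases e : i = s.1
      · subst e; simp
      · rw [update_of_ne e]
        by_cases hi : i ∈ S
        · simp only [hi, dite_true]
          rw [update_of_ne (fun h' => e (congrArg Subtype.val h'))]
        · simp [hi]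
    simp only [key, H.add s.1 s.2]
  map_update_smul' := by
    intro inst v s c x
    have key : ∀ z : X, (fun i => if hi : i ∈ S then update v s z ⟨i, hi⟩ else 0) =
        update (fun i => if hi : i ∈ S then v ⟨i, hi⟩ else 0) s.1 z := by
      intro z; funext i
      by_cases e : i = s.1
      · subst e; simp
      · rw [update_of_ne e]
        by_cases hi : i ∈ S
        · simp only [hi, dite_true]
          rw [update_of_ne (fun h' => e (congrArg Subtype.val h'))]
        · simp [hi]
    simp only [key, H.smul s.1 s.2]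

theorem toMul_apply {S : Finset ℕ} {h : (ℕ → X) → W} (H : ML k S h) (u : ℕ → X) :
    H.toMul (fun s => u s.1) = h u :=
  H.dep _ _ fun s hs => by simp [hs]

theorem toMul_apply' {S : Finset ℕ} {h : (ℕ → X) → W} (H : ML k S h) (v : S → X) :
    H.toMul v = h fun i => if hi : i ∈ S then v ⟨i, hi⟩ else 0 := rfl

/-- Expansion of sums in all variables. -/
theorem map_sum {ι : Type*} [Fintype ι] {S : Finset ℕ} {h : (ℕ → X) → W} (H : ML k S h)
    (y : ℕ → ι → X) : h (fun s => ∑ i, y s i) =
      ∑ r : S → ι, h fun s => if hs : s ∈ S then y s (r ⟨s, hs⟩) else 0 := by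
  rw [← H.toMul_apply, MultilinearMap.map_sum]
  rfl

/-- Expansion of `x + y` in all variables. -/
theorem sum_powerset {S : Finset ℕ} {h : (ℕ → X) → W} (H : ML k S h) (x y : ℕ → X) :
    h (fun s => x s + y s) = ∑ T ∈ S.powerset, h fun s => if s ∈ T then x s else y s := by
  have key : ∀ U : Finset ℕ, U ⊆ S → ∀ z : ℕ → X,
      h (fun s => if s ∈ U then x s + y s else z s) =
        ∑ T ∈ U.powerset, h fun s => if s ∈ U then (if s ∈ T then x s else y s) else z s := by
    intro U
    induction U using Finset.induction_on with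
    | empty => simp
    | insert a U ha ih =>
      intro hU z
      have haS : a ∈ S := hU (by simp)
      have hUS : U ⊆ S := fun t ht => hU (by simp [ht])
      have e1 : ∀ c : X, update (fun s => if s ∈ U then x s + y s else z s) a c =
          fun s => if s ∈ U then x s + y s else update z a c s := by
        intro c; funext s
        by_cases e : s = a
        · subst e; simp [ha]
        · simp [update_of_ne e]
      have e0 : (fun s => if s ∈ insert a U then x s + y s else z s) =
          update (fun s => if s ∈ U then x s + y s else z s) a (x a + y a) := by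
        funext s
        by_cases e : s = a
        · subst e; simp
        · simp [e]
      rw [e0, H.add a haS, e1, e1, ih hUS, ih hUS, Finset.sum_powerset_insert ha, add_comm]
      congr 1
      · refine Finset.sum_congr rfl fun T hT => ?_
        have haT : a ∉ T := fun h' => ha (Finset.mem_powerset.1 hT h')
        congr 1; funext s
        by_cases e : s = a
        · subst e; simp [ha, haT]
        · simp [e]
      · refine Finset.sum_congr rfl fun T hT => ?_
        congr 1; funext s
        by_cases e : s = a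
        · subst e; simp [ha]
        · simp [e]
  have := key S subset_rfl 0
  rw [H.dep (fun s => x s + y s) (fun s => if s ∈ S then x s + y s else (0 : ℕ → X) s)
    (fun s hs => by simp [hs]), this]
  exact Finset.sum_congr rfl fun T _ => H.dep _ _ fun s hs => by simp [hs]

end ML

theorem ML_ev (m : X →ₗ[k] X →ₗ[k] X) (b : Tr) (hb : b.lv.Nodup) :
    ML k b.lv.toFinset (fun u : ℕ → X => b.ev (fun a b => m a b) u) := by
  induction b with
  | lf i => simpa [Tr.lv, Tr.ev] using ML.proj (k := k) (X := X) i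
  | nd a b ha hb' =>
    simp only [Tr.lv, List.nodup_append] at hb
    simp only [Tr.lv, List.toFinset_append, Tr.ev]
    refine (ha hb.1).bil (hb' hb.2.1) ?_ m
    rw [Finset.disjoint_left]
    intro s hs hs'
    exact hb.2.2 s (List.mem_toFinset.1 hs) s (List.mem_toFinset.1 hs') rfl

theorem ML_ev' (m : X →ₗ[k] X →ₗ[k] X) {b : Tr} {l : List ℕ} (hl : l.Nodup) (hb : b.lv.Perm l) :
    ML k l.toFinset (fun u : ℕ → X => b.ev (fun a b => m a b) u) := by
  rw [← List.toFinset_eq_of_perm _ _ hb]
  exact ML_ev m b (hb.nodup_iff.2 hl)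

theorem ML_pev (m : X →ₗ[k] X →ₗ[k] X) {l : List ℕ} (hl : l.Nodup) {f : Tr →₀ k}
    (hf : f ∈ PL k l) : ML k l.toFinset (fun u : ℕ → X => pev k (fun a b => m a b) u f) := by
  simp only [pev_apply]
  exact ML.sum _ fun b hb => (ML_ev' m hl (mem_PL.1 hf b hb)).smul' _

theorem ML_spev (ε : ℕ → Bool) (m : X →ₗ[k] X →ₗ[k] X) {l : List ℕ} (hl : l.Nodup)
    {f : Tr →₀ k} (hf : f ∈ PL k l) :
    ML k l.toFinset (fun u : ℕ → X => spev k ε (fun a b => m a b) u f) := by
  simp only [spev_apply]
  exact ML.sum _ fun b hb => ((ML_ev' m hl (mem_PL.1 hf b hb)).smul' _).smul' _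

theorem ML_ev_br {F : Type u} [LieRing F] [LieAlgebra k F] {b : Tr} {l : List ℕ}
    (hl : l.Nodup) (hb : b.lv.Perm l) : ML k l.toFinset (fun u : ℕ → F => b.ev br u) :=
  ML_ev' (brL k F) hl hb

theorem ML_pev_br {F : Type u} [LieRing F] [LieAlgebra k F] {l : List ℕ} (hl : l.Nodup)
    {f : Tr →₀ k} (hf : f ∈ PL k l) : ML k l.toFinset (fun u : ℕ → F => pev k br u f) :=
  ML_pev (brL k F) hl hf

end

end Pool.Agent.Lib.EB
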