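import Pool.Agent.Lib.EB.Defs

/-!
Statements of the blocks.
-/

namespace Pool.Agent.Lib.EB

open TensorProduct Pool.Agent.Lib.MP_eb02d8_al

universe u

/-- Young lemma, real valued. -/
def St_Y0 : Prop :=
  ∀ s : ℕ, ∃ N0 : ℕ, ∀ N, N0 ≤ N → ∀ Γ : Equiv.Perm (Fin N) → ℝ,
    (∀ (σ : Equiv.Perm (Fin N)) (B : Fin s ↪ Fin N) (b : Bool),
      ∑ τ : Equiv.Perm (Fin s),
        (if b = true then ((Equiv.Perm.sign τ : ℤˣ) : ℤ) else 1) • Γ (σ * τ.viaEmbedding B) = 0) →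
    ∀ σ, Γ σ = 0

/-- Young lemma for several columns. -/
def St_SY : Prop :=
  ∀ (k : Type u) [Field k] [CharZero k] (J : Type) [Fintype J] [DecidableEq J] (t : ℕ),
    ∃ N0 : ℕ, ∀ N, N0 ≤ N → ∀ (W : Type u) [AddCommGroup W] [Module k W]
      (Γ : (J → Equiv.Perm (Fin N)) → W),
      (∀ (σ : J → Equiv.Perm (Fin N)) (B : Fin t ↪ Fin N) (ε : J → Bool),
        ∑ τ : J → Equiv.Perm (Fin t),
          (∏ j, if ε j = true then ((Equiv.Perm.sign (τ j) : ℤˣ) : ℤ) else 1) •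
            Γ (fun j => σ j * (τ j).viaEmbedding B) = 0) →
      ∀ σ, Γ σ = 0

/-- Subalgebras of codimension one. -/
def St_C1 : Prop :=
  ∀ (k : Type u) [Field k] [CharZero k] (f0 : Tr →₀ k), NoSl k f0 →
    ∀ (L : Type u) [LieRing L] [LieAlgebra k L], Idt k L f0 →
      ∀ (M : LieSubalgebra k L) (e : L), (∀ a : L, ∃ c : k, a - c • e ∈ M) →
        ∀ a b c d : L, ⁅⁅a, b⁆, ⁅c, d⁆⁆ ∈ M

/-- Invariant lines modulo a subspace of finite codimension. -/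
def St_LL : Prop :=
  ∀ (k : Type u) [Field k] [CharZero k] [IsAlgClosed k] (f0 : Tr →₀ k), NoSl k f0 →
    ∀ (L : Type u) [LieRing L] [LieAlgebra k L], Idt k L f0 →
      ∀ (X : Type u) [AddCommGroup X] [Module k X] (ρ : L →ₗ[k] X →ₗ[k] X),
        (∀ a b x, ρ ⁅a, b⁆ x = ρ a (ρ b x) - ρ b (ρ a x)) →
        ∀ W : Submodule k X, (∀ a, ∀ x ∈ W, ρ a x ∈ W) → Module.Finite k (X ⧸ W) → W ≠ ⊤ →
          ∃ x, x ∉ W ∧ ∀ a, ∃ c : k, ρ a x - c • x ∈ W

/-- Subalgebras of finite codimension contain a derived term. -/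
def St_BP : Prop :=
  ∀ (k : Type u) [Field k] [CharZero k] [IsAlgClosed k] (f0 : Tr →₀ k), NoSl k f0 →
    ∀ (L : Type u) [LieRing L] [LieAlgebra k L], Idt k L f0 →
      ∀ H : LieSubalgebra k L, Module.Finite k (L ⧸ H.toSubmodule) →
        ∃ c : ℕ, ∀ a ∈ LieAlgebra.derivedSeries k L c, a ∈ H

/-- Perfect superalgebras have no functional of finite rank. -/
def St_SB : Prop :=
  ∀ (k : Type u) [Field k] [CharZero k] [IsAlgClosed k] (f0 : Tr →₀ k), NoSl k f0 →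
    ∀ (L : Type u) [AddCommGroup L] [Module k L] (m : L →ₗ[k] L →ₗ[k] L) (ω : L →ₗ[k] L),
      SuperAx m ω → (∀ u : ℕ → L, (∀ i, ω (u i) = u i) → pev k (fun a b => m a b) u f0 = 0) →
      Perfect m → Dag k m

/-- The signed identities give the axioms of a superalgebra. -/
def St_AX : Prop :=
  ∀ (k : Type u) [Field k] [CharZero k] (F : Type u) [LieRing F] [LieAlgebra k F]
    (L : Type u) [AddCommGroup L] [Module k L] (m : L →ₗ[k] L →ₗ[k] L) (ω : L →ₗ[k] L),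
    TP1 F m ω → SuperAx m ω ∧ ∀ (l : List ℕ) (f : Tr →₀ k), l.Nodup → f ∈ PL k l → Idt k F f →
      ∀ u : ℕ → L, (∀ i, ω (u i) = u i) → pev k (fun a b => m a b) u f = 0

/-- Substitution into decomposable forms. -/
def St_DS : Prop :=
  ∀ (k : Type u) [Field k] (X : Type u) [AddCommGroup X] [Module k X] (T : Finset ℕ)
    (S : ℕ → Finset ℕ) (g : ℕ → (ℕ → X) → X) (γ : (ℕ → X) → k),
    γ ∈ Dec k X T → (∀ t ∈ T, ML k (S t) (g t)) → (∀ t ∈ T, (S t).Nonempty) →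
    (∀ t ∈ T, ∀ t' ∈ T, t ≠ t' → Disjoint (S t) (S t')) →
    (fun u => γ (fun t => g t u)) ∈ Dec k X (T.biUnion S)

/-- Prime preservation. -/
def St_PP : Prop :=
  ∀ (k : Type u) [Field k] (L : Type u) [AddCommGroup L] [Module k L]
    (m : L →ₗ[k] L →ₗ[k] L), Dag k m → ∀ ξ : L →ₗ[k] k, ξ ≠ 0 → ∀ b : Tr, b.lv.Nodup →
      (fun u => ξ (b.ev (fun a b => m a b) u)) ∉ Dec k L b.lv.toFinset

/-- Polynomials whose signed forms are decomposable are identities. -/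
def St_PRIME : Prop :=
  ∀ (k : Type u) [Field k] [CharZero k] (F : Type u) [LieRing F] [LieAlgebra k F]
    (f0 : Tr →₀ k), Base k F f0 →
    ∀ (L : Type u) [AddCommGroup L] [Module k L] (m : L →ₗ[k] L →ₗ[k] L) (ω : L →ₗ[k] L),
      TP1 F m ω → Dag k m → ∀ ξ : L →ₗ[k] k, ξ ≠ 0 →
      ∀ (l : List ℕ) (f : Tr →₀ k), l.Nodup → f ∈ PL k l →
        (∀ ε : ℕ → Bool, (fun u : ℕ → L => ξ (spev k ε (fun a b => m a b)
          (fun i => (2⁻¹ : k) • (if ε i = true then u i - ω (u i) else u i + ω (u i))) f)) ∈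
            Dec k L l.toFinset) →
        Idt k F f

/-- The final contradiction in a super model. -/
def St_CORE : Prop :=
  ∀ (k : Type u) [Field k] [CharZero k] (F : Type u) [LieRing F] [LieAlgebra k F]
    (f0 : Tr →₀ k), Base k F f0 → ∀ r : Rel k, r.Good F →
    ∀ (L : Type u) [AddCommGroup L] [Module k L] (m : L →ₗ[k] L →ₗ[k] L) (ω : L →ₗ[k] L),
      TP1 F m ω → Dag k m → ∀ ξ : L →ₗ[k] k, ξ ≠ 0 →
      (∀ ε u, Hom ω ε u → r.sval m ξ ε u = 0) → False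

/-- A rich supercommutative algebra exists. -/
def St_E : Prop :=
  ∀ (k : Type u) [Field k] [CharZero k],
    ∃ (E : Type u) (_ : Ring E) (_ : Algebra k E) (w : E →ₐ[k] E), SCA w ∧ Rich w

/-- Signed identities and signed relation in `F ⊗ E`. -/
def St_PRE1 : Prop :=
  ∀ (k : Type u) [Field k] [CharZero k] (F : Type u) [LieRing F] [LieAlgebra k F]
    (E : Type u) [Ring E] [Algebra k E] (w : E →ₐ[k] E), SCA w →
    TP1 F (mE k F E) (LinearMap.lTensor F w.toLinearMap) ∧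
    ∀ (r : Rel k), r.Good F → ∀ (R : Type u) [CommRing R] [Algebra k R] (ξ0 : F →ₗ[k] R),
      (∀ u : ℕ → F, (r.sum fun e e' => ξ0 (e.ev br u) * ξ0 (e'.ev br u)) = 0) →
      SCA (Algebra.TensorProduct.map (AlgHom.id k R) w) ∧
      ∀ ε u, Hom (LinearMap.lTensor F w.toLinearMap) ε u →
        r.sval (mE k F E) (LinearMap.rTensor E ξ0) ε u = 0

/-- A nonzero product of derived words gives a nonzero power in `R ⊗ E`. -/
def St_PRE2 : Prop :=
  ∀ (k : Type u) [Field k] [CharZero k] (F : Type u) [LieRing F] [LieAlgebra k F]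
    (E : Type u) [Ring E] [Algebra k E] (w : E →ₐ[k] E), SCA w → Rich w →
    ∀ (R : Type u) [CommRing R] [Algebra k R] (ξ0 : F →ₗ[k] R) (n t : ℕ),
      (∀ N : ℕ, ∃ c : Fin N → F, (∀ i, c i ∈ LieAlgebra.derivedSeries k F n) ∧
        ∏ i, ξ0 (c i) ≠ 0) →
      ∃ (ε : ℕ → Bool) (z : ℕ → F ⊗[k] E), Hom (LinearMap.lTensor F w.toLinearMap) ε z ∧
        (LinearMap.rTensor E ξ0 ((dt n id).ev (fun a b => mE k F E a b) z)) ^ t ≠ 0

/-- Passing to a commutative target. -/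
def St_PRE3 : Prop :=
  ∀ (k : Type u) [Field k] [CharZero k] (r : Rel k)
    (A : Type u) [AddCommGroup A] [Module k A] (m : A →ₗ[k] A →ₗ[k] A) (ω : A →ₗ[k] A),
    (∀ a, ω (ω a) = a) → (∀ a b, ω (m a b) = m (ω a) (ω b)) →
    ∀ (Λ : Type u) [Ring Λ] [Algebra k Λ] (w : Λ →ₐ[k] Λ), SCA w →
    ∀ Ξ : A →ₗ[k] Λ, (∀ a, Ξ (ω a) = w (Ξ a)) → (∀ ε u, Hom ω ε u → r.sval m Ξ ε u = 0) →
    (∀ n : ℕ, ∃ ε z, Hom ω ε z ∧ (Ξ ((dt n id).ev (fun a b => m a b) z)) ^ (n + 2) ≠ 0) →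
    ∃ (C : Type u) (_ : CommRing C) (_ : Algebra k C) (Ξ' : A →ₗ[k] C) (K : ℕ),
      (∀ ε u, Hom ω ε u → (r.sval m Ξ' ε u) ^ K = 0) ∧
      ∀ n : ℕ, ∃ ε z, Hom ω ε z ∧ (Ξ' ((dt n id).ev (fun a b => m a b) z)) ^ (n + 2) ≠ 0

/-- Countable Nullstellensatz. -/
def St_NUL : Prop :=
  ∀ (k : Type u) [Field k] [IsAlgClosed k] [Uncountable k] (C : Type u) [CommRing C]
    [Algebra k C] (s : Set C), s.Countable → ∀ ρ : Algebra.adjoin k s, ¬ IsNilpotent ρ →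
      ∃ φ : Algebra.adjoin k s →ₐ[k] k, φ ρ ≠ 0

/-- The ultraproduct construction. -/
def St_GERM : Prop :=
  ∀ (k : Type u) [Field k] [CharZero k] [IsAlgClosed k] [Uncountable k]
    (F : Type u) [LieRing F] [LieAlgebra k F] (r : Rel k)
    (A : Type u) [AddCommGroup A] [Module k A] (m : A →ₗ[k] A →ₗ[k] A) (ω : A →ₗ[k] A),
    TP1 F m ω → ∀ (C : Type u) [CommRing C] [Algebra k C] (Ξ : A →ₗ[k] C) (K : ℕ),
    (∀ ε u, Hom ω ε u → (r.sval m Ξ ε u) ^ K = 0) →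
    (∀ n : ℕ, ∃ ε z, Hom ω ε z ∧ (Ξ ((dt n id).ev (fun a b => m a b) z)) ^ (n + 2) ≠ 0) →
    ∃ (L : Type u) (_ : AddCommGroup L) (_ : Module k L) (m' : L →ₗ[k] L →ₗ[k] L)
      (ω' : L →ₗ[k] L) (ξ : L →ₗ[k] k), TP1 F m' ω' ∧ Perfect m' ∧ ξ ≠ 0 ∧
      ∀ ε u, Hom ω' ε u → r.sval m' ξ ε u = 0

/-- A quadratic relation forces long products of deep elements to vanish. -/
def St_F3 : Prop :=
  ∀ (k : Type u) [Field k] [CharZero k] [IsAlgClosed k] [Uncountable k]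
    (F : Type u) [LieRing F] [LieAlgebra k F] (f0 : Tr →₀ k), Base k F f0 →
    ∀ r : Rel k, r.Good F → ∀ (R : Type u) [CommRing R] [Algebra k R] (ξ0 : F →ₗ[k] R),
      (∀ u : ℕ → F, (r.sum fun e e' => ξ0 (e.ev br u) * ξ0 (e'.ev br u)) = 0) →
      ∃ n N : ℕ, ∀ c : Fin N → F, (∀ i, c i ∈ LieAlgebra.derivedSeries k F n) →
        ∏ i, ξ0 (c i) = 0

/-- The same for symmetric multilinear maps. -/
def St_F3U : Prop :=
  ∀ (k : Type u) [Field k] [CharZero k] [IsAlgClosed k] [Uncountable k]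
    (F : Type u) [LieRing F] [LieAlgebra k F] (f0 : Tr →₀ k), Base k F f0 →
    ∀ r : Rel k, r.Good F → ∃ n N : ℕ, ∀ (W : Type u) [AddCommGroup W] [Module k W]
      (Θ : MultilinearMap k (fun _ : Fin (N + 2) => F) W),
      (∀ (σ : Equiv.Perm (Fin (N + 2))) (c : Fin (N + 2) → F), Θ (fun i => c (σ i)) = Θ c) →
      (∀ (u : ℕ → F) (d : Fin N → F), (r.sum fun e e' =>
        Θ (Fin.cons (e.ev br u) (Fin.cons (e'.ev br u) d : Fin (N + 1) → F))) = 0) →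
      ∀ c : Fin (N + 2) → F, (∀ i, c i ∈ LieAlgebra.derivedSeries k F n) → Θ c = 0

/-- Left normed form of a multilinear monomial. -/
def St_LN : Prop :=
  ∀ (k : Type u) [Field k] (b : Tr) (μ : ℕ), b.lv.Nodup → μ ∈ b.lv →
    ∃ α : List ℕ →₀ k, (∀ w ∈ α.support, (μ :: w).Perm b.lv) ∧
      ∀ (L : Type u) [LieRing L] [LieAlgebra k L] (u : ℕ → L),
        b.ev br u = α.sum fun w c => c • (lw μ w).ev br u

/-- Dimension of the space of multilinear operations. -/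
def St_HD : Prop :=
  ∀ (k : Type u) [Field k] (F : Type u) [LieRing F] [LieAlgebra k F],
    (∀ l : List ℕ, l.Nodup → ∀ n, l.length = n + 1 →
      (∃ B : Finset Tr, (∀ e ∈ B, e.lv.Perm l) ∧ Indep k F B ∧ B.card = hdim k F n) ∧
      Module.Finite k (Submodule.span k
        {φ : (ℕ → F) → F | ∃ b : Tr, b.lv.Perm l ∧ φ = fun u => b.ev br u}) ∧
      Module.finrank k (Submodule.span k
        {φ : (ℕ → F) → F | ∃ b : Tr, b.lv.Perm l ∧ φ = fun u => b.ev br u}) = hdim k F n) ∧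
    ∀ f0 : Tr →₀ k, Base k F f0 → ∀ n, 1 ≤ hdim k F n ∧ hdim k F n ≤ hdim k F (n + 1)

/-- Upper bound for the dimensions. -/
def St_GU : Prop :=
  ∀ (k : Type u) [Field k] (F : Type u) [LieRing F] [LieAlgebra k F] (f0 : Tr →₀ k),
    NoSl k f0 → Idt k F f0 → ∃ j, ∀ n, hdim k F n ≤ qq j n

/-- The numerical contradiction. -/
def St_QN : Prop :=
  ∀ (j C J : ℕ) (h : ℕ → ℕ), 1 ≤ J → (∀ n, 1 ≤ h n) → (∀ n, h n ≤ qq j n) →
    ∃ n, C * h (n + J) < n.choose (n / 2) * h (n / 2) * h (n - n / 2)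

/-- Existence of relations. -/
def St_REL : Prop :=
  ∀ (k : Type u) [Field k] (F : Type u) [LieRing F] [LieAlgebra k F] (f0 : Tr →₀ k),
    Base k F f0 → ∀ cs : List Tr, (∀ c ∈ cs, c.lv.Nodup ∧ 0 ∈ c.lv ∧ 1 ∈ c.lv) →
    ∃ r : Rel k, r.Good F ∧ ∀ c ∈ cs, ∀ u v : ℕ → F, (r.sum fun e e' =>
      c.ev br (Function.update (Function.update v 0 (e.ev br u)) 1 (e'.ev br u))) = 0

/-- Identities on deep arguments are identities. -/
def St_DN : Prop :=
  ∀ (k : Type u) [Field k] (F : Type u) [LieRing F] [LieAlgebra k F] (f0 : Tr →₀ k),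
    Base k F f0 → ∀ (l : List ℕ) (f : Tr →₀ k) (M : ℕ), l.Nodup → f ∈ PL k l →
    (∀ u : ℕ → F, (∀ i, u i ∈ LieAlgebra.derivedSeries k F M) → pev k br u f = 0) → Idt k F f

/-- Bounded length of products of deep multiplications. -/
def St_BL : Prop :=
  ∀ (k : Type u) [Field k] [CharZero k] [IsAlgClosed k] [Uncountable k]
    (F : Type u) [LieRing F] [LieAlgebra k F] (f0 : Tr →₀ k), Base k F f0 →
    ∃ N n : ℕ, ∀ ys : List F, (∀ y ∈ ys, y ∈ LieAlgebra.derivedSeries k F (ys.length * n)) →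
      rop k ys ∈ Submodule.span k {a | ∃ l : List F, l.length < N ∧ a = rop k l}

/-- A relation killed by all monomials. -/
def St_KR : Prop :=
  ∀ (k : Type u) [Field k] [CharZero k] [IsAlgClosed k] [Uncountable k]
    (F : Type u) [LieRing F] [LieAlgebra k F] (f0 : Tr →₀ k), Base k F f0 →
    ∃ r : Rel k, r.Good F ∧ ∀ (g : Tr) (a b : ℕ), g.lv.Nodup → a ∈ g.lv → b ∈ g.lv → a ≠ b →
      ∀ u v : ℕ → F, (r.sum fun e e' =>
        g.ev br (Function.update (Function.update v a (e.ev br u)) b (e'.ev br u))) = 0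

/-- The strong Engel condition. -/
def SE (k : Type u) [Field k] (F : Type u) [LieRing F] [LieAlgebra k F] (N : ℕ) : Prop :=
  ∀ (g : Tr) (w : Fin N ↪ ℕ), g.lv.Nodup → (∀ i, w i ∈ g.lv) → ∀ u : ℕ → F,
    ∑ τ : Equiv.Perm (Fin N), g.ev br (fun i => u (τ.viaEmbedding w i)) = 0

def St_SE : Prop :=
  ∀ (k : Type u) [Field k] [CharZero k] [IsAlgClosed k] [Uncountable k]
    (F : Type u) [LieRing F] [LieAlgebra k F] (f0 : Tr →₀ k), Base k F f0 → ∃ N, SE k F N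

/-- Strong Engel algebras are solvable. -/
def St_FIN : Prop :=
  ∀ (k : Type u) [Field k] [CharZero k] (F : Type u) [LieRing F] [LieAlgebra k F] (N : ℕ),
    SE k F N → ∃ n, ∀ u : ℕ → F, (dt n id).ev br u = 0

/-- Homogeneous components of identities. -/
def St_HS : Prop :=
  ∀ (k : Type u) [Field k] [Infinite k] (L : Type u) [LieRing L] [LieAlgebra k L]
    (g : Tr →₀ k), Idt k L g → ∀ (d : List ℕ) [DecidablePred fun b : Tr => b.lv.Perm d],
      Idt k L (g.filter fun b => b.lv.Perm d)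

/-- Existence of a minimal non solvable variety. -/
def St_ZORN : Prop :=
  ∀ (k : Type u) [Field k] [CharZero k] (f0 : Tr →₀ k), NoSl k f0 →
    (∀ n, ∃ (L : Type u) (_ : LieRing L) (_ : LieAlgebra k L), Idt k L f0 ∧
      ¬ ∀ u : ℕ → L, (dt n id).ev br u = 0) →
    ∃ (F : Type u) (_ : LieRing F) (_ : LieAlgebra k F), Base k F f0

attribute [local instance 100] LieRing.ofAssociativeRing in
/-- Linearization. -/
def St_LIN : Prop :=
  ∀ (k : Type u) [Field k] [CharZero k] (T : Set (FreeLieAlgebra k ℕ)),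
    ¬ Sat k T (LieAlgebra.SpecialLinear.sl (Fin 2) k) →
    ∃ f0 : Tr →₀ k, NoSl k f0 ∧
      ∀ (L : Type u) [LieRing L] [LieAlgebra k L], Sat k T L → Idt k L f0

/-- The theorem over a large field. -/
def St_BIG : Prop :=
  ∀ (k : Type u) [Field k] [CharZero k] [IsAlgClosed k] [Uncountable k] (f0 : Tr →₀ k),
    NoSl k f0 → ∃ n, ∀ (L : Type u) [LieRing L] [LieAlgebra k L], Idt k L f0 →
      ∀ u : ℕ → L, (dt n id).ev br u = 0

/-- The theorem over any field. -/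
def St_ALL : Prop :=
  ∀ (k : Type u) [Field k] [CharZero k] (f0 : Tr →₀ k),
    NoSl k f0 → ∃ n, ∀ (L : Type u) [LieRing L] [LieAlgebra k L], Idt k L f0 →
      ∀ u : ℕ → L, (dt n id).ev br u = 0

theorem ev_dt {L : Type*} [LieRing L] (n : ℕ) (s : ℕ → ℕ) (u : ℕ → L) :
    (dt n s).ev br u = dw n (fun i => u (s i)) := by
  induction n generalizing s with
  | zero => rfl
  | succ n ih => simp only [dt, Tr.ev, dw, ih, br]

theorem f3_of (hE : St_E.{u}) (h1 : St_PRE1.{u}) (h2 : St_PRE2.{u}) (h3 : St_PRE3.{u})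
    (hG : St_GERM.{u}) (hA : St_AX.{u}) (hS : St_SB.{u}) (hC : St_CORE.{u}) : St_F3.{u} := by
  intro k _ _ _ _ F _ _ f0 hB r hr R _ _ ξ0 hξ
  by_contra hne
  push Not at hne
  obtain ⟨E, _, _, w, hw, hR⟩ := hE k
  obtain ⟨htp, hrel⟩ := h1 k F E w hw
  obtain ⟨hsca, hsv⟩ := hrel r hr R ξ0 hξ
  obtain ⟨C, _, _, Ξ', K, hK, hz⟩ := h3 k r _ (mE k F E) (LinearMap.lTensor F w.toLinearMap)
    htp.inv htp.mul _ _ hsca (LinearMap.rTensor E ξ0)
    (by
      intro a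
      induction a using TensorProduct.induction_on with
      | zero => simp
      | tmul a b => simp
      | add a b ha hb => simp only [map_add, ha, hb])
    hsv (fun n => h2 k F E w hw hR R ξ0 n (n + 2) (fun N => hne n N))
  obtain ⟨L, _, _, m', ω', ξ, htp', hp, hξ0, hs⟩ := hG k F r _ _ _ htp C Ξ' K hK hz
  obtain ⟨hax, hev⟩ := hA k F L m' ω' htp'
  obtain ⟨l0, hl0, hf0, -⟩ := hB.nosl
  exact hC k F f0 hB r hr L m' ω' htp'
    (hS k f0 hB.nosl L m' ω' hax (hev l0 f0 hl0 hf0 hB.pi) hp) ξ hξ0 hs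

theorem big_of (hZ : St_ZORN.{u}) (hS : St_SE.{u}) (hF : St_FIN.{u}) : St_BIG.{u} := by
  intro k _ _ _ _ f0 hf
  by_contra hne
  obtain ⟨F, _, _, hB⟩ := hZ k f0 hf (by
    intro n
    by_contra h
    refine hne ⟨n, fun L _ _ hL => ?_⟩
    by_contra h'
    exact h ⟨L, _, _, hL, h'⟩)
  obtain ⟨N, hN⟩ := hS k F f0 hB
  obtain ⟨n, hn⟩ := hF k F N hN
  exact hB.nsol n hn

attribute [local instance 100] LieRing.ofAssociativeRing in
theorem final_of (hL : St_LIN.{u}) (hA : St_ALL.{u}) (k : Type u) [Field k] [CharZero k]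
    (T : Set (FreeLieAlgebra k ℕ)) (hT : ¬ Sat k T (LieAlgebra.SpecialLinear.sl (Fin 2) k)) :
    SolvableVariety k T := by
  obtain ⟨f0, hf, h⟩ := hL k T hT
  obtain ⟨n, hn⟩ := hA k f0 hf
  refine ⟨n, fun L _ _ hS => derived_eq_bot n fun a => ?_⟩
  have := hn L (h L hS) a
  rwa [ev_dt] at this

end Pool.Agent.Lib.EB
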