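import Pool.Agent.Lib.MP_eb02d8_al.Shift

/-!
Definitions for the proof that a variety of Lie algebras omitting sl2 is solvable.
-/

namespace Pool.Agent.Lib.EB

open TensorProduct

universe u

/-- Bracket monomials. -/
inductive Tr where
  | lf : ℕ → Tr
  | nd : Tr → Tr → Tr

namespace Tr

/-- The list of leaves. -/
def lv : Tr → List ℕ
  | lf i => [i]
  | nd a b => a.lv ++ b.lv

/-- Evaluation with a binary product. -/
def ev {X : Type*} (m : X → X → X) (u : ℕ → X) : Tr → X
  | lf i => u i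
  | nd a b => m (a.ev m u) (b.ev m u)

/-- Substitution of monomials for variables. -/
def sub (g : ℕ → Tr) : Tr → Tr
  | lf i => g i
  | nd a b => nd (a.sub g) (b.sub g)

end Tr

/-- The derived monomials. -/
def dt : ℕ → (ℕ → ℕ) → Tr
  | 0, s => Tr.lf (s 0)
  | n + 1, s => Tr.nd (dt n fun i => s (2 * i)) (dt n fun i => s (2 * i + 1))

/-- Left normed monomials. -/
def lw (i : ℕ) (w : List ℕ) : Tr := w.foldl (fun t j => Tr.nd t (Tr.lf j)) (Tr.lf i)

/-- The bracket as a function. -/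
def br {L : Type*} [LieRing L] (a b : L) : L := ⁅a, b⁆

/-- Sign of a list: parity of the inversions among odd entries. -/
def sg (k : Type*) [Field k] (ε : ℕ → Bool) : List ℕ → k
  | [] => 1
  | a :: l => (l.map fun b => if b < a ∧ ε a = true ∧ ε b = true then (-1 : k) else 1).prod *
      sg k ε l

section
variable (k : Type u) [Field k]

/-- Multilinear polynomials on the list of variables `l`. -/
def PL (l : List ℕ) : Submodule k (Tr →₀ k) := Finsupp.supported k k {b | b.lv.Perm l}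

/-- Evaluation of a polynomial. -/
noncomputable def pev {X : Type*} [AddCommGroup X] [Module k X] (m : X → X → X) (u : ℕ → X) :
    (Tr →₀ k) →ₗ[k] X := Finsupp.linearCombination k (fun b : Tr => b.ev m u)

/-- Signed evaluation of a polynomial. -/
noncomputable def spev {X : Type*} [AddCommGroup X] [Module k X] (ε : ℕ → Bool) (m : X → X → X)
    (u : ℕ → X) : (Tr →₀ k) →ₗ[k] X :=
  Finsupp.linearCombination k (fun b : Tr => sg k ε b.lv • b.ev m u)

/-- `f` is an identity of the Lie algebra `L`. -/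
def Idt (L : Type*) [LieRing L] [LieAlgebra k L] (f : Tr →₀ k) : Prop :=
  ∀ u : ℕ → L, pev k br u f = 0

attribute [local instance 100] LieRing.ofAssociativeRing in
/-- `f0` is multilinear and is not an identity of sl2. -/
def NoSl (f0 : Tr →₀ k) : Prop :=
  ∃ l0 : List ℕ, l0.Nodup ∧ f0 ∈ PL k l0 ∧
    ¬ Idt k (LieAlgebra.SpecialLinear.sl (Fin 2) k) f0

/-- Multilinear in the variables of `S` and depending only on them. -/
structure ML {X W : Type*} [AddCommGroup X] [Module k X] [AddCommGroup W] [Module k W]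
    (S : Finset ℕ) (h : (ℕ → X) → W) : Prop where
  add : ∀ s ∈ S, ∀ (u : ℕ → X) (x y : X),
    h (Function.update u s (x + y)) = h (Function.update u s x) + h (Function.update u s y)
  smul : ∀ s ∈ S, ∀ (u : ℕ → X) (c : k) (x : X),
    h (Function.update u s (c • x)) = c • h (Function.update u s x)
  dep : ∀ u u' : ℕ → X, (∀ s ∈ S, u s = u' s) → h u = h u'

/-- Decomposable forms. -/
def Dec (X : Type*) [AddCommGroup X] [Module k X] (S : Finset ℕ) :
    Submodule k ((ℕ → X) → k) :=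
  Submodule.span k {γ | ∃ P ⊆ S, P.Nonempty ∧ P ≠ S ∧ ∃ α β : (ℕ → X) → k,
    ML k P α ∧ ML k (S \ P) β ∧ γ = fun u => α u * β u}

/-- No nonzero functional gives a form of finite rank. -/
def Dag {L : Type*} [AddCommGroup L] [Module k L] (m : L →ₗ[k] L →ₗ[k] L) : Prop :=
  ∀ ψ : L →ₗ[k] k, (∃ (n : ℕ) (α β : Fin n → L →ₗ[k] k),
    ∀ a b, ψ (m a b) = ∑ i, α i a * β i b) → ψ = 0

/-- The properties of the relatively free algebra of a minimal non solvable variety. -/
structure Base (F : Type u) [LieRing F] [LieAlgebra k F] (f0 : Tr →₀ k) : Prop where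
  nosl : NoSl k f0
  pi : Idt k F f0
  nsol : ∀ n, ¬ ∀ u : ℕ → F, (dt n id).ev br u = 0
  min : ∀ (l : List ℕ) (f : Tr →₀ k), l.Nodup → f ∈ PL k l → ¬ Idt k F f →
    ∃ n, ∃ h ∈ Submodule.span k {h | ∃ g : ℕ → Tr,
      (l.flatMap fun j => (g j).lv).Perm (dt n id).lv ∧ h = Finsupp.mapDomain (Tr.sub g) f},
      Idt k F (Finsupp.single (dt n id) 1 - h)
  lift : ∃ x : ℕ → F, LieSubalgebra.lieSpan k F (Set.range x) = ⊤ ∧
    ∀ a : ℕ → F, ∃ χ : F →ₗ⁅k⁆ F, ∀ i, χ (x i) = a i

/-- Data of a quadratic relation. -/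
structure Rel where
  S : Finset ℕ
  p : ℕ
  q : ℕ
  i : ℕ
  B : Finset ℕ → Finset Tr
  B' : Finset ℕ → Finset Tr
  κ : Finset ℕ → Tr → Tr → k

variable {k}

/-- Evaluation of a relation on a function of two monomials. -/
def Rel.sum (r : Rel k) {W : Type*} [AddCommGroup W] [Module k W] (φ : Tr → Tr → W) : W :=
  ∑ T ∈ r.S.powersetCard r.i, ∑ e ∈ r.B T, ∑ e' ∈ r.B' T, r.κ T e e' • φ e e'

/-- A finite set of monomials is linearly independent as functions on `F`. -/
def Indep (k : Type u) [Field k] (F : Type u) [LieRing F] [LieAlgebra k F] (B : Finset Tr) :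
    Prop :=
  ∀ c : Tr → k, (∀ u : ℕ → F, ∑ e ∈ B, c e • e.ev br u = 0) → ∀ e ∈ B, c e = 0

/-- Nondegenerate relation data. -/
structure Rel.Good (r : Rel k) (F : Type u) [LieRing F] [LieAlgebra k F] : Prop where
  hp : r.p ∉ r.S
  hq : r.q ∉ r.S
  hpq : r.p ≠ r.q
  lvB : ∀ T ∈ r.S.powersetCard r.i, ∀ e ∈ r.B T, e.lv.Perm (r.p :: T.toList)
  lvB' : ∀ T ∈ r.S.powersetCard r.i, ∀ e ∈ r.B' T, e.lv.Perm (r.q :: (r.S \ T).toList)
  ind : ∀ T ∈ r.S.powersetCard r.i, Indep k F (r.B T)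
  ind' : ∀ T ∈ r.S.powersetCard r.i, Indep k F (r.B' T)
  ne : ∃ T ∈ r.S.powersetCard r.i, ∃ e ∈ r.B T, ∃ e' ∈ r.B' T, r.κ T e e' ≠ 0

/-- The assignment `u` is homogeneous of parity pattern `ε`. -/
def Hom {A : Type*} [AddCommGroup A] [Module k A] (ω : A →ₗ[k] A) (ε : ℕ → Bool) (u : ℕ → A) :
    Prop := ∀ i, ω (u i) = if ε i = true then - u i else u i

/-- A graded algebra satisfying the signed identities of `F`. -/
structure TP1 (F : Type u) [LieRing F] [LieAlgebra k F] {A : Type u} [AddCommGroup A]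
    [Module k A] (m : A →ₗ[k] A →ₗ[k] A) (ω : A →ₗ[k] A) : Prop where
  inv : ∀ a, ω (ω a) = a
  mul : ∀ a b, ω (m a b) = m (ω a) (ω b)
  tp : ∀ (l : List ℕ) (f : Tr →₀ k), l.Nodup → f ∈ PL k l → Idt k F f →
    ∀ ε u, Hom ω ε u → spev k ε (fun a b => m a b) u f = 0

/-- The signed value of a relation under a linear map to a ring. -/
noncomputable def Rel.sval (r : Rel k) {A : Type u} [AddCommGroup A] [Module k A]
    (m : A →ₗ[k] A →ₗ[k] A) {C : Type u} [Ring C] [Algebra k C] (ξ : A →ₗ[k] C)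
    (ε : ℕ → Bool) (u : ℕ → A) : C :=
  r.sum fun e e' => sg k ε (e.lv ++ e'.lv) •
    (ξ (e.ev (fun a b => m a b) u) * ξ (e'.ev (fun a b => m a b) u))

/-- Axioms of a Lie superalgebra, with the parity involution `ω`. -/
structure SuperAx {L : Type u} [AddCommGroup L] [Module k L] (m : L →ₗ[k] L →ₗ[k] L)
    (ω : L →ₗ[k] L) : Prop where
  inv : ∀ a, ω (ω a) = a
  mul : ∀ a b, ω (m a b) = m (ω a) (ω b)
  skew : ∀ a b, ω a = a → m a b = - m b a
  symm : ∀ a b, ω a = - a → ω b = - b → m a b = m b a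
  jacE : ∀ a b c, ω a = a → m a (m b c) = m (m a b) c + m b (m a c)
  jacO : ∀ a b c, ω a = - a → ω b = - b → m a (m b c) = m (m a b) c - m b (m a c)

/-- The product spans the algebra. -/
def Perfect {L : Type u} [AddCommGroup L] [Module k L] (m : L →ₗ[k] L →ₗ[k] L) : Prop :=
  Submodule.span k {c | ∃ a b, c = m a b} = ⊤

/-- Supercommutative algebras, with the parity automorphism `w`. -/
structure SCA {E : Type u} [Ring E] [Algebra k E] (w : E →ₐ[k] E) : Prop where
  inv : ∀ x, w (w x) = x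
  even : ∀ x y, w x = x → x * y = y * x
  odd : ∀ x y, w x = - x → w y = - y → x * y = - (y * x)

/-- Enough square zero homogeneous elements. -/
def Rich {E : Type u} [Ring E] [Algebra k E] (w : E →ₐ[k] E) : Prop :=
  ∀ ε : ℕ → Bool, ∃ θ : ℕ → ℕ → E,
    (∀ j i, w (θ j i) = if ε j = true then - θ j i else θ j i) ∧
    (∀ j i, θ j i * θ j i = 0) ∧
    ∀ l : List (ℕ × ℕ), l.Nodup → (l.map fun p => θ p.1 p.2).prod ≠ 0

/-- The bracket as a bilinear map. -/
def brL (k : Type u) [Field k] (F : Type u) [LieRing F] [LieAlgebra k F] : F →ₗ[k] F →ₗ[k] F :=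
  LinearMap.mk₂ k (fun a b => ⁅a, b⁆) add_lie smul_lie lie_add lie_smul

/-- The product on `F ⊗ E`. -/
noncomputable def mE (k : Type u) [Field k] (F : Type u) [LieRing F] [LieAlgebra k F]
    (E : Type u) [Ring E] [Algebra k E] :
    F ⊗[k] E →ₗ[k] F ⊗[k] E →ₗ[k] F ⊗[k] E :=
  TensorProduct.map₂ (brL k F) (LinearMap.mul k E)

/-- Dimension of the space of left normed multilinear operations. -/
noncomputable def hdim (k : Type u) [Field k] (F : Type u) [LieRing F] [LieAlgebra k F]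
    (n : ℕ) : ℕ :=
  Module.finrank k (Submodule.span k
    {φ : (ℕ → F) → F | ∃ w : List ℕ, w.Perm (List.range' 1 n) ∧ φ = fun u => (lw 0 w).ev br u})

/-- One step of the recursion for the growth bound. -/
def qstep (g : ℕ → ℕ) : ℕ → ℕ
  | 0 => 1
  | n + 1 => ∑ i : Fin (n + 1), n.choose i * qstep g i * g (n - i)
decreasing_by exact i.2

/-- The growth bound. -/
def qq : ℕ → ℕ → ℕ
  | 0 => fun _ => 0
  | j + 1 => qstep (qq j)

/-- Right multiplication by a list of elements. -/
def rop (k : Type u) [Field k] {F : Type u} [LieRing F] [LieAlgebra k F] :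
    List F → F →ₗ[k] F
  | [] => LinearMap.id
  | y :: l => rop k l ∘ₗ (brL k F).flip y

end

end Pool.Agent.Lib.EB

theorem Pool.Agent.Lib.EB.Defs.rlz0 : True := by
  have := @Pool.Agent.Lib.EB.Tr.lv.eq_def
  trivial

theorem Pool.Agent.Lib.EB.Defs.rlz1 : True := by
  have := @Pool.Agent.Lib.EB.Tr.sub.eq_def
  trivial

theorem Pool.Agent.Lib.EB.Defs.rlz2 : True := by
  have := @Pool.Agent.Lib.EB.sg.eq_def.{0}
  trivial

theorem Pool.Agent.Lib.EB.Defs.rlz3 : True := by
  have := @Pool.Agent.Lib.EB.rop.eq_def.{0}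
  trivial
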