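import Pool.Agent.Lib.EB.Blue

namespace Pool.Agent.Lib.EB

open Pool.Agent.Lib.MP_eb02d8_al

universe u v

/-- A solvable variety has bounded derived length in every universe. -/
theorem any_univ (k : Type u) [Field k] (T : Set (FreeLieAlgebra k ℕ))
    (h : SolvableVariety k T) : ∃ n : ℕ, ∀ (L : Type v) [LieRing L] [LieAlgebra k L],
      Sat k T L → LieAlgebra.derivedSeries k L n = ⊥ := by
  obtain ⟨n, hn⟩ := h
  refine ⟨n, fun L _ _ hL => derived_eq_bot n fun a => ?_⟩
  let φ : FreeLieAlgebra k ℕ →ₗ⁅k⁆ L := FreeLieAlgebra.lift k a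
  let ι : (FreeLieAlgebra k ℕ ⧸ φ.ker) →ₗ⁅k⁆ L :=
    φ.range.incl.comp φ.quotKerEquivRange.toLieHom
  have hι : Function.Injective ι :=
    Subtype.val_injective.comp φ.quotKerEquivRange.injective
  have hQ : Sat k T (FreeLieAlgebra k ℕ ⧸ φ.ker) := by
    intro f hf b
    apply hι
    rw [hom_lift, map_zero]
    exact hL f hf _
  have h1 := dw_mem (k := k) n fun i =>
    (LieSubmodule.Quotient.mk (FreeLieAlgebra.of k i) : FreeLieAlgebra k ℕ ⧸ φ.ker)
  rw [hn _ hQ, LieSubmodule.mem_bot] at h1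
  have h2 := congrArg ι h1
  rw [hom_dw, map_zero] at h2
  have e : (fun i => ι (LieSubmodule.Quotient.mk (FreeLieAlgebra.of k i))) = a := by
    funext i
    exact FreeLieAlgebra.lift_of_apply a i
  rwa [e] at h2

end Pool.Agent.Lib.EB
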