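import Pool.Agent.Lib.EB.B_ALL
import Pool.Agent.Lib.EB.B_AX
import Pool.Agent.Lib.EB.B_BL
import Pool.Agent.Lib.EB.B_C1
import Pool.Agent.Lib.EB.B_CORE
import Pool.Agent.Lib.EB.B_DN
import Pool.Agent.Lib.EB.B_DS
import Pool.Agent.Lib.EB.B_E
import Pool.Agent.Lib.EB.B_F3U
import Pool.Agent.Lib.EB.B_FIN
import Pool.Agent.Lib.EB.B_GERM
import Pool.Agent.Lib.EB.B_GU
import Pool.Agent.Lib.EB.B_HD
import Pool.Agent.Lib.EB.B_HS
import Pool.Agent.Lib.EB.B_KR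
import Pool.Agent.Lib.EB.B_LIN
import Pool.Agent.Lib.EB.B_LL
import Pool.Agent.Lib.EB.B_LN
import Pool.Agent.Lib.EB.B_NUL
import Pool.Agent.Lib.EB.B_PP
import Pool.Agent.Lib.EB.B_PRE1
import Pool.Agent.Lib.EB.B_PRE2
import Pool.Agent.Lib.EB.B_PRE3
import Pool.Agent.Lib.EB.B_PRIME
import Pool.Agent.Lib.EB.B_QN
import Pool.Agent.Lib.EB.B_REL
import Pool.Agent.Lib.EB.B_SB
import Pool.Agent.Lib.EB.B_SE
import Pool.Agent.Lib.EB.B_SY
import Pool.Agent.Lib.EB.B_Y0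
import Pool.Agent.Lib.EB.B_ZORN
import Pool.Agent.Lib.EB.Univ

namespace Pool.Agent.Lib.EB

universe u

theorem f3_holds : St_F3.{u} :=
  f3_of stE stPRE1 (stPRE2 (stSY stY0)) stPRE3 (stGERM stNUL) stAX
    (stSB (stLL stC1) (stBP stC1)) (stCORE (stPRIME stDS (stPP stDS)))

theorem rel_holds : St_REL.{u} := stREL (stHD stLN) (stGU stLN) stQN

theorem se_holds : St_SE.{u} :=
  stSE (stKR rel_holds (stBL rel_holds (stF3U f3_holds)) stDN) (stF3U f3_holds) stDN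

theorem all_holds : St_ALL.{u} :=
  stALL (big_of (stZORN stHS) se_holds (stFIN (stSY stY0)))

end Pool.Agent.Lib.EB
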