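import Pool.Agent.Lib.EB.Basic

/-!
Signs of lists and parities of monomials.
-/

namespace Pool.Agent.Lib.EB

open Function

universe u

variable {k : Type u} [Field k]

/-- Parity of a list. -/
def par (ε : ℕ → Bool) : List ℕ → Bool
  | [] => false
  | a :: l => xor (ε a) (par ε l)

theorem par_append (ε : ℕ → Bool) (l l' : List ℕ) :
    par ε (l ++ l') = xor (par ε l) (par ε l') := by
  induction l with
  | nil => simp [par]
  | cons a l ih => simp [par, ih]

theorem par_perm (ε : ℕ → Bool) {l l' : List ℕ} (h : l.Perm l') : par ε l = par ε l' := by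
  induction h with
  | nil => rfl
  | cons a _ ih => simp [par, ih]
  | swap a b l => simp only [par]; cases ε a <;> cases ε b <;> simp
  | trans _ _ h h' => exact h.trans h'

theorem par_congr {ε ε' : ℕ → Bool} {l : List ℕ} (h : ∀ i ∈ l, ε i = ε' i) :
    par ε l = par ε' l := by
  induction l with
  | nil => rfl
  | cons a l ih => simp only [par]; rw [h a (by simp), ih fun i hi => h i (by simp [hi])]

/-- The value of a monomial on homogeneous arguments is homogeneous. -/
theorem hom_ev_par {A : Type*} [AddCommGroup A] [Module k A] {m : A →ₗ[k] A →ₗ[k] A}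
    {ω : A →ₗ[k] A} (hm : ∀ a b, ω (m a b) = m (ω a) (ω b)) {ε : ℕ → Bool} {u : ℕ → A}
    (b : Tr) (hu : ∀ i ∈ b.lv, ω (u i) = if ε i = true then - u i else u i) :
    ω (b.ev (fun a b => m a b) u) = if par ε b.lv = true then - b.ev (fun a b => m a b) u
      else b.ev (fun a b => m a b) u := by
  induction b with
  | lf i => simpa [Tr.ev, Tr.lv, par] using hu i (by simp [Tr.lv])
  | nd a b ha hb =>
    simp only [Tr.ev, Tr.lv, par_append, hm]
    rw [ha fun i hi => hu i (by simp [Tr.lv, hi]), hb fun i hi => hu i (by simp [Tr.lv, hi])]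
    cases par ε a.lv <;> cases par ε b.lv <;> simp

theorem Hom.sub {A : Type*} [AddCommGroup A] [Module k A] {m : A →ₗ[k] A →ₗ[k] A}
    {ω : A →ₗ[k] A} (hm : ∀ a b, ω (m a b) = m (ω a) (ω b)) {ε : ℕ → Bool} {u : ℕ → A}
    (hu : Hom ω ε u) (g : ℕ → Tr) :
    Hom ω (fun j => par ε (g j).lv) (fun j => (g j).ev (fun a b => m a b) u) :=
  fun j => hom_ev_par hm (g j) fun i _ => hu i

/-- The factor attached to a pair. -/
def sf (k : Type u) [Field k] (ε : ℕ → Bool) (a b : ℕ) : k :=
  if b < a ∧ ε a = true ∧ ε b = true then -1 else 1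

theorem sg_nil (ε : ℕ → Bool) : sg k ε [] = 1 := rfl

theorem sg_cons (ε : ℕ → Bool) (a : ℕ) (l : List ℕ) :
    sg k ε (a :: l) = (l.map (sf k ε a)).prod * sg k ε l := rfl

theorem sf_mul_self (ε : ℕ → Bool) (a b : ℕ) : sf k ε a b * sf k ε a b = 1 := by
  unfold sf; split_ifs <;> simp

theorem prod_sf_mul_self (ε : ℕ → Bool) (a : ℕ) (l : List ℕ) :
    (l.map (sf k ε a)).prod * (l.map (sf k ε a)).prod = 1 := by
  induction l with
  | nil => simp
  | cons b l ih =>
    simp only [List.map_cons, List.prod_cons]
    linear_combination (sf k ε a b * sf k ε a b) * ih + sf_mul_self (k := k) ε a b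

theorem sg_mul_self (ε : ℕ → Bool) (l : List ℕ) : sg k ε l * sg k ε l = 1 := by
  induction l with
  | nil => simp [sg_nil]
  | cons a l ih =>
    rw [sg_cons]
    linear_combination (sg k ε l * sg k ε l) * prod_sf_mul_self (k := k) ε a l + ih

theorem sg_ne_zero (ε : ℕ → Bool) (l : List ℕ) : sg k ε l ≠ 0 := by
  intro h
  have := sg_mul_self (k := k) ε l
  rw [h, zero_mul] at this
  exact zero_ne_one this

theorem sg_congr {ε ε' : ℕ → Bool} {l : List ℕ} (h : ∀ i ∈ l, ε i = ε' i) :
    sg k ε l = sg k ε' l := by
  induction l with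
  | nil => rfl
  | cons a l ih =>
    rw [sg_cons, sg_cons, ih fun i hi => h i (by simp [hi])]
    congr 2
    refine List.map_congr_left fun b hb => ?_
    simp only [sf, h a (by simp), h b (by simp [hb])]

theorem sg_false (l : List ℕ) : sg k (fun _ => false) l = 1 := by
  induction l with
  | nil => rfl
  | cons a l ih =>
    rw [sg_cons, ih, mul_one]
    exact List.prod_eq_one fun x hx => by
      obtain ⟨b, -, rfl⟩ := List.mem_map.1 hx
      simp [sf]

theorem sg_swap (ε : ℕ → Bool) {a b : ℕ} (hab : a ≠ b) (l : List ℕ) :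
    sg k ε (a :: b :: l) =
      (if ε a = true ∧ ε b = true then -1 else 1) * sg k ε (b :: a :: l) := by
  simp only [sg_cons, List.map_cons, List.prod_cons]
  have : sf k ε a b = (if ε a = true ∧ ε b = true then -1 else 1) * sf k ε b a := by
    unfold sf
    rcases lt_or_gt_of_ne hab with h | h
    · have h' : ¬ b < a := by omega
      cases ε a <;> cases ε b <;> simp [h, h']
    · have h' : ¬ a < b := by omega
      cases ε a <;> cases ε b <;> simp [h, h']
  rw [this]; ring

/-- The cross factor of two lists. -/
def cross (k : Type u) [Field k] (ε : ℕ → Bool) (l l' : List ℕ) : k :=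
  (l.map fun a => (l'.map (sf k ε a)).prod).prod

theorem sg_append' (ε : ℕ → Bool) (l l' : List ℕ) :
    sg k ε (l ++ l') = cross k ε l l' * sg k ε l * sg k ε l' := by
  induction l with
  | nil => simp [cross, sg_nil]
  | cons a l ih =>
    simp only [List.cons_append, sg_cons, ih, cross, List.map_append, List.prod_append,
      List.map_cons, List.prod_cons]
    ring

theorem cross_perm (ε : ℕ → Bool) {l₁ l₂ l₁' l₂' : List ℕ} (h : l₁.Perm l₁')
    (h' : l₂.Perm l₂') : cross k ε l₁ l₂ = cross k ε l₁' l₂' := by
  unfold cross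
  rw [(h.map _).prod_eq]
  congr 1
  exact List.map_congr_left fun a _ => (h'.map _).prod_eq

theorem cross_ne_zero (ε : ℕ → Bool) (l l' : List ℕ) : cross k ε l l' ≠ 0 := by
  intro h
  have := sg_ne_zero (k := k) ε (l ++ l')
  rw [sg_append', h] at this
  simp at this

theorem sg_append (ε : ℕ → Bool) (l₁ l₂ : List ℕ) : ∃ c : k, c ≠ 0 ∧
    ∀ l l' : List ℕ, l.Perm l₁ → l'.Perm l₂ → sg k ε (l ++ l') = c * sg k ε l * sg k ε l' :=
  ⟨cross k ε l₁ l₂, cross_ne_zero ε l₁ l₂, fun l l' h h' => by
    rw [sg_append', cross_perm ε h h']⟩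

/-- The signed product of supercommuting elements does not depend on the order. -/
theorem sg_perm_prod {Λ : Type*} [Ring Λ] [Algebra k Λ] (ε : ℕ → Bool) (θ : ℕ → Λ)
    (hθ : ∀ a b, a ≠ b →
      θ a * θ b = (if ε a = true ∧ ε b = true then (-1 : k) else 1) • (θ b * θ a))
    {l l' : List ℕ} (h : l.Perm l') (hl : l.Nodup) :
    sg k ε l • (l.map θ).prod = sg k ε l' • (l'.map θ).prod := by
  induction h with
  | nil => rfl
  | @cons a l l' h ih =>
    simp only [sg_cons, List.map_cons, List.prod_cons, mul_smul]
    rw [(h.map _).prod_eq, ← mul_smul_comm, ← mul_smul_comm (sg k ε l'),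
      ih (List.nodup_cons.1 hl).2]
  | swap a b l =>
    have hab : b ≠ a := by
      intro e; subst e; simp at hl
    rw [sg_swap ε hab]
    simp only [List.map_cons, List.prod_cons, ← mul_assoc]
    rw [hθ b a hab, smul_mul_assoc, smul_smul]
    congr 1
    split_ifs <;> ring
  | trans h₁ _ ih₁ ih₂ => exact (ih₁ hl).trans (ih₂ (h₁.nodup_iff.1 hl))

/-- In a supercommutative algebra homogeneous elements supercommute. -/
theorem SCA.comm {E : Type u} [Ring E] [Algebra k E] {w : E →ₐ[k] E} (hw : SCA w) {x y : E}
    {a b : Bool} (hx : w x = if a = true then - x else x)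
    (hy : w y = if b = true then - y else y) :
    x * y = (if a = true ∧ b = true then (-1 : k) else 1) • (y * x) := by
  cases a <;> cases b
  · simpa using hw.even x y (by simpa using hx)
  · simpa using hw.even x y (by simpa using hx)
  · simpa using (hw.even y x (by simpa using hy)).symm
  · simpa using hw.odd x y (by simpa using hx) (by simpa using hy)

theorem prod_sf_sf (ε : ℕ → Bool) (a : ℕ) (B : List ℕ) (ha : a ∉ B) :
    (B.map fun b => sf k ε a b * sf k ε b a).prod =
      if ε a = true ∧ par ε B = true then -1 else 1 := by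
  induction B with
  | nil => simp [par]
  | cons b B ih =>
    have hab : a ≠ b := fun e => ha (by simp [e])
    simp only [List.map_cons, List.prod_cons, par, ih fun h => ha (by simp [h])]
    unfold sf
    rcases lt_or_gt_of_ne hab with h | h
    · have h' : ¬ b < a := by omega
      by_cases h1 : ε a = true <;> by_cases h2 : ε b = true <;> by_cases h3 : par ε B = true <;>
        simp [h, h', h1, h2, h3]
    · have h' : ¬ a < b := by omega
      by_cases h1 : ε a = true <;> by_cases h2 : ε b = true <;> by_cases h3 : par ε B = true <;>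
        simp [h, h', h1, h2, h3]

theorem cross_cons_right (ε : ℕ → Bool) (l : List ℕ) (a : ℕ) (l' : List ℕ) :
    cross k ε l (a :: l') = (l.map fun b => sf k ε b a).prod * cross k ε l l' := by
  simp only [cross, List.map_cons, List.prod_cons, List.prod_map_mul]

theorem cross_mul_cross (ε : ℕ → Bool) (A B : List ℕ) (h : ∀ a ∈ A, a ∉ B) :
    cross k ε A B * cross k ε B A =
      if par ε A = true ∧ par ε B = true then -1 else 1 := by
  induction A with
  | nil => simp [cross, par]
  | cons a A ih =>
    have e := ih fun b hb => h b (by simp [hb])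
    have e' := prod_sf_sf (k := k) ε a B (h a (by simp))
    rw [List.prod_map_mul] at e'
    rw [cross_cons_right]
    have : cross k ε (a :: A) B = (B.map (sf k ε a)).prod * cross k ε A B := by simp [cross]
    rw [this]
    calc _ = ((B.map (sf k ε a)).prod * (B.map fun b => sf k ε b a).prod) *
          (cross k ε A B * cross k ε B A) := by ring
      _ = _ := by
        rw [e, e']
        simp only [par]
        by_cases h1 : ε a = true <;> by_cases h2 : par ε A = true <;>
          by_cases h3 : par ε B = true <;> simp [h1, h2, h3]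

theorem cross_mul_self (ε : ℕ → Bool) (l l' : List ℕ) :
    cross k ε l l' * cross k ε l l' = 1 := by
  induction l with
  | nil => simp [cross]
  | cons a l ih =>
    have : cross k ε (a :: l) l' = (l'.map (sf k ε a)).prod * cross k ε l l' := by simp [cross]
    rw [this]
    linear_combination (cross k ε l l' * cross k ε l l') * prod_sf_mul_self (k := k) ε a l' + ih

theorem cross_append_left (ε : ℕ → Bool) (l₁ l₂ l' : List ℕ) :
    cross k ε (l₁ ++ l₂) l' = cross k ε l₁ l' * cross k ε l₂ l' := by
  simp [cross]

theorem cross_append_right (ε : ℕ → Bool) (l l₁ l₂ : List ℕ) :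
    cross k ε l (l₁ ++ l₂) = cross k ε l l₁ * cross k ε l l₂ := by
  simp only [cross, List.map_append, List.prod_append, List.prod_map_mul]

/-- Exchange of two blocks. -/
theorem sg_block_swap (ε : ℕ → Bool) (A B l : List ℕ) (h : ∀ a ∈ A, a ∉ B) :
    sg k ε (A ++ (B ++ l)) = (if par ε A = true ∧ par ε B = true then -1 else 1) *
      sg k ε (B ++ (A ++ l)) := by
  rw [← cross_mul_cross ε A B h]
  simp only [sg_append', cross_append_right]
  linear_combination (- (cross k ε A B * cross k ε A l * sg k ε A * cross k ε B l * sg k ε B *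
    sg k ε l)) * cross_mul_self (k := k) ε B A

/-- Signs under substitution of blocks. -/
theorem sg_flatMap (ε : ℕ → Bool) (G : ℕ → List ℕ) (l : List ℕ) (hl : l.Nodup)
    (hG : (l.flatMap G).Nodup) : ∃ c : k, c ≠ 0 ∧ ∀ w : List ℕ, w.Perm l →
      sg k ε (w.flatMap G) = c * sg k (fun j => par ε (G j)) w := by
  have key : ∀ {w w' : List ℕ}, w.Perm w' → w.Nodup → (w.flatMap G).Nodup →
      sg k ε (w.flatMap G) * sg k (fun j => par ε (G j)) w =
        sg k ε (w'.flatMap G) * sg k (fun j => par ε (G j)) w' := by
    intro w w' h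
    induction h with
    | nil => intros; rfl
    | @cons a w w' h ih =>
      intro h1 h2
      simp only [List.flatMap_cons, List.nodup_append] at h2
      have := ih (List.nodup_cons.1 h1).2 h2.2.1
      simp only [List.flatMap_cons, sg_append', sg_cons]
      rw [cross_perm ε (List.Perm.refl (G a)) (h.flatMap_right G), (h.map _).prod_eq]
      linear_combination (cross k ε (G a) (w'.flatMap G) * sg k ε (G a) *
        (w'.map (sf k (fun j => par ε (G j)) a)).prod) * this
    | swap a b w =>
      intro h1 h2
      have hab : b ≠ a := by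
        intro e; subst e; simp at h1
      simp only [List.flatMap_cons, List.nodup_append] at h2
      simp only [List.flatMap_cons]
      rw [sg_block_swap ε (G b) (G a) _ (fun x hx hx' => h2.2.2 x hx x (by simp [hx']) rfl),
        sg_swap _ hab]
      split_ifs <;> ring
    | trans h₁ _ ih₁ ih₂ =>
      intro h1 h2
      exact (ih₁ h1 h2).trans (ih₂ (h₁.nodup_iff.1 h1) ((h₁.flatMap_right G).nodup_iff.1 h2))
  refine ⟨sg k ε (l.flatMap G) * sg k (fun j => par ε (G j)) l,
    mul_ne_zero (sg_ne_zero _ _) (sg_ne_zero _ _), fun w hw => ?_⟩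
  rw [key hw.symm hl hG, mul_assoc, sg_mul_self, mul_one]

end Pool.Agent.Lib.EB
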